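import Mathlib

/-!
Definitions for the mixed-norm Strichartz estimate on `ℝ × 𝕋` (Fourier side).
-/

set_option autoImplicit false

namespace Pool.Agent.E8helper95

open MeasureTheory

/-- Lebesgue measure in `ξ₁` times counting measure in `ξ₂`, on `ℝ × ℤ`. -/
noncomputable def freqMeasure : Measure (ℝ × ℤ) := (volume : Measure ℝ).prod Measure.count

/-- `|ξ|²` for `ξ ∈ ℝ × ℤ`. -/
def sqNorm (ξ : ℝ × ℤ) : ℝ := ξ.1 ^ 2 + (ξ.2 : ℝ) ^ 2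

/-- the ball `|ξ - ξ₀| ≤ N` in `ℝ × ℤ`. -/
def freqBall (N : ℝ) (ξ₀ : ℝ × ℤ) : Set (ℝ × ℤ) := {ξ | sqNorm (ξ - ξ₀) ≤ N ^ 2}

/-- The operator `T_{N,ξ₀}`, with `a` in the role of the Fourier transform of the datum:
`T (t,x) = φ(t) ∫_{|ξ-ξ₀| ≤ N} e^{i x ξ₁ - i t |ξ|²} a(ξ) dξ`. -/
noncomputable def strichartzOp (φ : ℝ → ℂ) (N : ℝ) (ξ₀ : ℝ × ℤ) (a : ℝ × ℤ → ℂ) (z : ℝ × ℝ) : ℂ :=
  φ z.1 * ∫ ξ in freqBall N ξ₀,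
    Complex.exp (Complex.I * (z.2 * ξ.1 - z.1 * sqNorm ξ)) * a ξ ∂freqMeasure

end Pool.Agent.E8helper95
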