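import Mathlib

/-!
Trigonometric polynomials on the line: orthogonality over a period, and the Fejer weight.
-/

set_option autoImplicit false

namespace Pool.Agent.E8helper95

open MeasureTheory Complex Set Finset
open scoped ENNReal ComplexConjugate

/-- `ee x = exp (i x)` -/
noncomputable def ee (x : ℝ) : ℂ := Complex.exp (x * Complex.I)

lemma ee_add (x y : ℝ) : ee (x + y) = ee x * ee y := by
  unfold ee; rw [← Complex.exp_add]; congr 1; push_cast; ring

lemma ee_zero : ee 0 = 1 := by simp [ee]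

lemma ee_neg (x : ℝ) : ee (-x) = conj (ee x) := by
  unfold ee
  rw [← Complex.exp_conj]
  congr 1
  simp

lemma norm_ee (x : ℝ) : ‖ee x‖ = 1 := by
  unfold ee; exact Complex.norm_exp_ofReal_mul_I x

lemma enorm_ee (x : ℝ) : ‖ee x‖ₑ = 1 := by
  rw [← ofReal_norm, norm_ee]; simp

lemma ee_ne_zero (x : ℝ) : ee x ≠ 0 := by
  intro h
  have := norm_ee x
  rw [h] at this
  simp at this

@[fun_prop]
lemma continuous_ee : Continuous ee := by
  unfold ee; fun_prop

@[fun_prop]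
lemma measurable_ee : Measurable ee := continuous_ee.measurable

lemma ee_mul_conj (x : ℝ) : ee x * conj (ee x) = 1 := by
  rw [← ee_neg, ← ee_add]; simp [ee_zero]

lemma ee_two_pi_int (n : ℤ) : ee (n * (2 * Real.pi)) = 1 := by
  unfold ee
  have : ((n * (2 * Real.pi) : ℝ) : ℂ) * Complex.I = (n : ℂ) * (2 * (Real.pi : ℂ) * Complex.I) := by
    push_cast; ring
  rw [this]
  exact Complex.exp_int_mul_two_pi_mul_I n

lemma ee_periodic (n : ℤ) (t : ℝ) : ee (n * (t + 2 * Real.pi)) = ee (n * t) := by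
  rw [mul_add, ee_add, ee_two_pi_int, mul_one]

lemma integral_ee_int (n : ℤ) :
    ∫ t in (0:ℝ)..(2 * Real.pi), ee (n * t) = if n = 0 then ((2 * Real.pi : ℝ) : ℂ) else 0 := by
  split_ifs with h
  · subst h
    simp [ee_zero]
  · have hn : ((n : ℂ) * Complex.I) ≠ 0 := by
      apply mul_ne_zero
      · exact_mod_cast h
      · exact Complex.I_ne_zero
    have h1 : ∀ t : ℝ, ee (n * t) = Complex.exp (((n : ℂ) * Complex.I) * t) := by
      intro t; unfold ee; congr 1; push_cast; ring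
    simp_rw [h1]
    rw [integral_exp_mul_complex hn]
    have h2 : Complex.exp ((n : ℂ) * Complex.I * ((2 * Real.pi : ℝ) : ℂ)) = 1 := by
      have := ee_two_pi_int n
      rw [← this]
      unfold ee; congr 1; push_cast; ring
    rw [h2]
    simp

/-- trigonometric polynomial -/
noncomputable def tp {α : Type*} (A : Finset α) (c : α → ℂ) (ν : α → ℤ) (t : ℝ) : ℂ :=
  ∑ i ∈ A, c i * ee (ν i * t)

@[fun_prop]
lemma continuous_tp {α : Type*} (A : Finset α) (c : α → ℂ) (ν : α → ℤ) :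
    Continuous (tp A c ν) := by
  unfold tp; fun_prop

lemma tp_periodic {α : Type*} (A : Finset α) (c : α → ℂ) (ν : α → ℤ) (t : ℝ) :
    tp A c ν (t + 2 * Real.pi) = tp A c ν t := by
  unfold tp
  simp_rw [ee_periodic]

lemma integral_tp_mul_conj {α β : Type*} (A : Finset α) (c : α → ℂ) (ν : α → ℤ)
    (B : Finset β) (d : β → ℂ) (μ : β → ℤ) :
    ∫ t in (0:ℝ)..(2 * Real.pi), tp A c ν t * conj (tp B d μ t)
      = ∑ i ∈ A, ∑ j ∈ B, c i * conj (d j) *
          (if ν i = μ j then ((2 * Real.pi : ℝ) : ℂ) else 0) := by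
  have h1 : ∀ t : ℝ, tp A c ν t * conj (tp B d μ t)
      = ∑ i ∈ A, ∑ j ∈ B, c i * conj (d j) * ee (((ν i - μ j : ℤ) : ℝ) * t) := by
    intro t
    unfold tp
    rw [map_sum, Finset.sum_mul_sum]
    refine Finset.sum_congr rfl fun i _ => Finset.sum_congr rfl fun j _ => ?_
    rw [map_mul, ← ee_neg]
    have : ee (((ν i - μ j : ℤ) : ℝ) * t) = ee (ν i * t) * ee (-(μ j * t)) := by
      rw [← ee_add]; congr 1; push_cast; ring
    rw [this]; ring
  simp_rw [h1]
  rw [intervalIntegral.integral_finsetSum]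
  · refine Finset.sum_congr rfl fun i _ => ?_
    rw [intervalIntegral.integral_finsetSum]
    · refine Finset.sum_congr rfl fun j _ => ?_
      rw [intervalIntegral.integral_const_mul, integral_ee_int]
      congr 1
      simp only [sub_eq_zero]
    · intro j _
      apply Continuous.intervalIntegrable
      fun_prop
  · intro i _
    apply Continuous.intervalIntegrable
    fun_prop

lemma integral_tp_mul_conj_eq_zero {α β : Type*} (A : Finset α) (c : α → ℂ) (ν : α → ℤ)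
    (B : Finset β) (d : β → ℂ) (μ : β → ℤ) (h : ∀ i ∈ A, ∀ j ∈ B, ν i ≠ μ j) :
    ∫ t in (0:ℝ)..(2 * Real.pi), tp A c ν t * conj (tp B d μ t) = 0 := by
  rw [integral_tp_mul_conj]
  apply Finset.sum_eq_zero
  intro i hi
  apply Finset.sum_eq_zero
  intro j hj
  rw [if_neg (h i hi j hj), mul_zero]

lemma two_pi_nonneg : (0:ℝ) ≤ 2 * Real.pi := by positivity

/-- Pythagoras over a period -/
lemma pyth {ι : Type*} (I : Finset ι) (P : ι → ℝ → ℂ) (hc : ∀ i ∈ I, Continuous (P i))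
    (horth : ∀ i ∈ I, ∀ j ∈ I, i ≠ j → ∫ t in (0:ℝ)..(2 * Real.pi), P i t * conj (P j t) = 0) :
    ∫ t in (0:ℝ)..(2 * Real.pi), ‖∑ i ∈ I, P i t‖ ^ 2
      = ∑ i ∈ I, ∫ t in (0:ℝ)..(2 * Real.pi), ‖P i t‖ ^ 2 := by
  classical
  have h1 : ∀ t : ℝ, ((‖∑ i ∈ I, P i t‖ ^ 2 : ℝ) : ℂ) = ∑ i ∈ I, ∑ j ∈ I, P i t * conj (P j t) := by
    intro t
    rw [← Finset.sum_mul_sum, ← map_sum, Complex.mul_conj, Complex.normSq_eq_norm_sq]
  have h2 : ∀ (i : ι) (t : ℝ), ((‖P i t‖ ^ 2 : ℝ) : ℂ) = P i t * conj (P i t) := by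
    intro i t
    rw [Complex.mul_conj, Complex.normSq_eq_norm_sq]
  have h3 : ((∫ t in (0:ℝ)..(2 * Real.pi), ‖∑ i ∈ I, P i t‖ ^ 2 : ℝ) : ℂ)
      = ((∑ i ∈ I, ∫ t in (0:ℝ)..(2 * Real.pi), ‖P i t‖ ^ 2 : ℝ) : ℂ) := by
    push_cast [← intervalIntegral.integral_ofReal]
    have e1 : ∀ t : ℝ, ((‖∑ i ∈ I, P i t‖ : ℂ) ^ 2) = ∑ i ∈ I, ∑ j ∈ I, P i t * conj (P j t) := by
      intro t
      rw [← h1]; push_cast; rfl
    simp_rw [e1]
    rw [intervalIntegral.integral_finsetSum]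
    · refine Finset.sum_congr rfl fun i hi => ?_
      rw [intervalIntegral.integral_finsetSum]
      · rw [Finset.sum_eq_single i]
        · congr 1
          ext t
          rw [← h2]; push_cast; rfl
        · intro j hj hji
          exact horth i hi j hj (Ne.symm hji)
        · intro h; exact absurd hi h
      · intro j hj
        apply Continuous.intervalIntegrable
        exact (hc i hi).mul (Complex.continuous_conj.comp (hc j hj))
    · intro i hi
      apply Continuous.intervalIntegrable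
      apply continuous_finsetSum
      intro j hj
      exact (hc i hi).mul (Complex.continuous_conj.comp (hc j hj))
  exact_mod_cast h3

lemma lint_eq {f : ℝ → ℂ} (hf : Continuous f) (a b : ℝ) (hab : a ≤ b) (n : ℕ) :
    ∫⁻ t in Set.Ioc a b, ‖f t‖ₑ ^ n = ENNReal.ofReal (∫ t in a..b, ‖f t‖ ^ n) := by
  rw [intervalIntegral.integral_of_le hab, ofReal_integral_eq_lintegral_ofReal]
  · refine lintegral_congr fun t => ?_
    rw [ENNReal.ofReal_pow (norm_nonneg _), ofReal_norm]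
  · apply Continuous.integrableOn_Ioc
    fun_prop
  · exact Filter.Eventually.of_forall fun t => by positivity

/-- Pythagoras, with lower integrals -/
lemma pythL {ι : Type*} (I : Finset ι) (P : ι → ℝ → ℂ) (hc : ∀ i ∈ I, Continuous (P i))
    (horth : ∀ i ∈ I, ∀ j ∈ I, i ≠ j → ∫ t in (0:ℝ)..(2 * Real.pi), P i t * conj (P j t) = 0) :
    ∫⁻ t in Set.Ioc 0 (2 * Real.pi), ‖∑ i ∈ I, P i t‖ₑ ^ 2
      = ∑ i ∈ I, ∫⁻ t in Set.Ioc 0 (2 * Real.pi), ‖P i t‖ₑ ^ 2 := by
  rw [lint_eq (continuous_finsetSum _ hc) _ _ two_pi_nonneg, pyth I P hc horth,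
    ENNReal.ofReal_sum_of_nonneg]
  · refine Finset.sum_congr rfl fun i hi => ?_
    rw [lint_eq (hc i hi) _ _ two_pi_nonneg]
  · intro i _
    apply intervalIntegral.integral_nonneg two_pi_nonneg
    intro t _; positivity

/-- a shifted period carries the same integral -/
lemma lint_period {f : ℝ → ℂ} (hf : Continuous f) (hper : ∀ t, f (t + 2 * Real.pi) = f t)
    (a : ℝ) (n : ℕ) :
    ∫⁻ t in Set.Ioc a (a + 2 * Real.pi), ‖f t‖ₑ ^ n
      = ∫⁻ t in Set.Ioc 0 (2 * Real.pi), ‖f t‖ₑ ^ n := by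
  rw [lint_eq hf _ _ (by linarith [two_pi_nonneg]), lint_eq hf _ _ two_pi_nonneg]
  congr 1
  have hp : Function.Periodic (fun t => ‖f t‖ ^ n) (2 * Real.pi) := by
    intro t; simp only [hper]
  have := hp.intervalIntegral_add_eq a 0
  rw [zero_add] at this
  exact this

/-- Parseval for trigonometric polynomials with distinct frequencies -/
lemma parseval {α : Type*} (A : Finset α) (c : α → ℂ) (ν : α → ℤ)
    (h : ∀ i ∈ A, ∀ j ∈ A, i ≠ j → ν i ≠ ν j) :
    ∫⁻ t in Set.Ioc 0 (2 * Real.pi), ‖∑ i ∈ A, c i * ee (ν i * t)‖ₑ ^ 2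
      = ENNReal.ofReal (2 * Real.pi) * ∑ i ∈ A, ‖c i‖ₑ ^ 2 := by
  rw [pythL A (fun i t => c i * ee (ν i * t)) (fun i _ => by fun_prop)]
  · rw [Finset.mul_sum]
    refine Finset.sum_congr rfl fun i _ => ?_
    simp_rw [enorm_mul, enorm_ee, mul_one]
    rw [setLIntegral_const, Real.volume_Ioc, sub_zero, mul_comm]
  · intro i hi j hj hij
    have := integral_tp_mul_conj_eq_zero {i} c ν {j} c ν (by
      intro a ha b hb
      rw [Finset.mem_singleton] at ha hb
      subst ha hb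
      exact h _ hi _ hj hij)
    simpa [tp] using this

/-- the Fejer-type polynomial -/
noncomputable def DD (L : ℕ) (t : ℝ) : ℂ := ∑ h ∈ Finset.range L, (1 / (L : ℂ)) * ee (h * t)

@[fun_prop]
lemma continuous_DD (L : ℕ) : Continuous (DD L) := by
  unfold DD; fun_prop

@[fun_prop]
lemma measurable_DD (L : ℕ) : Measurable (DD L) := (continuous_DD L).measurable

lemma DD_periodic (L : ℕ) (t : ℝ) : DD L (t + 2 * Real.pi) = DD L t := by
  unfold DD
  refine Finset.sum_congr rfl fun h _ => ?_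
  have := ee_periodic (h : ℤ) t
  push_cast at this
  rw [this]

/-- the weight is at least `1/4` near `0` -/
lemma DD_lower (L : ℕ) (hL : 1 ≤ L) (r : ℝ) (h0 : 0 ≤ r) (h1 : r * L ≤ 1) :
    1 ≤ 4 * ‖DD L r‖ₑ ^ 2 := by
  have hLr : (0:ℝ) < L := by exact_mod_cast hL
  have hre : (1:ℝ) / 2 ≤ (DD L r).re := by
    unfold DD
    rw [Complex.re_sum]
    have hterm : ∀ h ∈ Finset.range L, (1 / (L:ℝ)) * (1 / 2) ≤ ((1 / (L : ℂ)) * ee (h * r)).re := by
      intro h hh
      have hh' : (h:ℝ) ≤ L := by exact_mod_cast (Finset.mem_range.1 hh).le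
      have e1 : ((1 / (L : ℂ)) * ee (h * r)).re = (1 / (L:ℝ)) * Real.cos (h * r) := by
        have : (1 / (L : ℂ)) = ((1 / (L:ℝ) : ℝ) : ℂ) := by push_cast; rfl
        rw [this, Complex.re_ofReal_mul]
        congr 1
        unfold ee
        rw [Complex.exp_ofReal_mul_I_re]
      rw [e1]
      apply mul_le_mul_of_nonneg_left _ (by positivity)
      have hx0 : 0 ≤ (h:ℝ) * r := by positivity
      have hx1 : (h:ℝ) * r ≤ 1 := by nlinarith
      have := Real.one_sub_sq_div_two_le_cos (x := (h:ℝ) * r)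
      nlinarith
    have := Finset.sum_le_sum hterm
    rw [Finset.sum_const, Finset.card_range, nsmul_eq_mul] at this
    have e2 : (L:ℝ) * (1 / (L:ℝ) * (1 / 2)) = 1 / 2 := by field_simp
    linarith
  have hn : (1:ℝ) / 2 ≤ ‖DD L r‖ := hre.trans (Complex.re_le_norm _)
  have h4 : (1:ℝ) ≤ 4 * ‖DD L r‖ ^ 2 := by nlinarith
  have : ENNReal.ofReal 1 ≤ ENNReal.ofReal (4 * ‖DD L r‖ ^ 2) := ENNReal.ofReal_le_ofReal h4
  rw [ENNReal.ofReal_one, ENNReal.ofReal_mul (by norm_num), ENNReal.ofReal_pow (norm_nonneg _),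
    ofReal_norm] at this
  simpa using this

/-- total mass of the weight -/
lemma DD_mass (L : ℕ) (hL : 1 ≤ L) :
    ∫⁻ t in Set.Ioc 0 (2 * Real.pi), ‖DD L t‖ₑ ^ 2 = ENNReal.ofReal (2 * Real.pi) / L := by
  have h1 := parseval (Finset.range L) (fun _ => (1 / (L : ℂ))) (fun h => (h : ℤ)) (by
    intro i _ j _ hij
    simpa using hij)
  unfold DD
  push_cast at h1
  rw [h1, Finset.sum_const, Finset.card_range, nsmul_eq_mul]
  have hL0 : (L : ℝ≥0∞) ≠ 0 := by
    simp; omega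
  have hLt : (L : ℝ≥0∞) ≠ ⊤ := ENNReal.natCast_ne_top L
  have e1 : ‖(1 / (L : ℂ))‖ₑ = (L : ℝ≥0∞)⁻¹ := by
    rw [one_div, enorm_inv (by simpa using (by omega : L ≠ 0))]
    congr 1
    rw [← ofReal_norm]
    simp
  rw [e1, sq, ← mul_assoc (L : ℝ≥0∞), ENNReal.mul_inv_cancel hL0 hLt, one_mul, div_eq_mul_inv]

end Pool.Agent.E8helper95
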