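import Pool.Agent.E8helper95.F9

/-!
The diagonal part.
-/

set_option autoImplicit false

namespace Pool.Agent.E8helper95

open MeasureTheory Complex Set Finset
open scoped ENNReal ComplexConjugate Nat

lemma al_L2 (S : Finset ℤ) (ω : ℤ → ℤ) (c : ℤ → ℂ)
    (hdist : ∀ k ∈ S, ∀ k' ∈ S, k ≠ k' → ω k ≠ ω k') :
    ∫⁻ t in Set.Ioc 0 (2 * Real.pi), ‖al S ω c t‖ₑ ^ 2
      = ENNReal.ofReal (2 * Real.pi) * ∑ k ∈ S, ‖c k‖ₑ ^ 2 := by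
  have h := parseval S c (fun k => -ω k) (by
    intro i hi j hj hij
    simpa using hdist i hi j hj hij)
  exact h

lemma pow_three_sr (x : ℝ≥0∞) : x ^ 3 = sr (x ^ 2) * sr (x ^ 4) := by
  rw [sr_sq, show x ^ 4 = (x ^ 2) ^ 2 by ring, sr_sq]; ring

lemma rpow_three_half' (x : ℝ≥0∞) : x ^ (3 / 2 : ℝ) = sr x * x := by
  rw [rpow_three_half, sr_sq]

lemma al_L3 (S : Finset ℤ) (ω : ℤ → ℤ) (A : ℝ≥0∞) (hA : L4 S ω A) (c : ℤ → ℂ)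
    (hdist : ∀ k ∈ S, ∀ k' ∈ S, k ≠ k' → ω k ≠ ω k') :
    ∫⁻ t in Set.Ioc 0 (2 * Real.pi), ‖al S ω c t‖ₑ ^ 3
      ≤ sr (ENNReal.ofReal (2 * Real.pi)) * sr A * (sr (∑ k ∈ S, ‖c k‖ₑ ^ 2) * ∑ k ∈ S, ‖c k‖ₑ ^ 2) := by
  simp_rw [pow_three_sr]
  refine (CSs _ (by fun_prop) (by fun_prop)).trans ?_
  rw [al_L2 S ω c hdist]
  refine (mul_le_mul' le_rfl (sr_mono (hA c))).trans_eq ?_
  rw [sr_mul, sr_mul, sr_sq]
  ring

lemma diag (l : ℤ) (S : Finset ℤ) (ω : ℤ → ℤ) (A : ℝ≥0∞) (hA : L4 S ω A)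
    (hdist : ∀ k ∈ S, ∀ k' ∈ S, k ≠ k' → ω k ≠ ω k')
    (a : ℤ → ℤ → ℝ → ℂ) (ha : ∀ l k, MemLp (a l k) 2 mu1)
    (T : ℝ) (n : ℕ) (hn : 2 * T ≤ n * (2 * Real.pi)) :
    ∫⁻ t in Set.Ioc (-T) T, ∫⁻ x, ‖UU {l} S ω a t x‖ₑ ^ 3
      ≤ (n * sr (ENNReal.ofReal (2 * Real.pi)) * ENNReal.ofReal (2 * Real.pi)) * sr A *
        (ms {l} S a) ^ (3 / 2 : ℝ) := by
  set P : ℝ≥0∞ := ENNReal.ofReal (2 * Real.pi) with hP
  set m : ℝ → ℝ≥0∞ := fun z => ∑ k ∈ S, ‖ff (a l k) z‖ₑ ^ 2 with hm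
  have hms : ms {l} S a = ∑ k ∈ S, ∫⁻ θ, ‖a l k θ‖ₑ ^ 2 ∂mu1 := by
    unfold ms; simp
  have hffc : ∀ k, Continuous (ff (a l k)) := fun k => continuous_ff (integrable_of_memLp (ha l k))
  have halc : Continuous (fun p : ℝ × ℝ => al S ω (fun k => ff (a l k) p.1) p.2) := by
    unfold al
    apply continuous_finsetSum
    intro k _
    exact ((hffc k).comp continuous_fst).mul (by fun_prop)
  have e1 : ∀ t : ℝ, ∫⁻ x, ‖UU {l} S ω a t x‖ₑ ^ 3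
      = ∫⁻ z, ‖al S ω (fun k => ff (a l k) z) t‖ₑ ^ 3 := by
    intro t
    rw [← lintegral_sub_right_eq_self (fun z => ‖al S ω (fun k => ff (a l k) z) t‖ₑ ^ 3) (2 * l * t)]
    refine lintegral_congr fun x => ?_
    unfold UU
    rw [Finset.sum_singleton, enorm_mul, enorm_ee, one_mul]
  simp_rw [e1]
  rw [lintegral_lintegral_swap]
  swap
  · apply Measurable.aemeasurable
    exact (halc.comp (g := fun p : ℝ × ℝ => al S ω (fun k => ff (a l k) p.1) p.2)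
      (f := fun p : ℝ × ℝ => (p.2, p.1)) (by fun_prop)).measurable.enorm.pow_const 3
  have e2 : ∀ z : ℝ, ∫⁻ t in Set.Ioc (-T) T, ‖al S ω (fun k => ff (a l k) z) t‖ₑ ^ 3
      ≤ n * (sr P * sr A * (sr (ms {l} S a))) * m z := by
    intro z
    refine (lint_cover (by fun_prop) (al_periodic S ω _) T n 3 hn).trans ?_
    rw [mul_assoc]
    refine mul_le_mul' le_rfl ?_
    refine (al_L3 S ω A hA _ hdist).trans ?_
    rw [← mul_assoc]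
    refine mul_le_mul' (mul_le_mul' le_rfl (sr_mono ?_)) le_rfl
    rw [hms]
    exact Finset.sum_le_sum fun k _ => sup_ff (ha l k) z
  refine (lintegral_mono e2).trans ?_
  have hmm : Measurable m := by
    simp only [hm]
    apply Finset.measurable_fun_sum
    intro k _
    have := (hffc k).measurable
    fun_prop
  rw [lintegral_const_mul _ hmm]
  have e3 : ∫⁻ z, m z = P * ms {l} S a := by
    simp only [hm]
    rw [lintegral_finsetSum _ (fun k _ => by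
      have := (hffc k).measurable
      fun_prop), hms, Finset.mul_sum]
    exact Finset.sum_congr rfl fun k _ => plancherel_ff (ha l k)
  rw [e3, rpow_three_half']
  apply le_of_eq
  ring

/-- constant of the diagonal estimate -/
noncomputable def CD (n : ℕ) : ℝ≥0∞ :=
  n * sr (ENNReal.ofReal (2 * Real.pi)) * ENNReal.ofReal (2 * Real.pi)

/-- common constant -/
noncomputable def CE (n : ℕ) : ℝ≥0∞ := CB n + CD n

lemma CE_ne_top (n : ℕ) : CE n ≠ ⊤ := by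
  unfold CE CD
  apply ENNReal.add_ne_top.2 ⟨CB_ne_top n, ?_⟩
  exact ENNReal.mul_ne_top (ENNReal.mul_ne_top (ENNReal.natCast_ne_top n)
    (sr_ne_top ENNReal.ofReal_ne_top)) ENNReal.ofReal_ne_top

lemma diagpair (l l' : ℤ) (S : Finset ℤ) (ω : ℤ → ℤ) (A : ℝ≥0∞) (hA : L4 S ω A)
    (hdist : ∀ k ∈ S, ∀ k' ∈ S, k ≠ k' → ω k ≠ ω k')
    (a : ℤ → ℤ → ℝ → ℂ) (ha : ∀ l k, MemLp (a l k) 2 mu1)
    (T : ℝ) (n : ℕ) (hn : 2 * T ≤ n * (2 * Real.pi)) :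
    ∫⁻ p, (‖UU {l} S ω a p.1 p.2‖ₑ * ‖UU {l'} S ω a p.1 p.2‖ₑ) ^ (3 / 2 : ℝ)
        ∂((volume.restrict (Set.Ioc (-T) T)).prod volume)
      ≤ CE n * sr (6 * A) * (ms {l} S a * ms {l'} S a) ^ (3 / 4 : ℝ) := by
  have hU := fun l : ℤ => measurable_UU {l} S ω a ha
  have e1 : ∀ x y : ℝ≥0∞, (x * y) ^ (3 / 2 : ℝ) = sr (x ^ 3) * sr (y ^ 3) := by
    intro x y
    rw [rpow_three_half', ← sr_mul (x ^ 3), show x ^ 3 * y ^ 3 = (x * y) * (x * y) ^ 2 by ring,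
      sr_mul (x * y) ((x * y) ^ 2), sr_sq]
  simp_rw [e1]
  refine (CSs _ (by fun_prop) (by fun_prop)).trans ?_
  have h1 : ∀ l : ℤ, ∫⁻ p : ℝ × ℝ, ‖UU {l} S ω a p.1 p.2‖ₑ ^ 3
        ∂((volume.restrict (Set.Ioc (-T) T)).prod volume)
      ≤ CD n * sr A * (ms {l} S a) ^ (3 / 2 : ℝ) := by
    intro l
    rw [lintegral_prod _ (by fun_prop)]
    exact diag l S ω A hA hdist a ha T n hn
  refine (mul_le_mul' (sr_mono (h1 l)) (sr_mono (h1 l'))).trans ?_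
  have e2 : ∀ m : ℝ≥0∞, sr (m ^ (3 / 2 : ℝ)) = m ^ (3 / 4 : ℝ) := by
    intro m
    unfold sr
    rw [← ENNReal.rpow_mul]
    norm_num
  rw [sr_mul, sr_mul (CD n * sr A), e2, e2, ENNReal.mul_rpow_of_nonneg _ _ (by norm_num : (0:ℝ) ≤ 3 / 4)]
  calc sr (CD n * sr A) * ms {l} S a ^ (3 / 4 : ℝ) * (sr (CD n * sr A) * ms {l'} S a ^ (3 / 4 : ℝ))
      = (sr (CD n * sr A) * sr (CD n * sr A)) *
        (ms {l} S a ^ (3 / 4 : ℝ) * ms {l'} S a ^ (3 / 4 : ℝ)) := by ring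
    _ = CD n * sr A * (ms {l} S a ^ (3 / 4 : ℝ) * ms {l'} S a ^ (3 / 4 : ℝ)) := by
        rw [sr_mul_self]
    _ ≤ _ := by
        refine mul_le_mul' (mul_le_mul' ?_ (sr_mono ?_)) le_rfl
        · unfold CE
          exact le_add_self
        · calc A = 1 * A := (one_mul A).symm
            _ ≤ 6 * A := mul_le_mul' (by norm_num) le_rfl

/-- off-diagonal pairs, in the same form -/
lemma offpair (Λ Λ' S : Finset ℤ) (ω : ℤ → ℤ) (A : ℝ≥0∞) (hA : L4 S ω A) (K M : ℕ) (hK : 1 ≤ K)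
    (hM : 1 ≤ M) (hgap : ∀ k ∈ S, ∀ k' ∈ S, k ≠ k' → (K : ℤ) ≤ |ω k - ω k'|)
    (hsz : M ≤ K ∨ ∀ k ∈ S, 0 ≤ ω k ∧ ω k ≤ 4 * (K:ℤ) ^ 2)
    (a : ℤ → ℤ → ℝ → ℂ) (ha : ∀ l k, MemLp (a l k) 2 mu1) (c : ℤ)
    (hΛ : ∀ l ∈ Λ, c ≤ l ∧ l < c + M) (hΛ' : ∀ l ∈ Λ', c + 2 * M ≤ l ∧ l < c + 4 * M)
    (T : ℝ) (n : ℕ) (hn : 2 * (T + 1) ≤ n * (2 * Real.pi)) :
    ∫⁻ p, (‖UU Λ S ω a p.1 p.2‖ₑ * ‖UU Λ' S ω a p.1 p.2‖ₑ) ^ (3 / 2 : ℝ)
        ∂((volume.restrict (Set.Ioc (-T) T)).prod volume)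
      ≤ CE n * sr (6 * A) * (ms Λ S a * ms Λ' S a) ^ (3 / 4 : ℝ) := by
  have hU := measurable_UU Λ S ω a ha
  have hU' := measurable_UU Λ' S ω a ha
  rw [lintegral_prod _ (by fun_prop)]
  refine (BLpair Λ Λ' S ω A hA K M hK hM hgap hsz a ha c hΛ hΛ' T n hn).trans ?_
  refine mul_le_mul' (mul_le_mul' ?_ le_rfl) le_rfl
  unfold CE
  exact le_self_add

end Pool.Agent.E8helper95
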