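import Pool.Agent.E8helper95.F10

/-!
Whitney decomposition in the first frequency variable.
-/

set_option autoImplicit false

namespace Pool.Agent.E8helper95

open MeasureTheory Complex Set Finset
open scoped ENNReal ComplexConjugate Nat

/-- space-time measure -/
noncomputable abbrev nuT (T : ℝ) : Measure (ℝ × ℝ) := (volume.restrict (Set.Ioc (-T) T)).prod volume

/-- the exponent `3/2` -/
noncomputable def q32 : ℝ≥0∞ := ENNReal.ofReal (3 / 2)

lemma q32_toReal : q32.toReal = 3 / 2 := by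
  unfold q32; rw [ENNReal.toReal_ofReal (by norm_num)]

lemma one_le_q32 : 1 ≤ q32 := by
  unfold q32
  rw [← ENNReal.ofReal_one]
  exact ENNReal.ofReal_le_ofReal (by norm_num)

lemma q32_ne_top : q32 ≠ ⊤ := ENNReal.ofReal_ne_top

lemma q32_ne_zero : q32 ≠ 0 := (lt_of_lt_of_le one_pos one_le_q32).ne'

lemma eLpNorm_q32 {α : Type*} [MeasurableSpace α] (μ : Measure α) (f : α → ℂ) :
    eLpNorm f q32 μ = (∫⁻ p, ‖f p‖ₑ ^ (3 / 2 : ℝ) ∂μ) ^ (2 / 3 : ℝ) := by
  rw [eLpNorm_eq_lintegral_rpow_enorm_toReal q32_ne_zero q32_ne_top, q32_toReal]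
  norm_num

/-- one term -/
noncomputable def tm (S : Finset ℤ) (ω : ℤ → ℤ) (a : ℤ → ℤ → ℝ → ℂ) (l : ℤ) (p : ℝ × ℝ) : ℂ :=
  ee (l * p.2 - (l:ℝ) ^ 2 * p.1) * al S ω (fun k => ff (a l k) (p.2 - 2 * l * p.1)) p.1

lemma UU_eq_sum (Λ S : Finset ℤ) (ω : ℤ → ℤ) (a : ℤ → ℤ → ℝ → ℂ) (p : ℝ × ℝ) :
    UU Λ S ω a p.1 p.2 = ∑ l ∈ Λ, tm S ω a l p := rfl

/-- cells -/
def cell (Λ : Finset ℤ) (j : ℕ) (b : ℤ) : Finset ℤ := Λ.filter (fun l => l / 2 ^ j = b)

/-- indices of the cells -/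
def cells (Λ : Finset ℤ) (j : ℕ) : Finset ℤ := Λ.image (fun l => l / 2 ^ j)

lemma sum_cells {β : Type*} [AddCommMonoid β] (Λ : Finset ℤ) (j : ℕ) (f : ℤ → β) :
    ∑ l ∈ Λ, f l = ∑ b ∈ cells Λ j, ∑ l ∈ cell Λ j b, f l := by
  unfold cells cell
  rw [Finset.sum_fiberwise_of_maps_to]
  intro l hl
  exact Finset.mem_image_of_mem _ hl

/-- sum over the pairs with a relation on the cells -/
noncomputable def PS (Λ S : Finset ℤ) (ω : ℤ → ℤ) (a : ℤ → ℤ → ℝ → ℂ) (j : ℕ) (Q : ℤ → ℤ → Prop)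
    [DecidableRel Q] (p : ℝ × ℝ) : ℂ :=
  ∑ l ∈ Λ, ∑ l' ∈ Λ, if Q (l / 2 ^ j) (l' / 2 ^ j) then tm S ω a l p * tm S ω a l' p else 0

lemma PS_eq (Λ S : Finset ℤ) (ω : ℤ → ℤ) (a : ℤ → ℤ → ℝ → ℂ) (j : ℕ) (Q : ℤ → ℤ → Prop)
    [DecidableRel Q] (p : ℝ × ℝ) :
    PS Λ S ω a j Q p = ∑ b ∈ cells Λ j, ∑ b' ∈ cells Λ j, if Q b b' then
      UU (cell Λ j b) S ω a p.1 p.2 * UU (cell Λ j b') S ω a p.1 p.2 else 0 := by
  unfold PS
  rw [sum_cells Λ j]
  refine Finset.sum_congr rfl fun b _ => ?_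
  have h1 : ∀ l ∈ cell Λ j b, (∑ l' ∈ Λ, if Q (l / 2 ^ j) (l' / 2 ^ j) then
      tm S ω a l p * tm S ω a l' p else 0)
      = ∑ b' ∈ cells Λ j, ∑ l' ∈ cell Λ j b', if Q b b' then
        tm S ω a l p * tm S ω a l' p else 0 := by
    intro l hl
    rw [sum_cells Λ j]
    refine Finset.sum_congr rfl fun b' _ => Finset.sum_congr rfl fun l' hl' => ?_
    rw [(Finset.mem_filter.1 hl).2, (Finset.mem_filter.1 hl').2]
  rw [Finset.sum_congr rfl h1, Finset.sum_comm]
  refine Finset.sum_congr rfl fun b' _ => ?_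
  split_ifs with hQ
  · rw [UU_eq_sum, UU_eq_sum, Finset.sum_mul_sum]
  · simp

lemma ms_cells (Λ S : Finset ℤ) (a : ℤ → ℤ → ℝ → ℂ) (j : ℕ) :
    ∑ b ∈ cells Λ j, ms (cell Λ j b) S a = ms Λ S a := by
  unfold ms
  exact (sum_cells Λ j _).symm

/-- the norm of a product on two cells -/
lemma pair_norm {Λ Λ' S : Finset ℤ} {ω : ℤ → ℤ} {A : ℝ≥0∞} {a : ℤ → ℤ → ℝ → ℂ} {T : ℝ} {n : ℕ}
    (h : ∫⁻ p, (‖UU Λ S ω a p.1 p.2‖ₑ * ‖UU Λ' S ω a p.1 p.2‖ₑ) ^ (3 / 2 : ℝ) ∂(nuT T)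
      ≤ CE n * sr (6 * A) * (ms Λ S a * ms Λ' S a) ^ (3 / 4 : ℝ)) :
    eLpNorm (fun p : ℝ × ℝ => UU Λ S ω a p.1 p.2 * UU Λ' S ω a p.1 p.2) q32 (nuT T)
      ≤ (CE n * sr (6 * A)) ^ (2 / 3 : ℝ) * (ms Λ S a + ms Λ' S a) := by
  rw [eLpNorm_q32]
  simp_rw [enorm_mul]
  refine (ENNReal.rpow_le_rpow h (by norm_num)).trans ?_
  rw [ENNReal.mul_rpow_of_nonneg _ _ (by norm_num), ← ENNReal.rpow_mul]
  refine mul_le_mul' le_rfl ?_
  set m := ms Λ S a
  set m' := ms Λ' S a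
  have e : (3 / 4 * (2 / 3) : ℝ) = 1 / 2 := by norm_num
  rw [e]
  have h1 : m * m' ≤ (m + m') ^ 2 := by
    rw [sq]
    exact mul_le_mul' le_self_add le_add_self
  have := sr_mono h1
  rw [sr_sq] at this
  exact this

/-- counting the neighbours -/
lemma sum_pairs_le (B : Finset ℤ) (Q : ℤ → ℤ → Prop) [DecidableRel Q] (m : ℤ → ℝ≥0∞) (D : ℝ≥0∞)
    (N : ℤ → ℤ → ℝ≥0∞) (hN : ∀ b ∈ B, ∀ b' ∈ B, Q b b' → N b b' ≤ D * (m b + m b'))
    (E : Finset ℤ) (hE : ∀ b b', Q b b' → b' - b ∈ E) :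
    ∑ b ∈ B, ∑ b' ∈ B, (if Q b b' then N b b' else 0) ≤ D * (2 * E.card * ∑ b ∈ B, m b) := by
  have h1 : ∀ b ∈ B, ∑ b' ∈ B, (if Q b b' then N b b' else 0)
      ≤ ∑ b' ∈ B, (if Q b b' then D * (m b + m b') else 0) := by
    intro b hb
    apply Finset.sum_le_sum
    intro b' hb'
    split_ifs with h
    · exact hN b hb b' hb' h
    · exact le_rfl
  refine (Finset.sum_le_sum h1).trans ?_
  have h2 : ∀ b b', (if Q b b' then D * (m b + m b') else 0)
      = D * (if Q b b' then m b else 0) + D * (if Q b b' then m b' else 0) := by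
    intro b b'
    split_ifs
    · ring
    · simp
  simp_rw [h2, Finset.sum_add_distrib, ← Finset.mul_sum]
  rw [← mul_add]
  refine mul_le_mul' le_rfl ?_
  have h3 : ∀ b, ∑ b' ∈ B, (if Q b b' then m b else 0) ≤ E.card * m b := by
    intro b
    rw [← Finset.sum_filter, Finset.sum_const, nsmul_eq_mul]
    refine mul_le_mul' (Nat.cast_le.2 ?_) le_rfl
    apply Finset.card_le_card_of_injOn (fun b' => b' - b)
    · intro b' hb'
      exact hE b b' (Finset.mem_filter.1 hb').2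
    · intro x _ y _ hxy
      simpa using hxy
  have h4 : ∑ b ∈ B, ∑ b' ∈ B, (if Q b b' then m b' else 0) ≤ ∑ b' ∈ B, E.card * m b' := by
    rw [Finset.sum_comm]
    apply Finset.sum_le_sum
    intro b' _
    rw [← Finset.sum_filter, Finset.sum_const, nsmul_eq_mul]
    refine mul_le_mul' (Nat.cast_le.2 ?_) le_rfl
    apply Finset.card_le_card_of_injOn (fun b => b' - b)
    · intro b hb
      exact hE b b' (Finset.mem_filter.1 hb).2
    · intro x _ y _ hxy
      simpa using hxy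
  calc _ ≤ (∑ b ∈ B, E.card * m b) + ∑ b' ∈ B, E.card * m b' :=
        add_le_add (Finset.sum_le_sum fun b _ => h3 b) h4
    _ = _ := by rw [← Finset.mul_sum]; ring

lemma continuous_UU' (Λ S : Finset ℤ) (ω : ℤ → ℤ) (a : ℤ → ℤ → ℝ → ℂ)
    (ha : ∀ l k, MemLp (a l k) 2 mu1) :
    Continuous (fun p : ℝ × ℝ => UU Λ S ω a p.1 p.2) := continuous_UU Λ S ω a ha

/-- norm of a pair sum -/
lemma PS_norm (Λ S : Finset ℤ) (ω : ℤ → ℤ) (A : ℝ≥0∞) (a : ℤ → ℤ → ℝ → ℂ)
    (ha : ∀ l k, MemLp (a l k) 2 mu1) (j : ℕ) (Q : ℤ → ℤ → Prop) [DecidableRel Q] (T : ℝ) (n : ℕ)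
    (E : Finset ℤ) (hE : ∀ b b', Q b b' → b' - b ∈ E)
    (hpair : ∀ b b', Q b b' → ∫⁻ p, (‖UU (cell Λ j b) S ω a p.1 p.2‖ₑ *
      ‖UU (cell Λ j b') S ω a p.1 p.2‖ₑ) ^ (3 / 2 : ℝ) ∂(nuT T)
      ≤ CE n * sr (6 * A) * (ms (cell Λ j b) S a * ms (cell Λ j b') S a) ^ (3 / 4 : ℝ)) :
    eLpNorm (PS Λ S ω a j Q) q32 (nuT T)
      ≤ (CE n * sr (6 * A)) ^ (2 / 3 : ℝ) * (2 * E.card * ms Λ S a) := by
  have hc := fun b => continuous_UU (cell Λ j b) S ω a ha
  have e1 : PS Λ S ω a j Q = ∑ b ∈ cells Λ j, ∑ b' ∈ cells Λ j, (fun p : ℝ × ℝ => if Q b b' then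
      UU (cell Λ j b) S ω a p.1 p.2 * UU (cell Λ j b') S ω a p.1 p.2 else 0) := by
    ext p
    rw [PS_eq]
    simp only [Finset.sum_apply]
  have hterm : ∀ b b', AEStronglyMeasurable (fun p : ℝ × ℝ => if Q b b' then
      UU (cell Λ j b) S ω a p.1 p.2 * UU (cell Λ j b') S ω a p.1 p.2 else 0) (nuT T) := by
    intro b b'
    split_ifs
    · exact ((hc b).mul (hc b')).aestronglyMeasurable
    · exact aestronglyMeasurable_const
  rw [e1]
  refine (eLpNorm_sum_le (fun b _ => Finset.aestronglyMeasurable_sum _ fun b' _ => hterm b b')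
    one_le_q32).trans ?_
  refine (Finset.sum_le_sum fun b _ => eLpNorm_sum_le (fun b' _ => hterm b b') one_le_q32).trans ?_
  have e2 : ∀ b b', eLpNorm (fun p : ℝ × ℝ => if Q b b' then
      UU (cell Λ j b) S ω a p.1 p.2 * UU (cell Λ j b') S ω a p.1 p.2 else 0) q32 (nuT T)
      = if Q b b' then eLpNorm (fun p : ℝ × ℝ =>
        UU (cell Λ j b) S ω a p.1 p.2 * UU (cell Λ j b') S ω a p.1 p.2) q32 (nuT T) else 0 := by
    intro b b'
    split_ifs
    · rfl
    · simp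
  simp_rw [e2]
  refine (sum_pairs_le (cells Λ j) Q (fun b => ms (cell Λ j b) S a)
    ((CE n * sr (6 * A)) ^ (2 / 3 : ℝ)) _ ?_ E hE).trans_eq ?_
  · intro b _ b' _ hQ
    exact pair_norm (hpair b b' hQ)
  · rw [ms_cells]

/-- Whitney decomposition -/
lemma whitney (Λ S : Finset ℤ) (ω : ℤ → ℤ) (A : ℝ≥0∞) (hA : L4 S ω A) (K : ℕ) (hK : 1 ≤ K)
    (hgap : ∀ k ∈ S, ∀ k' ∈ S, k ≠ k' → (K : ℤ) ≤ |ω k - ω k'|) (J : ℕ)
    (hsz : 2 ^ J ≤ K ∨ ∀ k ∈ S, 0 ≤ ω k ∧ ω k ≤ 4 * (K:ℤ) ^ 2)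
    (a : ℤ → ℤ → ℝ → ℂ) (ha : ∀ l k, MemLp (a l k) 2 mu1)
    (T : ℝ) (n : ℕ) (hn : 2 * (T + 1) ≤ n * (2 * Real.pi)) (j : ℕ) (hj : j ≤ J) :
    eLpNorm (PS Λ S ω a j (fun b b' => |b - b'| ≤ 1)) q32 (nuT T)
      ≤ (CE n * sr (6 * A)) ^ (2 / 3 : ℝ) * (8 * (j + 1) * ms Λ S a) := by
  have hdist : ∀ k ∈ S, ∀ k' ∈ S, k ≠ k' → ω k ≠ ω k' := by
    intro k hk k' hk' hne heq
    have := hgap k hk k' hk' hne
    rw [heq] at this
    simp at this
    omega
  have hcont : ∀ (j : ℕ) (Q : ℤ → ℤ → Prop) [DecidableRel Q], Continuous (PS Λ S ω a j Q) := by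
    intro j Q _
    have e1 : PS Λ S ω a j Q = fun p : ℝ × ℝ => ∑ b ∈ cells Λ j, ∑ b' ∈ cells Λ j, (if Q b b' then
      UU (cell Λ j b) S ω a p.1 p.2 * UU (cell Λ j b') S ω a p.1 p.2 else 0) := by
      ext p
      rw [PS_eq]
    rw [e1]
    apply continuous_finsetSum
    intro b _
    apply continuous_finsetSum
    intro b' _
    split_ifs
    · exact (continuous_UU (cell Λ j b) S ω a ha).mul (continuous_UU (cell Λ j b') S ω a ha)
    · exact continuous_const
  induction j with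
  | zero =>
    have h := PS_norm Λ S ω A a ha 0 (fun b b' => |b - b'| ≤ 1) T n {-1, 0, 1} (by
      intro b b' h
      rw [abs_le] at h
      simp only [Finset.mem_insert, Finset.mem_singleton]
      omega) (by
      intro b b' _
      have hsub : ∀ b : ℤ, cell Λ 0 b = {b} ∨ cell Λ 0 b = ∅ := by
        intro b
        have : cell Λ 0 b ⊆ {b} := by
          intro l hl
          have := (Finset.mem_filter.1 hl).2
          simp at this
          simp [this]
        rcases Finset.subset_singleton_iff.1 this with h | h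
        · exact Or.inr h
        · exact Or.inl h
      rcases hsub b with h1 | h1
      · rcases hsub b' with h2 | h2
        · rw [h1, h2]
          exact diagpair b b' S ω A hA hdist a ha T n (by linarith)
        · rw [h2]
          simp [UU]
      · rw [h1]
        simp [UU])
    have hcard : (({-1, 0, 1} : Finset ℤ).card : ℝ≥0∞) = 3 := by simp
    rw [hcard] at h
    refine h.trans ?_
    refine mul_le_mul' le_rfl (mul_le_mul' ?_ le_rfl)
    norm_num
  | succ j ih =>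
    have ih := ih (by omega)
    set Q : ℤ → ℤ → Prop := fun b b' => |b / 2 - b' / 2| ≤ 1 ∧ ¬ |b - b'| ≤ 1 with hQ
    have hE : ∀ b b', Q b b' → b' - b ∈ ({-3, -2, 2, 3} : Finset ℤ) := by
      intro b b' h
      obtain ⟨h1, h2⟩ := h
      rw [abs_le] at h1
      rw [abs_le] at h2
      simp only [Finset.mem_insert, Finset.mem_singleton]
      omega
    have hsplit : PS Λ S ω a (j + 1) (fun b b' => |b - b'| ≤ 1)
        = PS Λ S ω a j (fun b b' => |b - b'| ≤ 1) + PS Λ S ω a j Q := by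
      ext p
      simp only [PS, Pi.add_apply]
      rw [← Finset.sum_add_distrib]
      refine Finset.sum_congr rfl fun l _ => ?_
      rw [← Finset.sum_add_distrib]
      refine Finset.sum_congr rfl fun l' _ => ?_
      have hdiv : ∀ l : ℤ, l / 2 ^ (j + 1) = l / 2 ^ j / 2 := by
        intro l
        rw [pow_succ, Int.ediv_ediv_of_nonneg (by positivity)]
      rw [hdiv, hdiv]
      generalize l / 2 ^ j = u
      generalize l' / 2 ^ j = v
      simp only [hQ]
      by_cases h1 : |u - v| ≤ 1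
      · have h2 : |u / 2 - v / 2| ≤ 1 := by
          rw [abs_le] at h1 ⊢
          omega
        simp [h1, h2]
      · by_cases h2 : |u / 2 - v / 2| ≤ 1
        · simp [h1, h2]
        · simp [h1, h2]
    rw [hsplit]
    refine (eLpNorm_add_le (hcont j _).aestronglyMeasurable (hcont j _).aestronglyMeasurable
      one_le_q32).trans ?_
    have hW := PS_norm Λ S ω A a ha j Q T n {-3, -2, 2, 3} hE (by
      intro b b' hbb
      have hM1 : 1 ≤ 2 ^ j := Nat.one_le_two_pow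
      have hsz' : 2 ^ j ≤ K ∨ ∀ k ∈ S, 0 ≤ ω k ∧ ω k ≤ 4 * (K:ℤ) ^ 2 := by
        rcases hsz with h | h
        · left
          exact le_trans (Nat.pow_le_pow_right (by norm_num) (by omega)) h
        · exact Or.inr h
      have hcell : ∀ b : ℤ, ∀ l ∈ cell Λ j b, b * 2 ^ j ≤ l ∧ l < b * 2 ^ j + 2 ^ j := by
        intro b l hl
        have h1 := (Finset.mem_filter.1 hl).2
        have h2 : (0:ℤ) < 2 ^ j := by positivity
        have h3 := Int.emod_nonneg l h2.ne'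
        have h4 := Int.emod_lt_of_pos l h2
        have h5 := Int.emod_add_mul_ediv l (2 ^ j)
        rw [h1] at h5
        constructor <;> nlinarith
      have hmem := hE b b' hbb
      simp only [Finset.mem_insert, Finset.mem_singleton] at hmem
      have hpos : (0:ℤ) < 2 ^ j := by positivity
      have main : ∀ b b' : ℤ, (b' - b = 2 ∨ b' - b = 3) → ∫⁻ p, (‖UU (cell Λ j b) S ω a p.1 p.2‖ₑ *
          ‖UU (cell Λ j b') S ω a p.1 p.2‖ₑ) ^ (3 / 2 : ℝ) ∂(nuT T)
          ≤ CE n * sr (6 * A) * (ms (cell Λ j b) S a * ms (cell Λ j b') S a) ^ (3 / 4 : ℝ) := by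
        intro b b' hb
        apply offpair (cell Λ j b) (cell Λ j b') S ω A hA K (2 ^ j) hK hM1 hgap hsz' a ha (b * 2 ^ j)
        · intro l hl
          have := hcell b l hl
          push_cast
          exact this
        · intro l hl
          have h1 := hcell b' l hl
          push_cast
          rcases hb with h | h
          · have : b' = b + 2 := by linarith
            subst this
            constructor <;> nlinarith
          · have : b' = b + 3 := by linarith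
            subst this
            constructor <;> nlinarith
        · exact hn
      rcases hmem with h | h | h | h
      · have := main b' b (by omega)
        simp_rw [mul_comm (‖UU (cell Λ j b') S ω a _ _‖ₑ)] at this
        rwa [mul_comm (ms (cell Λ j b') S a)] at this
      · have := main b' b (by omega)
        simp_rw [mul_comm (‖UU (cell Λ j b') S ω a _ _‖ₑ)] at this
        rwa [mul_comm (ms (cell Λ j b') S a)] at this
      · exact main b b' (by omega)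
      · exact main b b' (by omega))
    have hcard : (({-3, -2, 2, 3} : Finset ℤ).card : ℝ≥0∞) = 4 := by simp
    rw [hcard] at hW
    refine (add_le_add ih hW).trans_eq ?_
    rw [← mul_add]
    congr 1
    push_cast
    ring

end Pool.Agent.E8helper95
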