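import Pool.Agent.E8helper95.F7
import Pool.Agent.H353R2.Z2

/-!
The `L⁴` estimate for sums over squares in a window.
-/

set_option autoImplicit false

namespace Pool.Agent.E8helper95

open MeasureTheory Complex Set Finset
open scoped ENNReal ComplexConjugate Nat

/-- squares -/
def sqf (k : ℤ) : ℤ := k ^ 2

lemma enorm_sum_sq_le {ι : Type*} (s : Finset ι) (x : ι → ℂ) :
    ‖∑ i ∈ s, x i‖ₑ ^ 2 ≤ s.card * ∑ i ∈ s, ‖x i‖ₑ ^ 2 := by
  have h := ENNReal.rpow_sum_le_const_mul_sum_rpow s (fun i => ‖x i‖ₑ) (p := 2) (by norm_num)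
  have e : (2:ℝ) - 1 = 1 := by norm_num
  rw [e, ENNReal.rpow_one, ENNReal.rpow_two] at h
  simp_rw [ENNReal.rpow_two] at h
  calc _ ≤ (∑ i ∈ s, ‖x i‖ₑ) ^ 2 := by
        gcongr
        exact enorm_sum_le _ _
    _ ≤ _ := h

lemma L4_of_count (S : Finset ℤ) (R : ℕ) (hinj : ∀ k ∈ S, ∀ k' ∈ S, k ^ 2 = k' ^ 2 → k = k')
    (hR : ∀ n : ℤ, n ≠ 0 → ((S ×ˢ S).filter (fun p => p.2 ^ 2 - p.1 ^ 2 = n)).card ≤ R) :
    L4 S sqf (ENNReal.ofReal (2 * Real.pi) * (1 + R)) := by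
  classical
  intro c
  set T : Finset ℤ := (S ×ˢ S).image (fun p => p.2 ^ 2 - p.1 ^ 2) with hT
  have hmaps : ∀ p ∈ S ×ˢ S, p.2 ^ 2 - p.1 ^ 2 ∈ T := fun p hp => Finset.mem_image_of_mem _ hp
  set C : ℤ → ℂ := fun n => ∑ p ∈ S ×ˢ S with p.2 ^ 2 - p.1 ^ 2 = n, c p.1 * conj (c p.2) with hC
  have h1 : ∀ t : ℝ, ‖al S sqf c t‖ₑ ^ 4 = ‖∑ n ∈ T, C n * ee (n * t)‖ₑ ^ 2 := by
    intro t
    have e1 : ‖al S sqf c t‖ₑ ^ 4 = ‖al S sqf c t * conj (al S sqf c t)‖ₑ ^ 2 := by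
      rw [enorm_mul, RCLike.enorm_conj]; ring
    rw [e1]
    congr 2
    have e2 : al S sqf c t * conj (al S sqf c t) = ∑ p ∈ S ×ˢ S,
        c p.1 * conj (c p.2) * ee (((p.2 ^ 2 - p.1 ^ 2 : ℤ) : ℝ) * t) := by
      unfold al
      rw [map_sum, Finset.sum_mul_sum, ← Finset.sum_product']
      refine Finset.sum_congr rfl fun p _ => ?_
      rw [map_mul, ← ee_neg]
      have : ee (((p.2 ^ 2 - p.1 ^ 2 : ℤ) : ℝ) * t) = ee (((-sqf p.1 : ℤ) : ℝ) * t) *
          ee (-(((-sqf p.2 : ℤ) : ℝ) * t)) := by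
        rw [← ee_add]; congr 1; unfold sqf; push_cast; ring
      rw [this]; ring
    rw [e2, ← Finset.sum_fiberwise_of_maps_to hmaps]
    refine Finset.sum_congr rfl fun n _ => ?_
    simp only [hC]
    rw [Finset.sum_mul]
    refine Finset.sum_congr rfl fun p hp => ?_
    rw [(Finset.mem_filter.1 hp).2]
  simp_rw [h1]
  rw [parseval T C (fun n => n) (fun i _ j _ hij => hij), mul_assoc]
  refine mul_le_mul' le_rfl ?_
  set W : ℤ × ℤ → ℝ≥0∞ := fun p => ‖c p.1‖ₑ ^ 2 * ‖c p.2‖ₑ ^ 2 with hW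
  have hWsum : ∑ p ∈ S ×ˢ S, W p = (∑ k ∈ S, ‖c k‖ₑ ^ 2) ^ 2 := by
    rw [sq (∑ k ∈ S, _), Finset.sum_mul_sum, Finset.sum_product]
  have h0 : ‖C 0‖ₑ ^ 2 ≤ (∑ k ∈ S, ‖c k‖ₑ ^ 2) ^ 2 := by
    gcongr
    simp only [hC]
    refine (enorm_sum_le _ _).trans ?_
    have : ∑ k ∈ S, ‖c k‖ₑ ^ 2 = ∑ p ∈ S ×ˢ S with p.2 ^ 2 - p.1 ^ 2 = 0, ‖c p.1 * conj (c p.2)‖ₑ := by
      symm
      apply Finset.sum_nbij' (fun p => p.1) (fun k => (k, k))
      · intro p hp
        rw [Finset.mem_filter, Finset.mem_product] at hp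
        exact hp.1.1
      · intro k hk
        rw [Finset.mem_filter, Finset.mem_product]
        exact ⟨⟨hk, hk⟩, by simp⟩
      · intro p hp
        rw [Finset.mem_filter, Finset.mem_product] at hp
        have := hinj _ hp.1.2 _ hp.1.1 (by linarith [hp.2])
        exact Prod.ext rfl this.symm
      · intro k _; rfl
      · intro p hp
        rw [Finset.mem_filter, Finset.mem_product] at hp
        have := hinj _ hp.1.2 _ hp.1.1 (by linarith [hp.2])
        rw [this, enorm_mul, RCLike.enorm_conj, sq]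
    rw [this]
  have hn : ∀ n ∈ T.erase 0, ‖C n‖ₑ ^ 2 ≤ R * ∑ p ∈ S ×ˢ S with p.2 ^ 2 - p.1 ^ 2 = n, W p := by
    intro n hn
    have hn0 := Finset.ne_of_mem_erase hn
    simp only [hC]
    refine (enorm_sum_sq_le _ _).trans ?_
    have e3 : ∀ p : ℤ × ℤ, ‖c p.1 * conj (c p.2)‖ₑ ^ 2 = W p := by
      intro p
      rw [enorm_mul, RCLike.enorm_conj, mul_pow]
    simp_rw [e3]
    exact mul_le_mul' (Nat.cast_le.2 (hR n hn0)) le_rfl
  calc ∑ n ∈ T, ‖C n‖ₑ ^ 2 ≤ ‖C 0‖ₑ ^ 2 + ∑ n ∈ T.erase 0, ‖C n‖ₑ ^ 2 := by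
        by_cases h0T : (0:ℤ) ∈ T
        · exact (Finset.add_sum_erase T (fun n => ‖C n‖ₑ ^ 2) h0T).ge
        · rw [Finset.erase_eq_of_notMem h0T]
          exact le_add_self
    _ ≤ (∑ k ∈ S, ‖c k‖ₑ ^ 2) ^ 2 + R * (∑ k ∈ S, ‖c k‖ₑ ^ 2) ^ 2 := by
        refine add_le_add h0 ?_
        refine (Finset.sum_le_sum hn).trans ?_
        rw [← Finset.mul_sum]
        refine mul_le_mul' le_rfl ?_
        rw [← hWsum, ← Finset.sum_fiberwise_of_maps_to hmaps W]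
        exact Finset.sum_le_sum_of_subset (Finset.erase_subset _ _)
    _ = _ := by ring

/-- number of representations, through divisors -/
lemma count_div (S : Finset ℤ) (n : ℤ) (hn : n ≠ 0) :
    ((S ×ˢ S).filter (fun p => p.2 ^ 2 - p.1 ^ 2 = n)).card ≤ 2 * n.natAbs.divisors.card := by
  have h : ((S ×ˢ S).filter (fun p => p.2 ^ 2 - p.1 ^ 2 = n)).card
      ≤ (n.natAbs.divisors ×ˢ (Finset.univ : Finset Bool)).card := by
    apply Finset.card_le_card_of_injOn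
      (fun p => ((p.2 - p.1).natAbs, decide (0 ≤ p.2 - p.1)))
    · intro p hp
      have h1 := (Finset.mem_filter.1 hp).2
      simp only [Finset.coe_product, Set.mem_prod, Finset.mem_coe, Nat.mem_divisors,
        Finset.mem_univ, and_true]
      refine ⟨?_, by simpa using hn⟩
      rw [Int.natAbs_dvd_natAbs]
      exact ⟨p.2 + p.1, by rw [← h1]; ring⟩
    · intro p hp q hq heq
      have h1 := (Finset.mem_filter.1 hp).2
      have h2 := (Finset.mem_filter.1 hq).2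
      simp only [Prod.mk.injEq, decide_eq_decide] at heq
      obtain ⟨e1, e2⟩ := heq
      have e3 : p.2 - p.1 = q.2 - q.1 := by
        rcases Int.natAbs_eq_natAbs_iff.1 e1 with h | h
        · exact h
        · omega
      have hne : p.2 - p.1 ≠ 0 := by
        intro h
        apply hn
        rw [← h1]
        have : p.2 = p.1 := by linarith
        rw [this]; ring
      have e4 : p.2 + p.1 = q.2 + q.1 := by
        apply mul_left_cancel₀ hne
        nth_rewrite 2 [e3]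
        linarith [show (p.2 - p.1) * (p.2 + p.1) = n by rw [← h1]; ring,
          show (q.2 - q.1) * (q.2 + q.1) = n by rw [← h2]; ring]
      exact Prod.ext (by linarith) (by linarith)
  refine h.trans_eq ?_
  rw [Finset.card_product]
  simp [mul_comm]

/-- number of representations, far windows -/
lemma count_far (S : Finset ℤ) (k0 : ℤ) (N : ℕ) (hN : 1 ≤ N) (hS : ∀ k ∈ S, |k - k0| ≤ N)
    (hfar : 5 * (N:ℤ) ^ 2 < |k0|) (n : ℤ) (hn : n ≠ 0) :
    ((S ×ˢ S).filter (fun p => p.2 ^ 2 - p.1 ^ 2 = n)).card ≤ 1 := by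
  rw [Finset.card_le_one]
  have hN1 : (1:ℤ) ≤ N := by exact_mod_cast hN
  -- main claim
  have key : ∀ d s d' s' : ℤ, d * s = n → d' * s' = n → |d| ≤ 2 * N → |d'| ≤ 2 * N →
      |s - 2 * k0| ≤ 2 * N → |s' - 2 * k0| ≤ 2 * N → |d| ≤ |d'| := by
    intro d s d' s' h1 h2 hd hd' hs hs'
    by_contra hlt
    rw [not_le] at hlt
    have h3 : |d| * |s| = |d'| * |s'| := by rw [← abs_mul, ← abs_mul, h1, h2]
    have h4 : |s'| - |s| ≤ 4 * N := by
      have := abs_sub_abs_le_abs_sub s' s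
      have h5 : |s' - s| ≤ |s' - 2 * k0| + |s - 2 * k0| := by
        have := abs_sub_le s' (2 * k0) s
        rw [abs_sub_comm (2 * k0) s] at this
        exact this
      linarith
    have h6 : 2 * |k0| - 2 * N ≤ |s| := by
      have := abs_sub_abs_le_abs_sub (2 * k0) s
      rw [abs_mul, abs_two, abs_sub_comm] at this
      linarith
    have h7 : |s| * (|d| - |d'|) = |d'| * (|s'| - |s|) := by linarith [h3, mul_comm |s| |d|, mul_comm |s| |d'|]
    have h8 : |s| ≤ |s| * (|d| - |d'|) := by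
      nlinarith [abs_nonneg s]
    have h9 : |d'| * (|s'| - |s|) ≤ 2 * N * (4 * N) := by
      have h10 : 0 ≤ |s'| - |s| := by
        by_contra hneg
        rw [not_le] at hneg
        have : |d'| * (|s'| - |s|) ≤ 0 := mul_nonpos_of_nonneg_of_nonpos (abs_nonneg _) hneg.le
        have hs0 : 0 < |s| := by nlinarith
        nlinarith
      exact mul_le_mul hd' h4 h10 (by positivity)
    nlinarith
  intro p hp q hq
  rw [Finset.mem_filter, Finset.mem_product] at hp hq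
  obtain ⟨⟨hp1, hp2⟩, hpn⟩ := hp
  obtain ⟨⟨hq1, hq2⟩, hqn⟩ := hq
  have a1 := hS _ hp1
  have a2 := hS _ hp2
  have a3 := hS _ hq1
  have a4 := hS _ hq2
  have b1 : (p.2 - p.1) * (p.2 + p.1) = n := by rw [← hpn]; ring
  have b2 : (q.2 - q.1) * (q.2 + q.1) = n := by rw [← hqn]; ring
  rw [abs_le] at a1 a2 a3 a4
  have c1 : |p.2 - p.1| ≤ 2 * N := by rw [abs_le]; constructor <;> linarith
  have c2 : |q.2 - q.1| ≤ 2 * N := by rw [abs_le]; constructor <;> linarith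
  have c3 : |p.2 + p.1 - 2 * k0| ≤ 2 * N := by rw [abs_le]; constructor <;> linarith
  have c4 : |q.2 + q.1 - 2 * k0| ≤ 2 * N := by rw [abs_le]; constructor <;> linarith
  have d1 := key _ _ _ _ b1 b2 c1 c2 c3 c4
  have d2 := key _ _ _ _ b2 b1 c2 c1 c4 c3
  have d3 : |p.2 - p.1| = |q.2 - q.1| := le_antisymm d1 d2
  have hne : p.2 - p.1 ≠ 0 := by
    intro h
    rw [h, zero_mul] at b1
    exact hn b1.symm
  rcases abs_eq_abs.1 d3 with h | h
  · have e4 : p.2 + p.1 = q.2 + q.1 := by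
      apply mul_left_cancel₀ hne
      rw [b1, h, b2]
    exact Prod.ext (by linarith) (by linarith)
  · exfalso
    have e4 : p.2 + p.1 = -(q.2 + q.1) := by
      apply mul_left_cancel₀ hne
      rw [b1, h]
      linarith [b2]
    rw [abs_le] at c3 c4
    have : |k0| ≤ N := by
      rw [abs_le]
      constructor <;> linarith
    nlinarith

/-- the `L⁴` estimate with an `N^ε` loss -/
theorem L4_window (ε : ℝ) (hε : 0 < ε) : ∃ C : ℝ, 1 ≤ C ∧ ∀ (N : ℕ), 1 ≤ N → ∀ (k0 : ℤ)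
    (S : Finset ℤ), (∀ k ∈ S, |k - k0| ≤ N) → (∀ k ∈ S, ∀ k' ∈ S, k ^ 2 = k' ^ 2 → k = k') →
    L4 S sqf (ENNReal.ofReal (C * (N:ℝ) ^ ε)) := by
  obtain ⟨C0, hC0, hdiv⟩ := H353.divisor_bound_real (ε / 3) (by positivity)
  refine ⟨2 * Real.pi * (1 + (2 * (C0 * 24 ^ (ε / 3)) + 2)), ?_, ?_⟩
  · have := Real.pi_gt_three
    have h2 : 0 ≤ 2 * (C0 * 24 ^ (ε / 3)) := by positivity
    nlinarith
  intro N hN k0 S hS hinj
  have hNr : (1:ℝ) ≤ N := by exact_mod_cast hN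
  have hNε : (1:ℝ) ≤ (N:ℝ) ^ ε := Real.one_le_rpow hNr hε.le
  set R : ℕ := ⌊2 * (C0 * 24 ^ (ε / 3)) * (N:ℝ) ^ ε⌋₊ + 1 with hR
  have hcount : ∀ n : ℤ, n ≠ 0 → ((S ×ˢ S).filter (fun p => p.2 ^ 2 - p.1 ^ 2 = n)).card ≤ R := by
    intro n hn
    by_cases hfar : 5 * (N:ℤ) ^ 2 < |k0|
    · refine (count_far S k0 N hN hS hfar n hn).trans ?_
      rw [hR]; omega
    · rw [not_lt] at hfar
      by_cases hemp : ((S ×ˢ S).filter (fun p => p.2 ^ 2 - p.1 ^ 2 = n)) = ∅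
      · rw [hemp]; simp
      obtain ⟨p, hp⟩ := Finset.nonempty_iff_ne_empty.2 hemp
      rw [Finset.mem_filter, Finset.mem_product] at hp
      have a1 := hS _ hp.1.1
      have a2 := hS _ hp.1.2
      rw [abs_le] at a1 a2
      have c1 : |p.2 - p.1| ≤ 2 * N := by rw [abs_le]; constructor <;> linarith
      have c2 : |p.2 + p.1| ≤ 12 * (N:ℤ) ^ 2 := by
        rw [abs_le] at hfar ⊢
        have : (1:ℤ) ≤ N := by exact_mod_cast hN
        constructor <;> nlinarith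
      have hnabs : |n| ≤ 24 * (N:ℤ) ^ 3 := by
        rw [← hp.2, show p.2 ^ 2 - p.1 ^ 2 = (p.2 - p.1) * (p.2 + p.1) by ring, abs_mul]
        calc |p.2 - p.1| * |p.2 + p.1| ≤ 2 * N * (12 * (N:ℤ) ^ 2) :=
              mul_le_mul c1 c2 (abs_nonneg _) (by positivity)
          _ = _ := by ring
      have hn1 : n.natAbs ≠ 0 := by simpa using hn
      have h2 := hdiv n.natAbs hn1
      have h3 : ((n.natAbs : ℕ) : ℝ) ≤ 24 * (N:ℝ) ^ 3 := by
        have : ((n.natAbs : ℤ)) ≤ 24 * (N:ℤ) ^ 3 := by rw [Int.natCast_natAbs]; exact hnabs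
        exact_mod_cast this
      have h4 : ((n.natAbs : ℕ) : ℝ) ^ (ε / 3) ≤ 24 ^ (ε / 3) * (N:ℝ) ^ ε := by
        calc ((n.natAbs : ℕ) : ℝ) ^ (ε / 3) ≤ (24 * (N:ℝ) ^ 3) ^ (ε / 3) :=
              Real.rpow_le_rpow (by positivity) h3 (by positivity)
          _ = 24 ^ (ε / 3) * (N:ℝ) ^ ε := by
              rw [Real.mul_rpow (by norm_num) (by positivity), ← Real.rpow_natCast, ← Real.rpow_mul (by positivity)]
              congr 2
              push_cast; ring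
      have h5 := count_div S n hn
      have h6 : ((((S ×ˢ S).filter (fun p => p.2 ^ 2 - p.1 ^ 2 = n)).card : ℕ) : ℝ)
          ≤ 2 * (C0 * 24 ^ (ε / 3)) * (N:ℝ) ^ ε := by
        calc ((((S ×ˢ S).filter (fun p => p.2 ^ 2 - p.1 ^ 2 = n)).card : ℕ) : ℝ)
            ≤ 2 * (n.natAbs.divisors.card : ℝ) := by exact_mod_cast h5
          _ ≤ 2 * (C0 * ((n.natAbs : ℕ) : ℝ) ^ (ε / 3)) := by linarith
          _ ≤ 2 * (C0 * (24 ^ (ε / 3) * (N:ℝ) ^ ε)) := by gcongr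
          _ = _ := by ring
      have h7 := Nat.le_floor h6
      omega
  have h := L4_of_count S R hinj hcount
  intro c
  refine (h c).trans ?_
  refine mul_le_mul' ?_ le_rfl
  have e1 : (1 + (R : ℝ≥0∞)) = ENNReal.ofReal (1 + R) := by
    rw [ENNReal.ofReal_add (by norm_num) (by positivity), ENNReal.ofReal_one, ENNReal.ofReal_natCast]
  rw [e1, ← ENNReal.ofReal_mul (by positivity)]
  apply ENNReal.ofReal_le_ofReal
  have hRr : (R:ℝ) ≤ 2 * (C0 * 24 ^ (ε / 3)) * (N:ℝ) ^ ε + 1 := by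
    rw [hR]; push_cast
    have := Nat.floor_le (a := 2 * (C0 * 24 ^ (ε / 3)) * (N:ℝ) ^ ε) (by positivity)
    linarith
  have hpi := Real.pi_pos
  calc 2 * Real.pi * (1 + R) ≤ 2 * Real.pi * (1 + (2 * (C0 * 24 ^ (ε / 3)) * (N:ℝ) ^ ε + 1)) := by
        gcongr
    _ ≤ 2 * Real.pi * ((1 + (2 * (C0 * 24 ^ (ε / 3)) + 2)) * (N:ℝ) ^ ε) := by
        gcongr
        nlinarith
    _ = _ := by ring

end Pool.Agent.E8helper95
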