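import Pool.Agent.E8helper95.F11
import Pool.Agent.E8helper95.F12

/-!
The `L³` estimate for the model operator.
-/

set_option autoImplicit false

namespace Pool.Agent.E8helper95

open MeasureTheory Complex Set Finset
open scoped ENNReal ComplexConjugate Nat

lemma eLpNorm_three (T : ℝ) (f : ℝ × ℝ → ℂ) :
    eLpNorm f 3 (nuT T) = sr (eLpNorm (fun p => f p * f p) q32 (nuT T)) := by
  rw [eLpNorm_q32, eLpNorm_eq_lintegral_rpow_enorm_toReal (by norm_num) (by norm_num)]
  unfold sr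
  rw [← ENNReal.rpow_mul]
  simp_rw [enorm_mul, rpow_three_half', sr_mul, sr_mul_self]
  norm_num
  congr 1
  refine lintegral_congr fun p => ?_
  ring

lemma L3block (Λ S : Finset ℤ) (ω : ℤ → ℤ) (A : ℝ≥0∞) (hA : L4 S ω A) (K : ℕ) (hK : 1 ≤ K)
    (hgap : ∀ k ∈ S, ∀ k' ∈ S, k ≠ k' → (K : ℤ) ≤ |ω k - ω k'|) (J : ℕ)
    (hsz : 2 ^ J ≤ K ∨ ∀ k ∈ S, 0 ≤ ω k ∧ ω k ≤ 4 * (K:ℤ) ^ 2)
    (hΛ : ∀ l ∈ Λ, -2 ^ J ≤ l ∧ l < 2 ^ J)
    (a : ℤ → ℤ → ℝ → ℂ) (ha : ∀ l k, MemLp (a l k) 2 mu1)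
    (T : ℝ) (n : ℕ) (hn : 2 * (T + 1) ≤ n * (2 * Real.pi)) :
    eLpNorm (fun p : ℝ × ℝ => UU Λ S ω a p.1 p.2) 3 (nuT T)
      ≤ sr ((CE n * sr (6 * A)) ^ (2 / 3 : ℝ) * (8 * (J + 1) * ms Λ S a)) := by
  rw [eLpNorm_three]
  apply sr_mono
  have h := whitney Λ S ω A hA K hK hgap J hsz a ha T n hn J le_rfl
  refine le_trans (le_of_eq ?_) h
  congr 1
  ext p
  unfold PS
  rw [UU_eq_sum, Finset.sum_mul_sum]
  refine Finset.sum_congr rfl fun l hl => Finset.sum_congr rfl fun l' hl' => ?_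
  have key : ∀ l ∈ Λ, l / 2 ^ J = 0 ∨ l / 2 ^ J = -1 := by
    intro l hl
    obtain ⟨h1, h2⟩ := hΛ l hl
    have h3 : (0:ℤ) < 2 ^ J := by positivity
    have h4 : l / 2 ^ J < 1 := Int.ediv_lt_of_lt_mul h3 (by linarith)
    have h5 : -1 ≤ l / 2 ^ J := by
      apply (Int.le_ediv_iff_mul_le h3).2
      linarith
    omega
  rw [if_pos]
  show |l / 2 ^ J - l' / 2 ^ J| ≤ 1
  rw [abs_le]
  rcases key l hl with h1 | h1 <;> rcases key l' hl' with h2 | h2 <;> rw [h1, h2] <;> norm_num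

/-- index of the block of `k` -/
def blk (J : ℕ) (k : ℤ) : ℤ :=
  if k = 0 then 0 else if 0 < k then (min (Nat.log 2 k.natAbs) J : ℕ) + 1
    else -((min (Nat.log 2 k.natAbs) J : ℕ) + 1)

lemma blk_mem (J : ℕ) (k : ℤ) : blk J k ∈ Finset.Icc (-(J + 1 : ℤ)) (J + 1) := by
  rw [Finset.mem_Icc]
  have h : (min (Nat.log 2 k.natAbs) J : ℕ) ≤ J := min_le_right _ _
  unfold blk
  split_ifs <;> constructor <;> omega

lemma sum_blocks {β : Type*} [AddCommMonoid β] (𝓚 : Finset ℤ) (J : ℕ) (f : ℤ → β) :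
    ∑ k ∈ 𝓚, f k = ∑ i ∈ Finset.Icc (-(J + 1 : ℤ)) (J + 1), ∑ k ∈ 𝓚 with blk J k = i, f k := by
  rw [Finset.sum_fiberwise_of_maps_to]
  intro k _
  exact blk_mem J k

/-- structure of a block -/
lemma block_structure (𝓚 : Finset ℤ) (J : ℕ) (i : ℤ) :
    ∃ K : ℕ, 1 ≤ K ∧
      (∀ k ∈ 𝓚.filter (fun k => blk J k = i), ∀ k' ∈ 𝓚.filter (fun k => blk J k = i), k ≠ k' →
        (K : ℤ) ≤ |sqf k - sqf k'|) ∧
      (2 ^ J ≤ K ∨ ∀ k ∈ 𝓚.filter (fun k => blk J k = i), 0 ≤ sqf k ∧ sqf k ≤ 4 * (K:ℤ) ^ 2) ∧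
      (∀ k ∈ 𝓚.filter (fun k => blk J k = i), ∀ k' ∈ 𝓚.filter (fun k => blk J k = i),
        k ^ 2 = k' ^ 2 → k = k') := by
  -- bounds in a block
  have hlog : ∀ k : ℤ, k ≠ 0 → ((2:ℤ) ^ (min (Nat.log 2 k.natAbs) J) ≤ |k|) ∧
      (min (Nat.log 2 k.natAbs) J < J → |k| < 2 ^ (min (Nat.log 2 k.natAbs) J + 1)) := by
    intro k hk
    have hk' : k.natAbs ≠ 0 := by simpa using hk
    have h1 := Nat.pow_log_le_self 2 hk'
    have h2 := Nat.lt_pow_succ_log_self (b := 2) (by norm_num) k.natAbs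
    constructor
    · have h3 : 2 ^ (min (Nat.log 2 k.natAbs) J) ≤ k.natAbs :=
        le_trans (Nat.pow_le_pow_right (by norm_num) (min_le_left _ _)) h1
      rw [← Int.natCast_natAbs]
      exact_mod_cast h3
    · intro h
      have h4 : min (Nat.log 2 k.natAbs) J = Nat.log 2 k.natAbs := by omega
      rw [h4, ← Int.natCast_natAbs]
      exact_mod_cast h2
  by_cases hi0 : i = 0
  · have hz : ∀ k ∈ 𝓚.filter (fun k => blk J k = i), k = 0 := by
      intro k hk
      have h := (Finset.mem_filter.1 hk).2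
      rw [hi0] at h
      unfold blk at h
      split_ifs at h with h1 h2
      · exact h1
      · omega
      · omega
    refine ⟨1, le_rfl, ?_, Or.inr ?_, ?_⟩
    · intro k hk k' hk' hne
      exact absurd ((hz k hk).trans (hz k' hk').symm) hne
    · intro k hk
      rw [hz k hk]; unfold sqf; norm_num
    · intro k hk k' hk' _
      exact (hz k hk).trans (hz k' hk').symm
  by_cases hne : (𝓚.filter (fun k => blk J k = i)).Nonempty
  swap
  · rw [Finset.not_nonempty_iff_eq_empty] at hne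
    rw [hne]
    exact ⟨1, le_rfl, by simp, Or.inr (by simp), by simp⟩
  · -- common exponent
    obtain ⟨h, sgn, hh, hb⟩ : ∃ (h : ℕ) (sgn : Bool), h ≤ J ∧ ∀ k ∈ 𝓚.filter (fun k => blk J k = i),
        (2:ℤ) ^ h ≤ |k| ∧ (h < J → |k| < 2 ^ (h + 1)) ∧ (if sgn then 0 < k else k < 0) := by
      refine ⟨i.natAbs - 1, decide (0 < i), ?_, ?_⟩
      · obtain ⟨k, hk⟩ := hne
        have h1 := (Finset.mem_filter.1 hk).2
        have h2 := blk_mem J k
        rw [Finset.mem_Icc, h1] at h2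
        omega
      · intro k hk
        have h1 := (Finset.mem_filter.1 hk).2
        have hk0 : k ≠ 0 := by
          intro h; rw [h] at h1; unfold blk at h1; simp at h1; exact hi0 h1.symm
        obtain ⟨h3, h4⟩ := hlog k hk0
        unfold blk at h1
        rw [if_neg hk0] at h1
        split_ifs at h1 with h2
        · have e1 : i.natAbs - 1 = min (Nat.log 2 k.natAbs) J := by omega
          have e2 : 0 < i := by omega
          rw [e1]
          simp only [e2, decide_true, if_true]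
          exact ⟨h3, h4, h2⟩
        · have e1 : i.natAbs - 1 = min (Nat.log 2 k.natAbs) J := by omega
          have e2 : ¬ 0 < i := by omega
          rw [e1]
          simp only [e2, decide_false]
          refine ⟨h3, h4, ?_⟩
          simp only [Bool.false_eq_true, if_false]
          omega
    have hsame : ∀ k ∈ 𝓚.filter (fun k => blk J k = i), ∀ k' ∈ 𝓚.filter (fun k => blk J k = i),
        |k + k'| = |k| + |k'| := by
      intro k hk k' hk'
      obtain ⟨_, _, h3⟩ := hb k hk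
      obtain ⟨_, _, h3'⟩ := hb k' hk'
      cases sgn
      · simp only [Bool.false_eq_true, if_false] at h3 h3'
        rw [abs_of_neg h3, abs_of_neg h3', abs_of_neg (by linarith)]; ring
      · simp only [if_true] at h3 h3'
        rw [abs_of_pos h3, abs_of_pos h3', abs_of_pos (by linarith)]
    refine ⟨2 ^ h, Nat.one_le_two_pow, ?_, ?_, ?_⟩
    · intro k hk k' hk' hne
      have h1 := hsame k hk k' hk'
      have h2 := (hb k hk).1
      have h2' := (hb k' hk').1
      have h3 : 1 ≤ |k - k'| := Int.one_le_abs (sub_ne_zero.2 hne)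
      unfold sqf
      rw [show k ^ 2 - k' ^ 2 = (k - k') * (k + k') by ring, abs_mul, h1]
      push_cast
      have h4 : (0:ℤ) < 2 ^ h := by positivity
      nlinarith
    · rcases hh.eq_or_lt with h1 | h1
      · left; rw [h1]
      · right
        intro k hk
        have h2 := (hb k hk).2.1 h1
        unfold sqf
        refine ⟨sq_nonneg _, ?_⟩
        rw [← sq_abs]
        push_cast
        rw [pow_succ] at h2
        nlinarith [abs_nonneg k]
    · intro k hk k' hk' heq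
      by_contra hne
      have h1 := hsame k hk k' hk'
      have h2 := (hb k hk).1
      have h4 : (0:ℤ) < 2 ^ h := by positivity
      have h5 : (k - k') * (k + k') = 0 := by linarith
      rcases mul_eq_zero.1 h5 with h6 | h6
      · exact hne (by linarith)
      · rw [h6, abs_zero] at h1
        have := abs_nonneg k'
        linarith

end Pool.Agent.E8helper95
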