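import Pool.Agent.E8helper95.F13

/-!
The `L³` estimate for the model operator with frequencies in a window.
-/

set_option autoImplicit false

namespace Pool.Agent.E8helper95

open MeasureTheory Complex Set Finset
open scoped ENNReal ComplexConjugate Nat

lemma sr_le_self {x : ℝ≥0∞} (hx : 1 ≤ x) : sr x ≤ x := by
  unfold sr
  calc x ^ (1 / 2 : ℝ) ≤ x ^ (1 : ℝ) := ENNReal.rpow_le_rpow_of_exponent_le hx (by norm_num)
    _ = x := ENNReal.rpow_one x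

lemma one_le_sr {x : ℝ≥0∞} (hx : 1 ≤ x) : 1 ≤ sr x := by
  unfold sr
  exact ENNReal.one_le_rpow hx (by norm_num)

lemma UU_blocks (Λ 𝓚 : Finset ℤ) (ω : ℤ → ℤ) (a : ℤ → ℤ → ℝ → ℂ) (J : ℕ) (t x : ℝ) :
    UU Λ 𝓚 ω a t x = ∑ i ∈ Finset.Icc (-(J + 1 : ℤ)) (J + 1),
      UU Λ (𝓚.filter (fun k => blk J k = i)) ω a t x := by
  unfold UU al
  rw [Finset.sum_comm]
  refine Finset.sum_congr rfl fun l _ => ?_
  rw [← Finset.mul_sum, ← sum_blocks]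

lemma ms_mono (Λ S S' : Finset ℤ) (h : S ⊆ S') (a : ℤ → ℤ → ℝ → ℂ) : ms Λ S a ≤ ms Λ S' a := by
  unfold ms
  exact Finset.sum_le_sum fun l _ => Finset.sum_le_sum_of_subset h

lemma J_bound (δ : ℝ) (hδ : 0 < δ) (N : ℕ) (hN : 1 ≤ N) :
    ((Nat.log 2 (N + 1) + 1 : ℕ) : ℝ) ≤ 4 ^ δ / (δ * Real.log 2) * (N:ℝ) ^ δ := by
  have hN' : (1:ℝ) ≤ N := by exact_mod_cast hN
  have h2 : 0 < Real.log 2 := Real.log_pos (by norm_num)
  have h1 : (2:ℝ) ^ (Nat.log 2 (N + 1) + 1) ≤ 4 * N := by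
    have h3 : 2 ^ Nat.log 2 (N + 1) ≤ N + 1 := Nat.pow_log_le_self 2 (by omega)
    have h4 : (2:ℝ) ^ Nat.log 2 (N + 1) ≤ N + 1 := by exact_mod_cast h3
    rw [pow_succ]
    linarith
  have h5 : ((Nat.log 2 (N + 1) + 1 : ℕ) : ℝ) * Real.log 2 ≤ Real.log (4 * N) := by
    rw [← Real.log_pow]
    exact Real.log_le_log (by positivity) h1
  have h6 : Real.log (4 * N) ≤ (4 * N) ^ δ / δ := Real.log_le_rpow_div (by positivity) hδ
  have h7 : ((4:ℝ) * N) ^ δ = 4 ^ δ * (N:ℝ) ^ δ := Real.mul_rpow (by norm_num) (by positivity)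
  have h8 : (4:ℝ) ^ δ / (δ * Real.log 2) * (N:ℝ) ^ δ = (4 * N) ^ δ / δ / Real.log 2 := by
    rw [h7]
    field_simp
  rw [h8, le_div_iff₀ h2]
  linarith

theorem L3model (ε : ℝ) (hε : 0 < ε) (T : ℝ) : ∃ C : ℝ, 0 ≤ C ∧ ∀ (N : ℕ), 1 ≤ N →
    ∀ (k0 : ℤ) (𝓚 Λ : Finset ℤ), (∀ k ∈ 𝓚, |k - k0| ≤ N) → (∀ l ∈ Λ, |l| ≤ N + 1) →
    ∀ (a : ℤ → ℤ → ℝ → ℂ), (∀ l k, MemLp (a l k) 2 mu1) →
    eLpNorm (fun p : ℝ × ℝ => UU Λ 𝓚 sqf a p.1 p.2) 3 (nuT T)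
      ≤ ENNReal.ofReal (C * (N:ℝ) ^ ε) * sr (ms Λ 𝓚 a) := by
  obtain ⟨C0, hC0, hL4⟩ := L4_window (ε / 3) (by positivity)
  set n : ℕ := ⌈2 * (T + 1) / (2 * Real.pi)⌉₊ with hn
  have hn' : 2 * (T + 1) ≤ n * (2 * Real.pi) := by
    rw [← div_le_iff₀ (by positivity)]
    exact Nat.le_ceil _
  set E : ℝ := (sr (CE n ^ (2 / 3 : ℝ))).toReal with hE
  have hEt : sr (CE n ^ (2 / 3 : ℝ)) ≠ ⊤ :=
    sr_ne_top (ENNReal.rpow_ne_top_of_nonneg (by norm_num) (CE_ne_top n))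
  set B : ℝ := 4 ^ (ε / 3) / (ε / 3 * Real.log 2) with hB
  have hB0 : 0 ≤ B := by
    have : 0 < Real.log 2 := Real.log_pos (by norm_num)
    positivity
  refine ⟨10 * B ^ 2 * (48 * C0) * E, by positivity, ?_⟩
  intro N hN k0 𝓚 Λ h𝓚 hΛ a ha
  have hN' : (1:ℝ) ≤ N := by exact_mod_cast hN
  set J : ℕ := Nat.log 2 (N + 1) + 1 with hJ
  have hJ1 : 1 ≤ J := by omega
  have hJN : (N:ℤ) + 1 < 2 ^ J := by
    have := Nat.lt_pow_succ_log_self (b := 2) (by norm_num) (N + 1)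
    exact_mod_cast this
  have hΛ' : ∀ l ∈ Λ, -2 ^ J ≤ l ∧ l < 2 ^ J := by
    intro l hl
    have := abs_le.1 (hΛ l hl)
    constructor <;> linarith [this.1, this.2]
  set A : ℝ≥0∞ := ENNReal.ofReal (C0 * (N:ℝ) ^ (ε / 3)) with hA
  have hNe : (1:ℝ) ≤ (N:ℝ) ^ (ε / 3) := Real.one_le_rpow hN' (by positivity)
  have hA1 : 1 ≤ A := by
    rw [hA, ← ENNReal.ofReal_one]
    apply ENNReal.ofReal_le_ofReal
    nlinarith
  have hblock : ∀ i ∈ Finset.Icc (-(J + 1 : ℤ)) (J + 1),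
      eLpNorm (fun p : ℝ × ℝ => UU Λ (𝓚.filter (fun k => blk J k = i)) sqf a p.1 p.2) 3 (nuT T)
        ≤ sr (CE n ^ (2 / 3 : ℝ)) * (48 * (J + 1) * A) * sr (ms Λ 𝓚 a) := by
    intro i _
    obtain ⟨K, hK, hgap, hsz, hinj⟩ := block_structure 𝓚 J i
    have h1 := hL4 N hN k0 (𝓚.filter (fun k => blk J k = i))
      (fun k hk => h𝓚 k (Finset.mem_filter.1 hk).1) hinj
    refine (L3block Λ _ sqf A h1 K hK hgap J hsz hΛ' a ha T n hn').trans ?_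
    have h6 : 1 ≤ 6 * A := le_trans hA1 (by
      calc A = 1 * A := (one_mul A).symm
        _ ≤ 6 * A := by gcongr; norm_num)
    have h2 : (CE n * sr (6 * A)) ^ (2 / 3 : ℝ) ≤ CE n ^ (2 / 3 : ℝ) * (6 * A) := by
      rw [ENNReal.mul_rpow_of_nonneg _ _ (by norm_num : (0:ℝ) ≤ 2 / 3)]
      gcongr
      calc sr (6 * A) ^ (2 / 3 : ℝ) ≤ sr (6 * A) ^ (1:ℝ) :=
            ENNReal.rpow_le_rpow_of_exponent_le (one_le_sr h6) (by norm_num)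
        _ = sr (6 * A) := ENNReal.rpow_one _
        _ ≤ 6 * A := sr_le_self h6
    calc _ ≤ sr (CE n ^ (2 / 3 : ℝ) * (6 * A) * (8 * (J + 1) * ms Λ 𝓚 a)) := by
          apply sr_mono
          gcongr
          exact ms_mono Λ _ _ (Finset.filter_subset _ _) a
      _ = sr (CE n ^ (2 / 3 : ℝ)) * sr (48 * (J + 1) * A) * sr (ms Λ 𝓚 a) := by
          rw [← sr_mul, ← sr_mul]
          congr 1
          ring
      _ ≤ _ := by
          gcongr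
          apply sr_le_self
          calc (1:ℝ≥0∞) ≤ 1 * (0 + 1) * 1 := by norm_num
            _ ≤ 48 * (J + 1) * A := by
              gcongr
              · norm_num
              · exact zero_le
  have hmeas : ∀ i ∈ Finset.Icc (-(J + 1 : ℤ)) (J + 1), AEStronglyMeasurable
      (fun p : ℝ × ℝ => UU Λ (𝓚.filter (fun k => blk J k = i)) sqf a p.1 p.2) (nuT T) := fun i _ =>
    (continuous_UU Λ _ sqf a ha).aestronglyMeasurable
  have e1 : (fun p : ℝ × ℝ => UU Λ 𝓚 sqf a p.1 p.2) = ∑ i ∈ Finset.Icc (-(J + 1 : ℤ)) (J + 1),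
      (fun p : ℝ × ℝ => UU Λ (𝓚.filter (fun k => blk J k = i)) sqf a p.1 p.2) := by
    ext p
    rw [Finset.sum_apply]
    exact UU_blocks Λ 𝓚 sqf a J p.1 p.2
  rw [e1]
  refine (eLpNorm_sum_le hmeas (by norm_num)).trans ?_
  refine (Finset.sum_le_sum hblock).trans ?_
  rw [Finset.sum_const, nsmul_eq_mul, Int.card_Icc]
  rw [← mul_assoc]
  gcongr
  rw [← ENNReal.ofReal_toReal hEt, ← hE, hA]
  have e2 : (((J + 1 : ℤ) + 1 - -(J + 1 : ℤ)).toNat : ℝ≥0∞) = ENNReal.ofReal (2 * J + 3) := by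
    rw [show ((J + 1 : ℤ) + 1 - -(J + 1 : ℤ)).toNat = 2 * J + 3 by omega]
    rw [← ENNReal.ofReal_natCast]
    push_cast
    rfl
  have e3 : (48 * ((J:ℝ≥0∞) + 1)) = ENNReal.ofReal (48 * (J + 1)) := by
    rw [ENNReal.ofReal_mul (by norm_num), ENNReal.ofReal_add (by positivity) (by norm_num)]
    simp
  rw [e2, e3, ← ENNReal.ofReal_mul (by positivity), ← ENNReal.ofReal_mul (by positivity),
    ← ENNReal.ofReal_mul (by positivity)]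
  apply ENNReal.ofReal_le_ofReal
  have hJB : (J:ℝ) ≤ B * (N:ℝ) ^ (ε / 3) := J_bound (ε / 3) (by positivity) N hN
  have hJ1' : (1:ℝ) ≤ J := by exact_mod_cast hJ1
  have h9 : (N:ℝ) ^ ε = (N:ℝ) ^ (ε / 3) * (N:ℝ) ^ (ε / 3) * (N:ℝ) ^ (ε / 3) := by
    rw [← Real.rpow_add (by positivity), ← Real.rpow_add (by positivity)]
    congr 1; ring
  rw [h9]
  set X := (N:ℝ) ^ (ε / 3) with hX
  have hX0 : 0 ≤ X := by positivity
  have hE0 : 0 ≤ E := ENNReal.toReal_nonneg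
  have h10 : (2 * (J:ℝ) + 3) * (J + 1) ≤ 10 * (B * X) ^ 2 := by
    calc (2 * (J:ℝ) + 3) * (J + 1) ≤ 10 * (J:ℝ) ^ 2 := by nlinarith
      _ ≤ _ := by gcongr
  calc (2 * (J:ℝ) + 3) * (E * (48 * (J + 1) * (C0 * X)))
      = ((2 * (J:ℝ) + 3) * (J + 1)) * (E * 48 * (C0 * X)) := by ring
    _ ≤ (10 * (B * X) ^ 2) * (E * 48 * (C0 * X)) := by gcongr
    _ = _ := by ring

end Pool.Agent.E8helper95
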