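import Pool.Agent.E8helper95.F14

/-!
From the model operator to the Schrödinger evolution.
-/

set_option autoImplicit false

namespace Pool.Agent.E8helper95

open MeasureTheory Complex Set Finset
open scoped ENNReal ComplexConjugate Nat

/-- the evolution with data `b` -/
noncomputable def uu (𝓚 : Finset ℤ) (b : ℤ → ℝ → ℂ) (t x : ℝ) : ℂ :=
  ∑ k ∈ 𝓚, ∫ η, b k η * ee (x * η - t * (η ^ 2 + (k:ℝ) ^ 2))

/-- mass of the data -/
noncomputable def mb (𝓚 : Finset ℤ) (b : ℤ → ℝ → ℂ) : ℝ≥0∞ :=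
  ∑ k ∈ 𝓚, ∫⁻ η, ‖b k η‖ₑ ^ 2

/-- the data of the `q`-th model problem -/
noncomputable def aq (b : ℤ → ℝ → ℂ) (q : ℕ) (l k : ℤ) (θ : ℝ) : ℂ :=
  ((θ ^ (2 * q) : ℝ) : ℂ) * b k (l + θ)

/-- the unit intervals meeting `[-N,N]` -/
noncomputable def LL (N : ℕ) : Finset ℤ := Finset.Icc (-(N + 1 : ℤ)) N

lemma LL_abs (N : ℕ) : ∀ l ∈ LL N, |l| ≤ N + 1 := by
  intro l hl
  unfold LL at hl
  rw [Finset.mem_Icc] at hl
  rw [abs_le]
  omega

lemma mem_LL (N : ℕ) (η : ℝ) (hη : |η| ≤ N) : ∃ l ∈ LL N, η ∈ Set.Ioc (l:ℝ) (l + 1) := by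
  refine ⟨⌈η⌉ - 1, ?_, ?_⟩
  · unfold LL
    rw [Finset.mem_Icc]
    have h := abs_le.1 hη
    have h1 : -(N:ℤ) ≤ ⌈η⌉ := by
      have : (-(N:ℝ)) ≤ ⌈η⌉ := h.1.trans (Int.le_ceil η)
      exact_mod_cast this
    have h2 : ⌈η⌉ ≤ (N:ℤ) := Int.ceil_le.2 (by exact_mod_cast h.2)
    omega
  · push_cast
    exact ⟨by linarith [Int.ceil_lt_add_one η], by linarith [Int.le_ceil η]⟩

lemma disj_LL (A : Finset ℤ) : (A : Set ℤ).PairwiseDisjoint (fun l : ℤ => Set.Ioc (l:ℝ) (l + 1)) := by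
  intro i _ j _ hij
  rw [Function.onFun, Set.disjoint_left]
  rintro x ⟨h1, h2⟩ ⟨h3, h4⟩
  apply hij
  have h5 : (i:ℝ) < j + 1 := by linarith
  have h6 : (j:ℝ) < i + 1 := by linarith
  have h7 : i < j + 1 := by exact_mod_cast h5
  have h8 : j < i + 1 := by exact_mod_cast h6
  omega

lemma integral_cell (g : ℝ → ℂ) (l : ℤ) :
    ∫ η in Set.Ioc (l:ℝ) (l + 1), g η = ∫ θ, g (l + θ) ∂mu1 := by
  rw [← intervalIntegral.integral_of_le (by linarith), ← intervalIntegral.integral_of_le (by norm_num)]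
  rw [intervalIntegral.integral_comp_add_left]
  simp

lemma lintegral_cell (g : ℝ → ℝ≥0∞) (l : ℤ) :
    ∫⁻ η in Set.Ioc (l:ℝ) (l + 1), g η = ∫⁻ θ, g (l + θ) ∂mu1 := by
  rw [← lintegral_indicator measurableSet_Ioc, ← lintegral_indicator measurableSet_Ioc]
  rw [← lintegral_add_left_eq_self _ (l:ℝ)]
  refine lintegral_congr fun θ => ?_
  simp only [Set.indicator, Set.mem_Ioc]
  congr 1
  rw [eq_iff_iff]
  constructor <;> rintro ⟨h1, h2⟩ <;> constructor <;> linarith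

lemma integral_LL (N : ℕ) (g : ℝ → ℂ) (hg : Integrable g) (hs : ∀ η, (N:ℝ) < |η| → g η = 0) :
    ∫ η, g η = ∑ l ∈ LL N, ∫ θ, g (l + θ) ∂mu1 := by
  simp_rw [← integral_cell]
  rw [← integral_biUnion_finset (LL N) (fun _ _ => measurableSet_Ioc) (disj_LL _)
    (fun _ _ => hg.integrableOn)]
  rw [setIntegral_eq_integral_of_forall_compl_eq_zero]
  intro η hη
  apply hs
  by_contra h
  push Not at h
  obtain ⟨l, hl, hl'⟩ := mem_LL N η h
  exact hη (Set.mem_biUnion hl hl')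

lemma lintegral_LL_le (N : ℕ) (g : ℝ → ℝ≥0∞) :
    ∑ l ∈ LL N, ∫⁻ θ, g (l + θ) ∂mu1 ≤ ∫⁻ η, g η := by
  simp_rw [← lintegral_cell]
  rw [← lintegral_biUnion_finset (disj_LL _) (fun _ _ => measurableSet_Ioc)]
  exact setLIntegral_le_lintegral _ _

lemma memLp_cell {g : ℝ → ℂ} (hg : MemLp g 2 volume) (l : ℤ) :
    MemLp (fun θ => g (l + θ)) 2 mu1 :=
  (hg.comp_measurePreserving (measurePreserving_add_left volume (l:ℝ))).restrict _

lemma theta_pow_le (θ : ℝ) (hθ : θ ∈ Set.Ioc (0:ℝ) 1) (m : ℕ) : ‖((θ ^ m : ℝ) : ℂ)‖ ≤ 1 := by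
  rw [Complex.norm_real, Real.norm_eq_abs, abs_pow, abs_of_pos hθ.1]
  exact pow_le_one₀ hθ.1.le hθ.2

lemma memLp_aq {b : ℤ → ℝ → ℂ} (hb : ∀ k, MemLp (b k) 2 volume) (q : ℕ) (l k : ℤ) :
    MemLp (aq b q l k) 2 mu1 := by
  have h := memLp_cell (hb k) l
  apply h.mono
  · exact (by fun_prop : Measurable fun θ : ℝ => ((θ ^ (2 * q) : ℝ) : ℂ)).aestronglyMeasurable.mul h.1
  · rw [ae_restrict_iff' measurableSet_Ioc]
    refine Filter.Eventually.of_forall fun θ hθ => ?_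
    unfold aq
    rw [norm_mul]
    calc _ ≤ 1 * ‖b k (l + θ)‖ := by
          gcongr
          exact theta_pow_le θ hθ _
      _ = _ := one_mul _

lemma ms_aq_le (N : ℕ) (𝓚 : Finset ℤ) (b : ℤ → ℝ → ℂ) (q : ℕ) :
    ms (LL N) 𝓚 (aq b q) ≤ mb 𝓚 b := by
  unfold ms mb
  rw [Finset.sum_comm]
  refine Finset.sum_le_sum fun k _ => ?_
  refine le_trans (Finset.sum_le_sum fun l _ => ?_) (lintegral_LL_le N (fun η => ‖b k η‖ₑ ^ 2))
  apply lintegral_mono_ae
  rw [ae_restrict_iff' measurableSet_Ioc]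
  refine Filter.Eventually.of_forall fun θ hθ => ?_
  unfold aq
  rw [enorm_mul]
  gcongr
  calc _ ≤ 1 * ‖b k (l + θ)‖ₑ := by
        gcongr
        rw [← ofReal_norm, ← ENNReal.ofReal_one]
        exact ENNReal.ofReal_le_ofReal (theta_pow_le θ hθ _)
    _ = _ := one_mul _

/-- expansion of the quadratic phase -/
lemma ff_quad {h : ℝ → ℂ} (hh : Integrable h mu1) (t z : ℝ) :
    HasSum (fun q : ℕ => ((-(Complex.I * t)) ^ q / (q ! : ℂ)) *
      ff (fun θ => ((θ ^ (2 * q) : ℝ) : ℂ) * h θ) z)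
      (∫ θ, h θ * (ee (θ * z) * ee (-(t * θ ^ 2))) ∂mu1) := by
  set F : ℕ → ℝ → ℂ := fun q θ =>
    ((-(Complex.I * t)) ^ q / (q ! : ℂ)) * ((((θ ^ (2 * q) : ℝ) : ℂ) * h θ) * ee (θ * z)) with hF
  have hI : ∀ q : ℕ, Integrable (fun θ => (((θ ^ (2 * q) : ℝ) : ℂ) * h θ) * ee (θ * z)) mu1 := by
    intro q
    have := integrable_mul_bdd (h := fun θ : ℝ => ((θ ^ (2 * q) : ℝ) : ℂ) * ee (θ * z)) hh
      (by fun_prop) 1 (by
        intro θ hθ
        rw [norm_mul, norm_ee, mul_one]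
        exact theta_pow_le θ hθ _)
    refine this.congr (Filter.Eventually.of_forall fun θ => ?_)
    simp only
    ring
  have hInt : ∀ q, Integrable (F q) mu1 := fun q => (hI q).const_mul _
  have hnorm : ∀ q, ∫ θ, ‖F q θ‖ ∂mu1 ≤ (|t| ^ q / q !) * ∫ θ, ‖h θ‖ ∂mu1 := by
    intro q
    rw [← integral_const_mul]
    apply integral_mono_of_nonneg
    · exact Filter.Eventually.of_forall fun θ => norm_nonneg _
    · exact hh.norm.const_mul _
    · rw [Filter.EventuallyLE, ae_restrict_iff' measurableSet_Ioc]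
      refine Filter.Eventually.of_forall fun θ hθ => ?_
      simp only [hF]
      rw [norm_mul, norm_div, norm_pow, norm_neg, norm_mul, Complex.norm_I, one_mul,
        Complex.norm_real, Real.norm_eq_abs, Complex.norm_natCast]
      apply mul_le_mul_of_nonneg_left _ (by positivity)
      rw [norm_mul, norm_mul, norm_ee, mul_one]
      calc _ ≤ 1 * ‖h θ‖ := by
            gcongr
            exact theta_pow_le θ hθ _
        _ = ‖h θ‖ := one_mul _
  have hS : Summable (fun q => ∫ θ, ‖F q θ‖ ∂mu1) :=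
    Summable.of_nonneg_of_le (fun q => integral_nonneg fun _ => norm_nonneg _) hnorm
      ((Real.summable_pow_div_factorial |t|).mul_right _)
  have key := hasSum_integral_of_summable_integral_norm hInt hS
  have e1 : ∀ q, ∫ θ, F q θ ∂mu1 = ((-(Complex.I * t)) ^ q / (q ! : ℂ)) *
      ff (fun θ => ((θ ^ (2 * q) : ℝ) : ℂ) * h θ) z := by
    intro q
    simp only [hF, ff]
    rw [integral_const_mul]
  have e2 : ∫ θ, ∑' q, F q θ ∂mu1 = ∫ θ, h θ * (ee (θ * z) * ee (-(t * θ ^ 2))) ∂mu1 := by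
    refine integral_congr_ae (Filter.Eventually.of_forall fun θ => ?_)
    have hexp : HasSum (fun n : ℕ => (-(Complex.I * t) * θ ^ 2) ^ n / (n ! : ℂ))
        (Complex.exp (-(Complex.I * t) * θ ^ 2)) := by
      have := NormedSpace.expSeries_div_hasSum_exp (-(Complex.I * t) * (θ:ℂ) ^ 2)
      rwa [← Complex.exp_eq_exp_ℂ] at this
    have h3 := (hexp.mul_left (h θ * ee (θ * z))).tsum_eq
    simp only at h3 ⊢
    calc ∑' q, F q θ = ∑' q : ℕ, (h θ * ee (θ * z)) *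
          ((-(Complex.I * t) * θ ^ 2) ^ q / (q ! : ℂ)) := by
          refine tsum_congr fun q => ?_
          simp only [hF]
          push_cast
          rw [mul_pow (-(Complex.I * (t:ℂ))) ((θ:ℂ) ^ 2), ← pow_mul]
          ring
      _ = (h θ * ee (θ * z)) * Complex.exp (-(Complex.I * t) * θ ^ 2) := h3
      _ = h θ * (ee (θ * z) * ee (-(t * θ ^ 2))) := by
          rw [mul_assoc]
          congr 2
          unfold ee
          congr 1
          push_cast; ring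
  rw [e2] at key
  simp_rw [e1] at key
  exact key

/-- square-integrable functions with bounded support are integrable -/
lemma integrable_of_supp {g : ℝ → ℂ} (hg : MemLp g 2 volume) (N : ℝ)
    (hs : ∀ η, N < |η| → g η = 0) : Integrable g := by
  have h1 : g = (Set.Icc (-N) N).indicator g := by
    ext η
    simp only [Set.indicator, Set.mem_Icc]
    split_ifs with h
    · rfl
    · apply hs
      by_contra h2
      push Not at h2
      exact h (abs_le.1 h2)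
  rw [h1, integrable_indicator_iff measurableSet_Icc]
  exact ((hg.restrict (Set.Icc (-N) N)).integrable (by norm_num) : _)

lemma uu_hasSum (N : ℕ) (𝓚 : Finset ℤ) (b : ℤ → ℝ → ℂ) (hb : ∀ k, MemLp (b k) 2 volume)
    (hs : ∀ k η, (N:ℝ) < |η| → b k η = 0) (t x : ℝ) :
    HasSum (fun q : ℕ => ((-(Complex.I * t)) ^ q / (q ! : ℂ)) * UU (LL N) 𝓚 sqf (aq b q) t x)
      (uu 𝓚 b t x) := by
  have e1 : uu 𝓚 b t x = ∑ l ∈ LL N, ∑ k ∈ 𝓚, (ee (l * x - (l:ℝ) ^ 2 * t) *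
      ee (((-sqf k : ℤ) : ℝ) * t)) *
      ∫ θ, b k (l + θ) * (ee (θ * (x - 2 * l * t)) * ee (-(t * θ ^ 2))) ∂mu1 := by
    unfold uu
    rw [Finset.sum_comm]
    refine Finset.sum_congr rfl fun k _ => ?_
    have hint : Integrable (fun η => b k η * ee (x * η - t * (η ^ 2 + (k:ℝ) ^ 2))) := by
      apply (integrable_of_supp (hb k) N (hs k)).mul_bdd (c := 1)
      · exact (by fun_prop : Measurable fun η : ℝ => ee (x * η - t * (η ^ 2 + (k:ℝ) ^ 2))).aestronglyMeasurable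
      · exact Filter.Eventually.of_forall fun η => (norm_ee _).le
    rw [integral_LL N _ hint (fun η hη => by rw [hs k η hη, zero_mul])]
    refine Finset.sum_congr rfl fun l _ => ?_
    rw [← integral_const_mul]
    refine integral_congr_ae (Filter.Eventually.of_forall fun θ => ?_)
    simp only
    rw [mul_left_comm, ← ee_add, ← ee_add, ← ee_add]
    congr 2
    unfold sqf
    push_cast
    ring
  rw [e1]
  have e2 : (fun q : ℕ => ((-(Complex.I * t)) ^ q / (q ! : ℂ)) * UU (LL N) 𝓚 sqf (aq b q) t x) =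
      fun q => ∑ l ∈ LL N, ∑ k ∈ 𝓚, (ee (l * x - (l:ℝ) ^ 2 * t) *
      ee (((-sqf k : ℤ) : ℝ) * t)) * (((-(Complex.I * t)) ^ q / (q ! : ℂ)) *
      ff (fun θ => ((θ ^ (2 * q) : ℝ) : ℂ) * b k (l + θ)) (x - 2 * l * t)) := by
    ext q
    unfold UU al aq
    rw [Finset.mul_sum]
    refine Finset.sum_congr rfl fun l _ => ?_
    rw [Finset.mul_sum, Finset.mul_sum]
    refine Finset.sum_congr rfl fun k _ => ?_
    ring
  rw [e2]
  apply hasSum_sum
  intro l _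
  apply hasSum_sum
  intro k _
  apply HasSum.mul_left
  exact ff_quad (integrable_of_memLp (memLp_cell (hb k) l)) t _

lemma continuous_UUaq (N : ℕ) (𝓚 : Finset ℤ) (b : ℤ → ℝ → ℂ) (hb : ∀ k, MemLp (b k) 2 volume)
    (q : ℕ) : Continuous (fun p : ℝ × ℝ => UU (LL N) 𝓚 sqf (aq b q) p.1 p.2) :=
  continuous_UU _ _ _ _ (fun l k => memLp_aq hb q l k)

theorem L3uu (ε : ℝ) (hε : 0 < ε) (T : ℝ) (hT : 0 ≤ T) : ∃ C : ℝ, 0 ≤ C ∧ ∀ (N : ℕ), 1 ≤ N →
    ∀ (k0 : ℤ) (𝓚 : Finset ℤ), (∀ k ∈ 𝓚, |k - k0| ≤ N) →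
    ∀ (b : ℤ → ℝ → ℂ), (∀ k, MemLp (b k) 2 volume) → (∀ k η, (N:ℝ) < |η| → b k η = 0) →
    eLpNorm (fun p : ℝ × ℝ => uu 𝓚 b p.1 p.2) 3 (nuT T)
      ≤ ENNReal.ofReal (C * (N:ℝ) ^ ε) * sr (mb 𝓚 b) := by
  obtain ⟨C, hC, hL⟩ := L3model ε hε T
  refine ⟨Real.exp T * C, by positivity, ?_⟩
  intro N hN k0 𝓚 h𝓚 b hb hs
  set f : ℕ → ℝ × ℝ → ℂ := fun n p => ∑ q ∈ Finset.range n,
    ((-(Complex.I * p.1)) ^ q / (q ! : ℂ)) * UU (LL N) 𝓚 sqf (aq b q) p.1 p.2 with hf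
  have hfc : ∀ n, AEStronglyMeasurable (f n) (nuT T) := by
    intro n
    apply Continuous.aestronglyMeasurable
    simp only [hf]
    apply continuous_finsetSum
    intro q _
    exact (by fun_prop : Continuous fun p : ℝ × ℝ => (-(Complex.I * (p.1:ℂ))) ^ q / (q ! : ℂ)).mul
      (continuous_UUaq N 𝓚 b hb q)
  have hlim : ∀ᵐ p ∂(nuT T), Filter.Tendsto (fun n => f n p) Filter.atTop
      (nhds ((fun p : ℝ × ℝ => uu 𝓚 b p.1 p.2) p)) :=
    Filter.Eventually.of_forall fun p => (uu_hasSum N 𝓚 b hb hs p.1 p.2).tendsto_sum_nat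
  refine (Lp.eLpNorm_lim_le_liminf_eLpNorm hfc _ hlim).trans ?_
  apply Filter.liminf_le_of_le
  · isBoundedDefault
  · intro c hc
    obtain ⟨n, hn⟩ := hc.exists
    refine hn.trans ?_
    have hterm : ∀ q : ℕ, eLpNorm (fun p : ℝ × ℝ => ((-(Complex.I * p.1)) ^ q / (q ! : ℂ)) *
        UU (LL N) 𝓚 sqf (aq b q) p.1 p.2) 3 (nuT T)
        ≤ ENNReal.ofReal (T ^ q / q !) * (ENNReal.ofReal (C * (N:ℝ) ^ ε) * sr (mb 𝓚 b)) := by
      intro q
      have h1 : eLpNorm (fun p : ℝ × ℝ => UU (LL N) 𝓚 sqf (aq b q) p.1 p.2) 3 (nuT T)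
          ≤ ENNReal.ofReal (C * (N:ℝ) ^ ε) * sr (mb 𝓚 b) := by
        refine (hL N hN k0 𝓚 (LL N) h𝓚 (LL_abs N) (aq b q) (fun l k => memLp_aq hb q l k)).trans ?_
        gcongr
        exact ms_aq_le N 𝓚 b q
      refine le_trans ?_ (mul_le_mul_right h1 _)
      apply eLpNorm_le_mul_eLpNorm_of_ae_le_mul
      have hae : ∀ᵐ p ∂(nuT T), p.1 ∈ Set.Ioc (-T) T :=
        Measure.quasiMeasurePreserving_fst.ae (ae_restrict_mem measurableSet_Ioc)
      filter_upwards [hae] with p hp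
      rw [norm_mul, norm_div, norm_pow, norm_neg, norm_mul, Complex.norm_I, one_mul,
        Complex.norm_real, Real.norm_eq_abs, Complex.norm_natCast]
      gcongr
      exact abs_le.2 ⟨hp.1.le, hp.2⟩
    have h2 : eLpNorm (f n) 3 (nuT T) ≤ ∑ q ∈ Finset.range n, eLpNorm (fun p : ℝ × ℝ =>
        ((-(Complex.I * p.1)) ^ q / (q ! : ℂ)) * UU (LL N) 𝓚 sqf (aq b q) p.1 p.2) 3 (nuT T) := by
      have e3 : f n = ∑ q ∈ Finset.range n, (fun p : ℝ × ℝ =>
        ((-(Complex.I * p.1)) ^ q / (q ! : ℂ)) * UU (LL N) 𝓚 sqf (aq b q) p.1 p.2) := by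
        ext p
        rw [Finset.sum_apply]
      rw [e3]
      apply eLpNorm_sum_le _ (by norm_num)
      intro q _
      exact ((by fun_prop : Continuous fun p : ℝ × ℝ => (-(Complex.I * (p.1:ℂ))) ^ q / (q ! : ℂ)).mul
        (continuous_UUaq N 𝓚 b hb q)).aestronglyMeasurable
    refine h2.trans ((Finset.sum_le_sum fun q _ => hterm q).trans ?_)
    rw [← Finset.sum_mul]
    rw [mul_assoc, ENNReal.ofReal_mul (Real.exp_pos T).le, mul_assoc]
    gcongr
    rw [← ENNReal.ofReal_sum_of_nonneg (fun q _ => by positivity)]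
    exact ENNReal.ofReal_le_ofReal (Real.sum_le_exp_of_nonneg hT n)

end Pool.Agent.E8helper95
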