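import Pool.Agent.E8helper95.F15
import Mathlib.NumberTheory.ModularForms.JacobiTheta.TwoVariable
import Mathlib.NumberTheory.ModularForms.JacobiTheta.OneVariable

/-!
Kernel bounds with Gaussian weights.
-/

set_option autoImplicit false

namespace Pool.Agent.E8helper95

open MeasureTheory Complex Set Finset
open scoped ENNReal ComplexConjugate Nat

/-- Gaussian weight -/
noncomputable def gw (N : ℕ) (y : ℝ) : ℝ := Real.exp (-(y / N) ^ 2)

/-- sum over the discrete frequencies -/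
noncomputable def BG (N : ℕ) (k0 : ℤ) (r : ℝ) : ℂ :=
  ∑' n : ℤ, (gw N (n - k0) : ℂ) * ee ((n:ℝ) ^ 2 * r)

/-- integral over the continuous frequency -/
noncomputable def KG (N : ℕ) (r w : ℝ) : ℂ := ∫ η, (gw N η : ℂ) * (ee (η ^ 2 * r) * ee (η * w))

lemma KG_bound (N : ℕ) (hN : 1 ≤ N) (r w : ℝ) (hr : r ≠ 0) :
    ‖KG N r w‖ ≤ Real.sqrt (Real.pi / |r|) := by
  have hN' : (0:ℝ) < N := by exact_mod_cast hN
  set b : ℂ := -(1 / (N:ℂ) ^ 2) + Complex.I * r with hb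
  have hbre : b.re = -(1 / (N:ℝ) ^ 2) := by
    have : b = ((-(1 / (N:ℝ) ^ 2) : ℝ) : ℂ) + (r:ℂ) * Complex.I := by
      rw [hb]; push_cast; ring
    rw [this, Complex.add_re, Complex.ofReal_re, Complex.re_ofReal_mul, Complex.I_re]; ring
  have hbim : b.im = r := by
    have : b = ((-(1 / (N:ℝ) ^ 2) : ℝ) : ℂ) + (r:ℂ) * Complex.I := by
      rw [hb]; push_cast; ring
    rw [this, Complex.add_im, Complex.ofReal_im, Complex.im_ofReal_mul, Complex.I_im]; ring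
  have hb0 : b.re < 0 := by rw [hbre]; have : 0 < 1 / (N:ℝ) ^ 2 := by positivity
                            linarith
  have e1 : KG N r w = ∫ x : ℝ, cexp (b * x ^ 2 + (Complex.I * w) * x + 0) := by
    unfold KG
    refine integral_congr_ae (Filter.Eventually.of_forall fun η => ?_)
    simp only
    unfold gw ee
    rw [Complex.ofReal_exp, ← Complex.exp_add, ← Complex.exp_add]
    congr 1
    rw [hb]
    push_cast
    ring
  rw [e1, integral_cexp_quadratic hb0, norm_mul]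
  have hbn : |r| ≤ ‖b‖ := by rw [← hbim]; exact Complex.abs_im_le_norm b
  have hr' : 0 < |r| := abs_pos.2 hr
  have h1 : ‖((Real.pi:ℂ) / -b) ^ (1 / 2 : ℂ)‖ ≤ Real.sqrt (Real.pi / |r|) := by
    rw [show (1 / 2 : ℂ) = ((1 / 2 : ℝ) : ℂ) by push_cast; rfl, norm_cpow_real, norm_div, norm_neg,
      Complex.norm_real, Real.norm_eq_abs, abs_of_pos Real.pi_pos, ← Real.sqrt_eq_rpow]
    apply Real.sqrt_le_sqrt
    gcongr
  have h2 : ‖cexp (0 - (Complex.I * w) ^ 2 / (4 * b))‖ ≤ 1 := by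
    rw [Complex.norm_exp]
    apply Real.exp_le_one_iff.2
    have e2 : 0 - (Complex.I * (w:ℂ)) ^ 2 / (4 * b) = ((w ^ 2 / 4 : ℝ) : ℂ) * b⁻¹ := by
      rw [mul_pow, Complex.I_sq]
      push_cast
      field_simp
      ring
    rw [e2, Complex.re_ofReal_mul, Complex.inv_re]
    apply mul_nonpos_of_nonneg_of_nonpos (by positivity)
    exact div_nonpos_of_nonpos_of_nonneg hb0.le (Complex.normSq_nonneg b)
  calc _ ≤ Real.sqrt (Real.pi / |r|) * 1 := by gcongr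
    _ = _ := mul_one _

lemma summable_gauss4 : Summable (fun n : ℤ => Real.exp (-(n:ℝ) ^ 2 / 4)) := by
  have him : (((1 / (4 * Real.pi) : ℝ) : ℂ) * Complex.I).im = 1 / (4 * Real.pi) := by
    rw [Complex.im_ofReal_mul, Complex.I_im, mul_one]
  have hpi := Real.pi_pos
  have h := ((summable_jacobiTheta₂_term_iff 0 (((1 / (4 * Real.pi) : ℝ) : ℂ) * Complex.I)).2 (by
    rw [him]; positivity)).norm
  refine h.congr fun n => ?_
  rw [norm_jacobiTheta₂_term, him]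
  congr 1
  simp only [Complex.zero_im, mul_zero, sub_zero]
  field_simp

/-- constant for the periodised Gaussian -/
noncomputable def cG : ℝ := ∑' n : ℤ, Real.exp (-(n:ℝ) ^ 2 / 4)

lemma cG_nonneg : 0 ≤ cG := tsum_nonneg fun _ => (Real.exp_pos _).le

lemma gauss_shift_le (z : ℝ) (n : ℤ) :
    Real.exp (-(z - n) ^ 2) ≤ Real.exp (-((n - round z : ℤ) : ℝ) ^ 2 / 4) := by
  apply Real.exp_le_exp.2
  have h1 := abs_le.1 (abs_sub_round z)
  push_cast
  rcases lt_trichotomy n (round z) with h | h | h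
  · have h2 : (n:ℝ) + 1 ≤ round z := by exact_mod_cast h
    nlinarith [h1.1, h1.2]
  · rw [h]
    nlinarith [h1.1, h1.2, sq_nonneg (z - round z)]
  · have h2 : (round z:ℝ) + 1 ≤ n := by exact_mod_cast h
    nlinarith [h1.1, h1.2]

lemma gauss_sum_le (z : ℝ) (κ : ℝ) (hκ : 1 ≤ Real.pi * κ) :
    Summable (fun n : ℤ => Real.exp (-(Real.pi * κ * (z - n) ^ 2))) ∧
    ∑' n : ℤ, Real.exp (-(Real.pi * κ * (z - n) ^ 2)) ≤ cG := by
  have hs : Summable (fun n : ℤ => Real.exp (-((n - round z : ℤ) : ℝ) ^ 2 / 4)) :=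
    summable_gauss4.comp_injective (i := fun n : ℤ => n - round z) (sub_left_injective)
  have hle : ∀ n : ℤ, Real.exp (-(Real.pi * κ * (z - n) ^ 2))
      ≤ Real.exp (-((n - round z : ℤ) : ℝ) ^ 2 / 4) := by
    intro n
    refine le_trans ?_ (gauss_shift_le z n)
    apply Real.exp_le_exp.2
    nlinarith [sq_nonneg (z - n)]
  have hs1 := Summable.of_nonneg_of_le (fun n => (Real.exp_pos _).le) hle hs
  refine ⟨hs1, (hs1.tsum_le_tsum hle hs).trans (le_of_eq ?_)⟩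
  unfold cG
  exact (Equiv.subRight (round z)).tsum_eq (fun n : ℤ => Real.exp (-(n:ℝ) ^ 2 / 4))

lemma BG_eq (N : ℕ) (hN : 1 ≤ N) (k0 : ℤ) (r : ℝ) :
    BG N k0 r = ee ((k0:ℝ) ^ 2 * r) *
      jacobiTheta₂ (((k0 * r / Real.pi : ℝ)) : ℂ) (((r:ℂ) + Complex.I / (N:ℂ) ^ 2) / Real.pi) := by
  unfold BG jacobiTheta₂
  rw [← tsum_mul_left, ← (Equiv.addRight k0).tsum_eq]
  refine tsum_congr fun m => ?_
  simp only [Equiv.coe_addRight]
  unfold gw ee jacobiTheta₂_term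
  rw [Complex.ofReal_exp, ← Complex.exp_add, ← Complex.exp_add]
  congr 1
  have hpi : (Real.pi:ℂ) ≠ 0 := by exact_mod_cast Real.pi_ne_zero
  have hN' : (N:ℂ) ≠ 0 := by exact_mod_cast (by omega : N ≠ 0)
  push_cast
  field_simp
  ring_nf
  rw [Complex.I_sq]
  ring

lemma BG_bound0 (N : ℕ) (hN : 1 ≤ N) (k0 : ℤ) (r : ℝ) (hr : |r| ≤ 1 / N) :
    ‖BG N k0 r‖ ≤ Real.sqrt (Real.pi / ‖((r:ℂ) + Complex.I / (N:ℂ) ^ 2)‖) * cG := by
  have hN' : (1:ℝ) ≤ N := by exact_mod_cast hN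
  have hpi := Real.pi_pos
  set τ : ℂ := ((r:ℂ) + Complex.I / (N:ℂ) ^ 2) / Real.pi with hτ
  set z : ℝ := k0 * r / Real.pi with hz
  have eτ : τ = ((r / Real.pi : ℝ) : ℂ) + ((1 / ((N:ℝ) ^ 2 * Real.pi) : ℝ) : ℂ) * Complex.I := by
    rw [hτ]; push_cast; field_simp
  have hτre : τ.re = r / Real.pi := by
    rw [eτ, Complex.add_re, Complex.ofReal_re, Complex.re_ofReal_mul, Complex.I_re]; ring
  have hτim : τ.im = 1 / ((N:ℝ) ^ 2 * Real.pi) := by
    rw [eτ, Complex.add_im, Complex.ofReal_im, Complex.im_ofReal_mul, Complex.I_im]; ring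
  have hτim0 : 0 < τ.im := by rw [hτim]; positivity
  have hτ0 : τ ≠ 0 := by
    intro h; rw [h] at hτim0; simp at hτim0
  -- imaginary part of `-1/τ`
  set κ : ℝ := (-1 / τ).im with hκ
  have hκ1 : 1 ≤ Real.pi * κ := by
    have e1 : κ = τ.im / Complex.normSq τ := by
      rw [hκ, neg_div, Complex.neg_im, one_div, Complex.inv_im]; ring
    have hns : Complex.normSq τ = (r ^ 2 + 1 / (N:ℝ) ^ 4) / Real.pi ^ 2 := by
      rw [Complex.normSq_apply, hτre, hτim]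
      field_simp
    have hr2 : r ^ 2 ≤ 1 / (N:ℝ) ^ 2 := by
      rw [← sq_abs, show 1 / (N:ℝ) ^ 2 = (1 / N) ^ 2 by rw [div_pow, one_pow]]
      gcongr
    have hN4 : 1 / (N:ℝ) ^ 4 ≤ 1 / (N:ℝ) ^ 2 := by
      apply one_div_le_one_div_of_le (by positivity)
      exact pow_le_pow_right₀ hN' (by norm_num)
    have hns2 : Complex.normSq τ ≤ 2 / ((N:ℝ) ^ 2 * Real.pi ^ 2) := by
      rw [hns]
      rw [div_le_div_iff₀ (by positivity) (by positivity)]
      have : r ^ 2 + 1 / (N:ℝ) ^ 4 ≤ 2 / (N:ℝ) ^ 2 := by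
        calc r ^ 2 + 1 / (N:ℝ) ^ 4 ≤ 1 / (N:ℝ) ^ 2 + 1 / (N:ℝ) ^ 2 := by linarith
          _ = _ := by ring
      calc (r ^ 2 + 1 / (N:ℝ) ^ 4) * ((N:ℝ) ^ 2 * Real.pi ^ 2)
          ≤ 2 / (N:ℝ) ^ 2 * ((N:ℝ) ^ 2 * Real.pi ^ 2) := by gcongr
        _ = 2 * Real.pi ^ 2 := by field_simp
    rw [e1, ← mul_div_assoc, le_div_iff₀ (Complex.normSq_pos.2 hτ0), one_mul, hτim]
    refine hns2.trans ?_
    rw [mul_one_div, div_le_div_iff₀ (by positivity) (by positivity)]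
    have h3 : (3:ℝ) < Real.pi := Real.pi_gt_three
    have : 2 * ((N:ℝ) ^ 2 * Real.pi) ≤ (Real.pi * Real.pi) * ((N:ℝ) ^ 2 * Real.pi) := by
      gcongr; nlinarith
    calc _ ≤ (Real.pi * Real.pi) * ((N:ℝ) ^ 2 * Real.pi) := this
      _ = _ := by ring
  rw [BG_eq N hN k0 r, ← hτ, ← hz, norm_mul, norm_ee, one_mul, jacobiTheta₂_functional_equation,
    mul_assoc, norm_mul]
  have h1 : ‖1 / (-Complex.I * τ) ^ (1 / 2 : ℂ)‖
      = Real.sqrt (Real.pi / ‖((r:ℂ) + Complex.I / (N:ℂ) ^ 2)‖) := by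
    rw [norm_div, norm_one, show (1 / 2 : ℂ) = ((1 / 2 : ℝ) : ℂ) by push_cast; rfl, norm_cpow_real,
      norm_mul, norm_neg, Complex.norm_I, one_mul, ← Real.sqrt_eq_rpow, one_div, ← Real.sqrt_inv]
    congr 1
    rw [hτ, norm_div, Complex.norm_real, Real.norm_eq_abs, abs_of_pos hpi, inv_div]
  rw [h1]
  gcongr
  unfold jacobiTheta₂
  rw [← tsum_mul_left]
  have h2 : ∀ n : ℤ, ‖cexp (-Real.pi * Complex.I * (z:ℂ) ^ 2 / τ) *
      jacobiTheta₂_term n ((z:ℂ) / τ) (-1 / τ)‖ = Real.exp (-(Real.pi * κ * (z - n) ^ 2)) := by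
    intro n
    unfold jacobiTheta₂_term
    rw [← Complex.exp_add, Complex.norm_exp]
    congr 1
    have e3 : -Real.pi * Complex.I * (z:ℂ) ^ 2 / τ +
        (2 * Real.pi * Complex.I * n * ((z:ℂ) / τ) + Real.pi * Complex.I * n ^ 2 * (-1 / τ)) =
        ((Real.pi * (z - n) ^ 2 : ℝ) : ℂ) * (Complex.I * (-1 / τ)) := by
      push_cast
      field_simp
      ring
    rw [e3, Complex.re_ofReal_mul, Complex.I_mul_re, ← hκ]
    ring
  obtain ⟨hs, hb⟩ := gauss_sum_le z κ hκ1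
  refine (norm_tsum_le_tsum_norm (hs.congr fun n => (h2 n).symm)).trans ?_
  simp_rw [h2]
  exact hb

end Pool.Agent.E8helper95
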