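import Pool.Agent.E8helper95.F16

/-!
Weighted frequency measures.
-/

set_option autoImplicit false

namespace Pool.Agent.E8helper95

open MeasureTheory Complex Set Finset
open scoped ENNReal ComplexConjugate Nat

lemma gw_pos (N : ℕ) (y : ℝ) : 0 < gw N y := Real.exp_pos _

@[fun_prop]
lemma continuous_gw (N : ℕ) : Continuous (gw N) := by
  unfold gw; fun_prop

lemma summable_gw (N : ℕ) (hN : 1 ≤ N) (k0 : ℤ) : Summable (fun n : ℤ => gw N (n - k0)) := by
  have hN' : (0:ℝ) < N := by exact_mod_cast hN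
  have hpi := Real.pi_pos
  have him : (((1 / ((N:ℝ) ^ 2 * Real.pi) : ℝ) : ℂ) * Complex.I).im = 1 / ((N:ℝ) ^ 2 * Real.pi) := by
    rw [Complex.im_ofReal_mul, Complex.I_im, mul_one]
  have h := ((summable_jacobiTheta₂_term_iff 0
    (((1 / ((N:ℝ) ^ 2 * Real.pi) : ℝ) : ℂ) * Complex.I)).2 (by rw [him]; positivity)).norm
  have h2 : Summable (fun n : ℤ => gw N n) := by
    refine h.congr fun n => ?_
    rw [norm_jacobiTheta₂_term, him]
    unfold gw
    congr 1
    simp only [Complex.zero_im, mul_zero, sub_zero]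
    field_simp
  have h3 := h2.comp_injective (i := fun n : ℤ => n - k0) (sub_left_injective)
  refine h3.congr fun n => ?_
  simp only [Function.comp]
  push_cast
  rfl

lemma one_le_cG : 1 ≤ cG := by
  unfold cG
  have h := summable_gauss4.le_tsum (0:ℤ) (fun _ _ => (Real.exp_pos _).le)
  simpa using h

lemma sqrt_pi_le : Real.sqrt Real.pi ≤ 2 := by
  rw [Real.sqrt_le_left (by norm_num)]
  linarith [Real.pi_le_four]

/-- `|r|^{-1/2}` with value `⊤` at `0` -/
noncomputable def rh (r : ℝ) : ℝ≥0∞ := ‖r‖ₑ ^ (-(1 / 2) : ℝ)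

@[fun_prop]
lemma measurable_rh : Measurable rh := by
  unfold rh; fun_prop

lemma rh_zero : rh 0 = ⊤ := by
  unfold rh
  rw [enorm_zero, ENNReal.zero_rpow_of_neg (by norm_num)]

lemma ofReal_sqrt_div (r : ℝ) (hr : r ≠ 0) : ENNReal.ofReal (Real.sqrt (Real.pi / |r|)) ≤ 2 * rh r := by
  have hr' : 0 < |r| := abs_pos.2 hr
  rw [Real.sqrt_div Real.pi_pos.le, ENNReal.ofReal_div_of_pos (Real.sqrt_pos.2 hr'), ENNReal.div_eq_inv_mul,
    mul_comm]
  unfold rh
  have h1 : ‖r‖ₑ ^ (-(1 / 2) : ℝ) = (ENNReal.ofReal (Real.sqrt |r|))⁻¹ := by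
    rw [ENNReal.rpow_neg, Real.enorm_eq_ofReal_abs, Real.sqrt_eq_rpow,
      ENNReal.ofReal_rpow_of_pos hr']
  rw [h1]
  gcongr
  rw [show (2:ℝ≥0∞) = ENNReal.ofReal 2 by simp]
  exact ENNReal.ofReal_le_ofReal sqrt_pi_le

lemma KG_le (N : ℕ) (hN : 1 ≤ N) (r w : ℝ) : ‖KG N r w‖ₑ ≤ 2 * rh r := by
  by_cases hr : r = 0
  · rw [hr, rh_zero, ENNReal.mul_top (by norm_num)]
    exact le_top
  · refine le_trans ?_ (ofReal_sqrt_div r hr)
    rw [← ofReal_norm]
    exact ENNReal.ofReal_le_ofReal (KG_bound N hN r w hr)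

lemma BG_le (N : ℕ) (hN : 1 ≤ N) (k0 : ℤ) (r : ℝ) (hr : |r| ≤ 1 / N) :
    ‖BG N k0 r‖ₑ ≤ ENNReal.ofReal cG * (2 * rh r) := by
  by_cases hr0 : r = 0
  · rw [hr0, rh_zero, ENNReal.mul_top (by norm_num), ENNReal.mul_top]
    · exact le_top
    · exact (ENNReal.ofReal_pos.2 (lt_of_lt_of_le one_pos one_le_cG)).ne'
  · refine le_trans ?_ (mul_le_mul_right (ofReal_sqrt_div r hr0) _)
    rw [← ofReal_norm, ← ENNReal.ofReal_mul cG_nonneg]
    apply ENNReal.ofReal_le_ofReal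
    refine (BG_bound0 N hN k0 r hr).trans ?_
    rw [mul_comm]
    apply mul_le_mul_of_nonneg_left _ cG_nonneg
    apply Real.sqrt_le_sqrt
    have h1 : |r| ≤ ‖((r:ℂ) + Complex.I / (N:ℂ) ^ 2)‖ := by
      have e : ((r:ℂ) + Complex.I / (N:ℂ) ^ 2).re = r := by
        rw [show ((r:ℂ) + Complex.I / (N:ℂ) ^ 2) = (r:ℂ) + ((1 / (N:ℝ) ^ 2 : ℝ) : ℂ) * Complex.I by
          push_cast; ring]
        rw [Complex.add_re, Complex.ofReal_re, Complex.re_ofReal_mul, Complex.I_re]; ring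
      calc |r| = |((r:ℂ) + Complex.I / (N:ℂ) ^ 2).re| := by rw [e]
        _ ≤ _ := Complex.abs_re_le_norm _
    have hr' : 0 < |r| := abs_pos.2 hr0
    gcongr

lemma BG_zero (N : ℕ) (hN : 1 ≤ N) (k0 : ℤ) : ∑' n : ℤ, gw N (n - k0) ≤ 2 * cG * N := by
  have hN' : (0:ℝ) < N := by exact_mod_cast hN
  have h := BG_bound0 N hN k0 0 (by rw [abs_zero]; positivity)
  have e1 : BG N k0 0 = ((∑' n : ℤ, gw N (n - k0) : ℝ) : ℂ) := by
    unfold BG
    rw [Complex.ofReal_tsum]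
    refine tsum_congr fun n => ?_
    rw [mul_zero, ee_zero, mul_one]
  have h0 : 0 ≤ ∑' n : ℤ, gw N (n - k0) := tsum_nonneg fun _ => (gw_pos _ _).le
  rw [e1, Complex.norm_real, Real.norm_eq_abs, abs_of_nonneg h0] at h
  refine h.trans ?_
  have e2 : ‖(((0:ℝ):ℂ) + Complex.I / (N:ℂ) ^ 2)‖ = 1 / (N:ℝ) ^ 2 := by
    rw [Complex.ofReal_zero, zero_add, norm_div, Complex.norm_I, norm_pow, Complex.norm_natCast]
  rw [e2, div_div_eq_mul_div, div_one, Real.sqrt_mul Real.pi_pos.le, Real.sqrt_sq hN'.le]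
  have := sqrt_pi_le
  have := cG_nonneg
  calc Real.sqrt Real.pi * N * cG ≤ 2 * N * cG := by gcongr
    _ = _ := by ring

/-- the weighted measure of the discrete frequency -/
noncomputable def rho1 (N : ℕ) (k0 : ℤ) : Measure ℤ :=
  Measure.count.withDensity (fun k : ℤ => ENNReal.ofReal (gw N (k - k0)))

/-- the weighted measure of the continuous frequency -/
noncomputable def rho2 (N : ℕ) : Measure ℝ :=
  volume.withDensity (fun η : ℝ => ENNReal.ofReal (gw N η))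

lemma finite_rho1 (N : ℕ) (hN : 1 ≤ N) (k0 : ℤ) : IsFiniteMeasure (rho1 N k0) := by
  apply isFiniteMeasure_withDensity_ofReal
  have h : Integrable (fun k : ℤ => gw N (k - k0)) Measure.count := by
    rw [integrable_count_iff]
    exact (summable_gw N hN k0).norm
  exact h.2

lemma integrable_gw (N : ℕ) (hN : 1 ≤ N) : Integrable (gw N) := by
  have hN' : (0:ℝ) < N := by exact_mod_cast hN
  refine (integrable_exp_neg_mul_sq (b := 1 / (N:ℝ) ^ 2) (by positivity)).congr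
    (Filter.Eventually.of_forall fun y => ?_)
  unfold gw
  simp only
  congr 1
  field_simp

lemma finite_rho2 (N : ℕ) (hN : 1 ≤ N) : IsFiniteMeasure (rho2 N) :=
  isFiniteMeasure_withDensity_ofReal (integrable_gw N hN).2

lemma integral_rho2 (N : ℕ) (f : ℝ → ℂ) : ∫ η, f η ∂(rho2 N) = ∫ η, (gw N η : ℂ) * f η := by
  unfold rho2
  rw [integral_withDensity_eq_integral_toReal_smul (by fun_prop)
    (Filter.Eventually.of_forall fun _ => ENNReal.ofReal_lt_top)]
  refine integral_congr_ae (Filter.Eventually.of_forall fun η => ?_)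
  simp only
  rw [ENNReal.toReal_ofReal (gw_pos N η).le, Complex.real_smul]

lemma rho1_singleton (N : ℕ) (k0 k : ℤ) : rho1 N k0 {k} = ENNReal.ofReal (gw N (k - k0)) := by
  unfold rho1
  rw [withDensity_apply _ (measurableSet_singleton k), lintegral_singleton]
  simp

lemma integral_rho1 (N : ℕ) (k0 : ℤ) (f : ℤ → ℂ) (hf : Integrable f (rho1 N k0)) :
    ∫ k, f k ∂(rho1 N k0) = ∑' k : ℤ, (gw N (k - k0) : ℂ) * f k := by
  rw [integral_countable hf]
  refine tsum_congr fun k => ?_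
  rw [measureReal_def, rho1_singleton, ENNReal.toReal_ofReal (gw_pos _ _).le, Complex.real_smul]

lemma KG_eq (N : ℕ) (r w : ℝ) : KG N r w = ∫ η, ee (η ^ 2 * r) * ee (η * w) ∂(rho2 N) := by
  rw [integral_rho2]; rfl

lemma BG_eq_int (N : ℕ) (hN : 1 ≤ N) (k0 : ℤ) (r : ℝ) :
    BG N k0 r = ∫ k, ee ((k:ℝ) ^ 2 * r) ∂(rho1 N k0) := by
  haveI := finite_rho1 N hN k0
  rw [integral_rho1]
  · rfl
  · apply Integrable.of_bound (C := 1)
    · exact (measurable_of_countable _).aestronglyMeasurable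
    · exact Filter.Eventually.of_forall fun k => (norm_ee _).le

lemma BG_le' (N : ℕ) (hN : 1 ≤ N) (k0 : ℤ) (r : ℝ) :
    ‖BG N k0 r‖ₑ ≤ ENNReal.ofReal (2 * cG * N) := by
  rw [← ofReal_norm]
  apply ENNReal.ofReal_le_ofReal
  refine le_trans ?_ (BG_zero N hN k0)
  unfold BG
  have h1 : ∀ n : ℤ, ‖(gw N (n - k0) : ℂ) * ee ((n:ℝ) ^ 2 * r)‖ = gw N (n - k0) := by
    intro n
    rw [norm_mul, norm_ee, mul_one, Complex.norm_real, Real.norm_eq_abs, abs_of_pos (gw_pos _ _)]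
  refine (norm_tsum_le_tsum_norm ((summable_gw N hN k0).congr fun n => (h1 n).symm)).trans ?_
  simp_rw [h1]
  exact le_rfl

end Pool.Agent.E8helper95
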