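import Pool.Agent.E8helper95.F17

/-!
Fubini and the `TT*` identity.
-/

set_option autoImplicit false

namespace Pool.Agent.E8helper95

open MeasureTheory Complex Set Finset
open scoped ENNReal ComplexConjugate Nat

/-- one-sided Fubini lemma -/
lemma fub1 {X Ω : Type*} [MeasurableSpace X] [MeasurableSpace Ω] (μ : Measure X) [SFinite μ]
    (ρ : Measure Ω) [SFinite ρ] (f : X → ℂ) (hf : Integrable f μ)
    (e : X × Ω → ℂ) (he : Measurable e) (hb : ∀ z, ‖e z‖ ≤ 1)
    (c : Ω → ℂ) (hc : Integrable c ρ) :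
    ∫ ω, (∫ x, f x * e (x, ω) ∂μ) * c ω ∂ρ = ∫ x, f x * (∫ ω, e (x, ω) * c ω ∂ρ) ∂μ := by
  have hint : Integrable (fun z : Ω × X => f z.2 * (e (z.2, z.1) * c z.1)) (ρ.prod μ) := by
    have h1 : Integrable (fun z : Ω × X => c z.1 * f z.2) (ρ.prod μ) := hc.mul_prod hf
    have h2 : Integrable (fun z : Ω × X => (c z.1 * f z.2) * e (z.2, z.1)) (ρ.prod μ) := by
      apply h1.mul_bdd (c := 1)
      · exact (he.comp (measurable_snd.prodMk measurable_fst)).aestronglyMeasurable
      · exact Filter.Eventually.of_forall fun z => hb _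
    refine h2.congr (Filter.Eventually.of_forall fun z => ?_)
    simp only
    ring
  calc ∫ ω, (∫ x, f x * e (x, ω) ∂μ) * c ω ∂ρ
      = ∫ ω, ∫ x, f x * (e (x, ω) * c ω) ∂μ ∂ρ := by
        refine integral_congr_ae (Filter.Eventually.of_forall fun ω => ?_)
        simp only
        rw [← integral_mul_const]
        refine integral_congr_ae (Filter.Eventually.of_forall fun x => ?_)
        simp only
        ring
    _ = ∫ x, ∫ ω, f x * (e (x, ω) * c ω) ∂ρ ∂μ := integral_integral_swap hint
    _ = _ := by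
        refine integral_congr_ae (Filter.Eventually.of_forall fun x => ?_)
        simp only
        rw [integral_const_mul]

lemma integrable_conj {X : Type*} [MeasurableSpace X] {μ : Measure X} {g : X → ℂ}
    (hg : Integrable g μ) : Integrable (fun x => conj (g x)) μ :=
  (RCLike.conjLIE (K := ℂ)).toContinuousLinearEquiv.toContinuousLinearMap.integrable_comp hg

/-- bounded integrals -/
lemma meas_and_bound {X' Ω : Type*} [MeasurableSpace X'] [MeasurableSpace Ω]
    (ν : Measure X') [SFinite ν]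
    (g : X' → ℂ) (hg : Integrable g ν) (hgm : Measurable g)
    (e' : X' × Ω → ℂ) (he' : Measurable e') (hb' : ∀ z, ‖e' z‖ ≤ 1) :
    Measurable (fun ω => ∫ x', g x' * e' (x', ω) ∂ν) ∧
    ∀ ω, ‖∫ x', g x' * e' (x', ω) ∂ν‖ ≤ ∫ x', ‖g x'‖ ∂ν := by
  constructor
  · have h1 : Measurable (Function.uncurry (fun (ω : Ω) (x' : X') => g x' * e' (x', ω))) :=
      (hgm.comp measurable_snd).mul (he'.comp (measurable_snd.prodMk measurable_fst))
    exact (h1.stronglyMeasurable.integral_prod_right (ν := ν)).measurable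
  · intro ω
    refine (norm_integral_le_integral_norm _).trans ?_
    apply integral_mono_of_nonneg
    · exact Filter.Eventually.of_forall fun _ => norm_nonneg _
    · exact hg.norm
    · refine Filter.Eventually.of_forall fun x' => ?_
      simp only
      rw [norm_mul]
      calc ‖g x'‖ * ‖e' (x', ω)‖ ≤ ‖g x'‖ * 1 := by
            gcongr
            exact hb' _
        _ = _ := mul_one _

/-- two-sided Fubini lemma -/
lemma fub2 {X X' Ω : Type*} [MeasurableSpace X] [MeasurableSpace X'] [MeasurableSpace Ω]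
    (μ : Measure X) [SFinite μ] (ν : Measure X') [SFinite ν]
    (ρ : Measure Ω) [IsFiniteMeasure ρ] (f : X → ℂ) (hf : Integrable f μ)
    (g : X' → ℂ) (hg : Integrable g ν) (hgm : Measurable g)
    (e : X × Ω → ℂ) (he : Measurable e) (hb : ∀ z, ‖e z‖ ≤ 1)
    (e' : X' × Ω → ℂ) (he' : Measurable e') (hb' : ∀ z, ‖e' z‖ ≤ 1) :
    ∫ ω, (∫ x, f x * e (x, ω) ∂μ) * conj (∫ x', g x' * e' (x', ω) ∂ν) ∂ρ
      = ∫ x, f x * (∫ x', conj (g x') * (∫ ω, e (x, ω) * conj (e' (x', ω)) ∂ρ) ∂ν) ∂μ := by
  obtain ⟨hmc, hbc⟩ := meas_and_bound ν g hg hgm e' he' hb'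
  have hcint : Integrable (fun ω => conj (∫ x', g x' * e' (x', ω) ∂ν)) ρ := by
    apply integrable_conj
    exact Integrable.of_bound hmc.aestronglyMeasurable _ (Filter.Eventually.of_forall hbc)
  rw [fub1 μ ρ f hf e he hb _ hcint]
  refine integral_congr_ae (Filter.Eventually.of_forall fun x => ?_)
  simp only
  congr 1
  have h := fub1 ν ρ (fun x' => conj (g x')) (integrable_conj hg)
    (fun z => conj (e' z)) (by fun_prop) (fun z => by rw [RCLike.norm_conj]; exact hb' z)
    (fun ω => e (x, ω)) (Integrable.of_bound (by fun_prop : Measurable fun ω => e (x, ω)).aestronglyMeasurable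
      1 (Filter.Eventually.of_forall fun ω => hb _))
  calc ∫ ω, e (x, ω) * conj (∫ x', g x' * e' (x', ω) ∂ν) ∂ρ
      = ∫ ω, (∫ x', conj (g x') * conj (e' (x', ω)) ∂ν) * e (x, ω) ∂ρ := by
        refine integral_congr_ae (Filter.Eventually.of_forall fun ω => ?_)
        simp only
        rw [mul_comm]
        congr 1
        rw [← integral_conj]
        refine integral_congr_ae (Filter.Eventually.of_forall fun x' => ?_)
        simp only
        rw [map_mul]
    _ = _ := h
    _ = _ := by
        refine integral_congr_ae (Filter.Eventually.of_forall fun x' => ?_)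
        simp only
        congr 1
        refine integral_congr_ae (Filter.Eventually.of_forall fun ω => ?_)
        simp only
        ring

/-- the adjoint operator -/
noncomputable def Ts (F : ℝ × ℝ → ℂ) (k : ℤ) (η : ℝ) : ℂ :=
  ∫ p, F p * ee (-(p.2 * η - p.1 * (η ^ 2 + (k:ℝ) ^ 2)))

lemma Ts_meas_bound (F : ℝ × ℝ → ℂ) (hF : Integrable F) (hFm : Measurable F) :
    Measurable (fun z : ℤ × ℝ => Ts F z.1 z.2) ∧ ∀ z : ℤ × ℝ, ‖Ts F z.1 z.2‖ ≤ ∫ p, ‖F p‖ := by
  have := meas_and_bound (Ω := ℤ × ℝ) volume F hF hFm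
    (fun z => ee (-(z.1.2 * z.2.2 - z.1.1 * (z.2.2 ^ 2 + (z.2.1:ℝ) ^ 2)))) (by fun_prop)
    (fun z => (norm_ee _).le)
  exact this

lemma continuous_uu (𝓚 : Finset ℤ) (b : ℤ → ℝ → ℂ) (hb : ∀ k, Integrable (b k)) :
    Continuous (fun p : ℝ × ℝ => uu 𝓚 b p.1 p.2) := by
  unfold uu
  apply continuous_finsetSum
  intro k _
  apply continuous_of_dominated (bound := fun η => ‖b k η‖)
  · intro p
    exact (hb k).aestronglyMeasurable.mul
      (by fun_prop : Measurable fun η : ℝ => ee (p.2 * η - p.1 * (η ^ 2 + (k:ℝ) ^ 2))).aestronglyMeasurable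
  · intro p
    exact Filter.Eventually.of_forall fun η => by rw [norm_mul, norm_ee, mul_one]
  · exact (hb k).norm
  · exact Filter.Eventually.of_forall fun η => by fun_prop

/-- duality -/
lemma duality (𝓚 : Finset ℤ) (b : ℤ → ℝ → ℂ) (hb : ∀ k, Integrable (b k))
    (F : ℝ × ℝ → ℂ) (hF : Integrable F) :
    ∫ p, uu 𝓚 b p.1 p.2 * conj (F p) = ∑ k ∈ 𝓚, ∫ η, b k η * conj (Ts F k η) := by
  have hFc := integrable_conj hF
  have h1 : ∀ k : ℤ, ∫ p, (∫ η, b k η * ee (p.2 * η - p.1 * (η ^ 2 + (k:ℝ) ^ 2))) * conj (F p)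
      = ∫ η, b k η * conj (Ts F k η) := by
    intro k
    have h := fub1 (Ω := ℝ × ℝ) volume volume (b k) (hb k)
      (fun z => ee (z.2.2 * z.1 - z.2.1 * (z.1 ^ 2 + (k:ℝ) ^ 2))) (by fun_prop)
      (fun z => (norm_ee _).le) _ hFc
    refine h.trans ?_
    refine integral_congr_ae (Filter.Eventually.of_forall fun η => ?_)
    simp only
    congr 1
    unfold Ts
    rw [← integral_conj]
    refine integral_congr_ae (Filter.Eventually.of_forall fun p => ?_)
    simp only
    rw [map_mul, ← ee_neg, neg_neg, mul_comm]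
  unfold uu
  simp_rw [Finset.sum_mul]
  rw [integral_finset_sum]
  · exact Finset.sum_congr rfl fun k _ => h1 k
  · intro k _
    have hc := continuous_uu {k} b hb
    unfold uu at hc
    simp only [Finset.sum_singleton] at hc
    have hbd : ∀ p : ℝ × ℝ, ‖∫ η, b k η * ee (p.2 * η - p.1 * (η ^ 2 + (k:ℝ) ^ 2))‖
        ≤ ∫ η, ‖b k η‖ := by
      intro p
      refine (norm_integral_le_integral_norm _).trans (le_of_eq ?_)
      refine integral_congr_ae (Filter.Eventually.of_forall fun η => ?_)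
      simp only
      rw [norm_mul, norm_ee, mul_one]
    exact hFc.bdd_mul hc.aestronglyMeasurable (Filter.Eventually.of_forall hbd)

end Pool.Agent.E8helper95
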