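import Pool.Agent.E8helper95.F18

/-!
The `TT*` bound.
-/

set_option autoImplicit false

namespace Pool.Agent.E8helper95

open MeasureTheory Complex Set Finset FourierTransform
open scoped ENNReal ComplexConjugate Nat

/-- one-sided Fubini lemma, second version -/
lemma fub1' {X Ω : Type*} [MeasurableSpace X] [MeasurableSpace Ω] (μ : Measure X) [SFinite μ]
    (ρ : Measure Ω) [SFinite ρ] (v : X × Ω → ℂ) (hv : Measurable v) (m : X → ℝ)
    (hm : Integrable m μ) (hvm : ∀ z, ‖v z‖ ≤ m z.1)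
    (c : Ω → ℂ) (hc : Integrable c ρ) :
    ∫ ω, (∫ x, v (x, ω) ∂μ) * c ω ∂ρ = ∫ x, (∫ ω, v (x, ω) * c ω ∂ρ) ∂μ := by
  have hint : Integrable (fun z : Ω × X => v (z.2, z.1) * c z.1) (ρ.prod μ) := by
    have h1 : Integrable (fun z : Ω × X => ‖c z.1‖ * m z.2) (ρ.prod μ) := hc.norm.mul_prod hm
    apply h1.mono'
    · exact ((hv.comp (measurable_snd.prodMk measurable_fst)).aestronglyMeasurable).mul
        hc.aestronglyMeasurable.comp_fst
    · refine Filter.Eventually.of_forall fun z => ?_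
      rw [norm_mul, mul_comm]
      gcongr
      exact hvm _
  calc ∫ ω, (∫ x, v (x, ω) ∂μ) * c ω ∂ρ
      = ∫ ω, ∫ x, v (x, ω) * c ω ∂μ ∂ρ := by
        refine integral_congr_ae (Filter.Eventually.of_forall fun ω => ?_)
        simp only
        rw [← integral_mul_const]
    _ = ∫ x, ∫ ω, v (x, ω) * c ω ∂ρ ∂μ := integral_integral_swap hint

lemma fub3 {X X' Ω : Type*} [MeasurableSpace X] [MeasurableSpace X'] [MeasurableSpace Ω]
    (μ : Measure X) [SFinite μ] (ν : Measure X') [SFinite ν]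
    (ρ : Measure Ω) [IsFiniteMeasure ρ] (v : X × Ω → ℂ) (hv : Measurable v) (m : X → ℝ)
    (hm : Integrable m μ) (hvm : ∀ z, ‖v z‖ ≤ m z.1)
    (v' : X' × Ω → ℂ) (hv' : Measurable v') (m' : X' → ℝ)
    (hm' : Integrable m' ν) (hvm' : ∀ z, ‖v' z‖ ≤ m' z.1) :
    ∫ ω, (∫ x, v (x, ω) ∂μ) * conj (∫ x', v' (x', ω) ∂ν) ∂ρ
      = ∫ x, ∫ x', (∫ ω, v (x, ω) * conj (v' (x', ω)) ∂ρ) ∂ν ∂μ := by
  have hmeas : Measurable (fun ω => ∫ x', v' (x', ω) ∂ν) := by
    have h1 : Measurable (Function.uncurry (fun (ω : Ω) (x' : X') => v' (x', ω))) :=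
      hv'.comp (measurable_snd.prodMk measurable_fst)
    exact (h1.stronglyMeasurable.integral_prod_right (ν := ν)).measurable
  have hbd : ∀ ω, ‖∫ x', v' (x', ω) ∂ν‖ ≤ ∫ x', m' x' ∂ν := by
    intro ω
    refine (norm_integral_le_integral_norm _).trans ?_
    apply integral_mono_of_nonneg
    · exact Filter.Eventually.of_forall fun _ => norm_nonneg _
    · exact hm'
    · exact Filter.Eventually.of_forall fun x' => hvm' _
  have hcint : Integrable (fun ω => conj (∫ x', v' (x', ω) ∂ν)) ρ :=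
    integrable_conj (Integrable.of_bound hmeas.aestronglyMeasurable _
      (Filter.Eventually.of_forall hbd))
  rw [fub1' μ ρ v hv m hm hvm _ hcint]
  refine integral_congr_ae (Filter.Eventually.of_forall fun x => ?_)
  simp only
  have h := fub1' ν ρ (fun z => conj (v' z)) (by fun_prop) m' hm'
    (fun z => by rw [RCLike.norm_conj]; exact hvm' z)
    (fun ω => v (x, ω)) (Integrable.of_bound
      (by fun_prop : Measurable fun ω => v (x, ω)).aestronglyMeasurable
      (m x) (Filter.Eventually.of_forall fun ω => hvm _))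
  calc ∫ ω, v (x, ω) * conj (∫ x', v' (x', ω) ∂ν) ∂ρ
      = ∫ ω, (∫ x', conj (v' (x', ω)) ∂ν) * v (x, ω) ∂ρ := by
        refine integral_congr_ae (Filter.Eventually.of_forall fun ω => ?_)
        simp only
        rw [mul_comm]
        congr 1
        rw [← integral_conj]
    _ = _ := h
    _ = _ := by
        refine integral_congr_ae (Filter.Eventually.of_forall fun x' => ?_)
        simp only
        refine integral_congr_ae (Filter.Eventually.of_forall fun ω => ?_)
        simp only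
        ring

/-- partial Fourier transform in space -/
noncomputable def Ph (F : ℝ × ℝ → ℂ) (t η : ℝ) : ℂ := ∫ x, F (t, x) * ee (-(x * η))

/-- slice mass -/
noncomputable def Mt (F : ℝ × ℝ → ℂ) (t : ℝ) : ℝ≥0∞ := ∫⁻ x, ‖F (t, x)‖ₑ

lemma measurable_Ph (F : ℝ × ℝ → ℂ) (hFm : Measurable F) :
    Measurable (fun z : ℝ × ℝ => Ph F z.1 z.2) := by
  unfold Ph
  have h1 : Measurable (Function.uncurry (fun (z : ℝ × ℝ) (x : ℝ) =>
      F (z.1, x) * ee (-(x * z.2)))) := by fun_prop
  exact (h1.stronglyMeasurable.integral_prod_right (ν := volume)).measurable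

lemma measurable_Mt (F : ℝ × ℝ → ℂ) (hFm : Measurable F) : Measurable (Mt F) := by
  unfold Mt
  exact Measurable.lintegral_prod_right' (f := fun z : ℝ × ℝ => ‖F z‖ₑ) (by fun_prop)

lemma Ph_le (F : ℝ × ℝ → ℂ) (t η : ℝ) : ‖Ph F t η‖ₑ ≤ Mt F t := by
  unfold Ph Mt
  refine (enorm_integral_le_lintegral_enorm _).trans (le_of_eq ?_)
  refine lintegral_congr fun x => ?_
  rw [enorm_mul, enorm_ee, mul_one]

/-- Plancherel for a slice -/
lemma Ph_L2 (F : ℝ × ℝ → ℂ) (hFm : Measurable F) (hF1 : ∀ p, ‖F p‖ ≤ 1) (t : ℝ)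
    (hFt : Integrable (fun x => F (t, x))) :
    ∫⁻ η, ‖Ph F t η‖ₑ ^ 2 ≤ ENNReal.ofReal (2 * Real.pi) * Mt F t := by
  set h : ℝ → ℂ := fun x => F (t, x) with hh
  have hm : Measurable h := by rw [hh]; fun_prop
  have hsq : ∀ x, ‖h x‖ₑ ^ 2 ≤ ‖h x‖ₑ := by
    intro x
    have h1 : ‖h x‖ₑ ≤ 1 := by
      rw [← ofReal_norm, ← ENNReal.ofReal_one]
      exact ENNReal.ofReal_le_ofReal (hF1 _)
    calc ‖h x‖ₑ ^ 2 = ‖h x‖ₑ * ‖h x‖ₑ := sq _
      _ ≤ ‖h x‖ₑ * 1 := by gcongr
      _ = _ := mul_one _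
  have h2 : MemLp h 2 := by
    refine ⟨hm.aestronglyMeasurable, ?_⟩
    rw [eLpNorm_lt_top_iff_lintegral_rpow_enorm_lt_top (by norm_num) (by norm_num)]
    refine lt_of_le_of_lt (lintegral_mono fun x => ?_) hFt.2
    have := hsq x
    simpa using this
  have hff : ∀ η, Ph F t η = 𝓕 h ((2 * Real.pi)⁻¹ * η) := by
    intro η
    rw [Real.fourier_eq']
    unfold Ph
    refine integral_congr_ae (Filter.Eventually.of_forall fun x => ?_)
    simp only [hh]
    rw [mul_comm, smul_eq_mul]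
    congr 1
    unfold ee
    congr 2
    have hpi : Real.pi ≠ 0 := Real.pi_ne_zero
    simp only [RCLike.inner_apply, conj_trivial]
    push_cast
    field_simp
  simp_rw [hff]
  have hcont : Continuous (𝓕 h) := VectorFourier.fourierIntegral_continuous
    Real.continuous_fourierChar (innerSL ℝ).continuous₂ hFt
  rw [lint_scale (f := fun x => ‖𝓕 h x‖ₑ ^ 2) (by fun_prop)
    (by have := Real.pi_pos; positivity)]
  rw [Helper76.NormalHP.plancherel_lintegral h hFt h2]
  have e1 : |(2 * Real.pi)⁻¹⁻¹| = 2 * Real.pi := by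
    have := Real.pi_pos
    rw [inv_inv, abs_of_pos (by positivity)]
  rw [e1]
  gcongr
  unfold Mt
  exact lintegral_mono hsq

end Pool.Agent.E8helper95
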