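import Pool.Agent.E8helper95.F1

/-!
Local square function type estimates for sums with integer frequencies.
-/

set_option autoImplicit false

namespace Pool.Agent.E8helper95

open MeasureTheory Complex Set Finset
open scoped ENNReal ComplexConjugate

/-- `∑ c_k e^{-i ω_k t}` -/
noncomputable def al (S : Finset ℤ) (ω : ℤ → ℤ) (c : ℤ → ℂ) (t : ℝ) : ℂ :=
  ∑ k ∈ S, c k * ee (((-ω k : ℤ) : ℝ) * t)

@[fun_prop]
lemma continuous_al (S : Finset ℤ) (ω : ℤ → ℤ) (c : ℤ → ℂ) : Continuous (al S ω c) := by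
  unfold al; fun_prop

@[fun_prop]
lemma measurable_al (S : Finset ℤ) (ω : ℤ → ℤ) (c : ℤ → ℂ) : Measurable (al S ω c) :=
  (continuous_al S ω c).measurable

lemma al_periodic (S : Finset ℤ) (ω : ℤ → ℤ) (c : ℤ → ℂ) (t : ℝ) :
    al S ω c (t + 2 * Real.pi) = al S ω c t := by
  unfold al; simp_rw [ee_periodic]

/-- shift of a set integral -/
lemma lint_shift (f : ℝ → ℝ≥0∞) (a δ : ℝ) :
    ∫⁻ r in Set.Ioc 0 δ, f (a + r) = ∫⁻ t in Set.Ioc a (a + δ), f t := by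
  have h := (measurePreserving_add_left (volume : Measure ℝ) a).setLIntegral_comp_preimage_emb
    (Homeomorph.addLeft a).measurableEmbedding f (Set.Ioc a (a + δ))
  rw [← h]
  congr 1
  congr 1
  ext r
  simp [Set.mem_Ioc]

lemma loc_le {g : ℝ → ℂ} (hg : Continuous g) (hper : ∀ t, g (t + 2 * Real.pi) = g t)
    (L : ℕ) (hL : 1 ≤ L) (t0 δ : ℝ) (h1 : δ * L ≤ 1) (h2 : δ ≤ 2 * Real.pi) :
    ∫⁻ r in Set.Ioc 0 δ, ‖g (t0 + r)‖ₑ ^ 2
      ≤ 4 * ∫⁻ t in Set.Ioc 0 (2 * Real.pi), ‖DD L (t - t0)‖ₑ ^ 2 * ‖g t‖ₑ ^ 2 := by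
  have hLr : (1:ℝ) ≤ L := by exact_mod_cast hL
  set G : ℝ → ℂ := fun t => DD L (t - t0) * g t with hG
  have hGc : Continuous G := by
    rw [hG]; fun_prop
  have hGper : ∀ t, G (t + 2 * Real.pi) = G t := by
    intro t
    simp only [hG]
    rw [hper, show t + 2 * Real.pi - t0 = (t - t0) + 2 * Real.pi by ring, DD_periodic]
  have e0 : ∀ t, ‖DD L (t - t0)‖ₑ ^ 2 * ‖g t‖ₑ ^ 2 = ‖G t‖ₑ ^ 2 := by
    intro t
    rw [hG, ← mul_pow, ← enorm_mul]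
  simp_rw [e0]
  rw [← lint_period hGc hGper t0 2, ← lint_shift]
  calc ∫⁻ r in Set.Ioc 0 δ, ‖g (t0 + r)‖ₑ ^ 2
      ≤ ∫⁻ r in Set.Ioc 0 δ, 4 * ‖G (t0 + r)‖ₑ ^ 2 := by
        apply setLIntegral_mono' measurableSet_Ioc
        intro r hr
        have hlow := DD_lower L hL r hr.1.le (by
          have := hr.2
          nlinarith)
        rw [← e0, add_sub_cancel_left, ← mul_assoc]
        calc ‖g (t0 + r)‖ₑ ^ 2 = 1 * ‖g (t0 + r)‖ₑ ^ 2 := (one_mul _).symm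
          _ ≤ _ := by gcongr
    _ = 4 * ∫⁻ r in Set.Ioc 0 δ, ‖G (t0 + r)‖ₑ ^ 2 := by
        rw [lintegral_const_mul]
        fun_prop
    _ ≤ 4 * ∫⁻ r in Set.Ioc 0 (2 * Real.pi), ‖G (t0 + r)‖ₑ ^ 2 := by
        gcongr

/-- weighted Parseval for frequencies with gaps `≥ L` -/
lemma al_weight (S : Finset ℤ) (ω : ℤ → ℤ) (c : ℤ → ℂ) (L : ℕ) (hL : 1 ≤ L)
    (hgap : ∀ k ∈ S, ∀ k' ∈ S, k ≠ k' → (L : ℤ) ≤ |ω k - ω k'|) (t0 : ℝ) :
    ∫⁻ t in Set.Ioc 0 (2 * Real.pi), ‖DD L (t - t0)‖ₑ ^ 2 * ‖al S ω c t‖ₑ ^ 2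
      = ENNReal.ofReal (2 * Real.pi) / L * ∑ k ∈ S, ‖c k‖ₑ ^ 2 := by
  set P : ℤ → ℝ → ℂ := fun k t => DD L (t - t0) * (c k * ee (((-ω k : ℤ) : ℝ) * t)) with hP
  have hPtp : ∀ k t, P k t = tp (Finset.range L) (fun h => (1 / (L:ℂ)) * ee (-(h * t0)) * c k)
      (fun h => (h : ℤ) - ω k) t := by
    intro k t
    simp only [hP, DD, tp, Finset.sum_mul]
    refine Finset.sum_congr rfl fun h _ => ?_
    have e1 : ee ((((h : ℤ) - ω k : ℤ) : ℝ) * t) * ee (-(h * t0))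
        = ee (h * (t - t0)) * ee (((-ω k : ℤ) : ℝ) * t) := by
      rw [← ee_add, ← ee_add]; congr 1; push_cast; ring
    linear_combination (-(1 / (L:ℂ)) * c k) * e1
  have hPc : ∀ k, Continuous (P k) := by
    intro k; simp only [hP]; fun_prop
  have e0 : ∀ t, ‖DD L (t - t0)‖ₑ ^ 2 * ‖al S ω c t‖ₑ ^ 2 = ‖∑ k ∈ S, P k t‖ₑ ^ 2 := by
    intro t
    rw [← mul_pow, ← enorm_mul]
    congr 2
    simp only [hP, al, Finset.mul_sum]
  simp_rw [e0]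
  rw [pythL S P (fun k _ => hPc k)]
  · rw [Finset.mul_sum]
    refine Finset.sum_congr rfl fun k _ => ?_
    simp only [hP, enorm_mul, enorm_ee, mul_one, mul_pow]
    rw [lintegral_mul_const]
    · congr 1
      have := lint_period (f := fun t => DD L t) (by fun_prop) (DD_periodic L) (-t0) 2
      rw [← DD_mass L hL, ← this]
      rw [← lint_period (f := fun t => DD L (t - t0)) (by fun_prop) (fun t => by
        rw [show t + 2 * Real.pi - t0 = (t - t0) + 2 * Real.pi by ring, DD_periodic]) 0 2,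
        ← lint_shift, ← lint_shift]
      refine lintegral_congr fun r => ?_
      rw [show (0:ℝ) + r - t0 = -t0 + r by ring]
    · fun_prop
  · intro i hi j hj hij
    simp_rw [hPtp]
    apply integral_tp_mul_conj_eq_zero
    intro h hh h' hh' heq
    have h1 := hgap i hi j hj hij
    have a1 : (h:ℤ) < L := by exact_mod_cast Finset.mem_range.1 hh
    have a2 : (h':ℤ) < L := by exact_mod_cast Finset.mem_range.1 hh'
    have a3 : (0:ℤ) ≤ h := Int.natCast_nonneg h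
    have a4 : (0:ℤ) ≤ h' := Int.natCast_nonneg h'
    have : ω i - ω j = h - h' := by linarith
    rw [this] at h1
    have : |(h:ℤ) - h'| < L := by
      rw [abs_lt]; constructor <;> linarith
    linarith

lemma al_local (S : Finset ℤ) (ω : ℤ → ℤ) (c : ℤ → ℂ) (L : ℕ) (hL : 1 ≤ L)
    (hgap : ∀ k ∈ S, ∀ k' ∈ S, k ≠ k' → (L : ℤ) ≤ |ω k - ω k'|) (t0 δ : ℝ)
    (h1 : δ * L ≤ 1) (h2 : δ ≤ 2 * Real.pi) :
    ∫⁻ r in Set.Ioc 0 δ, ‖al S ω c (t0 + r)‖ₑ ^ 2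
      ≤ 4 * (ENNReal.ofReal (2 * Real.pi) / L * ∑ k ∈ S, ‖c k‖ₑ ^ 2) := by
  rw [← al_weight S ω c L hL hgap t0]
  exact loc_le (by fun_prop) (al_periodic S ω c) L hL t0 δ h1 h2

/-- `∑_λ e^{i(λx-λ²t)} α_λ(t)` -/
noncomputable def PP (Λ S : Finset ℤ) (ω : ℤ → ℤ) (c : ℤ → ℤ → ℂ) (t x : ℝ) : ℂ :=
  ∑ l ∈ Λ, ee (l * x - (l:ℝ) ^ 2 * t) * al S ω (c l) t

lemma continuous_PP (Λ S : Finset ℤ) (ω : ℤ → ℤ) (c : ℤ → ℤ → ℂ) :
    Continuous (fun p : ℝ × ℝ => PP Λ S ω c p.1 p.2) := by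
  unfold PP; fun_prop

lemma PP_y (Λ S : Finset ℤ) (ω : ℤ → ℤ) (c : ℤ → ℤ → ℂ) (t x0 : ℝ) :
    ∫⁻ y in Set.Ioc 0 (2 * Real.pi), ‖PP Λ S ω c t (x0 + y)‖ₑ ^ 2
      = ENNReal.ofReal (2 * Real.pi) * ∑ l ∈ Λ, ‖al S ω (c l) t‖ₑ ^ 2 := by
  have h := parseval Λ (fun l => ee (l * x0 - (l:ℝ) ^ 2 * t) * al S ω (c l) t) (fun l => l)
    (fun i _ j _ hij => hij)
  simp only [enorm_mul, enorm_ee, one_mul] at h
  rw [← h]
  refine lintegral_congr fun y => ?_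
  congr 2
  unfold PP
  refine Finset.sum_congr rfl fun l _ => ?_
  rw [show (l:ℝ) * (x0 + y) - (l:ℝ) ^ 2 * t = (l * x0 - (l:ℝ) ^ 2 * t) + l * y by ring, ee_add]
  ring

/-- the local `L²` bound -/
lemma alpha (Λ S : Finset ℤ) (ω : ℤ → ℤ) (c : ℤ → ℤ → ℂ) (L : ℕ) (hL : 1 ≤ L)
    (hgap : ∀ k ∈ S, ∀ k' ∈ S, k ≠ k' → (L : ℤ) ≤ |ω k - ω k'|) (t0 x0 δ : ℝ)
    (h1 : δ * L ≤ 1) (h2 : δ ≤ 2 * Real.pi) :
    ∫⁻ r in Set.Ioc 0 δ, ∫⁻ y in Set.Ioc 0 (2 * Real.pi), ‖PP Λ S ω c (t0 + r) (x0 + y)‖ₑ ^ 2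
      ≤ ENNReal.ofReal (2 * Real.pi) * (4 * (ENNReal.ofReal (2 * Real.pi) / L)) *
        ∑ l ∈ Λ, ∑ k ∈ S, ‖c l k‖ₑ ^ 2 := by
  simp_rw [PP_y]
  rw [lintegral_const_mul _ (by fun_prop), mul_assoc]
  gcongr
  rw [lintegral_finsetSum _ (fun l _ => by fun_prop), Finset.mul_sum]
  refine Finset.sum_le_sum fun l _ => ?_
  rw [mul_assoc]
  exact al_local S ω (c l) L hL hgap t0 δ h1 h2

lemma sq_sum_range_le (n : ℕ) (f : ℕ → ℝ≥0∞) :
    (∑ i ∈ Finset.range n, f i) ^ 2 ≤ n * ∑ i ∈ Finset.range n, f i ^ 2 := by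
  have h := ENNReal.rpow_sum_le_const_mul_sum_rpow (Finset.range n) f (p := 2) (by norm_num)
  rw [Finset.card_range] at h
  have e : (2:ℝ) - 1 = 1 := by norm_num
  rw [e, ENNReal.rpow_one, ENNReal.rpow_two] at h
  simpa only [ENNReal.rpow_two] using h

/-- the bilinear time lemma -/
lemma time_bilinear {ι : Type*} (S : Finset ℤ) (ω : ℤ → ℤ) (I : Finset ι) (c d : ι → ℤ → ℂ)
    (w : ι → ℤ) (L Ω : ℕ) (hL : 1 ≤ L) (cl : ι → ℕ) (hcl : ∀ l ∈ I, cl l < Ω)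
    (hsep : ∀ l ∈ I, ∀ l' ∈ I, l ≠ l' → cl l = cl l' → ∀ k1 ∈ S, ∀ k2 ∈ S, ∀ k3 ∈ S, ∀ k4 ∈ S,
      ∀ h h' : ℕ, h < L → h' < L →
        (h : ℤ) - ω k1 - ω k2 - w l ≠ (h' : ℤ) - ω k3 - ω k4 - w l')
    (t0 δ : ℝ) (h1 : δ * L ≤ 1) (h2 : δ ≤ 2 * Real.pi) :
    ∫⁻ r in Set.Ioc 0 δ, ‖∑ l ∈ I, al S ω (c l) (t0 + r) * al S ω (d l) (t0 + r) *
        ee (((-w l : ℤ) : ℝ) * (t0 + r))‖ₑ ^ 2
      ≤ 4 * (Ω * ∑ l ∈ I, ∫⁻ t in Set.Ioc 0 (2 * Real.pi), ‖DD L (t - t0)‖ₑ ^ 2 *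
        (‖al S ω (c l) t‖ₑ ^ 2 * ‖al S ω (d l) t‖ₑ ^ 2)) := by
  classical
  set g : ι → ℝ → ℂ := fun l t => al S ω (c l) t * al S ω (d l) t *
        ee (((-w l : ℤ) : ℝ) * t) with hg
  have hgc : ∀ l, Continuous (g l) := by
    intro l; simp only [hg]; fun_prop
  have hgper : ∀ l t, g l (t + 2 * Real.pi) = g l t := by
    intro l t; simp only [hg]; rw [al_periodic, al_periodic, ee_periodic]
  have hloc := loc_le (g := fun t => ∑ l ∈ I, g l t) (continuous_finsetSum _ fun l _ => hgc l)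
    (fun t => by simp_rw [hgper]) L hL t0 δ h1 h2
  refine hloc.trans ?_
  gcongr
  -- split in classes
  have hsplit : ∀ t, ∑ l ∈ I, g l t = ∑ r ∈ Finset.range Ω, ∑ l ∈ I with cl l = r, g l t := by
    intro t
    rw [Finset.sum_fiberwise_of_maps_to]
    intro l hl
    exact Finset.mem_range.2 (hcl l hl)
  have hb : ∀ t, ‖DD L (t - t0)‖ₑ ^ 2 * ‖∑ l ∈ I, g l t‖ₑ ^ 2
      ≤ Ω * ∑ r ∈ Finset.range Ω, ‖∑ l ∈ I with cl l = r, DD L (t - t0) * g l t‖ₑ ^ 2 := by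
    intro t
    rw [hsplit]
    calc ‖DD L (t - t0)‖ₑ ^ 2 * ‖∑ r ∈ Finset.range Ω, ∑ l ∈ I with cl l = r, g l t‖ₑ ^ 2
        ≤ ‖DD L (t - t0)‖ₑ ^ 2 * (∑ r ∈ Finset.range Ω, ‖∑ l ∈ I with cl l = r, g l t‖ₑ) ^ 2 := by
          gcongr
          exact enorm_sum_le _ _
      _ ≤ ‖DD L (t - t0)‖ₑ ^ 2 *
          (Ω * ∑ r ∈ Finset.range Ω, ‖∑ l ∈ I with cl l = r, g l t‖ₑ ^ 2) := by
          gcongr
          exact sq_sum_range_le _ _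
      _ = _ := by
          rw [mul_left_comm, Finset.mul_sum]
          congr 1
          refine Finset.sum_congr rfl fun r _ => ?_
          rw [← mul_pow, ← enorm_mul, Finset.mul_sum]
  refine (lintegral_mono hb).trans ?_
  have hmeas : ∀ r : ℕ, Continuous (fun t => ∑ l ∈ I with cl l = r, DD L (t - t0) * g l t) := by
    intro r
    apply continuous_finsetSum
    intro l _
    have := hgc l
    fun_prop
  rw [lintegral_const_mul]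
  swap
  · apply Finset.measurable_fun_sum
    intro r _
    exact ((hmeas r).enorm.measurable.pow_const 2)
  gcongr
  rw [lintegral_finsetSum _ (fun r _ => (hmeas r).enorm.measurable.pow_const 2)]
  have hclass : ∀ r ∈ Finset.range Ω,
      ∫⁻ t in Set.Ioc 0 (2 * Real.pi), ‖∑ l ∈ I with cl l = r, DD L (t - t0) * g l t‖ₑ ^ 2
      = ∑ l ∈ I with cl l = r, ∫⁻ t in Set.Ioc 0 (2 * Real.pi), ‖DD L (t - t0)‖ₑ ^ 2 *
        (‖al S ω (c l) t‖ₑ ^ 2 * ‖al S ω (d l) t‖ₑ ^ 2) := by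
    intro r _
    rw [pythL _ (fun l t => DD L (t - t0) * g l t)]
    · refine Finset.sum_congr rfl fun l _ => lintegral_congr fun t => ?_
      simp only [hg, enorm_mul, enorm_ee, mul_one, mul_pow]
    · intro l _
      have := hgc l
      fun_prop
    · intro l hl l' hl' hne
      rw [Finset.mem_filter] at hl hl'
      have hPtp : ∀ l t, DD L (t - t0) * g l t
          = tp (Finset.range L ×ˢ (S ×ˢ S))
            (fun p => (1 / (L:ℂ)) * ee (-(p.1 * t0)) * c l p.2.1 * d l p.2.2)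
            (fun p => (p.1 : ℤ) - ω p.2.1 - ω p.2.2 - w l) t := by
        intro l t
        simp only [hg, DD, al, tp]
        have e2 : (∑ k ∈ S, c l k * ee (((-ω k : ℤ) : ℝ) * t)) *
            (∑ k ∈ S, d l k * ee (((-ω k : ℤ) : ℝ) * t)) * ee (((-w l : ℤ) : ℝ) * t)
            = ∑ q ∈ S ×ˢ S, c l q.1 * ee (((-ω q.1 : ℤ) : ℝ) * t) *
              (d l q.2 * ee (((-ω q.2 : ℤ) : ℝ) * t)) * ee (((-w l : ℤ) : ℝ) * t) := by
          rw [Finset.sum_mul_sum, ← Finset.sum_product', Finset.sum_mul]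
        rw [e2, Finset.sum_mul_sum, ← Finset.sum_product']
        refine Finset.sum_congr rfl fun p _ => ?_
        have e1 : ee ((((p.1 : ℤ) - ω p.2.1 - ω p.2.2 - w l : ℤ) : ℝ) * t) * ee (-(p.1 * t0))
            = ee (p.1 * (t - t0)) * ee (((-ω p.2.1 : ℤ) : ℝ) * t) *
              ee (((-ω p.2.2 : ℤ) : ℝ) * t) * ee (((-w l : ℤ) : ℝ) * t) := by
          simp_rw [← ee_add]; congr 1; push_cast; ring
        linear_combination (-(1 / (L:ℂ)) * c l p.2.1 * d l p.2.2) * e1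
      simp_rw [hPtp]
      apply integral_tp_mul_conj_eq_zero
      intro p hp q hq
      simp only [Finset.mem_product, Finset.mem_range] at hp hq
      exact hsep l hl.1 l' hl'.1 hne (hl.2.trans hl'.2.symm) _ hp.2.1 _ hp.2.2 _ hq.2.1 _ hq.2.2
        _ _ hp.1 hq.1
  rw [Finset.sum_congr rfl hclass, Finset.sum_fiberwise_of_maps_to]
  intro l hl
  exact Finset.mem_range.2 (hcl l hl)

/-- the local bilinear `L²` bound -/
lemma beta (Λ Λ' S : Finset ℤ) (ω : ℤ → ℤ) (c d : ℤ → ℤ → ℂ)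
    (L Ω : ℕ) (hL : 1 ≤ L) (cl : ℤ → ℕ) (hcl : ∀ l ∈ Λ, cl l < Ω)
    (hsep : ∀ l ∈ Λ, ∀ l' ∈ Λ', ∀ m ∈ Λ, ∀ m' ∈ Λ', l + l' = m + m' → l ≠ m → cl l = cl m →
      ∀ k1 ∈ S, ∀ k2 ∈ S, ∀ k3 ∈ S, ∀ k4 ∈ S, ∀ h h' : ℕ, h < L → h' < L →
        (h : ℤ) - ω k1 - ω k2 - (l ^ 2 + l' ^ 2) ≠ (h' : ℤ) - ω k3 - ω k4 - (m ^ 2 + m' ^ 2))
    (t0 x0 δ : ℝ) (h1 : δ * L ≤ 1) (h2 : δ ≤ 2 * Real.pi) :
    ∫⁻ r in Set.Ioc 0 δ, ∫⁻ y in Set.Ioc 0 (2 * Real.pi),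
        (‖PP Λ S ω c (t0 + r) (x0 + y)‖ₑ * ‖PP Λ' S ω d (t0 + r) (x0 + y)‖ₑ) ^ 2
      ≤ ENNReal.ofReal (2 * Real.pi) * (4 * (Ω * ∑ l ∈ Λ, ∑ l' ∈ Λ',
        ∫⁻ t in Set.Ioc 0 (2 * Real.pi), ‖DD L (t - t0)‖ₑ ^ 2 *
        (‖al S ω (c l) t‖ₑ ^ 2 * ‖al S ω (d l') t‖ₑ ^ 2))) := by
  classical
  set T : Finset ℤ := (Λ ×ˢ Λ').image (fun p => p.1 + p.2) with hT
  have hmaps : ∀ p ∈ Λ ×ˢ Λ', p.1 + p.2 ∈ T := fun p hp => Finset.mem_image_of_mem _ hp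
  set C : ℤ → ℝ → ℂ := fun s t => ∑ p ∈ Λ ×ˢ Λ' with p.1 + p.2 = s,
    al S ω (c p.1) t * al S ω (d p.2) t * ee (((-(p.1 ^ 2 + p.2 ^ 2) : ℤ) : ℝ) * t) with hC
  have hCc : ∀ s, Continuous (C s) := by
    intro s; simp only [hC]; fun_prop
  have hprod : ∀ t y, PP Λ S ω c t (x0 + y) * PP Λ' S ω d t (x0 + y)
      = ∑ s ∈ T, (ee (s * x0) * C s t) * ee (s * y) := by
    intro t y
    unfold PP
    rw [Finset.sum_mul_sum, ← Finset.sum_product', ← Finset.sum_fiberwise_of_maps_to hmaps]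
    refine Finset.sum_congr rfl fun s _ => ?_
    simp only [hC, Finset.mul_sum, Finset.sum_mul]
    refine Finset.sum_congr rfl fun p hp => ?_
    have hps : p.1 + p.2 = s := (Finset.mem_filter.1 hp).2
    have e1 : ee (p.1 * (x0 + y) - (p.1:ℝ) ^ 2 * t) * ee (p.2 * (x0 + y) - (p.2:ℝ) ^ 2 * t)
        = ee (s * x0) * ee (((-(p.1 ^ 2 + p.2 ^ 2) : ℤ) : ℝ) * t) * ee (s * y) := by
      simp_rw [← ee_add]; congr 1
      rw [← hps]; push_cast; ring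
    linear_combination (al S ω (c p.1) t * al S ω (d p.2) t) * e1
  have hy : ∀ t, ∫⁻ y in Set.Ioc 0 (2 * Real.pi),
        (‖PP Λ S ω c t (x0 + y)‖ₑ * ‖PP Λ' S ω d t (x0 + y)‖ₑ) ^ 2
      = ENNReal.ofReal (2 * Real.pi) * ∑ s ∈ T, ‖C s t‖ₑ ^ 2 := by
    intro t
    have h := parseval T (fun s => ee (s * x0) * C s t) (fun l => l) (fun i _ j _ hij => hij)
    simp only [enorm_mul, enorm_ee, one_mul] at h
    rw [← h]
    refine lintegral_congr fun y => ?_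
    rw [← enorm_mul, hprod]
  simp_rw [hy]
  have hm : ∀ s ∈ T, Measurable (fun r : ℝ => ‖C s (t0 + r)‖ₑ ^ 2) := by
    intro s _
    have := (hCc s).measurable
    fun_prop
  rw [lintegral_const_mul _ (Finset.measurable_fun_sum _ hm), lintegral_finsetSum _ hm]
  gcongr
  have hs : ∀ s ∈ T, ∫⁻ r in Set.Ioc 0 δ, ‖C s (t0 + r)‖ₑ ^ 2
      ≤ 4 * (Ω * ∑ p ∈ Λ ×ˢ Λ' with p.1 + p.2 = s,
        ∫⁻ t in Set.Ioc 0 (2 * Real.pi), ‖DD L (t - t0)‖ₑ ^ 2 *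
        (‖al S ω (c p.1) t‖ₑ ^ 2 * ‖al S ω (d p.2) t‖ₑ ^ 2)) := by
    intro s _
    refine time_bilinear (ι := ℤ × ℤ) S ω {p ∈ Λ ×ˢ Λ' | p.1 + p.2 = s} (fun p => c p.1)
      (fun p => d p.2) (fun p => p.1 ^ 2 + p.2 ^ 2) L Ω hL (fun p => cl p.1) ?_ ?_ t0 δ h1 h2
    · intro p hp
      exact hcl _ (Finset.mem_product.1 (Finset.mem_filter.1 hp).1).1
    · intro p hp q hq hne hcl' k1 hk1 k2 hk2 k3 hk3 k4 hk4 h h' hh hh'
      rw [Finset.mem_filter, Finset.mem_product] at hp hq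
      refine hsep p.1 hp.1.1 p.2 hp.1.2 q.1 hq.1.1 q.2 hq.1.2 (hp.2.trans hq.2.symm) ?_ hcl'
        k1 hk1 k2 hk2 k3 hk3 k4 hk4 h h' hh hh'
      intro heq
      apply hne
      have h3 := hp.2
      have h4 := hq.2
      apply Prod.ext heq
      linarith
  refine (Finset.sum_le_sum hs).trans_eq ?_
  rw [← Finset.mul_sum, ← Finset.mul_sum]
  congr 2
  rw [Finset.sum_fiberwise_of_maps_to hmaps, Finset.sum_product]

end Pool.Agent.E8helper95
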