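import Pool.Agent.E8helper95.F19

/-!
The `TT*` bound, continued.
-/

set_option autoImplicit false

namespace Pool.Agent.E8helper95

open MeasureTheory Complex Set Finset FourierTransform
open scoped ENNReal ComplexConjugate Nat

lemma Ts_eq (F : ℝ × ℝ → ℂ) (hF : Integrable F) (k : ℤ) (η : ℝ) :
    Ts F k η = ∫ t, ee (t * (η ^ 2 + (k:ℝ) ^ 2)) * Ph F t η := by
  unfold Ts Ph
  have hint : Integrable (fun p : ℝ × ℝ => F p * ee (-(p.2 * η - p.1 * (η ^ 2 + (k:ℝ) ^ 2)))) := by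
    apply hF.mul_bdd (c := 1)
    · exact (by fun_prop : Measurable fun p : ℝ × ℝ =>
        ee (-(p.2 * η - p.1 * (η ^ 2 + (k:ℝ) ^ 2)))).aestronglyMeasurable
    · exact Filter.Eventually.of_forall fun p => (norm_ee _).le
  rw [Measure.volume_eq_prod] at hint ⊢
  rw [integral_prod _ hint]
  refine integral_congr_ae (Filter.Eventually.of_forall fun t => ?_)
  simp only
  rw [← integral_const_mul]
  refine integral_congr_ae (Filter.Eventually.of_forall fun x => ?_)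
  simp only
  rw [mul_left_comm, ← ee_add]
  congr 2
  ring

/-- correlation of two slices -/
noncomputable def GG (N : ℕ) (F : ℝ × ℝ → ℂ) (t t' : ℝ) : ℂ :=
  ∫ η, ee (η ^ 2 * (t - t')) * (Ph F t η * conj (Ph F t' η)) ∂(rho2 N)

lemma lint_Mt (F : ℝ × ℝ → ℂ) (hFm : Measurable F) : ∫⁻ t, Mt F t = ∫⁻ p, ‖F p‖ₑ := by
  rw [Measure.volume_eq_prod, lintegral_prod _ (by fun_prop)]
  rfl

lemma Q_le (N : ℕ) (hN : 1 ≤ N) (k0 : ℤ) (F : ℝ × ℝ → ℂ) (hF : Integrable F) (hFm : Measurable F)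
    (hFt : ∀ t, Integrable (fun x => F (t, x))) :
    ∫⁻ ω, ‖Ts F ω.1 ω.2‖ₑ ^ 2 ∂((rho1 N k0).prod (rho2 N))
      ≤ ∫⁻ t, ∫⁻ t', ‖BG N k0 (t - t')‖ₑ * ‖GG N F t t'‖ₑ := by
  have := finite_rho1 N hN k0
  have := finite_rho2 N hN
  obtain ⟨hTm, hTb⟩ := Ts_meas_bound F hF hFm
  have hMfin : ∀ t, Mt F t ≠ ⊤ := fun t => (hFt t).2.ne
  have e1 : ∫⁻ ω, ‖Ts F ω.1 ω.2‖ₑ ^ 2 ∂((rho1 N k0).prod (rho2 N))
      = ‖∫ ω, Ts F ω.1 ω.2 * conj (Ts F ω.1 ω.2) ∂((rho1 N k0).prod (rho2 N))‖ₑ := by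
    have hint : Integrable (fun ω : ℤ × ℝ => ‖Ts F ω.1 ω.2‖ ^ 2) ((rho1 N k0).prod (rho2 N)) := by
      apply Integrable.of_bound (by fun_prop : Measurable fun ω : ℤ × ℝ =>
        ‖Ts F ω.1 ω.2‖ ^ 2).aestronglyMeasurable ((∫ p, ‖F p‖) ^ 2)
      refine Filter.Eventually.of_forall fun ω => ?_
      rw [norm_pow, norm_norm]
      gcongr
      exact hTb ω
    have e2 : ∀ ω : ℤ × ℝ, Ts F ω.1 ω.2 * conj (Ts F ω.1 ω.2) = ((‖Ts F ω.1 ω.2‖ ^ 2 : ℝ) : ℂ) := by
      intro ω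
      rw [RCLike.mul_conj]
      push_cast
      rfl
    simp_rw [e2]
    rw [integral_complex_ofReal, ← ofReal_norm, Complex.norm_real, Real.norm_eq_abs,
      abs_of_nonneg (integral_nonneg fun _ => by positivity),
      ofReal_integral_eq_lintegral_ofReal hint (Filter.Eventually.of_forall fun _ => by positivity)]
    refine lintegral_congr fun ω => ?_
    rw [ENNReal.ofReal_pow (norm_nonneg _), ofReal_norm]
  have hMint : Integrable (fun t => (Mt F t).toReal) := by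
    apply integrable_toReal_of_lintegral_ne_top (measurable_Mt F hFm).aemeasurable
    rw [lint_Mt F hFm]
    exact hF.2.ne
  have hPm := measurable_Ph F hFm
  have hv : Measurable (fun z : ℝ × (ℤ × ℝ) =>
      ee (z.1 * (z.2.2 ^ 2 + (z.2.1:ℝ) ^ 2)) * Ph F z.1 z.2.2) :=
    (by fun_prop : Measurable fun z : ℝ × (ℤ × ℝ) => ee (z.1 * (z.2.2 ^ 2 + (z.2.1:ℝ) ^ 2))).mul
      (hPm.comp (measurable_fst.prodMk (measurable_snd.comp measurable_snd)))
  have hvb : ∀ z : ℝ × (ℤ × ℝ), ‖ee (z.1 * (z.2.2 ^ 2 + (z.2.1:ℝ) ^ 2)) * Ph F z.1 z.2.2‖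
      ≤ (Mt F z.1).toReal := by
    intro z
    rw [norm_mul, norm_ee, one_mul]
    rw [← toReal_enorm]
    exact ENNReal.toReal_mono (hMfin _) (Ph_le F _ _)
  have key := fub3 volume volume ((rho1 N k0).prod (rho2 N)) _ hv _ hMint hvb _ hv _ hMint hvb
  have e3 : ∀ ω : ℤ × ℝ, Ts F ω.1 ω.2 = ∫ t, ee (t * (ω.2 ^ 2 + (ω.1:ℝ) ^ 2)) * Ph F t ω.2 :=
    fun ω => Ts_eq F hF ω.1 ω.2
  rw [e1]
  have e4 : ∫ ω, Ts F ω.1 ω.2 * conj (Ts F ω.1 ω.2) ∂((rho1 N k0).prod (rho2 N))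
      = ∫ t, ∫ t', BG N k0 (t - t') * GG N F t t' := by
    simp_rw [e3]
    refine key.trans ?_
    refine integral_congr_ae (Filter.Eventually.of_forall fun t => ?_)
    refine integral_congr_ae (Filter.Eventually.of_forall fun t' => ?_)
    simp only
    rw [BG_eq_int N hN]
    unfold GG
    rw [← integral_prod_mul]
    refine integral_congr_ae (Filter.Eventually.of_forall fun ω => ?_)
    simp only
    rw [map_mul, ← ee_neg]
    have e5 : ee (t * (ω.2 ^ 2 + (ω.1:ℝ) ^ 2)) * Ph F t ω.2 *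
        (ee (-(t' * (ω.2 ^ 2 + (ω.1:ℝ) ^ 2))) * conj (Ph F t' ω.2))
        = (ee (t * (ω.2 ^ 2 + (ω.1:ℝ) ^ 2)) * ee (-(t' * (ω.2 ^ 2 + (ω.1:ℝ) ^ 2)))) *
          (Ph F t ω.2 * conj (Ph F t' ω.2)) := by ring
    have e6 : ee ((ω.1:ℝ) ^ 2 * (t - t')) * (ee (ω.2 ^ 2 * (t - t')) *
        (Ph F t ω.2 * conj (Ph F t' ω.2))) = (ee ((ω.1:ℝ) ^ 2 * (t - t')) *
          ee (ω.2 ^ 2 * (t - t'))) * (Ph F t ω.2 * conj (Ph F t' ω.2)) := by ring
    rw [e5, e6, ← ee_add, ← ee_add]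
    congr 2
    ring
  rw [e4]
  refine (enorm_integral_le_lintegral_enorm _).trans ?_
  refine lintegral_mono fun t => ?_
  refine (enorm_integral_le_lintegral_enorm _).trans ?_
  refine lintegral_mono fun t' => ?_
  rw [enorm_mul]

lemma GG_disp (N : ℕ) (hN : 1 ≤ N) (F : ℝ × ℝ → ℂ) (hFm : Measurable F)
    (hFt : ∀ t, Integrable (fun x => F (t, x))) (t t' : ℝ) :
    ‖GG N F t t'‖ₑ ≤ 2 * rh (t - t') * (Mt F t * Mt F t') := by
  have := finite_rho2 N hN
  have hv : Measurable (fun z : ℝ × ℝ => ee (z.2 ^ 2 * (t - t')) * (F (t, z.1) * ee (-(z.1 * z.2)))) := by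
    fun_prop
  have hv' : Measurable (fun z : ℝ × ℝ => F (t', z.1) * ee (-(z.1 * z.2))) := by
    fun_prop
  have key := fub3 volume volume (rho2 N) _ hv (fun x => ‖F (t, x)‖) (hFt t).norm
    (fun z => by rw [norm_mul, norm_mul, norm_ee, norm_ee, one_mul, mul_one]) _ hv'
    (fun x => ‖F (t', x)‖) (hFt t').norm (fun z => by rw [norm_mul, norm_ee, mul_one])
  have e1 : GG N F t t' = ∫ x, ∫ x', F (t, x) * conj (F (t', x')) * KG N (t - t') (x' - x) := by
    unfold GG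
    refine Eq.trans ?_ (key.trans ?_)
    · refine integral_congr_ae (Filter.Eventually.of_forall fun η => ?_)
      simp only
      unfold Ph
      rw [integral_const_mul, mul_assoc]
    · refine integral_congr_ae (Filter.Eventually.of_forall fun x => ?_)
      refine integral_congr_ae (Filter.Eventually.of_forall fun x' => ?_)
      simp only
      rw [KG_eq, ← integral_const_mul]
      refine integral_congr_ae (Filter.Eventually.of_forall fun η => ?_)
      simp only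
      rw [map_mul, ← ee_neg, neg_neg]
      have e2 : ee (η ^ 2 * (t - t')) * (F (t, x) * ee (-(x * η))) * (conj (F (t', x')) * ee (x' * η))
        = F (t, x) * conj (F (t', x')) * (ee (η ^ 2 * (t - t')) * (ee (-(x * η)) * ee (x' * η))) := by
        ring
      rw [e2, ← ee_add (-(x * η))]
      congr 3
      ring
  rw [e1]
  have h1 : ∀ x x', ‖F (t, x) * conj (F (t', x')) * KG N (t - t') (x' - x)‖ₑ
      ≤ 2 * rh (t - t') * (‖F (t, x)‖ₑ * ‖F (t', x')‖ₑ) := by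
    intro x x'
    rw [enorm_mul, enorm_mul, RCLike.enorm_conj, mul_comm]
    gcongr
    exact KG_le N hN _ _
  refine (enorm_integral_le_lintegral_enorm _).trans ?_
  calc ∫⁻ x, ‖∫ x', F (t, x) * conj (F (t', x')) * KG N (t - t') (x' - x)‖ₑ
      ≤ ∫⁻ x, ∫⁻ x', 2 * rh (t - t') * (‖F (t, x)‖ₑ * ‖F (t', x')‖ₑ) := by
        refine lintegral_mono fun x => ?_
        refine (enorm_integral_le_lintegral_enorm _).trans ?_
        exact lintegral_mono fun x' => h1 x x'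
    _ = _ := by
        unfold Mt
        simp_rw [← mul_assoc]
        simp_rw [lintegral_const_mul _ (by fun_prop : Measurable fun x' => ‖F (t', x')‖ₑ)]
        rw [lintegral_mul_const _ (by fun_prop)]
        rw [lintegral_const_mul _ (by fun_prop : Measurable fun x => ‖F (t, x)‖ₑ)]

lemma GG_L2 (N : ℕ) (F : ℝ × ℝ → ℂ) (hFm : Measurable F) (hF1 : ∀ p, ‖F p‖ ≤ 1)
    (hFt : ∀ t, Integrable (fun x => F (t, x))) (t t' : ℝ) :
    ‖GG N F t t'‖ₑ ≤ ENNReal.ofReal (2 * Real.pi) * (Mt F t + Mt F t') := by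
  have hPm := measurable_Ph F hFm
  have hle : rho2 N ≤ volume := by
    unfold rho2
    refine (withDensity_mono (Filter.Eventually.of_forall fun η => ?_)).trans (le_of_eq withDensity_one)
    simp only [Pi.one_apply]
    rw [← ENNReal.ofReal_one]
    apply ENNReal.ofReal_le_ofReal
    unfold gw
    apply Real.exp_le_one_iff.2
    have := sq_nonneg (η / N)
    linarith
  have h1 : ‖GG N F t t'‖ₑ ≤ ∫⁻ η, ‖Ph F t η‖ₑ * ‖Ph F t' η‖ₑ := by
    unfold GG
    refine (enorm_integral_le_lintegral_enorm _).trans ?_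
    refine (lintegral_mono' hle le_rfl).trans (le_of_eq ?_)
    refine lintegral_congr fun η => ?_
    rw [enorm_mul, enorm_mul, enorm_ee, RCLike.enorm_conj, one_mul]
  refine h1.trans ?_
  have h2 : ∀ η, ‖Ph F t η‖ₑ * ‖Ph F t' η‖ₑ ≤ ‖Ph F t η‖ₑ ^ 2 + ‖Ph F t' η‖ₑ ^ 2 := by
    intro η
    rcases le_total ‖Ph F t η‖ₑ ‖Ph F t' η‖ₑ with h | h
    · calc _ ≤ ‖Ph F t' η‖ₑ * ‖Ph F t' η‖ₑ := by gcongr
        _ = ‖Ph F t' η‖ₑ ^ 2 := (sq _).symm
        _ ≤ _ := le_add_self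
    · calc _ ≤ ‖Ph F t η‖ₑ * ‖Ph F t η‖ₑ := by gcongr
        _ = ‖Ph F t η‖ₑ ^ 2 := (sq _).symm
        _ ≤ _ := le_self_add
  refine (lintegral_mono h2).trans ?_
  have hPt : Measurable (fun η => Ph F t η) := hPm.comp (measurable_const.prodMk measurable_id)
  rw [lintegral_add_left (hPt.enorm.pow_const 2)]
  rw [mul_add]
  exact add_le_add (Ph_L2 F hFm hF1 t (hFt t)) (Ph_L2 F hFm hF1 t' (hFt t'))

end Pool.Agent.E8helper95
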