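import Pool.Agent.E8helper95.F20

/-!
The `TT*` bound, conclusion.
-/

set_option autoImplicit false

namespace Pool.Agent.E8helper95

open MeasureTheory Complex Set Finset
open scoped ENNReal ComplexConjugate Nat

lemma rh_eq (r : ℝ) (hr : r ≠ 0) : rh r = ENNReal.ofReal (1 / Real.sqrt |r|) := by
  have hr' : 0 < |r| := abs_pos.2 hr
  unfold rh
  rw [ENNReal.rpow_neg, Real.enorm_eq_ofReal_abs, Real.sqrt_eq_rpow,
      ENNReal.ofReal_rpow_of_pos hr', ← ENNReal.ofReal_inv_of_pos (by positivity), one_div, one_div]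

lemma rh_le (r s : ℝ) (hs : 0 < s) (hr : s ≤ |r|) : rh r ≤ ENNReal.ofReal (1 / Real.sqrt s) := by
  have hr0 : r ≠ 0 := by
    intro h; rw [h, abs_zero] at hr; linarith
  rw [rh_eq r hr0]
  apply ENNReal.ofReal_le_ofReal
  apply one_div_le_one_div_of_le (Real.sqrt_pos.2 hs)
  exact Real.sqrt_le_sqrt hr

/-- near-diagonal kernel -/
noncomputable def kr (σ : ℝ) (r : ℝ) : ℝ≥0∞ := (Set.Icc (-σ) σ).indicator rh r

@[fun_prop]
lemma measurable_kr (σ : ℝ) : Measurable (kr σ) := measurable_rh.indicator measurableSet_Icc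

lemma lint_rh (σ : ℝ) (hσ : 0 < σ) :
    ∫⁻ r in Set.Ioc 0 σ, rh r = ENNReal.ofReal (2 * Real.sqrt σ) := by
  have h1 : ∫⁻ r in Set.Ioc 0 σ, rh r = ∫⁻ r in Set.Ioc 0 σ, ENNReal.ofReal (r ^ (-(1 / 2) : ℝ)) := by
    apply setLIntegral_congr_fun measurableSet_Ioc
    intro r hr
    simp only
    rw [rh_eq r hr.1.ne', abs_of_pos hr.1, Real.sqrt_eq_rpow, Real.rpow_neg hr.1.le, one_div]
  rw [h1]
  have hii : IntervalIntegrable (fun r : ℝ => r ^ (-(1 / 2) : ℝ)) volume 0 σ :=
    intervalIntegral.intervalIntegrable_rpow' (by norm_num)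
  rw [intervalIntegrable_iff_integrableOn_Ioc_of_le hσ.le] at hii
  rw [← ofReal_integral_eq_lintegral_ofReal hii]
  · congr 1
    rw [← intervalIntegral.integral_of_le hσ.le, integral_rpow (Or.inl (by norm_num))]
    rw [Real.sqrt_eq_rpow]
    norm_num
    ring
  · rw [Filter.EventuallyLE, ae_restrict_iff' measurableSet_Ioc]
    refine Filter.Eventually.of_forall fun r hr => ?_
    simp only [Pi.zero_apply]
    exact Real.rpow_nonneg hr.1.le _

lemma lint_kr (σ : ℝ) (hσ : 0 < σ) : ∫⁻ r, kr σ r ≤ ENNReal.ofReal (4 * Real.sqrt σ) := by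
  set k1 : ℝ → ℝ≥0∞ := (Set.Ioc 0 σ).indicator rh with hk1
  have hk1m : Measurable k1 := measurable_rh.indicator measurableSet_Ioc
  have hle : ∀ᵐ r : ℝ, kr σ r ≤ k1 r + k1 (-r) := by
    have h0 : ∀ᵐ r : ℝ, r ≠ 0 := by
      rw [ae_iff]; simp
    filter_upwards [h0] with r hr
    unfold kr
    simp only [hk1, Set.indicator, Set.mem_Icc, Set.mem_Ioc]
    have hneg : rh (-r) = rh r := by unfold rh; rw [enorm_neg]
    rcases lt_or_gt_of_ne hr with h | h
    · rw [if_neg (show ¬(0 < r ∧ r ≤ σ) by intro h'; linarith [h'.1]), zero_add]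
      by_cases h2 : -σ ≤ r ∧ r ≤ σ
      · rw [if_pos h2, if_pos ⟨by linarith, by linarith [h2.1]⟩, hneg]
      · rw [if_neg h2]; exact zero_le
    · by_cases h2 : -σ ≤ r ∧ r ≤ σ
      · rw [if_pos h2, if_pos ⟨h, h2.2⟩]
        exact le_self_add
      · rw [if_neg h2]; exact zero_le
  refine (lintegral_mono_ae hle).trans ?_
  rw [lintegral_add_left hk1m]
  have h2 : ∫⁻ r, k1 (-r) = ∫⁻ r, k1 r := lintegral_neg_eq_self k1
  have h3 : ∫⁻ r, k1 r = ENNReal.ofReal (2 * Real.sqrt σ) := by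
    rw [hk1, lintegral_indicator measurableSet_Ioc]
    exact lint_rh σ hσ
  rw [h2, h3, ← ENNReal.ofReal_add (by positivity) (by positivity)]
  apply le_of_eq
  congr 1; ring

lemma pointwise_Q (N : ℕ) (hN : 1 ≤ N) (k0 : ℤ) (F : ℝ × ℝ → ℂ) (hFm : Measurable F)
    (hF1 : ∀ p, ‖F p‖ ≤ 1) (hFt : ∀ t, Integrable (fun x => F (t, x)))
    (σ : ℝ) (hσ : 0 < σ) (hσN : σ ≤ 1 / N) (t t' : ℝ) :
    ‖BG N k0 (t - t')‖ₑ * ‖GG N F t t'‖ₑ ≤
      ENNReal.ofReal (4 * Real.pi * cG) * (kr σ (t - t') * (Mt F t + Mt F t')) +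
      ENNReal.ofReal (4 * cG * (1 / σ + N * Real.sqrt N)) * (Mt F t * Mt F t') := by
  have hN' : (0:ℝ) < N := by exact_mod_cast hN
  have hcG := cG_nonneg
  set r := t - t' with hr
  rcases le_or_gt |r| σ with h | h
  · refine le_trans ?_ le_self_add
    have h1 := BG_le N hN k0 r (h.trans hσN)
    have h2 := GG_L2 N F hFm hF1 hFt t t'
    have h3 : kr σ r = rh r := by
      unfold kr
      rw [Set.indicator_of_mem]
      exact abs_le.1 h
    rw [h3]
    calc _ ≤ (ENNReal.ofReal cG * (2 * rh r)) * (ENNReal.ofReal (2 * Real.pi) * (Mt F t + Mt F t')) := by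
          gcongr
      _ = (ENNReal.ofReal cG * ENNReal.ofReal 2 * ENNReal.ofReal (2 * Real.pi)) *
          (rh r * (Mt F t + Mt F t')) := by
          rw [show ENNReal.ofReal 2 = 2 by simp]
          ring
      _ = _ := by
          rw [← ENNReal.ofReal_mul hcG, ← ENNReal.ofReal_mul (by positivity)]
          congr 2
          ring
  · refine le_trans ?_ le_add_self
    rcases le_or_gt |r| (1 / N) with h2 | h2
    · have h1 := BG_le N hN k0 r h2
      have h3 := GG_disp N hN F hFm hFt t t'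
      have h4 := rh_le r σ hσ h.le
      calc _ ≤ (ENNReal.ofReal cG * (2 * rh r)) * (2 * rh r * (Mt F t * Mt F t')) := by gcongr
        _ ≤ (ENNReal.ofReal cG * (2 * ENNReal.ofReal (1 / Real.sqrt σ))) *
            (2 * ENNReal.ofReal (1 / Real.sqrt σ) * (Mt F t * Mt F t')) := by gcongr
        _ = (ENNReal.ofReal cG * ENNReal.ofReal 4 * (ENNReal.ofReal (1 / Real.sqrt σ) *
            ENNReal.ofReal (1 / Real.sqrt σ))) * (Mt F t * Mt F t') := by
            rw [show ENNReal.ofReal 4 = 2 * 2 by norm_num]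
            ring
        _ ≤ _ := by
            rw [← ENNReal.ofReal_mul hcG, ← ENNReal.ofReal_mul (by positivity),
              ← ENNReal.ofReal_mul (by positivity)]
            refine mul_le_mul_left (ENNReal.ofReal_le_ofReal ?_) _
            have e1 : 1 / Real.sqrt σ * (1 / Real.sqrt σ) = 1 / σ := by
              rw [div_mul_div_comm, Real.mul_self_sqrt hσ.le, one_mul]
            rw [e1]
            have : 0 ≤ (N:ℝ) * Real.sqrt N := by positivity
            nlinarith
    · have h1 := BG_le' N hN k0 r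
      have h3 := GG_disp N hN F hFm hFt t t'
      have h4 := rh_le r (1 / N) (by positivity) h2.le
      calc _ ≤ ENNReal.ofReal (2 * cG * N) * (2 * rh r * (Mt F t * Mt F t')) := by gcongr
        _ ≤ ENNReal.ofReal (2 * cG * N) * (2 * ENNReal.ofReal (1 / Real.sqrt (1 / N)) *
            (Mt F t * Mt F t')) := by gcongr
        _ = (ENNReal.ofReal (2 * cG * N) * ENNReal.ofReal 2 * ENNReal.ofReal (1 / Real.sqrt (1 / N))) *
            (Mt F t * Mt F t') := by
            rw [show ENNReal.ofReal 2 = 2 by simp]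
            ring
        _ ≤ _ := by
            rw [← ENNReal.ofReal_mul (by positivity), ← ENNReal.ofReal_mul (by positivity)]
            refine mul_le_mul_left (ENNReal.ofReal_le_ofReal ?_) _
            have e1 : 1 / Real.sqrt (1 / N) = Real.sqrt N := by
              rw [one_div (N:ℝ), Real.sqrt_inv, one_div, inv_inv]
            rw [e1]
            have h5 : 0 ≤ 1 / σ := by positivity
            have h6 : 0 ≤ cG * (1 / σ) := by positivity
            nlinarith

/-- the `TT*` bound -/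
theorem Q_bound (N : ℕ) (hN : 1 ≤ N) (k0 : ℤ) (F : ℝ × ℝ → ℂ) (hF : Integrable F)
    (hFm : Measurable F)
    (hF1 : ∀ p, ‖F p‖ ≤ 1) (hFt : ∀ t, Integrable (fun x => F (t, x)))
    (σ : ℝ) (hσ : 0 < σ) (hσN : σ ≤ 1 / N) :
    ∫⁻ ω, ‖Ts F ω.1 ω.2‖ₑ ^ 2 ∂((rho1 N k0).prod (rho2 N))
      ≤ ENNReal.ofReal (32 * Real.pi * cG * Real.sqrt σ) * (∫⁻ p, ‖F p‖ₑ) +
        ENNReal.ofReal (4 * cG * (1 / σ + N * Real.sqrt N)) * (∫⁻ p, ‖F p‖ₑ) ^ 2 := by
  have hcG := cG_nonneg
  have hMm := measurable_Mt F hFm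
  refine (Q_le N hN k0 F hF hFm hFt).trans ?_
  refine (lintegral_mono fun t => lintegral_mono fun t' =>
    pointwise_Q N hN k0 F hFm hF1 hFt σ hσ hσN t t').trans ?_
  rw [← lint_Mt F hFm]
  set V := ∫⁻ t, Mt F t with hV
  set A := ENNReal.ofReal (4 * Real.pi * cG) with hA
  set B := ENNReal.ofReal (4 * cG * (1 / σ + N * Real.sqrt N)) with hB
  have h1 : ∀ t, ∫⁻ t', (A * (kr σ (t - t') * (Mt F t + Mt F t')) + B * (Mt F t * Mt F t'))
      = A * (Mt F t * (∫⁻ r, kr σ r) + ∫⁻ t', kr σ (t - t') * Mt F t') + B * (Mt F t * V) := by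
    intro t
    rw [lintegral_add_left (by fun_prop), lintegral_const_mul _ (by fun_prop),
      lintegral_const_mul _ (by fun_prop), lintegral_const_mul _ hMm]
    congr 2
    simp_rw [mul_add]
    rw [lintegral_add_left (by fun_prop), lintegral_mul_const _ (by fun_prop)]
    rw [lintegral_sub_left_eq_self (kr σ) t, mul_comm]
  simp_rw [h1]
  have hm2 : Measurable (fun t => ∫⁻ t', kr σ (t - t') * Mt F t') := by
    apply Measurable.lintegral_prod_right' (f := fun z : ℝ × ℝ => kr σ (z.1 - z.2) * Mt F z.2)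
    fun_prop
  rw [lintegral_add_left (by fun_prop), lintegral_const_mul _ (by fun_prop),
    lintegral_const_mul _ (by fun_prop), lintegral_add_left (by fun_prop),
    lintegral_mul_const _ hMm, lintegral_mul_const _ hMm]
  have h2 : ∫⁻ t, ∫⁻ t', kr σ (t - t') * Mt F t' = (∫⁻ r, kr σ r) * V := by
    rw [lintegral_lintegral_swap (by fun_prop)]
    rw [hV, ← lintegral_const_mul _ hMm]
    refine lintegral_congr fun t' => ?_
    rw [lintegral_mul_const _ (by fun_prop)]
    congr 1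
    exact lintegral_sub_right_eq_self (kr σ) t'
  rw [h2, ← hV]
  have h3 := lint_kr σ hσ
  rw [sq]
  refine add_le_add ?_ le_rfl
  calc A * (V * (∫⁻ r, kr σ r) + (∫⁻ r, kr σ r) * V)
      = A * ENNReal.ofReal 2 * (∫⁻ r, kr σ r) * V := by
        rw [show ENNReal.ofReal 2 = 2 by simp]; ring
    _ ≤ A * ENNReal.ofReal 2 * ENNReal.ofReal (4 * Real.sqrt σ) * V := by gcongr
    _ = _ := by
        rw [hA, ← ENNReal.ofReal_mul (by positivity), ← ENNReal.ofReal_mul (by positivity)]
        congr 2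
        ring

end Pool.Agent.E8helper95
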