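import Pool.Agent.E8helper95.F21

/-!
Level set estimate.
-/

set_option autoImplicit false

namespace Pool.Agent.E8helper95

open MeasureTheory Complex Set Finset
open scoped ENNReal ComplexConjugate Nat

lemma one_le_gw (N : ℕ) (hN : 1 ≤ N) (y : ℝ) (hy : |y| ≤ N) :
    1 ≤ Real.exp 1 * gw N y := by
  have hN' : (0:ℝ) < N := by exact_mod_cast hN
  unfold gw
  rw [← Real.exp_add]
  apply Real.one_le_exp
  have h1 : (y / N) ^ 2 ≤ 1 := by
    rw [← sq_abs, abs_div, abs_of_pos hN']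
    apply pow_le_one₀ (by positivity)
    rwa [div_le_one hN']
  linarith

lemma window_le (N : ℕ) (hN : 1 ≤ N) (k0 : ℤ) (𝓚 : Finset ℤ) (h𝓚 : ∀ k ∈ 𝓚, |k - k0| ≤ N)
    (G : ℤ × ℝ → ℝ≥0∞) (hG : Measurable G) :
    ∑ k ∈ 𝓚, ∫⁻ η in Set.Icc (-(N:ℝ)) N, G (k, η)
      ≤ ENNReal.ofReal (Real.exp 2) * ∫⁻ ω, G ω ∂((rho1 N k0).prod (rho2 N)) := by
  have := finite_rho1 N hN k0
  have := finite_rho2 N hN
  rw [lintegral_prod _ hG.aemeasurable, lintegral_countable', ← ENNReal.tsum_mul_left]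
  refine le_trans ?_ (ENNReal.sum_le_tsum 𝓚)
  refine Finset.sum_le_sum fun k hk => ?_
  rw [rho1_singleton]
  unfold rho2
  rw [lintegral_withDensity_eq_lintegral_mul _ (by fun_prop) (by fun_prop)]
  rw [mul_comm (∫⁻ _, _ ∂_), ← mul_assoc, ← ENNReal.ofReal_mul (by positivity)]
  rw [← lintegral_const_mul _ (by fun_prop), ← lintegral_indicator measurableSet_Icc]
  refine lintegral_mono fun η => ?_
  simp only [Set.indicator, Pi.mul_apply]
  split_ifs with h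
  · have h1 := one_le_gw N hN η (abs_le.2 h)
    have h2 := one_le_gw N hN (k - k0) (by exact_mod_cast h𝓚 k hk)
    rw [← mul_assoc, ← ENNReal.ofReal_mul (by have := gw_pos N ((k:ℝ) - k0); positivity)]
    have h3 : 1 ≤ Real.exp 2 * gw N ((k:ℝ) - k0) * gw N η := by
      have e1 : Real.exp 2 = Real.exp 1 * Real.exp 1 := by rw [← Real.exp_add]; norm_num
      calc (1:ℝ) = 1 * 1 := by norm_num
        _ ≤ (Real.exp 1 * gw N (k - k0)) * (Real.exp 1 * gw N η) := by gcongr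
        _ = _ := by rw [e1]; ring
    calc G (k, η) = ENNReal.ofReal 1 * G (k, η) := by rw [ENNReal.ofReal_one, one_mul]
      _ ≤ _ := by gcongr
  · exact zero_le

/-- duality bound -/
lemma dual_bound (N : ℕ) (hN : 1 ≤ N) (k0 : ℤ) (𝓚 : Finset ℤ) (h𝓚 : ∀ k ∈ 𝓚, |k - k0| ≤ N)
    (b : ℤ → ℝ → ℂ) (hb : ∀ k, MemLp (b k) 2 volume) (hs : ∀ k η, (N:ℝ) < |η| → b k η = 0)
    (F : ℝ × ℝ → ℂ) (hF : Integrable F) (hFm : Measurable F) :
    ‖∫ p, uu 𝓚 b p.1 p.2 * conj (F p)‖ₑ ≤ sr (mb 𝓚 b) * sr (ENNReal.ofReal (Real.exp 2) *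
      ∫⁻ ω, ‖Ts F ω.1 ω.2‖ₑ ^ 2 ∂((rho1 N k0).prod (rho2 N))) := by
  obtain ⟨hTm, hTb⟩ := Ts_meas_bound F hF hFm
  have hTk : ∀ k : ℤ, Measurable (fun η => Ts F k η) := fun k =>
    hTm.comp (measurable_const.prodMk measurable_id)
  rw [duality 𝓚 b (fun k => integrable_of_supp (hb k) N (hs k)) F hF]
  refine (enorm_sum_le _ _).trans ?_
  have h1 : ∀ k ∈ 𝓚, ‖∫ η, b k η * conj (Ts F k η)‖ₑ ≤
      sr (∫⁻ η, ‖b k η‖ₑ ^ 2) * sr (∫⁻ η in Set.Icc (-(N:ℝ)) N, ‖Ts F k η‖ₑ ^ 2) := by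
    intro k _
    refine (enorm_integral_le_lintegral_enorm _).trans ?_
    have h2 : ∫⁻ η, ‖b k η * conj (Ts F k η)‖ₑ
        = ∫⁻ η in Set.Icc (-(N:ℝ)) N, ‖b k η‖ₑ * ‖Ts F k η‖ₑ := by
      rw [← lintegral_indicator measurableSet_Icc]
      refine lintegral_congr fun η => ?_
      simp only [Set.indicator]
      split_ifs with h
      · rw [enorm_mul, RCLike.enorm_conj]
      · rw [hs k η, zero_mul, enorm_zero]
        by_contra h3
        push Not at h3
        exact h (abs_le.1 h3)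
    rw [h2]
    refine (sr_le_of_sq_le (CSL _ (hb k).1.enorm.restrict (hTk k).enorm.aemeasurable)).trans ?_
    rw [sr_mul]
    gcongr
    exact Measure.restrict_le_self
  refine (Finset.sum_le_sum h1).trans ?_
  have h3 : ∑ k ∈ 𝓚, sr (∫⁻ η, ‖b k η‖ₑ ^ 2) * sr (∫⁻ η in Set.Icc (-(N:ℝ)) N, ‖Ts F k η‖ₑ ^ 2)
      ≤ sr (∑ k ∈ 𝓚, ∫⁻ η, ‖b k η‖ₑ ^ 2) *
        sr (∑ k ∈ 𝓚, ∫⁻ η in Set.Icc (-(N:ℝ)) N, ‖Ts F k η‖ₑ ^ 2) := by
    have h4 := CS_sum 𝓚 (fun k => sr (∫⁻ η, ‖b k η‖ₑ ^ 2))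
      (fun k => sr (∫⁻ η in Set.Icc (-(N:ℝ)) N, ‖Ts F k η‖ₑ ^ 2))
    have h5 := sr_mono h4
    rw [sr_sq, sr_mul] at h5
    refine h5.trans (le_of_eq ?_)
    congr 2 <;>
    · refine Finset.sum_congr rfl fun k _ => ?_
      rw [sq, sr_mul_self]
  refine h3.trans ?_
  unfold mb
  gcongr
  exact window_le N hN k0 𝓚 h𝓚 (fun ω => ‖Ts F ω.1 ω.2‖ₑ ^ 2) (by fun_prop)

theorem level_set : ∃ C1 C2 : ℝ, 0 < C1 ∧ 0 < C2 ∧ ∀ (N : ℕ), 1 ≤ N → ∀ (k0 : ℤ) (𝓚 : Finset ℤ),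
    (∀ k ∈ 𝓚, |k - k0| ≤ N) → ∀ (b : ℤ → ℝ → ℂ), (∀ k, MemLp (b k) 2 volume) →
    (∀ k η, (N:ℝ) < |η| → b k η = 0) → ∀ β : ℝ, 0 < β → mb 𝓚 b ≤ ENNReal.ofReal β →
    ∀ lam : ℝ, 0 < lam → C1 * β * (N * Real.sqrt N) ≤ lam ^ 2 →
    ∀ (E : Set (ℝ × ℝ)) (R : ℝ), MeasurableSet E → E ⊆ Set.Icc (-R) R ×ˢ Set.Icc (-R) R →
    (∀ p ∈ E, lam < ‖uu 𝓚 b p.1 p.2‖) →
    volume E ≤ ENNReal.ofReal (C2 * (β * Real.sqrt β) / lam ^ 3) := by
  have hcG : 0 < cG := lt_of_lt_of_le one_pos one_le_cG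
  have hpi := Real.pi_pos
  set S0 : ℝ := 16 * Real.exp 2 * cG with hS0
  have hS0' : 0 < S0 := by positivity
  refine ⟨S0, 2 * Real.exp 2 * (32 * Real.pi * cG) * Real.sqrt S0, hS0', by positivity, ?_⟩
  intro N hN k0 𝓚 h𝓚 b hb hs β hβ hmb lam hlam hlamN E R hE hER hEu
  have hN' : (1:ℝ) ≤ N := by exact_mod_cast hN
  have hu : Continuous (fun p : ℝ × ℝ => uu 𝓚 b p.1 p.2) :=
    continuous_uu 𝓚 b (fun k => integrable_of_supp (hb k) N (hs k))
  -- the sign function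
  set F : ℝ × ℝ → ℂ := E.indicator (fun p => uu 𝓚 b p.1 p.2 / ‖uu 𝓚 b p.1 p.2‖) with hF
  have hFm : Measurable F := by
    apply Measurable.indicator _ hE
    exact hu.measurable.div (Complex.measurable_ofReal.comp hu.norm.measurable)
  have hFE : ∀ p ∈ E, ‖F p‖ = 1 := by
    intro p hp
    have h1 : 0 < ‖uu 𝓚 b p.1 p.2‖ := hlam.trans (hEu p hp)
    simp only [hF, Set.indicator_of_mem hp]
    rw [norm_div, Complex.norm_real, norm_norm, div_self h1.ne']
  have hF0 : ∀ p, p ∉ E → F p = 0 := fun p hp => Set.indicator_of_notMem hp _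
  have hF1 : ∀ p, ‖F p‖ ≤ 1 := by
    intro p
    by_cases hp : p ∈ E
    · exact (hFE p hp).le
    · rw [hF0 p hp, norm_zero]; exact zero_le_one
  have hEfin : volume E < ⊤ := by
    refine lt_of_le_of_lt (measure_mono hER) ?_
    exact (isCompact_Icc.prod isCompact_Icc).measure_lt_top
  have hVe : ∫⁻ p, ‖F p‖ₑ = volume E := by
    rw [← lintegral_indicator_one hE]
    refine lintegral_congr fun p => ?_
    by_cases hp : p ∈ E
    · rw [Set.indicator_of_mem hp, ← ofReal_norm, hFE p hp]; simp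
    · rw [Set.indicator_of_notMem hp, hF0 p hp, enorm_zero]
  have hFint : Integrable F := ⟨hFm.aestronglyMeasurable, by
    rw [hasFiniteIntegral_iff_enorm, hVe]; exact hEfin⟩
  have hFt : ∀ t, Integrable (fun x => F (t, x)) := by
    intro t
    have h1 : (fun x => F (t, x)) = (Set.Icc (-R) R).indicator (fun x => F (t, x)) := by
      ext x
      by_cases hx : x ∈ Set.Icc (-R) R
      · rw [Set.indicator_of_mem hx]
      · rw [Set.indicator_of_notMem hx]
        apply hF0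
        intro h
        exact hx (hER h).2
    rw [h1, integrable_indicator_iff measurableSet_Icc]
    apply Measure.integrableOn_of_bounded (M := 1)
    · exact measure_Icc_lt_top.ne
    · exact (by fun_prop : Measurable fun x => F (t, x)).aestronglyMeasurable
    · exact Filter.Eventually.of_forall fun x => hF1 _
  set V : ℝ := (volume E).toReal with hV
  have hVV : volume E = ENNReal.ofReal V := (ENNReal.ofReal_toReal hEfin.ne).symm
  have hV0 : 0 ≤ V := ENNReal.toReal_nonneg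
  -- lower bound
  have hlow : ENNReal.ofReal (lam * V) ≤ ‖∫ p, uu 𝓚 b p.1 p.2 * conj (F p)‖ₑ := by
    have h1 : ∀ p, uu 𝓚 b p.1 p.2 * conj (F p) = ((E.indicator (fun p => ‖uu 𝓚 b p.1 p.2‖) p : ℝ) : ℂ) := by
      intro p
      by_cases hp : p ∈ E
      · have h1 : 0 < ‖uu 𝓚 b p.1 p.2‖ := hlam.trans (hEu p hp)
        simp only [hF, Set.indicator_of_mem hp]
        rw [map_div₀, Complex.conj_ofReal, ← mul_div_assoc, RCLike.mul_conj]
        rw [div_eq_iff (by exact_mod_cast h1.ne')]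
        push_cast
        exact sq _
      · rw [hF0 p hp, Set.indicator_of_notMem hp]; simp
    simp_rw [h1]
    rw [integral_complex_ofReal, ← ofReal_norm, Complex.norm_real, Real.norm_eq_abs]
    apply ENNReal.ofReal_le_ofReal
    refine le_trans ?_ (le_abs_self _)
    rw [integral_indicator hE]
    have h2 : lam * V = ∫ p in E, lam := by
      rw [setIntegral_const, smul_eq_mul, measureReal_def, mul_comm]
    rw [h2]
    apply setIntegral_mono_on
    · exact integrableOn_const hEfin.ne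
    · exact (hu.norm.continuousOn.integrableOn_compact (isCompact_Icc.prod isCompact_Icc)).mono_set hER
    · exact hE
    · intro p hp; exact (hEu p hp).le
  -- upper bound
  set σ : ℝ := S0 * β / lam ^ 2 with hσ
  have hσ0 : 0 < σ := by positivity
  have hsN : (1:ℝ) ≤ Real.sqrt N := Real.one_le_sqrt.2 hN'
  have hσN : σ ≤ 1 / N := by
    rw [hσ, div_le_div_iff₀ (by positivity) (by positivity), one_mul]
    refine le_trans ?_ hlamN
    have : 0 ≤ S0 * β * N := by positivity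
    nlinarith
  have hQ := Q_bound N hN k0 F hFint hFm hF1 hFt σ hσ0 hσN
  have hD := dual_bound N hN k0 𝓚 h𝓚 b hb hs F hFint hFm
  rw [hVe, hVV] at hQ
  set Q := ∫⁻ ω, ‖Ts F ω.1 ω.2‖ₑ ^ 2 ∂((rho1 N k0).prod (rho2 N)) with hQd
  have h3 : ENNReal.ofReal (lam * V) ^ 2 ≤ ENNReal.ofReal β * (ENNReal.ofReal (Real.exp 2) *
      (ENNReal.ofReal (32 * Real.pi * cG * Real.sqrt σ) * ENNReal.ofReal V +
        ENNReal.ofReal (4 * cG * (1 / σ + N * Real.sqrt N)) * ENNReal.ofReal V ^ 2)) := by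
    calc _ ≤ (sr (mb 𝓚 b) * sr (ENNReal.ofReal (Real.exp 2) * Q)) ^ 2 := by
          gcongr
          exact hlow.trans hD
      _ = mb 𝓚 b * (ENNReal.ofReal (Real.exp 2) * Q) := by
          rw [mul_pow, sq, sq, sr_mul_self, sr_mul_self]
      _ ≤ _ := by gcongr
  have hsq : 0 ≤ 1 / σ + N * Real.sqrt N := by positivity
  rw [← ENNReal.ofReal_pow (by positivity), ← ENNReal.ofReal_pow (by positivity),
    ← ENNReal.ofReal_mul (by positivity), ← ENNReal.ofReal_mul (by positivity),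
    ← ENNReal.ofReal_add (by positivity) (by positivity), ← ENNReal.ofReal_mul (by positivity),
    ← ENNReal.ofReal_mul (by positivity), ENNReal.ofReal_le_ofReal_iff (by positivity)] at h3
  rw [hVV]
  apply ENNReal.ofReal_le_ofReal
  rcases hV0.eq_or_lt with h4 | h4
  · rw [← h4]; positivity
  -- divide by V
  have h5 : lam ^ 2 * V ≤ β * (Real.exp 2 * (32 * Real.pi * cG * Real.sqrt σ +
      4 * cG * (1 / σ + N * Real.sqrt N) * V)) := by
    have h6 : V * (lam ^ 2 * V) ≤ V * (β * (Real.exp 2 * (32 * Real.pi * cG * Real.sqrt σ +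
      4 * cG * (1 / σ + N * Real.sqrt N) * V))) := by
      calc V * (lam ^ 2 * V) = (lam * V) ^ 2 := by ring
        _ ≤ _ := h3
        _ = _ := by ring
    exact le_of_mul_le_mul_left h6 h4
  have h7 : β * (Real.exp 2 * (4 * cG * (1 / σ) * V)) = lam ^ 2 / 4 * V := by
    rw [hσ, hS0]
    have := Real.exp_pos 2
    field_simp
    ring
  have h8 : β * (Real.exp 2 * (4 * cG * (N * Real.sqrt N) * V)) ≤ lam ^ 2 / 4 * V := by
    have h9 : S0 * β * (N * Real.sqrt N) / 4 * V ≤ lam ^ 2 / 4 * V := by gcongr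
    refine le_trans (le_of_eq ?_) h9
    rw [hS0]; ring
  have h10 : lam ^ 2 * V ≤ 2 * (β * (Real.exp 2 * (32 * Real.pi * cG * Real.sqrt σ))) := by
    have h11 : β * (Real.exp 2 * (32 * Real.pi * cG * Real.sqrt σ +
      4 * cG * (1 / σ + N * Real.sqrt N) * V)) = β * (Real.exp 2 * (32 * Real.pi * cG * Real.sqrt σ))
        + β * (Real.exp 2 * (4 * cG * (1 / σ) * V)) +
        β * (Real.exp 2 * (4 * cG * (N * Real.sqrt N) * V)) := by ring
    rw [h11, h7] at h5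
    linarith
  have h12 : Real.sqrt σ = Real.sqrt S0 * Real.sqrt β / lam := by
    rw [hσ, Real.sqrt_div (by positivity), Real.sqrt_mul hS0'.le, Real.sqrt_sq hlam.le]
  rw [h12] at h10
  rw [le_div_iff₀ (by positivity)]
  calc V * lam ^ 3 = lam * (lam ^ 2 * V) := by ring
    _ ≤ lam * (2 * (β * (Real.exp 2 * (32 * Real.pi * cG * (Real.sqrt S0 * Real.sqrt β / lam))))) := by
        gcongr
    _ = _ := by
        field_simp

end Pool.Agent.E8helper95
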