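import Pool.Agent.E8helper95.F22

/-!
Estimates for `3 < p < 4`.
-/

set_option autoImplicit false

namespace Pool.Agent.E8helper95

open MeasureTheory Complex Set Finset
open scoped ENNReal ComplexConjugate Nat

lemma card_window (N : ℕ) (k0 : ℤ) (𝓚 : Finset ℤ) (h𝓚 : ∀ k ∈ 𝓚, |k - k0| ≤ N) :
    𝓚.card ≤ 2 * N + 1 := by
  have h1 : 𝓚 ⊆ Finset.Icc (k0 - N) (k0 + N) := by
    intro k hk
    have := abs_le.1 (h𝓚 k hk)
    rw [Finset.mem_Icc]
    constructor <;> linarith [this.1, this.2]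
  refine (Finset.card_le_card h1).trans ?_
  rw [Int.card_Icc]
  omega

lemma sup_uu (N : ℕ) (hN : 1 ≤ N) (k0 : ℤ) (𝓚 : Finset ℤ) (h𝓚 : ∀ k ∈ 𝓚, |k - k0| ≤ N)
    (b : ℤ → ℝ → ℂ) (hb : ∀ k, MemLp (b k) 2 volume) (hs : ∀ k η, (N:ℝ) < |η| → b k η = 0)
    (t x : ℝ) : ‖uu 𝓚 b t x‖ₑ ≤ ENNReal.ofReal (3 * N) * sr (mb 𝓚 b) := by
  have hN' : (1:ℝ) ≤ N := by exact_mod_cast hN
  have h1 : ‖uu 𝓚 b t x‖ₑ ≤ ∑ k ∈ 𝓚, 1 * ∫⁻ η, ‖b k η‖ₑ := by
    unfold uu
    refine (enorm_sum_le _ _).trans ?_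
    refine Finset.sum_le_sum fun k _ => ?_
    rw [one_mul]
    refine (enorm_integral_le_lintegral_enorm _).trans (le_of_eq ?_)
    refine lintegral_congr fun η => ?_
    rw [enorm_mul, enorm_ee, mul_one]
  have h2 : ∀ k, (∫⁻ η, ‖b k η‖ₑ) ^ 2 ≤ ENNReal.ofReal (2 * N) * ∫⁻ η, ‖b k η‖ₑ ^ 2 := by
    intro k
    have e1 : ∫⁻ η, ‖b k η‖ₑ = ∫⁻ η in Set.Icc (-(N:ℝ)) N, 1 * ‖b k η‖ₑ := by
      rw [← lintegral_indicator measurableSet_Icc]
      refine lintegral_congr fun η => ?_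
      simp only [Set.indicator]
      split_ifs with h
      · rw [one_mul]
      · rw [hs k η, enorm_zero]
        by_contra h3
        push Not at h3
        exact h (abs_le.1 h3)
    rw [e1]
    refine (CSL _ aemeasurable_const (hb k).1.enorm.restrict).trans ?_
    gcongr
    · simp only [one_pow, lintegral_const, one_mul, Measure.restrict_apply MeasurableSet.univ,
        Set.univ_inter, Real.volume_Icc]
      apply ENNReal.ofReal_le_ofReal
      linarith
    · exact Measure.restrict_le_self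
  have h3 : ‖uu 𝓚 b t x‖ₑ ^ 2 ≤ ENNReal.ofReal ((3 * N) ^ 2) * mb 𝓚 b := by
    calc ‖uu 𝓚 b t x‖ₑ ^ 2 ≤ (∑ k ∈ 𝓚, 1 * ∫⁻ η, ‖b k η‖ₑ) ^ 2 := by gcongr
      _ ≤ (∑ k ∈ 𝓚, 1 ^ 2) * ∑ k ∈ 𝓚, (∫⁻ η, ‖b k η‖ₑ) ^ 2 := CS_sum _ _ _
      _ ≤ ENNReal.ofReal (2 * N + 1) * ∑ k ∈ 𝓚, (ENNReal.ofReal (2 * N) * ∫⁻ η, ‖b k η‖ₑ ^ 2) := by
          gcongr with k _
          · simp only [one_pow, Finset.sum_const, nsmul_eq_mul, mul_one]
            rw [← ENNReal.ofReal_natCast]
            apply ENNReal.ofReal_le_ofReal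
            exact_mod_cast card_window N k0 𝓚 h𝓚
          · exact h2 k
      _ = ENNReal.ofReal (2 * N + 1) * ENNReal.ofReal (2 * N) * mb 𝓚 b := by
          unfold mb
          rw [← Finset.mul_sum, mul_assoc]
      _ ≤ _ := by
          rw [← ENNReal.ofReal_mul (by positivity)]
          gcongr
          nlinarith
  have h4 := sr_le_of_sq_le h3
  rw [sr_mul] at h4
  refine h4.trans (le_of_eq ?_)
  congr 1
  rw [ENNReal.ofReal_pow (by positivity), sr_sq]

lemma nuT_eq (T : ℝ) : nuT T = (volume : Measure (ℝ × ℝ)).restrict (Set.Ioc (-T) T ×ˢ Set.univ) := by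
  unfold nuT
  rw [Measure.volume_eq_prod, ← Measure.prod_restrict, Measure.restrict_univ]

lemma weak_nuT (T : ℝ) (f : ℝ × ℝ → ℝ) (hf : Measurable f) (lam : ℝ) (K : ℝ≥0∞)
    (h : ∀ (E : Set (ℝ × ℝ)) (R : ℝ), MeasurableSet E → E ⊆ Set.Icc (-R) R ×ˢ Set.Icc (-R) R →
      (∀ p ∈ E, lam < f p) → volume E ≤ K) : nuT T {p | lam < f p} ≤ K := by
  rw [nuT_eq, Measure.restrict_apply (measurableSet_lt measurable_const hf)]
  set G : ℕ → Set (ℝ × ℝ) := fun n => {p | lam < f p} ∩ (Set.Ioc (-T) T ×ˢ Set.Icc (-(n:ℝ)) n) with hG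
  have h1 : {p | lam < f p} ∩ (Set.Ioc (-T) T ×ˢ Set.univ) = ⋃ n, G n := by
    ext p
    simp only [hG, Set.mem_inter_iff, Set.mem_iUnion, Set.mem_prod, Set.mem_univ, and_true]
    constructor
    · rintro ⟨h1, h2⟩
      obtain ⟨n, hn⟩ := exists_nat_ge |p.2|
      exact ⟨n, h1, h2, abs_le.1 hn⟩
    · rintro ⟨n, h1, h2, _⟩
      exact ⟨h1, h2⟩
  have hmono : Monotone G := by
    intro m n hmn
    have hmn' : (m:ℝ) ≤ n := by exact_mod_cast hmn
    apply Set.inter_subset_inter_right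
    apply Set.prod_mono le_rfl
    exact Set.Icc_subset_Icc (by linarith) hmn'
  rw [h1, hmono.measure_iUnion]
  apply iSup_le
  intro n
  apply h (G n) (max |T| n)
  · exact (measurableSet_lt measurable_const hf).inter (measurableSet_Ioc.prod measurableSet_Icc)
  · rintro p ⟨_, h2, h3⟩
    have h4 : |T| ≤ max |T| n := le_max_left _ _
    have h5 : (n:ℝ) ≤ max |T| n := le_max_right _ _
    have h6 := le_abs_self T
    refine ⟨⟨?_, ?_⟩, ⟨?_, ?_⟩⟩
    · linarith [h2.1]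
    · linarith [h2.2]
    · linarith [h3.1]
    · linarith [h3.2]
  · rintro p ⟨h1, _⟩
    exact h1

/-- layer cake for a bounded function satisfying a weak-type bound -/
lemma layer (ν : Measure (ℝ × ℝ)) (f : ℝ × ℝ → ℝ) (hf : Measurable f) (hf0 : ∀ p, 0 ≤ f p)
    (W Mx : ℝ) (hW : 0 ≤ W) (hMx : 0 < Mx) (hfM : ∀ p, f p ≤ Mx)
    (hweak : ∀ lam : ℝ, 0 < lam → ν {p | lam < f p} ≤ ENNReal.ofReal (W / lam ^ 3))
    (p : ℝ) (hp : 3 < p) :
    ∫⁻ z, ENNReal.ofReal (f z ^ p) ∂ν ≤ ENNReal.ofReal (p * W * Mx ^ (p - 3) / (p - 3)) := by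
  have hp0 : 0 < p := by linarith
  rw [lintegral_rpow_eq_lintegral_meas_lt_mul ν (Filter.Eventually.of_forall hf0)
    hf.aemeasurable hp0]
  have h1 : ∫⁻ t in Set.Ioi (0:ℝ), ν {a | t < f a} * ENNReal.ofReal (t ^ (p - 1))
      ≤ ∫⁻ t in Set.Ioc (0:ℝ) Mx, ENNReal.ofReal (W * t ^ (p - 4)) := by
    rw [← lintegral_indicator measurableSet_Ioi, ← lintegral_indicator measurableSet_Ioc]
    refine lintegral_mono fun t => ?_
    simp only [Set.indicator, Set.mem_Ioi, Set.mem_Ioc]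
    by_cases ht : 0 < t
    · rw [if_pos ht]
      by_cases ht2 : t ≤ Mx
      · rw [if_pos ⟨ht, ht2⟩]
        calc _ ≤ ENNReal.ofReal (W / t ^ 3) * ENNReal.ofReal (t ^ (p - 1)) := by
              gcongr
              exact hweak t ht
          _ = _ := by
              rw [← ENNReal.ofReal_mul (by positivity)]
              congr 1
              rw [show p - 1 = (p - 4) + (3:ℕ) by push_cast; ring, Real.rpow_add_natCast ht.ne']
              field_simp
      · have h2 : {a | t < f a} = ∅ := by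
          ext a
          simp only [Set.mem_setOf_eq, Set.mem_empty_iff_false, iff_false, not_lt]
          push Not at ht2
          exact (hfM a).trans ht2.le
        rw [h2, measure_empty, zero_mul]
        exact zero_le
    · rw [if_neg ht]; exact zero_le
  refine (mul_le_mul_right h1 _).trans ?_
  have hii : IntervalIntegrable (fun t : ℝ => W * t ^ (p - 4)) volume 0 Mx :=
    (intervalIntegral.intervalIntegrable_rpow' (by linarith)).const_mul W
  rw [intervalIntegrable_iff_integrableOn_Ioc_of_le hMx.le] at hii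
  rw [← ofReal_integral_eq_lintegral_ofReal hii, ← ENNReal.ofReal_mul hp0.le]
  · apply ENNReal.ofReal_le_ofReal
    rw [← intervalIntegral.integral_of_le hMx.le, intervalIntegral.integral_const_mul,
      integral_rpow (Or.inl (by linarith))]
    rw [show p - 4 + 1 = p - 3 by ring, Real.zero_rpow (by linarith), sub_zero]
    apply le_of_eq
    ring
  · rw [Filter.EventuallyLE, ae_restrict_iff' measurableSet_Ioc]
    refine Filter.Eventually.of_forall fun t ht => ?_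
    simp only [Pi.zero_apply]
    have := Real.rpow_nonneg ht.1.le (p - 4)
    positivity

end Pool.Agent.E8helper95
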