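import Pool.Agent.E8helper95.F23

/-!
The sharp estimate for `p > 3`.
-/

set_option autoImplicit false

namespace Pool.Agent.E8helper95

open MeasureTheory Complex Set Finset
open scoped ENNReal ComplexConjugate Nat

lemma mb_ne_top (𝓚 : Finset ℤ) (b : ℤ → ℝ → ℂ) (hb : ∀ k, MemLp (b k) 2 volume) :
    mb 𝓚 b ≠ ⊤ := by
  unfold mb
  apply (ENNReal.sum_lt_top.2 _).ne
  intro k _
  have h := (hb k).2
  rw [eLpNorm_lt_top_iff_lintegral_rpow_enorm_lt_top (by norm_num) (by norm_num)] at h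
  simpa using h

theorem Lp_high (T : ℝ) (hT : 0 ≤ T) (p : ℝ) (h3 : 3 < p) : ∃ C : ℝ, 0 ≤ C ∧ ∀ (N : ℕ), 1 ≤ N →
    ∀ (k0 : ℤ) (𝓚 : Finset ℤ), (∀ k ∈ 𝓚, |k - k0| ≤ N) →
    ∀ (b : ℤ → ℝ → ℂ), (∀ k, MemLp (b k) 2 volume) → (∀ k η, (N:ℝ) < |η| → b k η = 0) →
    eLpNorm (fun z : ℝ × ℝ => uu 𝓚 b z.1 z.2) (ENNReal.ofReal p) (nuT T)
      ≤ ENNReal.ofReal (C * (N:ℝ) ^ (1 - 3 / p)) * sr (mb 𝓚 b) := by
  have hp0 : 0 < p := by linarith
  have hε : 0 < (p - 3) / 12 := by linarith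
  obtain ⟨C3, hC3, hL3⟩ := L3uu ((p - 3) / 12) hε T hT
  obtain ⟨C1, C2, hC1, hC2, hLS⟩ := level_set
  set K : ℝ := (Real.sqrt C1) ^ (p - 3) * C3 ^ 3 + p * C2 * 3 ^ (p - 3) / (p - 3) with hK
  have hp3 : 0 < p - 3 := by linarith
  have hK0 : 0 ≤ K := by positivity
  refine ⟨K ^ (1 / p), by positivity, ?_⟩
  intro N hN k0 𝓚 h𝓚 b hb hs
  have hN' : (1:ℝ) ≤ N := by exact_mod_cast hN
  have hN0 : (0:ℝ) < N := by linarith
  have hu : Continuous (fun p : ℝ × ℝ => uu 𝓚 b p.1 p.2) :=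
    continuous_uu 𝓚 b (fun k => integrable_of_supp (hb k) N (hs k))
  have hmt := mb_ne_top 𝓚 b hb
  have hL := hL3 N hN k0 𝓚 h𝓚 b hb hs
  have hpE : ENNReal.ofReal p ≠ 0 := (ENNReal.ofReal_pos.2 hp0).ne'
  by_cases hm0 : mb 𝓚 b = 0
  · rw [hm0] at hL
    have e0 : sr 0 = 0 := by
      have := sr_mul_self 0
      simpa using this
    rw [e0, mul_zero, nonpos_iff_eq_zero] at hL
    rw [eLpNorm_eq_zero_iff hu.aestronglyMeasurable (by norm_num)] at hL
    rw [eLpNorm_congr_ae hL]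
    simp
  set β : ℝ := (mb 𝓚 b).toReal with hβ
  have hβ0 : 0 < β := ENNReal.toReal_pos hm0 hmt
  have hmβ : mb 𝓚 b = ENNReal.ofReal β := (ENNReal.ofReal_toReal hmt).symm
  have hsβ : sr (mb 𝓚 b) = ENNReal.ofReal (Real.sqrt β) := by
    rw [hmβ]
    unfold sr
    rw [ENNReal.ofReal_rpow_of_pos hβ0, Real.sqrt_eq_rpow]
  set s : ℝ := Real.sqrt β with hs'
  have hs0 : 0 < s := Real.sqrt_pos.2 hβ0
  have hss : β = s ^ 2 := (Real.sq_sqrt hβ0.le).symm
  rw [hsβ] at hL ⊢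
  rw [← ENNReal.ofReal_mul (by positivity)] at hL ⊢
  -- threshold
  set l0 : ℝ := Real.sqrt C1 * s * (N:ℝ) ^ (3 / 4 : ℝ) with hl0
  have hl0p : 0 < l0 := by
    have : 0 < Real.sqrt C1 := Real.sqrt_pos.2 hC1
    positivity
  have hl0sq : l0 ^ 2 = C1 * β * (N * Real.sqrt N) := by
    rw [hl0, mul_pow, mul_pow, Real.sq_sqrt hC1.le, ← hss]
    congr 1
    rw [← Real.rpow_natCast, ← Real.rpow_mul hN0.le, Real.sqrt_eq_rpow]
    nth_rewrite 2 [← Real.rpow_one (N:ℝ)]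
    rw [← Real.rpow_add hN0]
    norm_num
  set f : ℝ × ℝ → ℝ := fun z => ‖uu 𝓚 b z.1 z.2‖ with hf
  have hfc : Continuous f := hu.norm
  set g : ℝ × ℝ → ℝ := {z | l0 < f z}.indicator f with hg
  have hgm : Measurable g := hfc.measurable.indicator (measurableSet_lt measurable_const hfc.measurable)
  have hg0 : ∀ z, 0 ≤ g z := fun z => Set.indicator_nonneg (fun _ _ => norm_nonneg _) z
  have hfM : ∀ z, f z ≤ 3 * N * s := by
    intro z
    have h1 := sup_uu N hN k0 𝓚 h𝓚 b hb hs z.1 z.2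
    rw [hsβ, ← ENNReal.ofReal_mul (by positivity), ← ofReal_norm,
      ENNReal.ofReal_le_ofReal_iff (by positivity)] at h1
    exact h1
  have hgM : ∀ z, g z ≤ 3 * N * s := by
    intro z
    simp only [hg, Set.indicator]
    split_ifs
    · exact hfM z
    · positivity
  set W : ℝ := C2 * (β * s) with hW
  have hweak : ∀ lam : ℝ, 0 < lam → nuT T {z | lam < g z} ≤ ENNReal.ofReal (W / lam ^ 3) := by
    intro lam hlam
    have h1 : {z | lam < g z} ⊆ {z | max lam l0 < f z} := by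
      intro z hz
      simp only [Set.mem_setOf_eq, hg, Set.indicator] at hz ⊢
      split_ifs at hz with h
      · exact max_lt hz h
      · exact absurd hz (not_lt.2 hlam.le)
    have hmx : 0 < max lam l0 := lt_max_of_lt_left hlam
    refine (measure_mono h1).trans ?_
    refine (weak_nuT T f hfc.measurable (max lam l0) (ENNReal.ofReal (W / (max lam l0) ^ 3)) ?_).trans ?_
    · intro E R hE hER hEf
      apply hLS N hN k0 𝓚 h𝓚 b hb hs β hβ0 hmβ.le (max lam l0) hmx _ E R hE hER hEf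
      rw [← hl0sq]
      gcongr
      exact le_max_right _ _
    · apply ENNReal.ofReal_le_ofReal
      gcongr
      exact le_max_left _ _
  have hlay := layer (nuT T) g hgm hg0 W (3 * N * s) (by positivity) (by positivity) hgM hweak p h3
  -- pointwise splitting
  have hpt : ∀ z, ‖uu 𝓚 b z.1 z.2‖ₑ ^ p ≤ ENNReal.ofReal (l0 ^ (p - 3)) *
      ‖uu 𝓚 b z.1 z.2‖ₑ ^ (3:ℝ) + ENNReal.ofReal (g z ^ p) := by
    intro z
    rw [← ofReal_norm, ENNReal.ofReal_rpow_of_nonneg (norm_nonneg _) hp0.le,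
      ENNReal.ofReal_rpow_of_nonneg (norm_nonneg _) (by norm_num),
      ← ENNReal.ofReal_mul (by positivity)]
    by_cases h : l0 < f z
    · refine le_trans ?_ le_add_self
      apply ENNReal.ofReal_le_ofReal
      simp only [hg]
      rw [Set.indicator_of_mem (by exact h)]
    · refine le_trans ?_ le_self_add
      apply ENNReal.ofReal_le_ofReal
      push Not at h
      have h5 : ‖uu 𝓚 b z.1 z.2‖ ^ p = ‖uu 𝓚 b z.1 z.2‖ ^ (p - 3) * ‖uu 𝓚 b z.1 z.2‖ ^ (3:ℝ) := by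
        rw [← Real.rpow_add_of_nonneg (norm_nonneg _) hp3.le (by norm_num)]
        congr 1
        ring
      rw [h5]
      gcongr
  have hI3 : ∫⁻ z, ‖uu 𝓚 b z.1 z.2‖ₑ ^ (3:ℝ) ∂(nuT T)
      ≤ ENNReal.ofReal ((C3 * (N:ℝ) ^ ((p - 3) / 12) * s) ^ 3) := by
    have h5 : eLpNorm (fun p : ℝ × ℝ => uu 𝓚 b p.1 p.2) 3 (nuT T) ^ 3
        = ∫⁻ z, ‖uu 𝓚 b z.1 z.2‖ₑ ^ (3:ℝ) ∂(nuT T) := by
      rw [eLpNorm_eq_lintegral_rpow_enorm_toReal (by norm_num) (by norm_num)]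
      rw [← ENNReal.rpow_natCast, ← ENNReal.rpow_mul]
      norm_num
    rw [← h5, ENNReal.ofReal_pow (by positivity)]
    gcongr
  have hmain : ∫⁻ z, ‖uu 𝓚 b z.1 z.2‖ₑ ^ p ∂(nuT T) ≤ ENNReal.ofReal (K * (N:ℝ) ^ (p - 3) * s ^ p) := by
    refine (lintegral_mono hpt).trans ?_
    rw [lintegral_add_right _ (by fun_prop), lintegral_const_mul _ (by
      have := hu.measurable
      fun_prop)]
    refine (add_le_add (mul_le_mul_right hI3 _) hlay).trans ?_
    rw [← ENNReal.ofReal_mul (by positivity), ← ENNReal.ofReal_add (by positivity) (by positivity)]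
    apply ENNReal.ofReal_le_ofReal
    have e1 : l0 ^ (p - 3) = (Real.sqrt C1) ^ (p - 3) * s ^ (p - 3) * (N:ℝ) ^ (3 / 4 * (p - 3)) := by
      rw [hl0, Real.mul_rpow (by positivity) (by positivity), Real.mul_rpow (by positivity) (by positivity),
        ← Real.rpow_mul hN0.le]
    have e2 : (C3 * (N:ℝ) ^ ((p - 3) / 12) * s) ^ 3 = C3 ^ 3 * (N:ℝ) ^ ((p - 3) / 4) * s ^ 3 := by
      rw [mul_pow, mul_pow, ← Real.rpow_natCast ((N:ℝ) ^ ((p - 3) / 12)) 3, ← Real.rpow_mul hN0.le]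
      congr 3
      push_cast; ring
    have e3 : (3 * N * s) ^ (p - 3) = 3 ^ (p - 3) * (N:ℝ) ^ (p - 3) * s ^ (p - 3) := by
      rw [Real.mul_rpow (by positivity) (by positivity), Real.mul_rpow (by positivity) (by positivity)]
    have e4 : s ^ p = s ^ (p - 3) * s ^ 3 := by
      rw [← Real.rpow_natCast s 3, ← Real.rpow_add hs0]
      congr 1; push_cast; ring
    have e5 : (N:ℝ) ^ (p - 3) = (N:ℝ) ^ (3 / 4 * (p - 3)) * (N:ℝ) ^ ((p - 3) / 4) := by
      rw [← Real.rpow_add hN0]; congr 1; ring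
    rw [e1, e2, e3, hW, hss, hK]
    apply le_of_eq
    rw [e4, add_mul, add_mul]
    congr 1
    · rw [e5]; ring
    · field_simp
  rw [eLpNorm_eq_lintegral_rpow_enorm_toReal hpE ENNReal.ofReal_ne_top, ENNReal.toReal_ofReal hp0.le]
  calc _ ≤ (ENNReal.ofReal (K * (N:ℝ) ^ (p - 3) * s ^ p)) ^ (1 / p) :=
        ENNReal.rpow_le_rpow hmain (by positivity)
    _ = _ := by
        rw [ENNReal.ofReal_rpow_of_nonneg (by positivity) (by positivity)]
        congr 1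
        rw [Real.mul_rpow (by positivity) (by positivity), Real.mul_rpow hK0 (by positivity),
          ← Real.rpow_mul hN0.le, ← Real.rpow_mul hs0.le]
        rw [mul_one_div_cancel hp0.ne', Real.rpow_one]
        congr 3
        field_simp

end Pool.Agent.E8helper95
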