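import Pool.Agent.E8helper95.F24

/-!
The `L²` estimate and interpolation.
-/

set_option autoImplicit false

namespace Pool.Agent.E8helper95

open MeasureTheory Complex Set Finset FourierTransform
open scoped ENNReal ComplexConjugate Nat

lemma add_sq_le4 (x y : ℝ≥0∞) : (x + y) ^ 2 ≤ 4 * (x ^ 2 + y ^ 2) := by
  rcases le_total x y with h | h
  · calc (x + y) ^ 2 ≤ (y + y) ^ 2 := by gcongr
      _ = 4 * y ^ 2 := by ring
      _ ≤ _ := by gcongr; exact le_add_self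
  · calc (x + y) ^ 2 ≤ (x + x) ^ 2 := by gcongr
      _ = 4 * x ^ 2 := by ring
      _ ≤ _ := by gcongr; exact le_self_add

lemma al_sq (𝓚 : Finset ℤ) (c : ℤ → ℂ) :
    ∫⁻ t in Set.Ioc 0 (2 * Real.pi), ‖al 𝓚 sqf c t‖ₑ ^ 2
      ≤ 4 * (ENNReal.ofReal (2 * Real.pi) * ∑ k ∈ 𝓚, ‖c k‖ₑ ^ 2) := by
  have h1 : ∀ t, al 𝓚 sqf c t = al (𝓚.filter (fun k => 0 ≤ k)) sqf c t +
      al (𝓚.filter (fun k => ¬ 0 ≤ k)) sqf c t := by
    intro t
    unfold al
    rw [Finset.sum_filter_add_sum_filter_not]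
  calc _ ≤ ∫⁻ t in Set.Ioc 0 (2 * Real.pi), 4 * (‖al (𝓚.filter (fun k => 0 ≤ k)) sqf c t‖ₑ ^ 2 +
        ‖al (𝓚.filter (fun k => ¬ 0 ≤ k)) sqf c t‖ₑ ^ 2) := by
        refine lintegral_mono fun t => ?_
        refine le_trans ?_ (add_sq_le4 _ _)
        rw [h1]
        gcongr
        exact enorm_add_le _ _
    _ = _ := by
        rw [lintegral_const_mul _ (by fun_prop), lintegral_add_left (by fun_prop)]
        rw [al_L2, al_L2, ← mul_add, Finset.sum_filter_add_sum_filter_not]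
        · intro k hk k' hk' hne h
          rw [Finset.mem_filter] at hk hk'
          unfold sqf at h
          rcases sq_eq_sq_iff_eq_or_eq_neg.1 h with h2 | h2
          · exact hne h2
          · omega
        · intro k hk k' hk' hne h
          rw [Finset.mem_filter] at hk hk'
          unfold sqf at h
          rcases sq_eq_sq_iff_eq_or_eq_neg.1 h with h2 | h2
          · exact hne h2
          · have := hk.2
            have := hk'.2
            omega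

/-- Plancherel in `x` for fixed time -/
lemma uu_planch (N : ℕ) (𝓚 : Finset ℤ) (b : ℤ → ℝ → ℂ) (hb : ∀ k, MemLp (b k) 2 volume)
    (hs : ∀ k η, (N:ℝ) < |η| → b k η = 0) (t : ℝ) :
    ∫⁻ x, ‖uu 𝓚 b t x‖ₑ ^ 2
      = ENNReal.ofReal (2 * Real.pi) * ∫⁻ η, ‖al 𝓚 sqf (fun k => b k η) t‖ₑ ^ 2 := by
  set h : ℝ → ℂ := fun η => ee (-(t * η ^ 2)) * al 𝓚 sqf (fun k => b k η) t with hh
  have hterm : ∀ k : ℤ, (fun η => ee (-(t * η ^ 2)) * (b k η * ee (((-sqf k : ℤ) : ℝ) * t)))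
      = fun η => b k η * ee (-(t * η ^ 2) + ((-sqf k : ℤ) : ℝ) * t) := by
    intro k; ext η; rw [ee_add]; ring
  have hsum : h = ∑ k ∈ 𝓚, (fun η => b k η * ee (-(t * η ^ 2) + ((-sqf k : ℤ) : ℝ) * t)) := by
    ext η
    rw [Finset.sum_apply]
    simp only [hh]
    unfold al
    rw [Finset.mul_sum]
    refine Finset.sum_congr rfl fun k _ => ?_
    exact congrFun (hterm k) η
  have hbint : ∀ k, Integrable (b k) := fun k => integrable_of_supp (hb k) N (hs k)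
  have hmeas : ∀ k : ℤ, AEStronglyMeasurable
      (fun η : ℝ => ee (-(t * η ^ 2) + ((-sqf k : ℤ) : ℝ) * t)) volume := fun k =>
    (by fun_prop : Measurable (fun η : ℝ => ee (-(t * η ^ 2) + ((-sqf k : ℤ) : ℝ) * t))).aestronglyMeasurable
  have h1 : Integrable h := by
    rw [hsum]
    apply integrable_finset_sum'
    intro k _
    exact (hbint k).mul_bdd (c := 1) (hmeas k) (Filter.Eventually.of_forall fun η => (norm_ee _).le)
  have h2 : MemLp h 2 := by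
    rw [hsum]
    apply memLp_finset_sum'
    intro k _
    refine (hb k).mono ((hb k).1.mul (hmeas k)) (Filter.Eventually.of_forall fun η => ?_)
    rw [norm_mul, norm_ee, mul_one]
  have hff : ∀ x, uu 𝓚 b t x = 𝓕 h ((-(2 * Real.pi)⁻¹) * x) := by
    intro x
    rw [Real.fourier_eq']
    unfold uu
    rw [← integral_finset_sum]
    · refine integral_congr_ae (Filter.Eventually.of_forall fun η => ?_)
      simp only
      rw [smul_eq_mul]
      have e1 : cexp (((-2 * Real.pi * inner ℝ η ((-(2 * Real.pi)⁻¹) * x) : ℝ) : ℂ) * Complex.I)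
          = ee (x * η) := by
        unfold ee
        congr 2
        have hpi : Real.pi ≠ 0 := Real.pi_ne_zero
        simp only [RCLike.inner_apply, conj_trivial]
        push_cast
        field_simp
      rw [e1]
      simp only [hh]
      unfold al
      rw [Finset.mul_sum, Finset.mul_sum]
      refine Finset.sum_congr rfl fun k _ => ?_
      have e2 : ee (x * η - t * (η ^ 2 + (k:ℝ) ^ 2)) = ee (x * η) * (ee (-(t * η ^ 2)) *
          ee (((-sqf k : ℤ) : ℝ) * t)) := by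
        rw [← ee_add, ← ee_add]
        congr 1
        unfold sqf
        push_cast
        ring
      rw [e2]
      ring
    · intro k _
      exact (hbint k).mul_bdd (c := 1)
        (by fun_prop : Measurable fun η : ℝ => ee (x * η - t * (η ^ 2 + (k:ℝ) ^ 2))).aestronglyMeasurable
        (Filter.Eventually.of_forall fun η => (norm_ee _).le)
  simp_rw [hff]
  have hcont : Continuous (𝓕 h) := VectorFourier.fourierIntegral_continuous
    Real.continuous_fourierChar (innerSL ℝ).continuous₂ h1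
  rw [lint_scale (f := fun x => ‖𝓕 h x‖ₑ ^ 2) (by fun_prop)
    (by have := Real.pi_pos; simp)]
  rw [Helper76.NormalHP.plancherel_lintegral h h1 h2]
  congr 1
  · congr 1
    have := Real.pi_pos
    rw [inv_neg, inv_inv, abs_neg, abs_of_pos (by positivity)]
  · refine lintegral_congr fun η => ?_
    simp only [hh]
    rw [enorm_mul, enorm_ee, one_mul]

theorem L2uu (T : ℝ) : ∃ C : ℝ, 0 ≤ C ∧ ∀ (N : ℕ) (𝓚 : Finset ℤ)
    (b : ℤ → ℝ → ℂ), (∀ k, MemLp (b k) 2 volume) → (∀ k η, (N:ℝ) < |η| → b k η = 0) →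
    eLpNorm (fun p : ℝ × ℝ => uu 𝓚 b p.1 p.2) 2 (nuT T) ≤ ENNReal.ofReal C * sr (mb 𝓚 b) := by
  set n : ℕ := ⌈2 * T / (2 * Real.pi)⌉₊ with hn
  have hn' : 2 * T ≤ n * (2 * Real.pi) := by
    rw [← div_le_iff₀ (by positivity)]
    exact Nat.le_ceil _
  refine ⟨Real.sqrt (2 * Real.pi * (n * (4 * (2 * Real.pi)))), by positivity, ?_⟩
  intro N 𝓚 b hb hs
  have hu : Continuous (fun p : ℝ × ℝ => uu 𝓚 b p.1 p.2) :=
    continuous_uu 𝓚 b (fun k => integrable_of_supp (hb k) N (hs k))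
  have h1 : ∫⁻ z, ‖uu 𝓚 b z.1 z.2‖ₑ ^ 2 ∂(nuT T)
      ≤ ENNReal.ofReal (2 * Real.pi * (n * (4 * (2 * Real.pi)))) * mb 𝓚 b := by
    unfold nuT
    rw [lintegral_prod _ (hu.enorm.measurable.pow_const 2).aemeasurable]
    simp_rw [uu_planch N 𝓚 b hb hs]
    have hae : AEMeasurable (Function.uncurry (fun (t η : ℝ) =>
        ‖al 𝓚 sqf (fun k => b k η) t‖ₑ ^ 2)) ((volume.restrict (Set.Ioc (-T) T)).prod volume) := by
      apply AEMeasurable.pow_const
      apply AEStronglyMeasurable.enorm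
      unfold al
      apply Finset.aestronglyMeasurable_fun_sum
      intro k _
      exact ((hb k).1.comp_snd).mul
        (by fun_prop : Measurable fun z : ℝ × ℝ => ee (((-sqf k : ℤ) : ℝ) * z.1)).aestronglyMeasurable
    rw [lintegral_const_mul' _ _ ENNReal.ofReal_ne_top]
    rw [lintegral_lintegral_swap hae]
    have e4 : ENNReal.ofReal (2 * Real.pi * (n * (4 * (2 * Real.pi)))) =
        ENNReal.ofReal (2 * Real.pi) * ENNReal.ofReal (n * (4 * (2 * Real.pi))) :=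
      ENNReal.ofReal_mul (by positivity)
    rw [e4, mul_assoc]
    refine mul_le_mul_right ?_ _
    have h2 : ∀ η, ∫⁻ t in Set.Ioc (-T) T, ‖al 𝓚 sqf (fun k => b k η) t‖ₑ ^ 2
        ≤ ENNReal.ofReal (n * (4 * (2 * Real.pi))) * ∑ k ∈ 𝓚, ‖b k η‖ₑ ^ 2 := by
      intro η
      refine (lint_cover (continuous_al 𝓚 sqf _) (al_periodic 𝓚 sqf _) T n 2 hn').trans ?_
      refine (mul_le_mul_right (al_sq 𝓚 _) _).trans (le_of_eq ?_)
      have e5 : ENNReal.ofReal (n * (4 * (2 * Real.pi))) = n * (4 * ENNReal.ofReal (2 * Real.pi)) := by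
        rw [ENNReal.ofReal_mul (by positivity), ENNReal.ofReal_natCast,
          ENNReal.ofReal_mul (by norm_num : (0:ℝ) ≤ 4)]
        simp
      rw [e5]
      ring
    refine (lintegral_mono h2).trans (le_of_eq ?_)
    rw [lintegral_const_mul' _ _ ENNReal.ofReal_ne_top]
    congr 1
    unfold mb
    rw [lintegral_finset_sum' _ (fun k _ => (hb k).1.enorm.pow_const 2)]
  have h3 : eLpNorm (fun p : ℝ × ℝ => uu 𝓚 b p.1 p.2) 2 (nuT T)
      = sr (∫⁻ z, ‖uu 𝓚 b z.1 z.2‖ₑ ^ 2 ∂(nuT T)) := by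
    rw [eLpNorm_eq_lintegral_rpow_enorm_toReal (by norm_num) (by norm_num)]
    unfold sr
    norm_num
  rw [h3]
  refine (sr_mono h1).trans (le_of_eq ?_)
  rw [sr_mul]
  congr 1
  unfold sr
  rw [ENNReal.ofReal_rpow_of_nonneg (by positivity) (by norm_num), Real.sqrt_eq_rpow]

/-- interpolation between `L²` and `L³` -/
lemma interp (ν : Measure (ℝ × ℝ)) (f : ℝ × ℝ → ℂ) (hf : Measurable f) (D : ℝ≥0∞)
    (h2 : eLpNorm f 2 ν ≤ D) (h3 : eLpNorm f 3 ν ≤ D) (p : ℝ) (hp2 : 2 ≤ p) (hp3 : p ≤ 3) :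
    eLpNorm f (ENNReal.ofReal p) ν ≤ D := by
  have hp0 : 0 < p := by linarith
  have hpE : ENNReal.ofReal p ≠ 0 := (ENNReal.ofReal_pos.2 hp0).ne'
  have e2 : eLpNorm f 2 ν = (∫⁻ z, ‖f z‖ₑ ^ (2:ℝ) ∂ν) ^ (1 / 2 : ℝ) := by
    rw [eLpNorm_eq_lintegral_rpow_enorm_toReal (by norm_num) (by norm_num)]
    norm_num
  have e3 : eLpNorm f 3 ν = (∫⁻ z, ‖f z‖ₑ ^ (3:ℝ) ∂ν) ^ (1 / 3 : ℝ) := by
    rw [eLpNorm_eq_lintegral_rpow_enorm_toReal (by norm_num) (by norm_num)]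
    norm_num
  have i2 : ∫⁻ z, ‖f z‖ₑ ^ (2:ℝ) ∂ν ≤ D ^ (2:ℝ) := by
    have := ENNReal.rpow_le_rpow (e2 ▸ h2) (by norm_num : (0:ℝ) ≤ 2)
    rw [← ENNReal.rpow_mul] at this
    norm_num at this ⊢
    exact this
  have i3 : ∫⁻ z, ‖f z‖ₑ ^ (3:ℝ) ∂ν ≤ D ^ (3:ℝ) := by
    have := ENNReal.rpow_le_rpow (e3 ▸ h3) (by norm_num : (0:ℝ) ≤ 3)
    rw [← ENNReal.rpow_mul] at this
    norm_num at this ⊢
    exact this
  have hmul := ENNReal.lintegral_mul_norm_pow_le (μ := ν) (f := fun z => ‖f z‖ₑ ^ (2:ℝ))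
    (g := fun z => ‖f z‖ₑ ^ (3:ℝ)) (by fun_prop) (by fun_prop) (by linarith : 0 ≤ 3 - p)
    (by linarith : 0 ≤ p - 2) (by ring)
  rw [eLpNorm_eq_lintegral_rpow_enorm_toReal hpE ENNReal.ofReal_ne_top, ENNReal.toReal_ofReal hp0.le]
  have i4 : ∫⁻ z, ‖f z‖ₑ ^ p ∂ν ≤ D ^ p := by
    calc ∫⁻ z, ‖f z‖ₑ ^ p ∂ν
        = ∫⁻ z, (‖f z‖ₑ ^ (2:ℝ)) ^ (3 - p) * (‖f z‖ₑ ^ (3:ℝ)) ^ (p - 2) ∂ν := by
          refine lintegral_congr fun z => ?_
          rw [← ENNReal.rpow_mul, ← ENNReal.rpow_mul,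
            ← ENNReal.rpow_add_of_nonneg _ _ (by nlinarith) (by nlinarith)]
          congr 1; ring
      _ ≤ (D ^ (2:ℝ)) ^ (3 - p) * (D ^ (3:ℝ)) ^ (p - 2) := by
          refine hmul.trans ?_
          gcongr
      _ = D ^ p := by
          rw [← ENNReal.rpow_mul, ← ENNReal.rpow_mul,
            ← ENNReal.rpow_add_of_nonneg _ _ (by nlinarith) (by nlinarith)]
          congr 1; ring
  calc _ ≤ (D ^ p) ^ (1 / p) := ENNReal.rpow_le_rpow i4 (by positivity)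
    _ = D := by
      rw [← ENNReal.rpow_mul, mul_one_div_cancel hp0.ne', ENNReal.rpow_one]

theorem Lp_low (ε : ℝ) (hε : 0 < ε) (T : ℝ) (hT : 0 ≤ T) (p : ℝ) (hp2 : 2 ≤ p) (hp3 : p ≤ 3) :
    ∃ C : ℝ, 0 ≤ C ∧ ∀ (N : ℕ), 1 ≤ N →
    ∀ (k0 : ℤ) (𝓚 : Finset ℤ), (∀ k ∈ 𝓚, |k - k0| ≤ N) →
    ∀ (b : ℤ → ℝ → ℂ), (∀ k, MemLp (b k) 2 volume) → (∀ k η, (N:ℝ) < |η| → b k η = 0) →
    eLpNorm (fun z : ℝ × ℝ => uu 𝓚 b z.1 z.2) (ENNReal.ofReal p) (nuT T)
      ≤ ENNReal.ofReal (C * (N:ℝ) ^ ε) * sr (mb 𝓚 b) := by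
  obtain ⟨C3, hC3, hL3⟩ := L3uu ε hε T hT
  obtain ⟨C2, hC2, hL2⟩ := L2uu T
  refine ⟨C2 + C3, by positivity, ?_⟩
  intro N hN k0 𝓚 h𝓚 b hb hs
  have hN' : (1:ℝ) ≤ N := by exact_mod_cast hN
  have hNe : (1:ℝ) ≤ (N:ℝ) ^ ε := Real.one_le_rpow hN' hε.le
  have hu : Continuous (fun p : ℝ × ℝ => uu 𝓚 b p.1 p.2) :=
    continuous_uu 𝓚 b (fun k => integrable_of_supp (hb k) N (hs k))
  apply interp _ _ hu.measurable _ _ _ p hp2 hp3
  · refine (hL2 N 𝓚 b hb hs).trans ?_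
    gcongr
    nlinarith
  · refine (hL3 N hN k0 𝓚 h𝓚 b hb hs).trans ?_
    gcongr
    linarith

end Pool.Agent.E8helper95
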