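import Pool.Agent.E8helper95.D0
import Pool.Agent.E8helper95.F25

/-!
The operator of the problem and its reduction to the evolution `uu`.
-/

set_option autoImplicit false

namespace Pool.Agent.E8helper95

open MeasureTheory Complex Set Finset
open scoped ENNReal ComplexConjugate

instance : SFinite freqMeasure := by unfold freqMeasure; infer_instance

lemma measurable_sqNorm : Measurable sqNorm := by
  unfold sqNorm
  have h : Measurable (fun k : ℤ => (k:ℝ)) := measurable_of_countable _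
  fun_prop

lemma measurableSet_freqBall (N : ℝ) (ξ₀ : ℝ × ℤ) : MeasurableSet (freqBall N ξ₀) := by
  unfold freqBall
  apply measurableSet_le _ measurable_const
  exact measurable_sqNorm.comp (measurable_id.sub measurable_const)

lemma freqBall_abs (N : ℝ) (hN : 0 ≤ N) (ξ₀ ξ : ℝ × ℤ) (h : ξ ∈ freqBall N ξ₀) :
    |ξ.1 - ξ₀.1| ≤ N ∧ |((ξ.2 - ξ₀.2 : ℤ) : ℝ)| ≤ N := by
  unfold freqBall sqNorm at h
  simp only [Set.mem_setOf_eq, Prod.fst_sub, Prod.snd_sub] at h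
  constructor
  · apply abs_le_of_sq_le_sq _ hN |> fun h' => by exact h'
    nlinarith [sq_nonneg (((ξ.2 - ξ₀.2 : ℤ) : ℝ))]
  · apply abs_le_of_sq_le_sq _ hN |> fun h' => by exact h'
    nlinarith [sq_nonneg (ξ.1 - ξ₀.1)]

/-- the data of the evolution -/
noncomputable def bb (N : ℝ) (ξ₀ : ℝ × ℤ) (a : ℝ × ℤ → ℂ) (k : ℤ) (η : ℝ) : ℂ :=
  (freqBall N ξ₀).indicator a (ξ₀.1 + η, k)

lemma mass_slices (a : ℝ × ℤ → ℂ) (ha : Measurable a) (c : ℝ) (𝓚 : Finset ℤ) :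
    ∑ k ∈ 𝓚, ∫⁻ η, ‖a (c + η, k)‖ₑ ^ 2 ≤ ∫⁻ ξ, ‖a ξ‖ₑ ^ 2 ∂freqMeasure := by
  unfold freqMeasure
  rw [lintegral_prod_symm' _ (by fun_prop), lintegral_count' (measurable_of_countable _)]
  refine le_trans (le_of_eq ?_) (ENNReal.sum_le_tsum 𝓚)
  refine Finset.sum_congr rfl fun k _ => ?_
  exact lintegral_add_left_eq_self (fun η => ‖a (η, k)‖ₑ ^ 2) c

lemma measurable_bb (N : ℝ) (ξ₀ : ℝ × ℤ) (a : ℝ × ℤ → ℂ) (ha : Measurable a) (k : ℤ) :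
    Measurable (bb N ξ₀ a k) := by
  unfold bb
  exact (ha.indicator (measurableSet_freqBall N ξ₀)).comp
    ((measurable_const.add measurable_id).prodMk measurable_const)

lemma bb_le (N : ℝ) (ξ₀ : ℝ × ℤ) (a : ℝ × ℤ → ℂ) (k : ℤ) (η : ℝ) :
    ‖bb N ξ₀ a k η‖ₑ ≤ ‖a (ξ₀.1 + η, k)‖ₑ := by
  unfold bb
  simp only [Set.indicator]
  split_ifs
  · exact le_rfl
  · rw [enorm_zero]; exact zero_le

lemma memLp_bb (N : ℝ) (ξ₀ : ℝ × ℤ) (a : ℝ × ℤ → ℂ) (ha : Measurable a)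
    (ha2 : MemLp a 2 freqMeasure) (k : ℤ) : MemLp (bb N ξ₀ a k) 2 volume := by
  refine ⟨(measurable_bb N ξ₀ a ha k).aestronglyMeasurable, ?_⟩
  rw [eLpNorm_lt_top_iff_lintegral_rpow_enorm_lt_top (by norm_num) (by norm_num)]
  have h1 := ha2.2
  rw [eLpNorm_lt_top_iff_lintegral_rpow_enorm_lt_top (by norm_num) (by norm_num)] at h1
  have h2 := mass_slices a ha ξ₀.1 {k}
  rw [Finset.sum_singleton] at h2
  have h3 : ∫⁻ η, ‖bb N ξ₀ a k η‖ₑ ^ 2 ≤ ∫⁻ η, ‖a (ξ₀.1 + η, k)‖ₑ ^ 2 :=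
    lintegral_mono fun η => by
      have := bb_le N ξ₀ a k η
      gcongr
  simp only [ENNReal.toReal_ofNat] at h1 ⊢
  norm_num at h1 ⊢
  exact lt_of_le_of_lt (h3.trans h2) h1

lemma freqBall_finite (N : ℝ) (hN : 0 ≤ N) (ξ₀ : ℝ × ℤ) : freqMeasure (freqBall N ξ₀) < ⊤ := by
  have h1 : freqBall N ξ₀ ⊆ Set.Icc (ξ₀.1 - N) (ξ₀.1 + N) ×ˢ Set.Icc (ξ₀.2 - ⌈N⌉) (ξ₀.2 + ⌈N⌉) := by
    intro ξ hξ
    obtain ⟨h1, h2⟩ := freqBall_abs N hN ξ₀ ξ hξ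
    have h3 : |ξ.2 - ξ₀.2| ≤ ⌈N⌉ := by
      have : ((|ξ.2 - ξ₀.2| : ℤ) : ℝ) ≤ (⌈N⌉ : ℝ) := by
        rw [Int.cast_abs]
        exact h2.trans (Int.le_ceil N)
      exact_mod_cast this
    rw [abs_le] at h1 h3
    refine ⟨⟨?_, ?_⟩, ⟨?_, ?_⟩⟩
    · linarith [h1.1]
    · linarith [h1.2]
    · linarith [h3.1]
    · linarith [h3.2]
  refine lt_of_le_of_lt (measure_mono h1) ?_
  unfold freqMeasure
  rw [Measure.prod_prod]
  apply ENNReal.mul_lt_top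
  · exact measure_Icc_lt_top
  · exact Measure.count_apply_lt_top.2 (Set.finite_Icc _ _)

/-- the reduction to the evolution `uu` -/
lemma op_eq (N : ℝ) (hN : 0 ≤ N) (ξ₀ : ℝ × ℤ) (a : ℝ × ℤ → ℂ) (ha : Measurable a)
    (ha2 : MemLp a 2 freqMeasure) (t x : ℝ) :
    ∫ ξ in freqBall N ξ₀, Complex.exp (Complex.I * (x * ξ.1 - t * sqNorm ξ)) * a ξ ∂freqMeasure
      = ee (x * ξ₀.1 - t * ξ₀.1 ^ 2) *
        uu (Finset.Icc (ξ₀.2 - ⌈N⌉) (ξ₀.2 + ⌈N⌉)) (bb N ξ₀ a) t (x - 2 * t * ξ₀.1) := by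
  have hBm := measurableSet_freqBall N ξ₀
  have hfin := freqBall_finite N hN ξ₀
  set G : ℝ × ℤ → ℂ := (freqBall N ξ₀).indicator
    (fun ξ => Complex.exp (Complex.I * (x * ξ.1 - t * sqNorm ξ)) * a ξ) with hG
  have hphase : ∀ ξ : ℝ × ℤ, Complex.exp (Complex.I * (x * ξ.1 - t * sqNorm ξ)) =
      ee (x * ξ.1 - t * sqNorm ξ) := by
    intro ξ
    unfold ee
    congr 1
    push_cast
    ring
  have hintB : Integrable G freqMeasure := by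
    rw [hG, integrable_indicator_iff hBm]
    have h1 : IntegrableOn a (freqBall N ξ₀) freqMeasure := by
      have : IsFiniteMeasure (freqMeasure.restrict (freqBall N ξ₀)) := ⟨by
        rw [Measure.restrict_apply_univ]; exact hfin⟩
      exact (ha2.restrict (freqBall N ξ₀)).integrable (by norm_num)
    refine h1.bdd_mul (c := 1) ?_ (Filter.Eventually.of_forall fun ξ => ?_)
    · simp_rw [hphase]
      have := measurable_sqNorm
      exact (by fun_prop : Measurable fun ξ : ℝ × ℤ => ee (x * ξ.1 - t * sqNorm ξ)).aestronglyMeasurable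
    · rw [hphase, norm_ee]
  rw [← integral_indicator hBm, ← hG]
  unfold freqMeasure at hintB ⊢
  rw [integral_prod_symm _ hintB, integral_countable]
  · have hcount : ∀ k : ℤ, (Measure.count : Measure ℤ).real {k} = 1 := by
      intro k
      rw [measureReal_def, Measure.count_singleton, ENNReal.toReal_one]
    simp_rw [hcount, one_smul]
    rw [tsum_eq_sum (s := Finset.Icc (ξ₀.2 - ⌈N⌉) (ξ₀.2 + ⌈N⌉))]
    · unfold uu
      rw [Finset.mul_sum]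
      refine Finset.sum_congr rfl fun k _ => ?_
      rw [← integral_const_mul, ← integral_add_left_eq_self _ ξ₀.1]
      refine integral_congr_ae (Filter.Eventually.of_forall fun η => ?_)
      simp only [hG, bb, Set.indicator]
      split_ifs with h
      · have hph := hphase (ξ₀.1 + η, k)
        simp only at hph
        rw [hph]
        rw [show ee (x * ξ₀.1 - t * ξ₀.1 ^ 2) * (a (ξ₀.1 + η, k) *
          ee ((x - 2 * t * ξ₀.1) * η - t * (η ^ 2 + (k:ℝ) ^ 2))) =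
          (ee (x * ξ₀.1 - t * ξ₀.1 ^ 2) * ee ((x - 2 * t * ξ₀.1) * η - t * (η ^ 2 + (k:ℝ) ^ 2))) *
          a (ξ₀.1 + η, k) by ring, ← ee_add]
        congr 2
        unfold sqNorm
        simp only
        ring
      · simp
    · intro k hk
      apply integral_eq_zero_of_ae
      refine Filter.Eventually.of_forall fun η => ?_
      simp only [hG, Set.indicator, Pi.zero_apply]
      rw [if_neg]
      intro h
      obtain ⟨_, h2⟩ := freqBall_abs N hN ξ₀ _ h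
      apply hk
      have h3 : |k - ξ₀.2| ≤ ⌈N⌉ := by
        have : ((|k - ξ₀.2| : ℤ) : ℝ) ≤ (⌈N⌉ : ℝ) := by
          rw [Int.cast_abs]
          exact h2.trans (Int.le_ceil N)
        exact_mod_cast this
      rw [abs_le] at h3
      rw [Finset.mem_Icc]
      constructor <;> linarith [h3.1, h3.2]
  · exact hintB.integral_prod_right

/-- change of variables for a fixed time -/
lemma shift_norm (φ : ℝ → ℂ) (M T : ℝ) (hφ : ∀ t, ‖φ t‖ ≤ M)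
    (hφT : ∀ t, t ∉ Set.Ioc (-T) T → φ t = 0) (p : ℝ) (hp : 0 < p) (c : ℝ)
    (f : ℝ → ℝ → ℂ) (hf : Measurable (fun z : ℝ × ℝ => f z.1 z.2)) :
    ∫⁻ z : ℝ × ℝ, (‖φ z.1‖ₑ * ‖f z.1 (z.2 - 2 * z.1 * c)‖ₑ) ^ p
      ≤ ENNReal.ofReal M ^ p * ∫⁻ z, ‖f z.1 z.2‖ₑ ^ p ∂(nuT T) := by
  have hsh : Measurable (fun z : ℝ × ℝ => ((z.1, z.2 - 2 * z.1 * c) : ℝ × ℝ)) := by fun_prop
  have h3 : Measurable (fun z : ℝ × ℝ => f z.1 (z.2 - 2 * z.1 * c)) := hf.comp hsh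
  set H : ℝ × ℝ → ℝ≥0∞ := (Set.Ioc (-T) T ×ˢ (Set.univ : Set ℝ)).indicator
    (fun z : ℝ × ℝ => ‖f z.1 (z.2 - 2 * z.1 * c)‖ₑ ^ p) with hH
  have hHm : Measurable H :=
    (h3.enorm.pow_const p).indicator (measurableSet_Ioc.prod MeasurableSet.univ)
  have h1 : ∀ z : ℝ × ℝ, (‖φ z.1‖ₑ * ‖f z.1 (z.2 - 2 * z.1 * c)‖ₑ) ^ p
      ≤ ENNReal.ofReal M ^ p * H z := by
    intro z
    by_cases hz : z.1 ∈ Set.Ioc (-T) T
    · have hz' : z ∈ Set.Ioc (-T) T ×ˢ (Set.univ : Set ℝ) := ⟨hz, trivial⟩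
      rw [hH, Set.indicator_of_mem hz', ← ENNReal.mul_rpow_of_nonneg _ _ hp.le]
      gcongr
      rw [← ofReal_norm]
      exact ENNReal.ofReal_le_ofReal (hφ _)
    · rw [hφT _ hz, enorm_zero, zero_mul, ENNReal.zero_rpow_of_pos hp]
      exact zero_le
  refine (lintegral_mono h1).trans ?_
  rw [lintegral_const_mul _ hHm]
  refine mul_le_mul_right (le_of_eq ?_) _
  have hvol : (volume : Measure (ℝ × ℝ)) = (volume : Measure ℝ).prod volume :=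
    Measure.volume_eq_prod ℝ ℝ
  have e5 : ∫⁻ z, ‖f z.1 z.2‖ₑ ^ p ∂(nuT T) =
      ∫⁻ t in Set.Ioc (-T) T, ∫⁻ x, ‖f t x‖ₑ ^ p := by
    unfold nuT
    exact lintegral_prod (fun z : ℝ × ℝ => ‖f z.1 z.2‖ₑ ^ p) (hf.enorm.pow_const p).aemeasurable
  rw [e5, hvol, lintegral_prod _ hHm.aemeasurable, ← lintegral_indicator measurableSet_Ioc]
  refine lintegral_congr fun t => ?_
  by_cases ht : t ∈ Set.Ioc (-T) T
  · rw [Set.indicator_of_mem ht]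
    have e6 : ∀ x, H (t, x) = ‖f t (x - 2 * t * c)‖ₑ ^ p := by
      intro x
      rw [hH, Set.indicator_of_mem (by exact ⟨ht, trivial⟩)]
    simp_rw [e6]
    exact lintegral_sub_right_eq_self (fun x => ‖f t x‖ₑ ^ p) (2 * t * c)
  · rw [Set.indicator_of_notMem ht]
    have e6 : ∀ x, H (t, x) = 0 := by
      intro x
      rw [hH, Set.indicator_of_notMem]
      intro h
      exact ht h.1
    simp_rw [e6]
    exact lintegral_zero

/-- the estimate for the operator follows from the estimate for `uu` -/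
lemma op_of_uu (φ : ℝ → ℂ) (M T : ℝ) (hM : 0 ≤ M) (hφ : ∀ t, ‖φ t‖ ≤ M)
    (hφT : ∀ t, t ∉ Set.Ioc (-T) T → φ t = 0) (p : ℝ) (hp : 0 < p) (N : ℝ) (hN : 1 ≤ N) (D : ℝ≥0∞)
    (ξ₀ : ℝ × ℤ)
    (hD : ∀ (b : ℤ → ℝ → ℂ), (∀ k, MemLp (b k) 2 volume) →
      (∀ k η, ((⌈N⌉₊ : ℕ):ℝ) < |η| → b k η = 0) →
      eLpNorm (fun z : ℝ × ℝ => uu (Finset.Icc (ξ₀.2 - ⌈N⌉) (ξ₀.2 + ⌈N⌉)) b z.1 z.2)
        (ENNReal.ofReal p) (nuT T) ≤ D * sr (mb (Finset.Icc (ξ₀.2 - ⌈N⌉) (ξ₀.2 + ⌈N⌉)) b))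
    (a : ℝ × ℤ → ℂ) (ha2 : MemLp a 2 freqMeasure) :
    eLpNorm (strichartzOp φ N ξ₀ a) (ENNReal.ofReal p) volume
      ≤ ENNReal.ofReal M * (D * eLpNorm a 2 freqMeasure) := by
  have hN0 : 0 ≤ N := by linarith
  -- reduction to measurable data
  wlog ha : Measurable a generalizing a
  · have hae := ha2.1.ae_eq_mk
    have h1 : strichartzOp φ N ξ₀ a = strichartzOp φ N ξ₀ (ha2.1.mk a) := by
      ext z
      unfold strichartzOp
      congr 1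
      refine integral_congr_ae (ae_restrict_of_ae ?_)
      filter_upwards [hae] with ξ hξ
      rw [hξ]
    have h2 : eLpNorm a 2 freqMeasure = eLpNorm (ha2.1.mk a) 2 freqMeasure := eLpNorm_congr_ae hae
    have h3 := this (ha2.1.mk a) (ha2.ae_eq hae) ha2.1.stronglyMeasurable_mk.measurable
    rw [← h1, ← h2] at h3
    exact h3
  set 𝓚 := Finset.Icc (ξ₀.2 - ⌈N⌉) (ξ₀.2 + ⌈N⌉) with h𝓚
  set b := bb N ξ₀ a with hb
  have hb2 : ∀ k, MemLp (b k) 2 volume := memLp_bb N ξ₀ a ha ha2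
  have hbs : ∀ k η, ((⌈N⌉₊ : ℕ):ℝ) < |η| → b k η = 0 := by
    intro k η hη
    simp only [hb, bb, Set.indicator]
    rw [if_neg]
    intro h
    obtain ⟨h1, _⟩ := freqBall_abs N hN0 ξ₀ _ h
    simp only [add_sub_cancel_left] at h1
    have := Nat.le_ceil N
    linarith
  have hu : Continuous (fun z : ℝ × ℝ => uu 𝓚 b z.1 z.2) :=
    continuous_uu 𝓚 b (fun k => integrable_of_supp (hb2 k) _ (hbs k))
  have hD' := hD b hb2 hbs
  have hmass : sr (mb 𝓚 b) ≤ eLpNorm a 2 freqMeasure := by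
    have e1 : eLpNorm a 2 freqMeasure = sr (∫⁻ ξ, ‖a ξ‖ₑ ^ 2 ∂freqMeasure) := by
      rw [eLpNorm_eq_lintegral_rpow_enorm_toReal (by norm_num) (by norm_num)]
      unfold sr
      norm_num
    rw [e1]
    apply sr_mono
    refine le_trans ?_ (mass_slices a ha ξ₀.1 𝓚)
    unfold mb
    refine Finset.sum_le_sum fun k _ => lintegral_mono fun η => ?_
    have := bb_le N ξ₀ a k η
    gcongr
  have hpE : ENNReal.ofReal p ≠ 0 := (ENNReal.ofReal_pos.2 hp).ne'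
  have hnorm : ∀ z : ℝ × ℝ, ‖strichartzOp φ N ξ₀ a z‖ₑ
      = ‖φ z.1‖ₑ * ‖uu 𝓚 b z.1 (z.2 - 2 * z.1 * ξ₀.1)‖ₑ := by
    intro z
    unfold strichartzOp
    rw [op_eq N hN0 ξ₀ a ha ha2, enorm_mul, enorm_mul, enorm_ee, one_mul]
  have hmain : ∫⁻ z, ‖strichartzOp φ N ξ₀ a z‖ₑ ^ p
      ≤ ENNReal.ofReal M ^ p * ∫⁻ z, ‖uu 𝓚 b z.1 z.2‖ₑ ^ p ∂(nuT T) := by
    simp_rw [hnorm]
    exact shift_norm φ M T hφ hφT p hp ξ₀.1 (uu 𝓚 b) hu.measurable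
  rw [eLpNorm_eq_lintegral_rpow_enorm_toReal hpE ENNReal.ofReal_ne_top,
    ENNReal.toReal_ofReal hp.le] at hD' ⊢
  calc _ ≤ (ENNReal.ofReal M ^ p * ∫⁻ z, ‖uu 𝓚 b z.1 z.2‖ₑ ^ p ∂(nuT T)) ^ (1 / p) :=
        ENNReal.rpow_le_rpow hmain (by positivity)
    _ = ENNReal.ofReal M * (∫⁻ z, ‖uu 𝓚 b z.1 z.2‖ₑ ^ p ∂(nuT T)) ^ (1 / p) := by
        rw [ENNReal.mul_rpow_of_nonneg _ _ (by positivity), ← ENNReal.rpow_mul,
          mul_one_div_cancel hp.ne', ENNReal.rpow_one]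
    _ ≤ _ := by
        gcongr
        refine hD'.trans ?_
        gcongr

lemma window_ceil (N : ℝ) (hN : 1 ≤ N) (k0 : ℤ) :
    ∀ k ∈ Finset.Icc (k0 - ⌈N⌉) (k0 + ⌈N⌉), |k - k0| ≤ ((⌈N⌉₊ : ℕ) : ℤ) := by
  intro k hk
  rw [Finset.mem_Icc] at hk
  have h : ((⌈N⌉₊ : ℕ) : ℤ) = ⌈N⌉ := Int.natCast_ceil_eq_ceil (by linarith)
  rw [h, abs_le]
  constructor <;> linarith [hk.1, hk.2]

lemma ceil_rpow (N : ℝ) (hN : 1 ≤ N) (s : ℝ) (hs : 0 ≤ s) :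
    ((⌈N⌉₊ : ℕ) : ℝ) ^ s ≤ 2 ^ s * N ^ s := by
  rw [← Real.mul_rpow (by norm_num) (by linarith)]
  apply Real.rpow_le_rpow (by positivity) _ hs
  have := Nat.ceil_lt_add_one (by linarith : 0 ≤ N)
  linarith

/-- general cut-off data -/
lemma cutoff (φ : ℝ → ℂ) (hφ : Continuous φ) (hφc : HasCompactSupport φ) :
    ∃ M T : ℝ, 0 ≤ M ∧ 0 ≤ T ∧ (∀ t, ‖φ t‖ ≤ M) ∧ ∀ t, t ∉ Set.Ioc (-T) T → φ t = 0 := by
  obtain ⟨M, hM⟩ := hφ.bounded_above_of_compact_support hφc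
  obtain ⟨R, hR⟩ := hφc.isCompact.isBounded.subset_closedBall 0
  refine ⟨max M 0, max R 0 + 1, le_max_right _ _, by positivity, fun t => (hM t).trans (le_max_left _ _), ?_⟩
  intro t ht
  by_contra h
  have h1 : t ∈ tsupport φ := subset_tsupport φ h
  have h2 := hR h1
  rw [mem_closedBall_zero_iff, Real.norm_eq_abs, abs_le] at h2
  apply ht
  have h3 := le_max_left R 0
  constructor <;> linarith [h2.1, h2.2]

/-- the sharp estimate for `p > 3` -/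
theorem estimate_high (φ : ℝ → ℂ) (hφ : Continuous φ) (hφc : HasCompactSupport φ)
    (p : ℝ) (hp : 3 < p) : ∃ C : ℝ, 0 ≤ C ∧ ∀ N : ℝ, 1 ≤ N → ∀ (ξ₀ : ℝ × ℤ) (a : ℝ × ℤ → ℂ),
      MemLp a 2 freqMeasure →
      eLpNorm (strichartzOp φ N ξ₀ a) (ENNReal.ofReal p) volume
        ≤ ENNReal.ofReal (C * N ^ (1 - 3 / p)) * eLpNorm a 2 freqMeasure := by
  obtain ⟨M, T, hM, hT, hφM, hφT⟩ := cutoff φ hφ hφc
  obtain ⟨C, hC, hL⟩ := Lp_high T hT p hp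
  have hs : 0 ≤ 1 - 3 / p := by
    rw [sub_nonneg, div_le_one (by linarith)]; linarith
  refine ⟨M * (C * 2 ^ (1 - 3 / p)), by positivity, ?_⟩
  intro N hN ξ₀ a ha
  have hc : 1 ≤ ⌈N⌉₊ := Nat.one_le_ceil_iff.2 (by linarith)
  refine (op_of_uu φ M T hM hφM hφT p (by linarith) N hN _ ξ₀
    (fun b hb hbs => hL ⌈N⌉₊ hc ξ₀.2 _ (window_ceil N hN ξ₀.2) b hb hbs) a ha).trans ?_
  rw [← mul_assoc, ← ENNReal.ofReal_mul hM]
  refine mul_le_mul_left (ENNReal.ofReal_le_ofReal ?_) _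
  calc M * (C * ((⌈N⌉₊ : ℕ) : ℝ) ^ (1 - 3 / p)) ≤ M * (C * (2 ^ (1 - 3 / p) * N ^ (1 - 3 / p))) := by
        gcongr
        exact ceil_rpow N hN _ hs
    _ = _ := by ring

/-- the estimate with an arbitrarily small power loss for `2 ≤ p ≤ 3` -/
theorem estimate_low (φ : ℝ → ℂ) (hφ : Continuous φ) (hφc : HasCompactSupport φ)
    (p : ℝ) (hp2 : 2 ≤ p) (hp3 : p ≤ 3) (ε : ℝ) (hε : 0 < ε) :
    ∃ C : ℝ, 0 ≤ C ∧ ∀ N : ℝ, 1 ≤ N → ∀ (ξ₀ : ℝ × ℤ) (a : ℝ × ℤ → ℂ),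
      MemLp a 2 freqMeasure →
      eLpNorm (strichartzOp φ N ξ₀ a) (ENNReal.ofReal p) volume
        ≤ ENNReal.ofReal (C * N ^ ε) * eLpNorm a 2 freqMeasure := by
  obtain ⟨M, T, hM, hT, hφM, hφT⟩ := cutoff φ hφ hφc
  obtain ⟨C, hC, hL⟩ := Lp_low ε hε T hT p hp2 hp3
  refine ⟨M * (C * 2 ^ ε), by positivity, ?_⟩
  intro N hN ξ₀ a ha
  have hc : 1 ≤ ⌈N⌉₊ := Nat.one_le_ceil_iff.2 (by linarith)
  refine (op_of_uu φ M T hM hφM hφT p (by linarith) N hN _ ξ₀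
    (fun b hb hbs => hL ⌈N⌉₊ hc ξ₀.2 _ (window_ceil N hN ξ₀.2) b hb hbs) a ha).trans ?_
  rw [← mul_assoc, ← ENNReal.ofReal_mul hM]
  refine mul_le_mul_left (ENNReal.ofReal_le_ofReal ?_) _
  calc M * (C * ((⌈N⌉₊ : ℕ) : ℝ) ^ ε) ≤ M * (C * (2 ^ ε * N ^ ε)) := by
        gcongr
        exact ceil_rpow N hN _ hε.le
    _ = _ := by ring

end Pool.Agent.E8helper95
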