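import Mathlib
import Pool.Agent.Helper76.HPlanch

/-!
General lemmas on lower integrals.
-/

set_option autoImplicit false

namespace Pool.Agent.E8helper95

open MeasureTheory Set
open scoped ENNReal

/-- Cauchy-Schwarz -/
lemma CSL {α : Type*} [MeasurableSpace α] (μ : Measure α) {f g : α → ℝ≥0∞}
    (hf : AEMeasurable f μ) (hg : AEMeasurable g μ) :
    (∫⁻ a, f a * g a ∂μ) ^ 2 ≤ (∫⁻ a, f a ^ 2 ∂μ) * (∫⁻ a, g a ^ 2 ∂μ) := by
  have h := ENNReal.lintegral_mul_le_Lp_mul_Lq μ Real.HolderConjugate.two_two hf hg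
  have e : ∀ x : ℝ≥0∞, (x ^ (1 / 2 : ℝ)) ^ 2 = x := by
    intro x
    rw [← ENNReal.rpow_natCast, ← ENNReal.rpow_mul]
    norm_num
  calc (∫⁻ a, f a * g a ∂μ) ^ 2
      ≤ ((∫⁻ a, f a ^ (2:ℝ) ∂μ) ^ (1 / 2 : ℝ) * (∫⁻ a, g a ^ (2:ℝ) ∂μ) ^ (1 / 2 : ℝ)) ^ 2 := by
        gcongr
        exact h
    _ = _ := by
        rw [mul_pow, e, e]
        simp_rw [ENNReal.rpow_two]

/-- Cauchy-Schwarz with square roots -/
lemma CSL' {α : Type*} [MeasurableSpace α] (μ : Measure α) {f g : α → ℝ≥0∞}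
    (hf : AEMeasurable f μ) (hg : AEMeasurable g μ) :
    ∫⁻ a, f a ^ (1 / 2 : ℝ) * g a ^ (1 / 2 : ℝ) ∂μ
      ≤ (∫⁻ a, f a ∂μ) ^ (1 / 2 : ℝ) * (∫⁻ a, g a ∂μ) ^ (1 / 2 : ℝ) := by
  have h := ENNReal.lintegral_mul_le_Lp_mul_Lq μ Real.HolderConjugate.two_two
    (hf.pow_const (1 / 2 : ℝ)) (hg.pow_const (1 / 2 : ℝ))
  have e : ∀ x : ℝ≥0∞, (x ^ (1 / 2 : ℝ)) ^ (2:ℝ) = x := by
    intro x
    rw [← ENNReal.rpow_mul]
    norm_num
  simp_rw [e] at h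
  exact h

lemma CS_tsum {ι : Type*} [Countable ι] (f g : ι → ℝ≥0∞) :
    (∑' i, f i * g i) ^ 2 ≤ (∑' i, f i ^ 2) * ∑' i, g i ^ 2 := by
  letI : MeasurableSpace ι := ⊤
  haveI : MeasurableSingletonClass ι := ⟨fun _ => trivial⟩
  have h := CSL (Measure.count : Measure ι) (f := f) (g := g)
    (measurable_from_top.aemeasurable) (measurable_from_top.aemeasurable)
  simpa only [lintegral_count] using h

lemma sqrt_sq (x : ℝ≥0∞) : (x ^ (1 / 2 : ℝ)) ^ 2 = x := by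
  rw [← ENNReal.rpow_natCast, ← ENNReal.rpow_mul]
  norm_num

lemma tsum_wsq {ι : Type*} [Countable ι] (w x : ι → ℝ≥0∞) :
    (∑' i, w i * x i) ^ 2 ≤ (∑' i, w i) * ∑' i, w i * x i ^ 2 := by
  have h := CS_tsum (fun i => w i ^ (1 / 2 : ℝ)) (fun i => w i ^ (1 / 2 : ℝ) * x i)
  have e : ∀ i, w i ^ (1 / 2 : ℝ) * (w i ^ (1 / 2 : ℝ) * x i) = w i * x i := by
    intro i
    rw [← mul_assoc, ← sq, sqrt_sq]
  simp_rw [e, mul_pow, sqrt_sq] at h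
  exact h

lemma lint_translate (f : ℝ → ℝ≥0∞) (c : ℝ) : ∫⁻ x, f (x + c) = ∫⁻ x, f x :=
  lintegral_add_right_eq_self f c

lemma lint_scale {f : ℝ → ℝ≥0∞} (hf : Measurable f) {c : ℝ} (hc : c ≠ 0) :
    ∫⁻ x, f (c * x) = ENNReal.ofReal |c⁻¹| * ∫⁻ x, f x := by
  have h := Real.map_volume_mul_left hc
  calc ∫⁻ x, f (c * x) = ∫⁻ x, f x ∂(Measure.map (fun x => c * x) volume) := by
        rw [lintegral_map hf (by fun_prop)]
    _ = _ := by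
        rw [h, lintegral_smul_measure]
        rfl

end Pool.Agent.E8helper95
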