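import Pool.Agent.E8helper95.F2
import Pool.Agent.E8helper95.G

/-!
The model operator and its expansion around a fixed point.
-/

set_option autoImplicit false

namespace Pool.Agent.E8helper95

open MeasureTheory Complex Set Finset FourierTransform
open scoped ENNReal ComplexConjugate Nat

/-- the measure on the unit cell -/
noncomputable abbrev mu1 : Measure ℝ := volume.restrict (Set.Ioc (0:ℝ) 1)

/-- `∫_0^1 g(θ) e^{iθz} dθ` -/
noncomputable def ff (g : ℝ → ℂ) (z : ℝ) : ℂ := ∫ θ, g θ * ee (θ * z) ∂mu1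

/-- `∫_0^1 g(θ) (iθ)^j e^{iθz} dθ` -/
noncomputable def FF (j : ℕ) (g : ℝ → ℂ) (z : ℝ) : ℂ :=
  ∫ θ, g θ * ((Complex.I * θ) ^ j * ee (θ * z)) ∂mu1

lemma FF_eq (j : ℕ) (g : ℝ → ℂ) (z : ℝ) :
    FF j g z = ff (fun θ => g θ * (Complex.I * θ) ^ j) z := by
  unfold FF ff
  simp_rw [mul_assoc]

lemma integrable_of_memLp {g : ℝ → ℂ} (hg : MemLp g 2 mu1) : Integrable g mu1 :=
  hg.integrable (by norm_num)

lemma integrable_mul_bdd {g h : ℝ → ℂ} (hg : Integrable g mu1) (hh : Measurable h) (C : ℝ)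
    (hb : ∀ θ ∈ Set.Ioc (0:ℝ) 1, ‖h θ‖ ≤ C) : Integrable (fun θ => g θ * h θ) mu1 := by
  apply hg.mul_bdd (c := C) hh.aestronglyMeasurable
  rw [ae_restrict_iff' measurableSet_Ioc]
  exact Filter.Eventually.of_forall hb

lemma continuous_ff {g : ℝ → ℂ} (hg : Integrable g mu1) : Continuous (ff g) := by
  unfold ff
  apply continuous_of_dominated (bound := fun θ => ‖g θ‖)
  · intro z
    exact hg.aestronglyMeasurable.mul (by fun_prop : Measurable fun θ : ℝ => ee (θ * z)).aestronglyMeasurable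
  · intro z
    exact Filter.Eventually.of_forall fun θ => by rw [norm_mul, norm_ee, mul_one]
  · exact hg.norm
  · exact Filter.Eventually.of_forall fun θ => by fun_prop

lemma norm_I_mul_pow_le (θ : ℝ) (hθ : θ ∈ Set.Ioc (0:ℝ) 1) (j : ℕ) : ‖(Complex.I * θ) ^ j‖ ≤ 1 := by
  rw [norm_pow, norm_mul, Complex.norm_I, one_mul, Complex.norm_real, Real.norm_eq_abs]
  apply pow_le_one₀ (abs_nonneg _)
  rw [abs_of_pos hθ.1]; exact hθ.2

lemma integrable_pow {g : ℝ → ℂ} (hg : Integrable g mu1) (j : ℕ) :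
    Integrable (fun θ => g θ * (Complex.I * θ) ^ j) mu1 :=
  integrable_mul_bdd hg (by fun_prop) 1 fun θ hθ => norm_I_mul_pow_le θ hθ j

lemma continuous_FF {g : ℝ → ℂ} (hg : Integrable g mu1) (j : ℕ) : Continuous (FF j g) := by
  have : FF j g = ff (fun θ => g θ * (Complex.I * θ) ^ j) := by
    ext z; exact FF_eq j g z
  rw [this]
  exact continuous_ff (integrable_pow hg j)

/-- Plancherel -/
lemma plancherel_ff {g : ℝ → ℂ} (hg : MemLp g 2 mu1) :
    ∫⁻ z, ‖ff g z‖ₑ ^ 2 = ENNReal.ofReal (2 * Real.pi) * ∫⁻ θ, ‖g θ‖ₑ ^ 2 ∂mu1 := by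
  set h : ℝ → ℂ := (Set.Ioc (0:ℝ) 1).indicator g with hh
  have h2 : MemLp h 2 := (memLp_indicator_iff_restrict measurableSet_Ioc).2 hg
  have h1 : Integrable h := (integrable_indicator_iff measurableSet_Ioc).2 (integrable_of_memLp hg)
  have hff : ∀ z, ff g z = 𝓕 h ((-(2 * Real.pi)⁻¹) * z) := by
    intro z
    rw [Real.fourier_eq']
    unfold ff
    rw [← integral_indicator measurableSet_Ioc]
    refine integral_congr_ae (Filter.Eventually.of_forall fun θ => ?_)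
    simp only [hh, Set.indicator]
    split_ifs with hθ
    · rw [mul_comm, smul_eq_mul]
      congr 1
      unfold ee
      congr 2
      have hpi : Real.pi ≠ 0 := Real.pi_ne_zero
      simp only [RCLike.inner_apply, conj_trivial]
      push_cast
      field_simp
    · simp
  simp_rw [hff]
  have hcont : Continuous (𝓕 h) := VectorFourier.fourierIntegral_continuous
    Real.continuous_fourierChar (innerSL ℝ).continuous₂ h1
  rw [lint_scale (f := fun x => ‖𝓕 h x‖ₑ ^ 2) (by fun_prop)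
    (by have := Real.pi_pos; simp)]
  rw [Helper76.NormalHP.plancherel_lintegral h h1 h2]
  congr 1
  · congr 1
    have := Real.pi_pos
    rw [inv_neg, inv_inv, abs_neg, abs_of_pos (by positivity)]
  · rw [← lintegral_indicator measurableSet_Ioc]
    refine lintegral_congr fun θ => ?_
    simp only [hh, Set.indicator]
    split_ifs <;> simp

lemma sup_ff {g : ℝ → ℂ} (hg : MemLp g 2 mu1) (z : ℝ) :
    ‖ff g z‖ₑ ^ 2 ≤ ∫⁻ θ, ‖g θ‖ₑ ^ 2 ∂mu1 := by
  have h1 : ‖ff g z‖ₑ ≤ ∫⁻ θ, ‖g θ‖ₑ ∂mu1 := by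
    unfold ff
    refine (enorm_integral_le_lintegral_enorm _).trans ?_
    refine lintegral_mono fun θ => ?_
    rw [enorm_mul, enorm_ee, mul_one]
  have h2 := CSL mu1 (f := fun θ => ‖g θ‖ₑ) (g := fun _ => 1) hg.1.enorm aemeasurable_const
  simp only [mul_one, one_pow, lintegral_const, one_mul] at h2
  have h3 : mu1 Set.univ = 1 := by simp [mu1]
  rw [h3, mul_one] at h2
  calc ‖ff g z‖ₑ ^ 2 ≤ (∫⁻ θ, ‖g θ‖ₑ ∂mu1) ^ 2 := by gcongr
    _ ≤ _ := h2

lemma exp_mul_hasSum (u v : ℂ) :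
    HasSum (fun ν : ℕ × ℕ => (u ^ ν.1 / (ν.1 ! : ℂ)) * (v ^ ν.2 / (ν.2 ! : ℂ)))
      (Complex.exp u * Complex.exp v) := by
  have h : ∀ w : ℂ, HasSum (fun n : ℕ => w ^ n / (n ! : ℂ)) (Complex.exp w) := by
    intro w
    have := NormedSpace.expSeries_div_hasSum_exp w
    rwa [← Complex.exp_eq_exp_ℂ] at this
  have hs : ∀ w : ℂ, Summable (fun n : ℕ => ‖w ^ n / (n ! : ℂ)‖) := fun w =>
    NormedSpace.norm_expSeries_div_summable w
  have h1 := h u
  have h2 := h v
  have h3 := hs u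
  have h4 := hs v
  generalize (fun n : ℕ => u ^ n / (n ! : ℂ)) = f at *
  have h5 : Summable (fun ν : ℕ × ℕ => u ^ ν.1 / (ν.1 ! : ℂ) * (v ^ ν.2 / (ν.2 ! : ℂ))) :=
    summable_mul_of_summable_norm (f := fun n : ℕ => u ^ n / (n ! : ℂ))
      (g := fun n : ℕ => v ^ n / (n ! : ℂ)) (hs u) h4
  exact HasSum.mul (f := fun n : ℕ => u ^ n / (n ! : ℂ)) (g := fun n : ℕ => v ^ n / (n ! : ℂ))
    (h u) h2 h5

/-- expansion of `ff` -/
lemma ff_expand {g : ℝ → ℂ} (hg : Integrable g mu1) (z A B : ℝ) :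
    HasSum (fun ν : ℕ × ℕ => (((A ^ ν.1 / ν.1 ! * (B ^ ν.2 / ν.2 !) : ℝ)) : ℂ) * FF (ν.1 + ν.2) g z)
      (ff g (z + (A + B))) := by
  set T : ℕ × ℕ → ℝ → ℂ := fun ν θ =>
    (((A ^ ν.1 / ν.1 ! * (B ^ ν.2 / ν.2 !) : ℝ)) : ℂ) *
      (g θ * ((Complex.I * θ) ^ (ν.1 + ν.2) * ee (θ * z))) with hT
  have hInt : ∀ ν, Integrable (T ν) mu1 := by
    intro ν
    apply Integrable.const_mul
    apply integrable_mul_bdd hg (by fun_prop) 1
    intro θ hθ
    rw [norm_mul, norm_ee, mul_one]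
    exact norm_I_mul_pow_le θ hθ _
  have hsumw : Summable (fun ν : ℕ × ℕ => |A| ^ ν.1 / ν.1 ! * (|B| ^ ν.2 / ν.2 !)) :=
    (Real.summable_pow_div_factorial |A|).mul_of_nonneg (Real.summable_pow_div_factorial |B|)
      (fun n => by positivity) (fun n => by positivity)
  have hnorm : ∀ ν, ∫ θ, ‖T ν θ‖ ∂mu1 ≤ (|A| ^ ν.1 / ν.1 ! * (|B| ^ ν.2 / ν.2 !)) *
      ∫ θ, ‖g θ‖ ∂mu1 := by
    intro ν
    rw [← integral_const_mul]
    apply integral_mono_of_nonneg
    · exact Filter.Eventually.of_forall fun θ => norm_nonneg _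
    · exact hg.norm.const_mul _
    · rw [Filter.EventuallyLE, ae_restrict_iff' measurableSet_Ioc]
      refine Filter.Eventually.of_forall fun θ hθ => ?_
      simp only [hT]
      rw [norm_mul, Complex.norm_real, Real.norm_eq_abs]
      have e1 : |A ^ ν.1 / ν.1 ! * (B ^ ν.2 / ν.2 !)| = |A| ^ ν.1 / ν.1 ! * (|B| ^ ν.2 / ν.2 !) := by
        rw [abs_mul, abs_div, abs_div, abs_pow, abs_pow, Nat.abs_cast, Nat.abs_cast]
      rw [e1]
      apply mul_le_mul_of_nonneg_left _ (by positivity)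
      rw [norm_mul, norm_mul, norm_ee, mul_one]
      calc ‖g θ‖ * ‖(Complex.I * θ) ^ (ν.1 + ν.2)‖ ≤ ‖g θ‖ * 1 := by
            gcongr
            exact norm_I_mul_pow_le θ hθ _
        _ = ‖g θ‖ := mul_one _
  have hS : Summable (fun ν => ∫ θ, ‖T ν θ‖ ∂mu1) :=
    Summable.of_nonneg_of_le (fun ν => integral_nonneg fun _ => norm_nonneg _) hnorm
      (hsumw.mul_right _)
  have key := hasSum_integral_of_summable_integral_norm hInt hS
  have e1 : ∀ ν, ∫ θ, T ν θ ∂mu1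
      = (((A ^ ν.1 / ν.1 ! * (B ^ ν.2 / ν.2 !) : ℝ)) : ℂ) * FF (ν.1 + ν.2) g z := by
    intro ν
    simp only [hT, FF]
    rw [integral_const_mul]
  have e2 : ∫ θ, ∑' ν, T ν θ ∂mu1 = ff g (z + (A + B)) := by
    unfold ff
    refine integral_congr_ae (Filter.Eventually.of_forall fun θ => ?_)
    have hAB := exp_mul_hasSum (Complex.I * θ * A) (Complex.I * θ * B)
    have h3 := (hAB.mul_left (g θ * ee (θ * z))).tsum_eq
    simp only at h3 ⊢
    calc ∑' ν, T ν θ = ∑' ν : ℕ × ℕ, (g θ * ee (θ * z)) *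
          (((Complex.I * θ * A) ^ ν.1 / (ν.1 ! : ℂ)) * ((Complex.I * θ * B) ^ ν.2 / (ν.2 ! : ℂ))) := by
          refine tsum_congr fun ν => ?_
          simp only [hT]
          push_cast
          rw [mul_pow (Complex.I * θ) (A : ℂ), mul_pow (Complex.I * θ) (B : ℂ), pow_add]
          ring
      _ = (g θ * ee (θ * z)) * (Complex.exp (Complex.I * θ * A) * Complex.exp (Complex.I * θ * B)) := h3
      _ = g θ * ee (θ * (z + (A + B))) := by
          rw [mul_assoc]
          congr 1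
          unfold ee
          rw [← Complex.exp_add, ← Complex.exp_add]
          congr 1
          push_cast; ring
  rw [e2] at key
  simp_rw [e1] at key
  exact key

end Pool.Agent.E8helper95
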