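import Pool.Agent.E8helper95.F3

/-!
The model operator: expansion with frozen coefficients.
-/

set_option autoImplicit false

namespace Pool.Agent.E8helper95

open MeasureTheory Complex Set Finset
open scoped ENNReal ComplexConjugate Nat

/-- the model operator -/
noncomputable def UU (Λ S : Finset ℤ) (ω : ℤ → ℤ) (a : ℤ → ℤ → ℝ → ℂ) (t x : ℝ) : ℂ :=
  ∑ l ∈ Λ, ee (l * x - (l:ℝ) ^ 2 * t) * al S ω (fun k => ff (a l k) (x - 2 * l * t)) t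

/-- frozen coefficients -/
noncomputable def cc (M : ℕ) (a : ℤ → ℤ → ℝ → ℂ) (ν : ℕ × ℕ) (l k : ℤ) (z : ℝ) : ℂ :=
  (((l:ℝ) / (4 * M)) ^ ν.2 : ℝ) * FF (ν.1 + ν.2) (a l k) z

/-- weights of the expansion, real version -/
noncomputable def wr (ν : ℕ × ℕ) : ℝ := (2 * Real.pi) ^ ν.1 / ν.1 ! * (8 ^ ν.2 / ν.2 !)

/-- weights of the expansion -/
noncomputable def wt (ν : ℕ × ℕ) : ℝ≥0∞ := ENNReal.ofReal (wr ν)

lemma wr_nonneg (ν : ℕ × ℕ) : 0 ≤ wr ν := by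
  unfold wr; positivity

lemma summable_wr : Summable wr :=
  (Real.summable_pow_div_factorial (2 * Real.pi)).mul_of_nonneg
    (Real.summable_pow_div_factorial 8) (fun n => by positivity) (fun n => by positivity)

/-- total weight -/
noncomputable def BB : ℝ≥0∞ := ∑' ν, wt ν

lemma BB_ne_top : BB ≠ ⊤ := by
  unfold BB wt
  rw [← ENNReal.ofReal_tsum_of_nonneg wr_nonneg summable_wr]
  exact ENNReal.ofReal_ne_top

lemma UU_hasSum (Λ S : Finset ℤ) (ω : ℤ → ℤ) (a : ℤ → ℤ → ℝ → ℂ)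
    (ha : ∀ l k, MemLp (a l k) 2 mu1) (M : ℕ) (hM : 1 ≤ M) (t0 x0 r y : ℝ) :
    HasSum (fun ν : ℕ × ℕ => ((y ^ ν.1 / ν.1 ! * ((-(8 * M * r)) ^ ν.2 / ν.2 !) : ℝ) : ℂ) *
      PP Λ S ω (fun l k => cc M a ν l k (x0 - 2 * l * t0)) (t0 + r) (x0 + y))
      (UU Λ S ω a (t0 + r) (x0 + y)) := by
  have hMr : (0:ℝ) < M := by exact_mod_cast hM
  have h1 : ∀ l k : ℤ, HasSum (fun ν : ℕ × ℕ =>
      (((y ^ ν.1 / ν.1 ! * ((-(2 * l * r)) ^ ν.2 / ν.2 !) : ℝ)) : ℂ) *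
        FF (ν.1 + ν.2) (a l k) (x0 - 2 * l * t0))
      (ff (a l k) (x0 + y - 2 * l * (t0 + r))) := by
    intro l k
    have := ff_expand (integrable_of_memLp (ha l k)) (x0 - 2 * l * t0) y (-(2 * l * r))
    rwa [show x0 - 2 * l * t0 + (y + -(2 * l * r)) = x0 + y - 2 * l * (t0 + r) by ring] at this
  have h2 : HasSum (fun ν : ℕ × ℕ => ∑ l ∈ Λ, ee (l * (x0 + y) - (l:ℝ) ^ 2 * (t0 + r)) *
      ∑ k ∈ S, (((y ^ ν.1 / ν.1 ! * ((-(2 * l * r)) ^ ν.2 / ν.2 !) : ℝ)) : ℂ) *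
        FF (ν.1 + ν.2) (a l k) (x0 - 2 * l * t0) * ee (((-ω k : ℤ) : ℝ) * (t0 + r)))
      (UU Λ S ω a (t0 + r) (x0 + y)) := by
    unfold UU al
    apply hasSum_sum
    intro l _
    apply HasSum.mul_left
    apply hasSum_sum
    intro k _
    exact (h1 l k).mul_right _
  convert h2 using 2 with ν
  unfold PP al cc
  rw [Finset.mul_sum]
  refine Finset.sum_congr rfl fun l _ => ?_
  rw [mul_left_comm]
  congr 1
  rw [Finset.mul_sum]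
  refine Finset.sum_congr rfl fun k _ => ?_
  have e1 : (-(2 * (l:ℝ) * r)) ^ ν.2 = ((l:ℝ) / (4 * M)) ^ ν.2 * (-(8 * M * r)) ^ ν.2 := by
    rw [← mul_pow]
    congr 1
    field_simp
    ring
  rw [e1]
  push_cast
  ring

lemma UU_le (Λ S : Finset ℤ) (ω : ℤ → ℤ) (a : ℤ → ℤ → ℝ → ℂ)
    (ha : ∀ l k, MemLp (a l k) 2 mu1) (M : ℕ) (hM : 1 ≤ M) (t0 x0 r y : ℝ)
    (hr0 : 0 ≤ r) (hr : r * M ≤ 1) (hy0 : 0 ≤ y) (hy : y ≤ 2 * Real.pi) :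
    ‖UU Λ S ω a (t0 + r) (x0 + y)‖ₑ ≤ ∑' ν, wt ν *
      ‖PP Λ S ω (fun l k => cc M a ν l k (x0 - 2 * l * t0)) (t0 + r) (x0 + y)‖ₑ := by
  rw [← (UU_hasSum Λ S ω a ha M hM t0 x0 r y).tsum_eq]
  refine enorm_tsum_le_tsum_enorm.trans ?_
  apply ENNReal.tsum_le_tsum
  intro ν
  rw [enorm_mul]
  gcongr
  rw [← ofReal_norm, Complex.norm_real]
  unfold wt
  apply ENNReal.ofReal_le_ofReal
  unfold wr
  rw [Real.norm_eq_abs, abs_mul, abs_div, abs_div, abs_pow, abs_pow, Nat.abs_cast, Nat.abs_cast,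
    abs_neg, abs_of_nonneg hy0]
  have hM0 : (0:ℝ) ≤ M := Nat.cast_nonneg M
  have e2 : |8 * (M:ℝ) * r| ≤ 8 := by
    rw [abs_of_nonneg (by positivity)]
    nlinarith
  gcongr

lemma UU_sq_le (Λ S : Finset ℤ) (ω : ℤ → ℤ) (a : ℤ → ℤ → ℝ → ℂ)
    (ha : ∀ l k, MemLp (a l k) 2 mu1) (M : ℕ) (hM : 1 ≤ M) (t0 x0 r y : ℝ)
    (hr0 : 0 ≤ r) (hr : r * M ≤ 1) (hy0 : 0 ≤ y) (hy : y ≤ 2 * Real.pi) :
    ‖UU Λ S ω a (t0 + r) (x0 + y)‖ₑ ^ 2 ≤ BB * ∑' ν, wt ν *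
      ‖PP Λ S ω (fun l k => cc M a ν l k (x0 - 2 * l * t0)) (t0 + r) (x0 + y)‖ₑ ^ 2 := by
  calc _ ≤ (∑' ν, wt ν * ‖PP Λ S ω (fun l k => cc M a ν l k (x0 - 2 * l * t0))
        (t0 + r) (x0 + y)‖ₑ) ^ 2 := by
        gcongr
        exact UU_le Λ S ω a ha M hM t0 x0 r y hr0 hr hy0 hy
    _ ≤ _ := tsum_wsq _ _

lemma continuous_cc (M : ℕ) (a : ℤ → ℤ → ℝ → ℂ) (ha : ∀ l k, MemLp (a l k) 2 mu1)
    (ν : ℕ × ℕ) (l k : ℤ) : Continuous (cc M a ν l k) := by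
  unfold cc
  exact continuous_const.mul (continuous_FF (integrable_of_memLp (ha l k)) _)

lemma continuous_UU (Λ S : Finset ℤ) (ω : ℤ → ℤ) (a : ℤ → ℤ → ℝ → ℂ)
    (ha : ∀ l k, MemLp (a l k) 2 mu1) :
    Continuous (fun p : ℝ × ℝ => UU Λ S ω a p.1 p.2) := by
  unfold UU al
  apply continuous_finsetSum
  intro l _
  apply Continuous.mul (by fun_prop)
  apply continuous_finsetSum
  intro k _
  exact ((continuous_ff (integrable_of_memLp (ha l k))).comp (by fun_prop)).mul (by fun_prop)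

/-- Parseval for the frozen coefficients -/
lemma cc_L2 (M : ℕ) (hM : 1 ≤ M) (a : ℤ → ℤ → ℝ → ℂ) (ha : ∀ l k, MemLp (a l k) 2 mu1)
    (ν : ℕ × ℕ) (l k : ℤ) (hl : |l| ≤ 4 * M) :
    ∫⁻ z, ‖cc M a ν l k z‖ₑ ^ 2 ≤ ENNReal.ofReal (2 * Real.pi) * ∫⁻ θ, ‖a l k θ‖ₑ ^ 2 ∂mu1 := by
  have hMr : (0:ℝ) < M := by exact_mod_cast hM
  have hmem : MemLp (fun θ => a l k θ * (Complex.I * θ) ^ (ν.1 + ν.2)) 2 mu1 := by
    apply (ha l k).mono ((ha l k).1.mul (by fun_prop : Measurable fun θ : ℝ =>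
      (Complex.I * (θ:ℂ)) ^ (ν.1 + ν.2)).aestronglyMeasurable)
    rw [ae_restrict_iff' measurableSet_Ioc]
    refine Filter.Eventually.of_forall fun θ hθ => ?_
    change ‖a l k θ * (Complex.I * (θ:ℂ)) ^ (ν.1 + ν.2)‖ ≤ _
    rw [norm_mul]
    calc _ ≤ ‖a l k θ‖ * 1 := by
          gcongr
          exact norm_I_mul_pow_le θ hθ _
      _ = _ := mul_one _
  have h1 : ∀ z, ‖cc M a ν l k z‖ₑ ^ 2
      ≤ ‖ff (fun θ => a l k θ * (Complex.I * θ) ^ (ν.1 + ν.2)) z‖ₑ ^ 2 := by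
    intro z
    unfold cc
    rw [FF_eq, enorm_mul]
    gcongr
    have h2 : ‖((((l:ℝ) / (4 * M)) ^ ν.2 : ℝ) : ℂ)‖ₑ ≤ 1 := by
      rw [← ofReal_norm, Complex.norm_real, norm_pow, Real.norm_eq_abs]
      rw [← ENNReal.ofReal_one]
      apply ENNReal.ofReal_le_ofReal
      apply pow_le_one₀ (abs_nonneg _)
      rw [abs_div, abs_of_pos (by positivity : (0:ℝ) < 4 * M), div_le_one (by positivity)]
      exact_mod_cast hl
    calc _ ≤ 1 * ‖ff (fun θ => a l k θ * (Complex.I * θ) ^ (ν.1 + ν.2)) z‖ₑ := by gcongr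
      _ = _ := one_mul _
  refine (lintegral_mono h1).trans ?_
  rw [plancherel_ff hmem]
  refine mul_le_mul_right ?_ _
  apply lintegral_mono_ae
  rw [ae_restrict_iff' measurableSet_Ioc]
  refine Filter.Eventually.of_forall fun θ hθ => ?_
  gcongr
  rw [enorm_mul]
  calc _ ≤ ‖a l k θ‖ₑ * 1 := by
        gcongr
        rw [← ofReal_norm, ← ENNReal.ofReal_one]
        exact ENNReal.ofReal_le_ofReal (norm_I_mul_pow_le θ hθ _)
    _ = _ := mul_one _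

end Pool.Agent.E8helper95
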