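import Pool.Agent.E8helper95.F4

/-!
Local estimates for the model operator on a small rectangle.
-/

set_option autoImplicit false

namespace Pool.Agent.E8helper95

open MeasureTheory Complex Set Finset
open scoped ENNReal ComplexConjugate Nat

/-- the small rectangle, based at the origin -/
def RR (M : ℕ) : Set (ℝ × ℝ) := Set.Ioc 0 (1 / (M:ℝ)) ×ˢ Set.Ioc 0 (2 * Real.pi)

lemma measurableSet_RR (M : ℕ) : MeasurableSet (RR M) := measurableSet_Ioc.prod measurableSet_Ioc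

lemma restrict_RR (M : ℕ) : (volume : Measure (ℝ × ℝ)).restrict (RR M)
    = (volume.restrict (Set.Ioc 0 (1 / (M:ℝ)))).prod (volume.restrict (Set.Ioc 0 (2 * Real.pi))) := by
  rw [Measure.prod_restrict]
  rfl

lemma lint_RR (M : ℕ) {f : ℝ × ℝ → ℝ≥0∞} (hf : Measurable f) :
    ∫⁻ p in RR M, f p = ∫⁻ r in Set.Ioc 0 (1 / (M:ℝ)), ∫⁻ y in Set.Ioc 0 (2 * Real.pi), f (r, y) := by
  rw [restrict_RR, lintegral_prod _ hf.aemeasurable]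

/-- mass of the frozen coefficients -/
noncomputable def mm (S : Finset ℤ) (M : ℕ) (a : ℤ → ℤ → ℝ → ℂ) (ν : ℕ × ℕ) (l : ℤ) (z : ℝ) : ℝ≥0∞ :=
  ∑ k ∈ S, ‖cc M a ν l k z‖ₑ ^ 2

/-- weighted fourth power -/
noncomputable def QA (S : Finset ℤ) (ω : ℤ → ℤ) (M : ℕ) (a : ℤ → ℤ → ℝ → ℂ) (ν : ℕ × ℕ) (l : ℤ)
    (t0 z : ℝ) : ℝ≥0∞ :=
  ∫⁻ t in Set.Ioc 0 (2 * Real.pi), ‖DD M (t - t0)‖ₑ ^ 2 *
    ‖al S ω (fun k => cc M a ν l k z) t‖ₑ ^ 4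

noncomputable def gM (S : Finset ℤ) (M : ℕ) (a : ℤ → ℤ → ℝ → ℂ) (l : ℤ) (z : ℝ) : ℝ≥0∞ :=
  ∑' ν, wt ν * mm S M a ν l z

noncomputable def musq (Λ S : Finset ℤ) (M : ℕ) (a : ℤ → ℤ → ℝ → ℂ) (t0 x0 : ℝ) : ℝ≥0∞ :=
  ∑ l ∈ Λ, gM S M a l (x0 - 2 * l * t0)

noncomputable def aL (Λ S : Finset ℤ) (ω : ℤ → ℤ) (M : ℕ) (a : ℤ → ℤ → ℝ → ℂ) (t0 x0 : ℝ) : ℝ≥0∞ :=
  ∑' ν, wt ν * ∑ l ∈ Λ, (QA S ω M a ν l t0 (x0 - 2 * l * t0)) ^ (1 / 2 : ℝ)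

noncomputable def QQ (Λ S : Finset ℤ) (ω : ℤ → ℤ) (M : ℕ) (a : ℤ → ℤ → ℝ → ℂ) (t0 x0 : ℝ) : ℝ≥0∞ :=
  ∑' ν, wt ν * ∑ l ∈ Λ, QA S ω M a ν l t0 (x0 - 2 * l * t0) / mm S M a ν l (x0 - 2 * l * t0)

lemma measurable_PP (Λ S : Finset ℤ) (ω : ℤ → ℤ) (c : ℤ → ℤ → ℂ) (t0 x0 : ℝ) :
    Measurable (fun p : ℝ × ℝ => PP Λ S ω c (t0 + p.1) (x0 + p.2)) :=
  ((continuous_PP Λ S ω c).comp (g := fun q : ℝ × ℝ => PP Λ S ω c q.1 q.2)
    (f := fun p : ℝ × ℝ => (t0 + p.1, x0 + p.2)) (by fun_prop)).measurable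

lemma measurable_UU (Λ S : Finset ℤ) (ω : ℤ → ℤ) (a : ℤ → ℤ → ℝ → ℂ)
    (ha : ∀ l k, MemLp (a l k) 2 mu1) :
    Measurable (fun p : ℝ × ℝ => UU Λ S ω a p.1 p.2) := (continuous_UU Λ S ω a ha).measurable

/-- (α) -/
lemma alphaU (Λ S : Finset ℤ) (ω : ℤ → ℤ) (a : ℤ → ℤ → ℝ → ℂ)
    (ha : ∀ l k, MemLp (a l k) 2 mu1) (M : ℕ) (hM : 1 ≤ M) (L : ℕ) (hL : 1 ≤ L) (hLM : L ≤ M)
    (hgap : ∀ k ∈ S, ∀ k' ∈ S, k ≠ k' → (L : ℤ) ≤ |ω k - ω k'|) (t0 x0 : ℝ) :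
    ∫⁻ p in RR M, ‖UU Λ S ω a (t0 + p.1) (x0 + p.2)‖ₑ ^ 2
      ≤ BB * (ENNReal.ofReal (2 * Real.pi) * (4 * (ENNReal.ofReal (2 * Real.pi) / L)) *
        musq Λ S M a t0 x0) := by
  have hMr : (0:ℝ) < M := by exact_mod_cast hM
  have hM1 : (1:ℝ) ≤ M := by exact_mod_cast hM
  calc ∫⁻ p in RR M, ‖UU Λ S ω a (t0 + p.1) (x0 + p.2)‖ₑ ^ 2
      ≤ ∫⁻ p in RR M, BB * ∑' ν, wt ν *
        ‖PP Λ S ω (fun l k => cc M a ν l k (x0 - 2 * l * t0)) (t0 + p.1) (x0 + p.2)‖ₑ ^ 2 := by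
        apply setLIntegral_mono' (measurableSet_RR M)
        intro p hp
        obtain ⟨h1, h2⟩ := hp
        apply UU_sq_le Λ S ω a ha M hM t0 x0 p.1 p.2 h1.1.le _ h2.1.le h2.2
        have := h1.2
        rw [le_div_iff₀ hMr] at this
        exact this
    _ = BB * ∑' ν, wt ν * ∫⁻ p in RR M,
        ‖PP Λ S ω (fun l k => cc M a ν l k (x0 - 2 * l * t0)) (t0 + p.1) (x0 + p.2)‖ₑ ^ 2 := by
        have hm : ∀ ν, Measurable fun p : ℝ × ℝ =>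
            ‖PP Λ S ω (fun l k => cc M a ν l k (x0 - 2 * l * t0)) (t0 + p.1) (x0 + p.2)‖ₑ ^ 2 :=
          fun ν => (measurable_PP Λ S ω _ t0 x0).enorm.pow_const 2
        rw [lintegral_const_mul _ (Measurable.ennreal_tsum fun ν => (hm ν).const_mul _),
          lintegral_tsum (fun ν => ((hm ν).const_mul _).aemeasurable)]
        congr 1
        refine tsum_congr fun ν => ?_
        rw [lintegral_const_mul _ (hm ν)]
    _ ≤ BB * ∑' ν, wt ν * (ENNReal.ofReal (2 * Real.pi) * (4 * (ENNReal.ofReal (2 * Real.pi) / L)) *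
        ∑ l ∈ Λ, mm S M a ν l (x0 - 2 * l * t0)) := by
        gcongr with ν
        rw [lint_RR M ((measurable_PP Λ S ω _ t0 x0).enorm.pow_const 2)]
        unfold mm
        apply alpha Λ S ω (fun l k => cc M a ν l k (x0 - 2 * l * t0)) L hL hgap t0 x0
        · have : (L:ℝ) ≤ M := by exact_mod_cast hLM
          rw [div_mul_eq_mul_div, one_mul, div_le_one hMr]
          exact this
        · have : 1 / (M:ℝ) ≤ 1 := by rw [div_le_one hMr]; exact hM1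
          have := Real.pi_gt_three
          linarith
    _ = _ := by
        congr 1
        unfold musq gM
        have e1 : ∑ l ∈ Λ, ∑' ν, wt ν * mm S M a ν l (x0 - 2 * l * t0)
            = ∑' ν, wt ν * ∑ l ∈ Λ, mm S M a ν l (x0 - 2 * l * t0) := by
          simp_rw [Finset.mul_sum]
          rw [Summable.tsum_finsetSum (fun _ _ => ENNReal.summable)]
        rw [e1, ← ENNReal.tsum_mul_left]
        refine tsum_congr fun ν => ?_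
        ring

lemma measurable_al_cc (S : Finset ℤ) (ω : ℤ → ℤ) (M : ℕ) (a : ℤ → ℤ → ℝ → ℂ)
    (ha : ∀ l k, MemLp (a l k) 2 mu1) (ν : ℕ × ℕ) (l : ℤ) :
    Measurable (fun p : ℝ × ℝ => al S ω (fun k => cc M a ν l k p.2) p.1) := by
  unfold al
  apply Finset.measurable_fun_sum
  intro k _
  have := (continuous_cc M a ha ν l k).measurable
  fun_prop

/-- Cauchy-Schwarz for the weighted integral -/
lemma cs_QA (S : Finset ℤ) (ω : ℤ → ℤ) (M : ℕ) (c d : ℤ → ℂ) (t0 : ℝ) :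
    ∫⁻ t in Set.Ioc 0 (2 * Real.pi), ‖DD M (t - t0)‖ₑ ^ 2 *
        (‖al S ω c t‖ₑ ^ 2 * ‖al S ω d t‖ₑ ^ 2)
      ≤ (∫⁻ t in Set.Ioc 0 (2 * Real.pi), ‖DD M (t - t0)‖ₑ ^ 2 * ‖al S ω c t‖ₑ ^ 4) ^ (1 / 2 : ℝ) *
        (∫⁻ t in Set.Ioc 0 (2 * Real.pi), ‖DD M (t - t0)‖ₑ ^ 2 * ‖al S ω d t‖ₑ ^ 4) ^ (1 / 2 : ℝ) := by
  have h := CSL' (volume.restrict (Set.Ioc 0 (2 * Real.pi)))
    (f := fun t => ‖DD M (t - t0)‖ₑ ^ 2 * ‖al S ω c t‖ₑ ^ 4)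
    (g := fun t => ‖DD M (t - t0)‖ₑ ^ 2 * ‖al S ω d t‖ₑ ^ 4) (by fun_prop) (by fun_prop)
  refine le_trans (le_of_eq ?_) h
  refine lintegral_congr fun t => ?_
  have e : ∀ x y : ℝ≥0∞, (x ^ 2 * y ^ 4) ^ (1 / 2 : ℝ) = x * y ^ 2 := by
    intro x y
    rw [show x ^ 2 * y ^ 4 = (x * y ^ 2) ^ 2 by ring, ← ENNReal.rpow_natCast (x * y ^ 2),
      ← ENNReal.rpow_mul]
    norm_num
  rw [e, e]
  ring

/-- (β) -/
lemma betaU (Λ Λ' S : Finset ℤ) (ω : ℤ → ℤ) (a a' : ℤ → ℤ → ℝ → ℂ)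
    (ha : ∀ l k, MemLp (a l k) 2 mu1) (ha' : ∀ l k, MemLp (a' l k) 2 mu1) (M : ℕ) (hM : 1 ≤ M)
    (Ω : ℕ) (cl : ℤ → ℕ) (hcl : ∀ l ∈ Λ, cl l < Ω)
    (hsep : ∀ l ∈ Λ, ∀ l' ∈ Λ', ∀ m ∈ Λ, ∀ m' ∈ Λ', l + l' = m + m' → l ≠ m → cl l = cl m →
      ∀ k1 ∈ S, ∀ k2 ∈ S, ∀ k3 ∈ S, ∀ k4 ∈ S, ∀ h h' : ℕ, h < M → h' < M →
        (h : ℤ) - ω k1 - ω k2 - (l ^ 2 + l' ^ 2) ≠ (h' : ℤ) - ω k3 - ω k4 - (m ^ 2 + m' ^ 2))
    (t0 x0 : ℝ) :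
    ∫⁻ p in RR M, (‖UU Λ S ω a (t0 + p.1) (x0 + p.2)‖ₑ * ‖UU Λ' S ω a' (t0 + p.1) (x0 + p.2)‖ₑ) ^ 2
      ≤ BB * BB * (ENNReal.ofReal (2 * Real.pi) * 4 * Ω) *
        (aL Λ S ω M a t0 x0 * aL Λ' S ω M a' t0 x0) := by
  have hMr : (0:ℝ) < M := by exact_mod_cast hM
  have hM1 : (1:ℝ) ≤ M := by exact_mod_cast hM
  set P : ℕ × ℕ → ℝ × ℝ → ℝ≥0∞ := fun ν p =>
    ‖PP Λ S ω (fun l k => cc M a ν l k (x0 - 2 * l * t0)) (t0 + p.1) (x0 + p.2)‖ₑ with hP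
  set P' : ℕ × ℕ → ℝ × ℝ → ℝ≥0∞ := fun ν p =>
    ‖PP Λ' S ω (fun l k => cc M a' ν l k (x0 - 2 * l * t0)) (t0 + p.1) (x0 + p.2)‖ₑ with hP'
  have hPm : ∀ ν, Measurable (P ν) := fun ν => (measurable_PP Λ S ω _ t0 x0).enorm
  have hPm' : ∀ ν, Measurable (P' ν) := fun ν => (measurable_PP Λ' S ω _ t0 x0).enorm
  have hPP : ∀ ν ν', Measurable fun p : ℝ × ℝ => (P ν p * P' ν' p) ^ 2 :=
    fun ν ν' => ((hPm ν).mul (hPm' ν')).pow_const 2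
  have hpt : ∀ p ∈ RR M, (‖UU Λ S ω a (t0 + p.1) (x0 + p.2)‖ₑ *
      ‖UU Λ' S ω a' (t0 + p.1) (x0 + p.2)‖ₑ) ^ 2
      ≤ BB * BB * ∑' ν, ∑' ν', wt ν * wt ν' * (P ν p * P' ν' p) ^ 2 := by
    intro p hp
    obtain ⟨h1, h2⟩ := hp
    have h3 : p.1 * M ≤ 1 := by
      have := h1.2
      rw [le_div_iff₀ hMr] at this
      exact this
    have u1 := UU_sq_le Λ S ω a ha M hM t0 x0 p.1 p.2 h1.1.le h3 h2.1.le h2.2
    have u2 := UU_sq_le Λ' S ω a' ha' M hM t0 x0 p.1 p.2 h1.1.le h3 h2.1.le h2.2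
    rw [mul_pow]
    calc _ ≤ (BB * ∑' ν, wt ν * P ν p ^ 2) * (BB * ∑' ν, wt ν * P' ν p ^ 2) :=
          mul_le_mul' u1 u2
      _ = BB * BB * ((∑' ν, wt ν * P ν p ^ 2) * ∑' ν, wt ν * P' ν p ^ 2) := by ring
      _ = _ := by
          congr 1
          rw [← ENNReal.tsum_mul_right]
          refine tsum_congr fun ν => ?_
          rw [← ENNReal.tsum_mul_left]
          refine tsum_congr fun ν' => ?_
          ring
  have hsingle : ∀ ν ν', ∫⁻ p in RR M, (P ν p * P' ν' p) ^ 2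
      ≤ (ENNReal.ofReal (2 * Real.pi) * 4 * Ω) *
        ((∑ l ∈ Λ, (QA S ω M a ν l t0 (x0 - 2 * l * t0)) ^ (1 / 2 : ℝ)) *
        (∑ l ∈ Λ', (QA S ω M a' ν' l t0 (x0 - 2 * l * t0)) ^ (1 / 2 : ℝ))) := by
    intro ν ν'
    rw [lint_RR M (hPP ν ν')]
    have hb := beta Λ Λ' S ω (fun l k => cc M a ν l k (x0 - 2 * l * t0))
      (fun l k => cc M a' ν' l k (x0 - 2 * l * t0)) M Ω hM cl hcl hsep t0 x0 (1 / (M:ℝ)) (by
        rw [div_mul_eq_mul_div, one_mul, div_self hMr.ne']) (by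
        have h5 : 1 / (M:ℝ) ≤ 1 := by rw [div_le_one hMr]; exact hM1
        have := Real.pi_gt_three
        linarith)
    refine hb.trans ?_
    calc _ ≤ ENNReal.ofReal (2 * Real.pi) * (4 * (Ω * ∑ l ∈ Λ, ∑ l' ∈ Λ',
          (QA S ω M a ν l t0 (x0 - 2 * l * t0)) ^ (1 / 2 : ℝ) *
          (QA S ω M a' ν' l' t0 (x0 - 2 * l' * t0)) ^ (1 / 2 : ℝ))) := by
          gcongr with l _ l' _
          exact cs_QA S ω M _ _ t0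
      _ = _ := by
          rw [Finset.sum_mul_sum]
          ring
  calc _ ≤ ∫⁻ p in RR M, BB * BB * ∑' ν, ∑' ν', wt ν * wt ν' * (P ν p * P' ν' p) ^ 2 :=
        setLIntegral_mono' (measurableSet_RR M) hpt
    _ = BB * BB * ∑' ν, ∑' ν', wt ν * wt ν' * ∫⁻ p in RR M, (P ν p * P' ν' p) ^ 2 := by
        have hm : ∀ ν ν', Measurable fun p : ℝ × ℝ => wt ν * wt ν' * (P ν p * P' ν' p) ^ 2 :=
          fun ν ν' => (hPP ν ν').const_mul _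
        rw [lintegral_const_mul _ (Measurable.ennreal_tsum fun ν => Measurable.ennreal_tsum (hm ν)),
          lintegral_tsum (fun ν => (Measurable.ennreal_tsum (hm ν)).aemeasurable)]
        congr 1
        refine tsum_congr fun ν => ?_
        rw [lintegral_tsum (fun ν' => (hm ν ν').aemeasurable)]
        refine tsum_congr fun ν' => ?_
        rw [lintegral_const_mul _ (hPP ν ν')]
    _ ≤ BB * BB * ∑' ν, ∑' ν', wt ν * wt ν' * ((ENNReal.ofReal (2 * Real.pi) * 4 * Ω) *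
        ((∑ l ∈ Λ, (QA S ω M a ν l t0 (x0 - 2 * l * t0)) ^ (1 / 2 : ℝ)) *
        (∑ l ∈ Λ', (QA S ω M a' ν' l t0 (x0 - 2 * l * t0)) ^ (1 / 2 : ℝ)))) := by
        gcongr with ν ν'
        exact hsingle ν ν'
    _ = _ := by
        unfold aL
        rw [mul_assoc (BB * BB)]
        congr 1
        rw [← ENNReal.tsum_mul_right, ← ENNReal.tsum_mul_left]
        refine tsum_congr fun ν => ?_
        rw [← ENNReal.tsum_mul_left, ← ENNReal.tsum_mul_left]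
        refine tsum_congr fun ν' => ?_
        ring

end Pool.Agent.E8helper95
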