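import Pool.Agent.E8helper95.F5

/-!
Averages over the position of the small rectangle.
-/

set_option autoImplicit false

namespace Pool.Agent.E8helper95

open MeasureTheory Complex Set Finset
open scoped ENNReal ComplexConjugate Nat

lemma CS_sum {ι : Type*} (s : Finset ι) (f g : ι → ℝ≥0∞) :
    (∑ i ∈ s, f i * g i) ^ 2 ≤ (∑ i ∈ s, f i ^ 2) * ∑ i ∈ s, g i ^ 2 := by
  have h := ENNReal.inner_le_Lp_mul_Lq s f g Real.HolderConjugate.two_two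
  calc (∑ i ∈ s, f i * g i) ^ 2
      ≤ ((∑ i ∈ s, f i ^ (2:ℝ)) ^ (1 / 2 : ℝ) * (∑ i ∈ s, g i ^ (2:ℝ)) ^ (1 / 2 : ℝ)) ^ 2 := by
        gcongr
    _ = _ := by
        rw [mul_pow, sqrt_sq, sqrt_sq]
        simp_rw [ENNReal.rpow_two]

lemma mm_ne_top (S : Finset ℤ) (M : ℕ) (a : ℤ → ℤ → ℝ → ℂ) (ν : ℕ × ℕ) (l : ℤ) (z : ℝ) :
    mm S M a ν l z ≠ ⊤ := by
  unfold mm
  apply ENNReal.sum_ne_top.2
  intro k _
  exact ENNReal.pow_ne_top enorm_ne_top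

lemma QA_eq_zero (S : Finset ℤ) (ω : ℤ → ℤ) (M : ℕ) (a : ℤ → ℤ → ℝ → ℂ) (ν : ℕ × ℕ) (l : ℤ)
    (t0 z : ℝ) (h : mm S M a ν l z = 0) : QA S ω M a ν l t0 z = 0 := by
  unfold mm at h
  rw [Finset.sum_eq_zero_iff] at h
  unfold QA
  have h2 : ∀ t, al S ω (fun k => cc M a ν l k z) t = 0 := by
    intro t
    unfold al
    apply Finset.sum_eq_zero
    intro k hk
    have := h k hk
    have h3 : cc M a ν l k z = 0 := by
      simpa using this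
    simp [h3]
  simp [h2]

lemma QA_eq (S : Finset ℤ) (ω : ℤ → ℤ) (M : ℕ) (a : ℤ → ℤ → ℝ → ℂ) (ν : ℕ × ℕ) (l : ℤ)
    (t0 z : ℝ) : QA S ω M a ν l t0 z = mm S M a ν l z * (QA S ω M a ν l t0 z / mm S M a ν l z) := by
  by_cases h : mm S M a ν l z = 0
  · rw [QA_eq_zero S ω M a ν l t0 z h, h]; simp
  · rw [ENNReal.mul_div_cancel h (mm_ne_top S M a ν l z)]

/-- Cauchy-Schwarz: `a² ≤ μ² Q` -/
lemma aL_sq_le (Λ S : Finset ℤ) (ω : ℤ → ℤ) (M : ℕ) (a : ℤ → ℤ → ℝ → ℂ) (t0 x0 : ℝ) :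
    aL Λ S ω M a t0 x0 ^ 2 ≤ musq Λ S M a t0 x0 * QQ Λ S ω M a t0 x0 := by
  set m : ℕ × ℕ → ℝ≥0∞ := fun ν => ∑ l ∈ Λ, mm S M a ν l (x0 - 2 * l * t0) with hm
  set q : ℕ × ℕ → ℝ≥0∞ := fun ν => ∑ l ∈ Λ, QA S ω M a ν l t0 (x0 - 2 * l * t0) /
    mm S M a ν l (x0 - 2 * l * t0) with hq
  have h1 : ∀ ν, (∑ l ∈ Λ, (QA S ω M a ν l t0 (x0 - 2 * l * t0)) ^ (1 / 2 : ℝ))
      ≤ m ν ^ (1 / 2 : ℝ) * q ν ^ (1 / 2 : ℝ) := by
    intro ν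
    have h2 := CS_sum Λ (fun l => (mm S M a ν l (x0 - 2 * l * t0)) ^ (1 / 2 : ℝ))
      (fun l => (QA S ω M a ν l t0 (x0 - 2 * l * t0) / mm S M a ν l (x0 - 2 * l * t0)) ^ (1 / 2 : ℝ))
    simp_rw [sqrt_sq] at h2
    have h3 : ∀ l ∈ Λ, (mm S M a ν l (x0 - 2 * l * t0)) ^ (1 / 2 : ℝ) *
        (QA S ω M a ν l t0 (x0 - 2 * l * t0) / mm S M a ν l (x0 - 2 * l * t0)) ^ (1 / 2 : ℝ)
        = (QA S ω M a ν l t0 (x0 - 2 * l * t0)) ^ (1 / 2 : ℝ) := by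
      intro l _
      rw [← ENNReal.mul_rpow_of_nonneg _ _ (by norm_num), ← QA_eq]
    rw [Finset.sum_congr rfl h3] at h2
    have h4 := ENNReal.rpow_le_rpow h2 (by norm_num : (0:ℝ) ≤ 1 / 2)
    rw [ENNReal.mul_rpow_of_nonneg _ _ (by norm_num), ← ENNReal.rpow_natCast, ← ENNReal.rpow_mul] at h4
    norm_num at h4 ⊢
    exact h4
  have h5 : aL Λ S ω M a t0 x0 ≤ ∑' ν, (wt ν * m ν) ^ (1 / 2 : ℝ) * (wt ν * q ν) ^ (1 / 2 : ℝ) := by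
    unfold aL
    apply ENNReal.tsum_le_tsum
    intro ν
    calc wt ν * ∑ l ∈ Λ, (QA S ω M a ν l t0 (x0 - 2 * l * t0)) ^ (1 / 2 : ℝ)
        ≤ wt ν * (m ν ^ (1 / 2 : ℝ) * q ν ^ (1 / 2 : ℝ)) := by
          gcongr
          exact h1 ν
      _ = _ := by
          rw [ENNReal.mul_rpow_of_nonneg _ _ (by norm_num), ENNReal.mul_rpow_of_nonneg _ _ (by norm_num)]
          nth_rewrite 1 [← sqrt_sq (wt ν)]
          ring
  calc aL Λ S ω M a t0 x0 ^ 2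
      ≤ (∑' ν, (wt ν * m ν) ^ (1 / 2 : ℝ) * (wt ν * q ν) ^ (1 / 2 : ℝ)) ^ 2 := by gcongr
    _ ≤ (∑' ν, wt ν * m ν) * ∑' ν, wt ν * q ν := by
        have := CS_tsum (fun ν => (wt ν * m ν) ^ (1 / 2 : ℝ)) (fun ν => (wt ν * q ν) ^ (1 / 2 : ℝ))
        simp_rw [sqrt_sq] at this
        exact this
    _ = _ := by
        congr 1
        unfold musq gM
        simp only [hm]
        simp_rw [Finset.mul_sum]
        rw [Summable.tsum_finsetSum (fun _ _ => ENNReal.summable)]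

lemma measurable_mm (S : Finset ℤ) (M : ℕ) (a : ℤ → ℤ → ℝ → ℂ)
    (ha : ∀ l k, MemLp (a l k) 2 mu1) (ν : ℕ × ℕ) (l : ℤ) : Measurable (mm S M a ν l) := by
  unfold mm
  apply Finset.measurable_fun_sum
  intro k _
  have := (continuous_cc M a ha ν l k).measurable
  fun_prop

lemma measurable_gM (S : Finset ℤ) (M : ℕ) (a : ℤ → ℤ → ℝ → ℂ)
    (ha : ∀ l k, MemLp (a l k) 2 mu1) (l : ℤ) : Measurable (gM S M a l) := by
  unfold gM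
  exact Measurable.ennreal_tsum fun ν => (measurable_mm S M a ha ν l).const_mul _

lemma measurable_QA (S : Finset ℤ) (ω : ℤ → ℤ) (M : ℕ) (a : ℤ → ℤ → ℝ → ℂ)
    (ha : ∀ l k, MemLp (a l k) 2 mu1) (ν : ℕ × ℕ) (l : ℤ) :
    Measurable (fun p : ℝ × ℝ => QA S ω M a ν l p.1 p.2) := by
  unfold QA
  have h : Measurable (fun q : (ℝ × ℝ) × ℝ => ‖DD M (q.2 - q.1.1)‖ₑ ^ 2 *
      ‖al S ω (fun k => cc M a ν l k q.1.2) q.2‖ₑ ^ 4) := by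
    have h1 : Measurable (fun q : (ℝ × ℝ) × ℝ => al S ω (fun k => cc M a ν l k q.1.2) q.2) :=
      (measurable_al_cc S ω M a ha ν l).comp (g := fun p : ℝ × ℝ => al S ω (fun k => cc M a ν l k p.2) p.1)
        (f := fun q : (ℝ × ℝ) × ℝ => (q.2, q.1.2)) (by fun_prop)
    fun_prop
  exact Measurable.lintegral_prod_right' (f := fun q : (ℝ × ℝ) × ℝ => ‖DD M (q.2 - q.1.1)‖ₑ ^ 2 *
      ‖al S ω (fun k => cc M a ν l k q.1.2) q.2‖ₑ ^ 4) h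

lemma measurable_musq (Λ S : Finset ℤ) (M : ℕ) (a : ℤ → ℤ → ℝ → ℂ)
    (ha : ∀ l k, MemLp (a l k) 2 mu1) : Measurable (fun p : ℝ × ℝ => musq Λ S M a p.1 p.2) := by
  unfold musq
  apply Finset.measurable_fun_sum
  intro l _
  exact (measurable_gM S M a ha l).comp (by fun_prop)

lemma measurable_QAd (S : Finset ℤ) (ω : ℤ → ℤ) (M : ℕ) (a : ℤ → ℤ → ℝ → ℂ)
    (ha : ∀ l k, MemLp (a l k) 2 mu1) (ν : ℕ × ℕ) (l : ℤ) :
    Measurable (fun p : ℝ × ℝ => QA S ω M a ν l p.1 (p.2 - 2 * l * p.1) /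
      mm S M a ν l (p.2 - 2 * l * p.1)) := by
  apply Measurable.div
  · exact (measurable_QA S ω M a ha ν l).comp (g := fun p : ℝ × ℝ => QA S ω M a ν l p.1 p.2)
      (f := fun p : ℝ × ℝ => (p.1, p.2 - 2 * l * p.1)) (by fun_prop)
  · exact (measurable_mm S M a ha ν l).comp (by fun_prop)

lemma measurable_QQ (Λ S : Finset ℤ) (ω : ℤ → ℤ) (M : ℕ) (a : ℤ → ℤ → ℝ → ℂ)
    (ha : ∀ l k, MemLp (a l k) 2 mu1) : Measurable (fun p : ℝ × ℝ => QQ Λ S ω M a p.1 p.2) := by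
  unfold QQ
  apply Measurable.ennreal_tsum
  intro ν
  apply Measurable.const_mul
  apply Finset.measurable_fun_sum
  intro l _
  exact measurable_QAd S ω M a ha ν l

/-- total mass in the unit cell -/
noncomputable def ms (Λ S : Finset ℤ) (a : ℤ → ℤ → ℝ → ℂ) : ℝ≥0∞ :=
  ∑ l ∈ Λ, ∑ k ∈ S, ∫⁻ θ, ‖a l k θ‖ₑ ^ 2 ∂mu1

lemma lint_mm (S : Finset ℤ) (M : ℕ) (hM : 1 ≤ M) (a : ℤ → ℤ → ℝ → ℂ)
    (ha : ∀ l k, MemLp (a l k) 2 mu1) (ν : ℕ × ℕ) (l : ℤ) (hl : |l| ≤ 4 * M) :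
    ∫⁻ z, mm S M a ν l z ≤ ENNReal.ofReal (2 * Real.pi) * ∑ k ∈ S, ∫⁻ θ, ‖a l k θ‖ₑ ^ 2 ∂mu1 := by
  unfold mm
  rw [lintegral_finsetSum _ (fun k _ => by
    have := (continuous_cc M a ha ν l k).measurable
    fun_prop), Finset.mul_sum]
  exact Finset.sum_le_sum fun k _ => cc_L2 M hM a ha ν l k hl

lemma lint_gM (S : Finset ℤ) (M : ℕ) (hM : 1 ≤ M) (a : ℤ → ℤ → ℝ → ℂ)
    (ha : ∀ l k, MemLp (a l k) 2 mu1) (l : ℤ) (hl : |l| ≤ 4 * M) :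
    ∫⁻ z, gM S M a l z ≤ BB * (ENNReal.ofReal (2 * Real.pi) * ∑ k ∈ S, ∫⁻ θ, ‖a l k θ‖ₑ ^ 2 ∂mu1) := by
  unfold gM
  rw [lintegral_tsum (fun ν => ((measurable_mm S M a ha ν l).const_mul _).aemeasurable)]
  unfold BB
  rw [← ENNReal.tsum_mul_right]
  apply ENNReal.tsum_le_tsum
  intro ν
  rw [lintegral_const_mul _ (measurable_mm S M a ha ν l)]
  gcongr
  exact lint_mm S M hM a ha ν l hl

/-- transversal tubes -/
lemma transversal {G H : ℝ → ℝ≥0∞} (hG : Measurable G) (hH : Measurable H) (l l' : ℤ) (hne : l ≠ l') :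
    ∫⁻ t0, ∫⁻ x0, G (x0 - 2 * l * t0) * H (x0 - 2 * l' * t0)
      = ENNReal.ofReal |(2 * ((l:ℝ) - l'))⁻¹| * ((∫⁻ z, G z) * ∫⁻ z, H z) := by
  have hc : (2 * ((l:ℝ) - l')) ≠ 0 := by
    have : (l:ℝ) - l' ≠ 0 := by
      rw [sub_ne_zero]; exact_mod_cast hne
    positivity
  have h1 : ∀ t0 : ℝ, ∫⁻ x0, G (x0 - 2 * l * t0) * H (x0 - 2 * l' * t0)
      = ∫⁻ x, G x * H (x + 2 * ((l:ℝ) - l') * t0) := by
    intro t0
    rw [← lint_translate (fun x0 => G (x0 - 2 * l * t0) * H (x0 - 2 * l' * t0)) (2 * l * t0)]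
    refine lintegral_congr fun x => ?_
    congr 2 <;> ring
  simp_rw [h1]
  rw [lintegral_lintegral_swap (by fun_prop)]
  have h2 : ∀ x : ℝ, ∫⁻ t0, G x * H (x + 2 * ((l:ℝ) - l') * t0)
      = G x * (ENNReal.ofReal |(2 * ((l:ℝ) - l'))⁻¹| * ∫⁻ z, H z) := by
    intro x
    rw [lintegral_const_mul _ (by fun_prop), lint_scale (f := fun u => H (x + u)) (by fun_prop) hc]
    congr 2
    simp_rw [add_comm x]
    exact lint_translate H x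
  simp_rw [h2]
  rw [lintegral_mul_const _ hG]
  ring

/-- (γ) -/
lemma gammaU (Λ Λ' S : Finset ℤ) (M : ℕ) (hM : 1 ≤ M) (a a' : ℤ → ℤ → ℝ → ℂ)
    (ha : ∀ l k, MemLp (a l k) 2 mu1) (ha' : ∀ l k, MemLp (a' l k) 2 mu1)
    (hΛ : ∀ l ∈ Λ, |l| ≤ 4 * M) (hΛ' : ∀ l ∈ Λ', |l| ≤ 4 * M)
    (hd : ∀ l ∈ Λ, ∀ l' ∈ Λ', (M : ℤ) ≤ l' - l) :
    ∫⁻ t0, ∫⁻ x0, musq Λ S M a t0 x0 * musq Λ' S M a' t0 x0
      ≤ (1 / (M : ℝ≥0∞)) * ((BB * ENNReal.ofReal (2 * Real.pi)) ^ 2 * (ms Λ S a * ms Λ' S a')) := by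
  have hMr : (0:ℝ) < M := by exact_mod_cast hM
  have hg := fun l => measurable_gM S M a ha l
  have hg' := fun l => measurable_gM S M a' ha' l
  have h1 : ∫⁻ t0, ∫⁻ x0, musq Λ S M a t0 x0 * musq Λ' S M a' t0 x0
      = ∑ l ∈ Λ, ∑ l' ∈ Λ', ∫⁻ t0, ∫⁻ x0, gM S M a l (x0 - 2 * l * t0) *
        gM S M a' l' (x0 - 2 * l' * t0) := by
    have e1 : ∀ t0 x0 : ℝ, musq Λ S M a t0 x0 * musq Λ' S M a' t0 x0
        = ∑ l ∈ Λ, ∑ l' ∈ Λ', gM S M a l (x0 - 2 * l * t0) * gM S M a' l' (x0 - 2 * l' * t0) := by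
      intro t0 x0
      unfold musq
      rw [Finset.sum_mul_sum]
    simp_rw [e1]
    have m1 : ∀ l l' : ℤ, Measurable (fun p : ℝ × ℝ => gM S M a l (p.2 - 2 * l * p.1) *
        gM S M a' l' (p.2 - 2 * l' * p.1)) := by
      intro l l'
      exact ((hg l).comp (by fun_prop)).mul ((hg' l').comp (by fun_prop))
    have m2 : ∀ (l l' : ℤ) (t0 : ℝ), Measurable (fun x0 : ℝ => gM S M a l (x0 - 2 * l * t0) *
        gM S M a' l' (x0 - 2 * l' * t0)) := by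
      intro l l' t0
      exact ((hg l).comp (by fun_prop)).mul ((hg' l').comp (by fun_prop))
    have e2 : ∀ t0 : ℝ, ∫⁻ x0, ∑ l ∈ Λ, ∑ l' ∈ Λ', gM S M a l (x0 - 2 * l * t0) *
        gM S M a' l' (x0 - 2 * l' * t0)
        = ∑ l ∈ Λ, ∑ l' ∈ Λ', ∫⁻ x0, gM S M a l (x0 - 2 * l * t0) *
        gM S M a' l' (x0 - 2 * l' * t0) := by
      intro t0
      rw [lintegral_finsetSum _ (fun l _ => Finset.measurable_fun_sum _ fun l' _ => m2 l l' t0)]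
      refine Finset.sum_congr rfl fun l _ => ?_
      rw [lintegral_finsetSum _ (fun l' _ => m2 l l' t0)]
    simp_rw [e2]
    rw [lintegral_finsetSum _ (fun l _ => Finset.measurable_fun_sum _ fun l' _ =>
        (m1 l l').lintegral_prod_right')]
    refine Finset.sum_congr rfl fun l _ => ?_
    rw [lintegral_finsetSum _ (fun l' _ => (m1 l l').lintegral_prod_right')]
  rw [h1]
  have h2 : ∀ l ∈ Λ, ∀ l' ∈ Λ', ∫⁻ t0, ∫⁻ x0, gM S M a l (x0 - 2 * l * t0) *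
        gM S M a' l' (x0 - 2 * l' * t0) ≤ (1 / (M : ℝ≥0∞)) *
        ((BB * (ENNReal.ofReal (2 * Real.pi) * ∑ k ∈ S, ∫⁻ θ, ‖a l k θ‖ₑ ^ 2 ∂mu1)) *
        (BB * (ENNReal.ofReal (2 * Real.pi) * ∑ k ∈ S, ∫⁻ θ, ‖a' l' k θ‖ₑ ^ 2 ∂mu1))) := by
    intro l hl l' hl'
    have hdl := hd l hl l' hl'
    have hdr : (M:ℝ) ≤ (l':ℝ) - l := by exact_mod_cast hdl
    rw [transversal (hg l) (hg' l') l l' (by
      intro h; subst h
      have : (M:ℤ) ≤ 0 := by simpa using hdl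
      omega)]
    gcongr ?_ * (?_ * ?_)
    · rw [one_div, ← ENNReal.ofReal_natCast, ← ENNReal.ofReal_inv_of_pos hMr]
      apply ENNReal.ofReal_le_ofReal
      rw [abs_inv]
      apply inv_anti₀ hMr
      rw [abs_mul, abs_two, abs_sub_comm, abs_of_nonneg (by linarith)]
      linarith
    · exact lint_gM S M hM a ha l (hΛ l hl)
    · exact lint_gM S M hM a' ha' l' (hΛ' l' hl')
  refine (Finset.sum_le_sum fun l hl => Finset.sum_le_sum fun l' hl' => h2 l hl l' hl').trans_eq ?_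
  simp_rw [← Finset.mul_sum]
  rw [← Finset.sum_mul]
  unfold ms
  rw [← Finset.mul_sum, ← Finset.mul_sum]
  ring

end Pool.Agent.E8helper95
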