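import Pool.Agent.E8helper95.F6

/-!
The bilinear estimate for the model operator.
-/

set_option autoImplicit false

namespace Pool.Agent.E8helper95

open MeasureTheory Complex Set Finset
open scoped ENNReal ComplexConjugate Nat

lemma DD_neg (L : ℕ) (t : ℝ) : DD L (-t) = conj (DD L t) := by
  unfold DD
  rw [map_sum]
  refine Finset.sum_congr rfl fun h _ => ?_
  rw [map_mul, ← ee_neg]
  congr 1
  · simp
  · congr 1; ring

lemma enorm_DD_sub (L : ℕ) (s t : ℝ) : ‖DD L (s - t)‖ₑ = ‖DD L (t - s)‖ₑ := by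
  rw [show s - t = -(t - s) by ring, DD_neg]
  exact RCLike.enorm_conj _

lemma DD_mass_shift (L : ℕ) (hL : 1 ≤ L) (c : ℝ) :
    ∫⁻ t in Set.Ioc 0 (2 * Real.pi), ‖DD L (t - c)‖ₑ ^ 2 = ENNReal.ofReal (2 * Real.pi) / L := by
  have := lint_period (f := fun t => DD L t) (by fun_prop) (DD_periodic L) (-c) 2
  rw [← DD_mass L hL, ← this]
  rw [← lint_period (f := fun t => DD L (t - c)) (by fun_prop) (fun t => by
    rw [show t + 2 * Real.pi - c = (t - c) + 2 * Real.pi by ring, DD_periodic]) 0 2,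
    ← lint_shift, ← lint_shift]
  refine lintegral_congr fun r => ?_
  rw [show (0:ℝ) + r - c = -c + r by ring]

lemma lint_multi {f : ℝ → ℂ} (hf : Continuous f) (hper : ∀ t, f (t + 2 * Real.pi) = f t)
    (a : ℝ) (n m : ℕ) :
    ∫⁻ t in Set.Ioc a (a + n * (2 * Real.pi)), ‖f t‖ₑ ^ m
      ≤ n * ∫⁻ t in Set.Ioc 0 (2 * Real.pi), ‖f t‖ₑ ^ m := by
  induction n with
  | zero => simp
  | succ n ih =>
    have hsub : Set.Ioc a (a + (n + 1 : ℕ) * (2 * Real.pi)) ⊆ Set.Ioc a (a + n * (2 * Real.pi)) ∪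
        Set.Ioc (a + n * (2 * Real.pi)) (a + n * (2 * Real.pi) + 2 * Real.pi) := by
      intro t ht
      by_cases h : t ≤ a + n * (2 * Real.pi)
      · exact Or.inl ⟨ht.1, h⟩
      · right
        refine ⟨not_le.1 h, ?_⟩
        have := ht.2
        push_cast at this
        linarith
    calc _ ≤ ∫⁻ t in Set.Ioc a (a + n * (2 * Real.pi)) ∪
        Set.Ioc (a + n * (2 * Real.pi)) (a + n * (2 * Real.pi) + 2 * Real.pi), ‖f t‖ₑ ^ m :=
          lintegral_mono_set hsub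
      _ ≤ _ := lintegral_union_le _ _ _
      _ ≤ n * (∫⁻ t in Set.Ioc 0 (2 * Real.pi), ‖f t‖ₑ ^ m) +
          ∫⁻ t in Set.Ioc 0 (2 * Real.pi), ‖f t‖ₑ ^ m :=
          add_le_add ih (lint_period hf hper _ m).le
      _ = _ := by push_cast; ring

/-- `[-T,T]` is covered by `n` periods -/
lemma lint_cover {f : ℝ → ℂ} (hf : Continuous f) (hper : ∀ t, f (t + 2 * Real.pi) = f t)
    (T : ℝ) (n m : ℕ) (hn : 2 * T ≤ n * (2 * Real.pi)) :
    ∫⁻ t in Set.Ioc (-T) T, ‖f t‖ₑ ^ m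
      ≤ n * ∫⁻ t in Set.Ioc 0 (2 * Real.pi), ‖f t‖ₑ ^ m := by
  refine le_trans (lintegral_mono_set ?_) (lint_multi hf hper (-T) n m)
  intro t ht
  exact ⟨ht.1, ht.2.trans (by linarith)⟩

lemma DD_avg (M : ℕ) (hM : 1 ≤ M) (T : ℝ) (n : ℕ) (hn : 2 * T ≤ n * (2 * Real.pi)) (t : ℝ) :
    ∫⁻ t0 in Set.Ioc (-T) T, ‖DD M (t - t0)‖ₑ ^ 2 ≤ n * (ENNReal.ofReal (2 * Real.pi) / M) := by
  simp_rw [enorm_DD_sub M t]
  refine (lint_cover (f := fun t0 => DD M (t0 - t)) (by fun_prop) (fun t0 => by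
    rw [show t0 + 2 * Real.pi - t = (t0 - t) + 2 * Real.pi by ring, DD_periodic]) T n 2 hn).trans_eq ?_
  rw [DD_mass_shift M hM]

/-- the `L⁴` hypothesis on the set of frequencies -/
def L4 (S : Finset ℤ) (ω : ℤ → ℤ) (A : ℝ≥0∞) : Prop :=
  ∀ c : ℤ → ℂ, ∫⁻ t in Set.Ioc 0 (2 * Real.pi), ‖al S ω c t‖ₑ ^ 4 ≤ A * (∑ k ∈ S, ‖c k‖ₑ ^ 2) ^ 2

/-- (δ) -/
lemma deltaU (Λ S : Finset ℤ) (ω : ℤ → ℤ) (A : ℝ≥0∞) (hA : L4 S ω A) (M : ℕ) (hM : 1 ≤ M)
    (a : ℤ → ℤ → ℝ → ℂ) (ha : ∀ l k, MemLp (a l k) 2 mu1) (hΛ : ∀ l ∈ Λ, |l| ≤ 4 * M)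
    (T : ℝ) (n : ℕ) (hn : 2 * T ≤ n * (2 * Real.pi)) :
    ∫⁻ t0 in Set.Ioc (-T) T, ∫⁻ x0, QQ Λ S ω M a t0 x0
      ≤ (1 / (M : ℝ≥0∞)) * A * (BB * n * ENNReal.ofReal (2 * Real.pi) ^ 2 * ms Λ S a) := by
  have hQm := fun ν l => measurable_QA S ω M a ha ν l
  have hQd := fun ν l => measurable_QAd S ω M a ha ν l
  have hmm := fun ν l => measurable_mm S M a ha ν l
  have h1 : ∫⁻ t0 in Set.Ioc (-T) T, ∫⁻ x0, QQ Λ S ω M a t0 x0
      = ∑' ν, wt ν * ∑ l ∈ Λ, ∫⁻ t0 in Set.Ioc (-T) T, ∫⁻ x0,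
        QA S ω M a ν l t0 (x0 - 2 * l * t0) / mm S M a ν l (x0 - 2 * l * t0) := by
    unfold QQ
    have m0 : ∀ ν (l : ℤ) (t0 : ℝ), Measurable fun x0 : ℝ =>
        QA S ω M a ν l t0 (x0 - 2 * l * t0) / mm S M a ν l (x0 - 2 * l * t0) := fun ν l t0 =>
      ((hQm ν l).comp (g := fun p : ℝ × ℝ => QA S ω M a ν l p.1 p.2)
        (f := fun x0 : ℝ => (t0, x0 - 2 * l * t0)) (by fun_prop)).div
        ((hmm ν l).comp (by fun_prop))
    have m1 : ∀ ν (t0 : ℝ), Measurable fun x0 : ℝ => ∑ l ∈ Λ,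
        QA S ω M a ν l t0 (x0 - 2 * l * t0) / mm S M a ν l (x0 - 2 * l * t0) := fun ν t0 =>
      Finset.measurable_fun_sum _ fun l _ => m0 ν l t0
    have m2 : ∀ ν l, Measurable fun t0 : ℝ => ∫⁻ x0,
        QA S ω M a ν l t0 (x0 - 2 * l * t0) / mm S M a ν l (x0 - 2 * l * t0) := fun ν l =>
      (hQd ν l).lintegral_prod_right'
    have e1 : ∀ t0 : ℝ, ∫⁻ x0, ∑' ν, wt ν * ∑ l ∈ Λ,
        QA S ω M a ν l t0 (x0 - 2 * l * t0) / mm S M a ν l (x0 - 2 * l * t0)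
        = ∑' ν, wt ν * ∑ l ∈ Λ, ∫⁻ x0,
        QA S ω M a ν l t0 (x0 - 2 * l * t0) / mm S M a ν l (x0 - 2 * l * t0) := by
      intro t0
      rw [lintegral_tsum (fun ν => ((m1 ν t0).const_mul _).aemeasurable)]
      refine tsum_congr fun ν => ?_
      rw [lintegral_const_mul _ (m1 ν t0), lintegral_finsetSum _ (fun l _ => m0 ν l t0)]
    simp_rw [e1]
    rw [lintegral_tsum (fun ν => ((Finset.measurable_fun_sum _ fun l _ => m2 ν l).const_mul _).aemeasurable)]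
    refine tsum_congr fun ν => ?_
    rw [lintegral_const_mul _ (Finset.measurable_fun_sum _ fun l _ => m2 ν l),
      lintegral_finsetSum _ (fun l _ => m2 ν l)]
  rw [h1]
  have h2 : ∀ ν, ∀ l ∈ Λ, ∫⁻ t0 in Set.Ioc (-T) T, ∫⁻ x0,
        QA S ω M a ν l t0 (x0 - 2 * l * t0) / mm S M a ν l (x0 - 2 * l * t0)
      ≤ (n * (ENNReal.ofReal (2 * Real.pi) / M)) * A *
        (ENNReal.ofReal (2 * Real.pi) * ∑ k ∈ S, ∫⁻ θ, ‖a l k θ‖ₑ ^ 2 ∂mu1) := by
    intro ν l hl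
    have e1 : ∀ t0 : ℝ, ∫⁻ x0, QA S ω M a ν l t0 (x0 - 2 * l * t0) / mm S M a ν l (x0 - 2 * l * t0)
        = ∫⁻ z, QA S ω M a ν l t0 z / mm S M a ν l z := by
      intro t0
      exact lintegral_sub_right_eq_self (fun z => QA S ω M a ν l t0 z / mm S M a ν l z) _
    simp_rw [e1]
    rw [lintegral_lintegral_swap]
    swap
    · apply Measurable.aemeasurable
      exact (hQm ν l).div ((hmm ν l).comp measurable_snd)
    have e2 : ∀ z : ℝ, ∫⁻ t0 in Set.Ioc (-T) T, QA S ω M a ν l t0 z / mm S M a ν l z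
        ≤ (n * (ENNReal.ofReal (2 * Real.pi) / M)) * A * mm S M a ν l z := by
      intro z
      have e4 : ∀ t0 : ℝ, QA S ω M a ν l t0 z / mm S M a ν l z
          = QA S ω M a ν l t0 z * (mm S M a ν l z)⁻¹ := fun _ => div_eq_mul_inv _ _
      have hz0 : Measurable (fun t0 : ℝ => QA S ω M a ν l t0 z) :=
        (hQm ν l).comp (g := fun p : ℝ × ℝ => QA S ω M a ν l p.1 p.2)
        (f := fun t0 : ℝ => (t0, z)) (by fun_prop)
      simp_rw [e4]
      rw [lintegral_mul_const _ hz0]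
      by_cases hz : mm S M a ν l z = 0
      · have : ∀ t0 : ℝ, QA S ω M a ν l t0 z = 0 := fun t0 => QA_eq_zero S ω M a ν l t0 z hz
        simp [this]
      have e3 : ∫⁻ t0 in Set.Ioc (-T) T, QA S ω M a ν l t0 z
          ≤ (n * (ENNReal.ofReal (2 * Real.pi) / M)) * (A * (mm S M a ν l z) ^ 2) := by
        unfold QA
        rw [lintegral_lintegral_swap (by fun_prop)]
        calc ∫⁻ t in Set.Ioc 0 (2 * Real.pi), ∫⁻ t0 in Set.Ioc (-T) T,
              ‖DD M (t - t0)‖ₑ ^ 2 * ‖al S ω (fun k => cc M a ν l k z) t‖ₑ ^ 4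
            ≤ ∫⁻ t in Set.Ioc 0 (2 * Real.pi), (n * (ENNReal.ofReal (2 * Real.pi) / M)) *
              ‖al S ω (fun k => cc M a ν l k z) t‖ₑ ^ 4 := by
              apply lintegral_mono
              intro t
              simp only
              rw [lintegral_mul_const _ (by fun_prop)]
              gcongr
              exact DD_avg M hM T n hn t
          _ = (n * (ENNReal.ofReal (2 * Real.pi) / M)) * ∫⁻ t in Set.Ioc 0 (2 * Real.pi),
              ‖al S ω (fun k => cc M a ν l k z) t‖ₑ ^ 4 := by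
              rw [lintegral_const_mul _ (by fun_prop)]
          _ ≤ _ := by
              gcongr
              exact hA _
      calc (∫⁻ t0 in Set.Ioc (-T) T, QA S ω M a ν l t0 z) * (mm S M a ν l z)⁻¹
          ≤ ((n * (ENNReal.ofReal (2 * Real.pi) / M)) * (A * (mm S M a ν l z) ^ 2)) *
            (mm S M a ν l z)⁻¹ := by gcongr
        _ = (n * (ENNReal.ofReal (2 * Real.pi) / M)) * A * mm S M a ν l z *
            (mm S M a ν l z * (mm S M a ν l z)⁻¹) := by ring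
        _ = _ := by
            rw [ENNReal.mul_inv_cancel hz (mm_ne_top S M a ν l z), mul_one]
    refine (lintegral_mono e2).trans ?_
    rw [lintegral_const_mul _ (hmm ν l)]
    gcongr
    exact lint_mm S M hM a ha ν l (hΛ l hl)
  calc _ ≤ ∑' ν, wt ν * ∑ l ∈ Λ, (n * (ENNReal.ofReal (2 * Real.pi) / M)) * A *
        (ENNReal.ofReal (2 * Real.pi) * ∑ k ∈ S, ∫⁻ θ, ‖a l k θ‖ₑ ^ 2 ∂mu1) := by
        gcongr with ν l hl
        exact h2 ν l hl
    _ = _ := by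
        rw [ENNReal.tsum_mul_right]
        unfold ms BB
        rw [← Finset.mul_sum, ← Finset.mul_sum, div_eq_mul_inv, one_div]
        ring

end Pool.Agent.E8helper95
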