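import Pool.Agent.E8helper95.F7

/-!
The bilinear estimate for the model operator: assembly.
-/

set_option autoImplicit false

namespace Pool.Agent.E8helper95

open MeasureTheory Complex Set Finset
open scoped ENNReal ComplexConjugate Nat

/-- square root in `[0,∞]` -/
noncomputable def sr (x : ℝ≥0∞) : ℝ≥0∞ := x ^ (1 / 2 : ℝ)

lemma sr_mul (x y : ℝ≥0∞) : sr (x * y) = sr x * sr y :=
  ENNReal.mul_rpow_of_nonneg _ _ (by norm_num)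

lemma sr_mul_self (x : ℝ≥0∞) : sr x * sr x = x := by
  rw [← sq]; exact sqrt_sq x

lemma sr_sq (x : ℝ≥0∞) : sr (x ^ 2) = x := by
  rw [sq, sr_mul, sr_mul_self]

@[gcongr]
lemma sr_mono {x y : ℝ≥0∞} (h : x ≤ y) : sr x ≤ sr y := ENNReal.rpow_le_rpow h (by norm_num)

lemma sr_le_of_sq_le {x y : ℝ≥0∞} (h : x ^ 2 ≤ y) : x ≤ sr y := by
  rw [← sr_sq x]; exact sr_mono h

lemma sr_ne_top {x : ℝ≥0∞} (h : x ≠ ⊤) : sr x ≠ ⊤ := ENNReal.rpow_ne_top_of_nonneg (by norm_num) h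

@[fun_prop]
lemma measurable_sr : Measurable sr := by
  unfold sr; fun_prop

lemma CSs {α : Type*} [MeasurableSpace α] (μ : Measure α) {f g : α → ℝ≥0∞}
    (hf : AEMeasurable f μ) (hg : AEMeasurable g μ) :
    ∫⁻ a, sr (f a) * sr (g a) ∂μ ≤ sr (∫⁻ a, f a ∂μ) * sr (∫⁻ a, g a ∂μ) := CSL' μ hf hg

lemma sr_sr (x : ℝ≥0∞) : sr x * sr (sr x) = x ^ (3 / 4 : ℝ) := by
  unfold sr
  rw [← ENNReal.rpow_mul]
  rw [← ENNReal.rpow_add_of_nonneg _ _ (by norm_num) (by norm_num)]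
  norm_num

lemma rpow_three_half (x : ℝ≥0∞) : x ^ (3 / 2 : ℝ) = sr x * sr (x ^ 2) := by
  rw [sr_sq]
  unfold sr
  nth_rewrite 3 [← ENNReal.rpow_one x]
  rw [← ENNReal.rpow_add_of_nonneg _ _ (by norm_num) (by norm_num)]
  norm_num

/-- constant of the bilinear estimate -/
noncomputable def CB (n : ℕ) : ℝ≥0∞ :=
  sr (16 * BB ^ 3 * ENNReal.ofReal (2 * Real.pi) ^ 3) * BB *
    sr (BB * n * ENNReal.ofReal (2 * Real.pi) ^ 2)

lemma CB_ne_top (n : ℕ) : CB n ≠ ⊤ := by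
  unfold CB
  have h1 := BB_ne_top
  have h2 : ENNReal.ofReal (2 * Real.pi) ≠ ⊤ := ENNReal.ofReal_ne_top
  have h3 : (n : ℝ≥0∞) ≠ ⊤ := ENNReal.natCast_ne_top n
  apply ENNReal.mul_ne_top (ENNReal.mul_ne_top (sr_ne_top _) h1) (sr_ne_top _)
  · exact ENNReal.mul_ne_top (ENNReal.mul_ne_top (by norm_num) (ENNReal.pow_ne_top h1))
      (ENNReal.pow_ne_top h2)
  · exact ENNReal.mul_ne_top (ENNReal.mul_ne_top h1 h3) (ENNReal.pow_ne_top h2)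

lemma volume_RR (M : ℕ) (hM : 1 ≤ M) :
    volume (RR M) = 1 / (M : ℝ≥0∞) * ENNReal.ofReal (2 * Real.pi) := by
  have hMr : (0:ℝ) < M := by exact_mod_cast hM
  unfold RR
  rw [Measure.volume_eq_prod, Measure.prod_prod, Real.volume_Ioc, Real.volume_Ioc, sub_zero, sub_zero]
  congr 1
  rw [one_div, one_div, ENNReal.ofReal_inv_of_pos hMr, ENNReal.ofReal_natCast]

/-- averaging over positions -/
lemma average {F : ℝ × ℝ → ℝ≥0∞} (hF : Measurable F) (M : ℕ) (hM : 1 ≤ M) (T : ℝ) :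
    (1 / (M : ℝ≥0∞) * ENNReal.ofReal (2 * Real.pi)) * (∫⁻ t in Set.Ioc (-T) T, ∫⁻ x, F (t, x))
      ≤ ∫⁻ q : ℝ × ℝ, (∫⁻ p in RR M, F (q.1 + p.1, q.2 + p.2))
        ∂((volume.restrict (Set.Ioc (-(T + 1)) (T + 1))).prod volume) := by
  have hMr : (0:ℝ) < M := by exact_mod_cast hM
  have hM1 : (1:ℝ) ≤ M := by exact_mod_cast hM
  have hsw : ∫⁻ q : ℝ × ℝ, (∫⁻ p in RR M, F (q.1 + p.1, q.2 + p.2))
        ∂((volume.restrict (Set.Ioc (-(T + 1)) (T + 1))).prod volume)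
      = ∫⁻ p in RR M, (∫⁻ q : ℝ × ℝ, F (q.1 + p.1, q.2 + p.2)
        ∂((volume.restrict (Set.Ioc (-(T + 1)) (T + 1))).prod volume)) := by
    apply lintegral_lintegral_swap
    apply Measurable.aemeasurable
    exact hF.comp (by fun_prop)
  rw [hsw]
  have h1 : ∀ p ∈ RR M, ∫⁻ t in Set.Ioc (-T) T, ∫⁻ x, F (t, x) ≤
      ∫⁻ q : ℝ × ℝ, F (q.1 + p.1, q.2 + p.2) ∂((volume.restrict (Set.Ioc (-(T + 1)) (T + 1))).prod volume) := by
    intro p hp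
    have hm : Measurable fun q : ℝ × ℝ => F (q.1 + p.1, q.2 + p.2) := hF.comp (by fun_prop)
    rw [lintegral_prod _ hm.aemeasurable]
    simp only
    have e1 : ∀ t0 : ℝ, ∫⁻ x0, F (t0 + p.1, x0 + p.2) = ∫⁻ x, F (t0 + p.1, x) := fun t0 =>
      lint_translate (fun x => F (t0 + p.1, x)) p.2
    simp_rw [e1]
    have h := (measurePreserving_add_right (volume : Measure ℝ) p.1).setLIntegral_comp_preimage_emb
      (Homeomorph.addRight p.1).measurableEmbedding (fun t => ∫⁻ x, F (t, x))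
      (Set.Ioc (-(T + 1) + p.1) (T + 1 + p.1))
    have e2 : (fun x : ℝ => x + p.1) ⁻¹' (Set.Ioc (-(T + 1) + p.1) (T + 1 + p.1))
        = Set.Ioc (-(T + 1)) (T + 1) := by
      ext r; simp [Set.mem_Ioc]
    rw [e2] at h
    rw [h]
    apply lintegral_mono_set
    intro t ht
    have h2 := hp.1.1
    have h3 : p.1 ≤ 1 := hp.1.2.trans (by rw [div_le_one hMr]; exact hM1)
    constructor
    · have := ht.1; linarith
    · have := ht.2; linarith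
  calc (1 / (M : ℝ≥0∞) * ENNReal.ofReal (2 * Real.pi)) * (∫⁻ t in Set.Ioc (-T) T, ∫⁻ x, F (t, x))
      = ∫⁻ _p in RR M, (∫⁻ t in Set.Ioc (-T) T, ∫⁻ x, F (t, x)) := by
        rw [setLIntegral_const, volume_RR M hM, mul_comm]
    _ ≤ _ := setLIntegral_mono' (measurableSet_RR M) h1

/-- the bilinear estimate -/
theorem BLcore (Λ Λ' S : Finset ℤ) (ω : ℤ → ℤ) (A : ℝ≥0∞) (hA : L4 S ω A) (M : ℕ) (hM : 1 ≤ M)
    (L : ℕ) (hL : 1 ≤ L) (hLM : L ≤ M)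
    (hgap : ∀ k ∈ S, ∀ k' ∈ S, k ≠ k' → (L : ℤ) ≤ |ω k - ω k'|)
    (a a' : ℤ → ℤ → ℝ → ℂ)
    (ha : ∀ l k, MemLp (a l k) 2 mu1) (ha' : ∀ l k, MemLp (a' l k) 2 mu1)
    (hΛ : ∀ l ∈ Λ, |l| ≤ 4 * M) (hΛ' : ∀ l ∈ Λ', |l| ≤ 4 * M)
    (hd : ∀ l ∈ Λ, ∀ l' ∈ Λ', (M : ℤ) ≤ l' - l)
    (Ω : ℕ) (cl : ℤ → ℕ) (hcl : ∀ l ∈ Λ, cl l < Ω)
    (hsep : ∀ l ∈ Λ, ∀ l' ∈ Λ', ∀ m ∈ Λ, ∀ m' ∈ Λ', l + l' = m + m' → l ≠ m → cl l = cl m →
      ∀ k1 ∈ S, ∀ k2 ∈ S, ∀ k3 ∈ S, ∀ k4 ∈ S, ∀ h h' : ℕ, h < M → h' < M →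
        (h : ℤ) - ω k1 - ω k2 - (l ^ 2 + l' ^ 2) ≠ (h' : ℤ) - ω k3 - ω k4 - (m ^ 2 + m' ^ 2))
    (T : ℝ) (n : ℕ) (hn : 2 * (T + 1) ≤ n * (2 * Real.pi)) :
    ∫⁻ t in Set.Ioc (-T) T, ∫⁻ x, (‖UU Λ S ω a t x‖ₑ * ‖UU Λ' S ω a' t x‖ₑ) ^ (3 / 2 : ℝ)
      ≤ CB n * sr (Ω / L * A) * (ms Λ S a * ms Λ' S a') ^ (3 / 4 : ℝ) := by
  have hMr : (0:ℝ) < M := by exact_mod_cast hM
  set P : ℝ≥0∞ := ENNReal.ofReal (2 * Real.pi) with hP
  have hP0 : P ≠ 0 := by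
    rw [hP]; simp [Real.pi_pos]
  have hPt : P ≠ ⊤ := ENNReal.ofReal_ne_top
  set X : Measure (ℝ × ℝ) := (volume.restrict (Set.Ioc (-(T + 1)) (T + 1))).prod volume with hX
  set G : ℝ × ℝ → ℝ≥0∞ := fun p => ‖UU Λ S ω a p.1 p.2‖ₑ * ‖UU Λ' S ω a' p.1 p.2‖ₑ with hG
  have hU := measurable_UU Λ S ω a ha
  have hU' := measurable_UU Λ' S ω a' ha'
  have hGm : Measurable G := hU.enorm.mul hU'.enorm
  set c1 : ℝ≥0∞ := BB * (P * (4 * (P / L))) with hc1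
  set c2 : ℝ≥0∞ := BB * BB * (P * 4 * Ω) with hc2
  -- local estimate
  have hloc : ∀ q : ℝ × ℝ, ∫⁻ p in RR M, (G (q.1 + p.1, q.2 + p.2)) ^ (3 / 2 : ℝ)
      ≤ sr (c1 * c2) * (sr (musq Λ S M a q.1 q.2 * musq Λ' S M a' q.1 q.2) *
        sr (sr (QQ Λ S ω M a q.1 q.2) * sr (QQ Λ' S ω M a' q.1 q.2))) := by
    intro q
    obtain ⟨t0, x0⟩ := q
    simp only
    set a1 := musq Λ S M a t0 x0
    set a2 := musq Λ' S M a' t0 x0
    set b1 := QQ Λ S ω M a t0 x0 with hb1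
    set b2 := QQ Λ' S ω M a' t0 x0 with hb2
    have hUs : Measurable fun p : ℝ × ℝ => ‖UU Λ S ω a (t0 + p.1) (x0 + p.2)‖ₑ :=
      (hU.comp (g := fun p : ℝ × ℝ => UU Λ S ω a p.1 p.2)
        (f := fun p : ℝ × ℝ => (t0 + p.1, x0 + p.2)) (by fun_prop)).enorm
    have hUs' : Measurable fun p : ℝ × ℝ => ‖UU Λ' S ω a' (t0 + p.1) (x0 + p.2)‖ₑ :=
      (hU'.comp (g := fun p : ℝ × ℝ => UU Λ' S ω a' p.1 p.2)
        (f := fun p : ℝ × ℝ => (t0 + p.1, x0 + p.2)) (by fun_prop)).enorm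
    have hGs : Measurable fun p : ℝ × ℝ => G (t0 + p.1, x0 + p.2) := hUs.mul hUs'
    have h1 : ∫⁻ p in RR M, G (t0 + p.1, x0 + p.2) ≤ c1 * (sr a1 * sr a2) := by
      have h := CSs (volume.restrict (RR M))
        (f := fun p : ℝ × ℝ => ‖UU Λ S ω a (t0 + p.1) (x0 + p.2)‖ₑ ^ 2)
        (g := fun p : ℝ × ℝ => ‖UU Λ' S ω a' (t0 + p.1) (x0 + p.2)‖ₑ ^ 2)
        (hUs.pow_const 2).aemeasurable (hUs'.pow_const 2).aemeasurable
      simp_rw [sr_sq] at h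
      refine h.trans ?_
      have i1 := sr_mono (alphaU Λ S ω a ha M hM L hL hLM hgap t0 x0)
      have i2 := sr_mono (alphaU Λ' S ω a' ha' M hM L hL hLM hgap t0 x0)
      calc _ ≤ sr (c1 * a1) * sr (c1 * a2) := by
            refine mul_le_mul' (i1.trans_eq ?_) (i2.trans_eq ?_)
            · rw [← mul_assoc]
            · rw [← mul_assoc]
        _ = _ := by
            rw [sr_mul c1 a1, sr_mul c1 a2]
            calc sr c1 * sr a1 * (sr c1 * sr a2) = (sr c1 * sr c1) * (sr a1 * sr a2) := by ring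
              _ = _ := by rw [sr_mul_self]
    have h2 : ∫⁻ p in RR M, G (t0 + p.1, x0 + p.2) ^ 2 ≤ c2 * (sr (a1 * b1) * sr (a2 * b2)) := by
      refine (betaU Λ Λ' S ω a a' ha ha' M hM Ω cl hcl hsep t0 x0).trans ?_
      rw [hc2]
      gcongr
      · exact sr_le_of_sq_le (aL_sq_le Λ S ω M a t0 x0)
      · exact sr_le_of_sq_le (aL_sq_le Λ' S ω M a' t0 x0)
    have h3 : ∫⁻ p in RR M, (G (t0 + p.1, x0 + p.2)) ^ (3 / 2 : ℝ)
        ≤ sr (∫⁻ p in RR M, G (t0 + p.1, x0 + p.2)) * sr (∫⁻ p in RR M, G (t0 + p.1, x0 + p.2) ^ 2) := by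
      simp_rw [rpow_three_half]
      exact CSs _ hGs.aemeasurable (hGs.pow_const 2).aemeasurable
    calc _ ≤ sr (c1 * (sr a1 * sr a2)) * sr (c2 * (sr (a1 * b1) * sr (a2 * b2))) :=
          h3.trans (mul_le_mul' (sr_mono h1) (sr_mono h2))
      _ = sr ((c1 * c2) * ((a1 * a2) * (sr b1 * sr b2))) := by
          rw [← sr_mul]
          congr 1
          rw [sr_mul a1, sr_mul a2]
          calc c1 * (sr a1 * sr a2) * (c2 * (sr a1 * sr b1 * (sr a2 * sr b2)))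
              = (c1 * c2) * (((sr a1 * sr a1) * (sr a2 * sr a2)) * (sr b1 * sr b2)) := by ring
            _ = _ := by rw [sr_mul_self, sr_mul_self]
      _ = _ := by rw [sr_mul (c1 * c2), sr_mul (a1 * a2)]
  -- average
  have havg := average (F := fun p => G p ^ (3 / 2 : ℝ)) (hGm.pow_const _) M hM T
  rw [← hX, ← hP] at havg
  have hm1 := measurable_musq Λ S M a ha
  have hm2 := measurable_musq Λ' S M a' ha'
  have hq1 := measurable_QQ Λ S ω M a ha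
  have hq2 := measurable_QQ Λ' S ω M a' ha'
  have hstep : ∫⁻ q : ℝ × ℝ, (∫⁻ p in RR M, (G (q.1 + p.1, q.2 + p.2)) ^ (3 / 2 : ℝ)) ∂X
      ≤ sr (c1 * c2) * (sr (∫⁻ q : ℝ × ℝ, musq Λ S M a q.1 q.2 * musq Λ' S M a' q.1 q.2 ∂X) *
        sr (sr (∫⁻ q : ℝ × ℝ, QQ Λ S ω M a q.1 q.2 ∂X) * sr (∫⁻ q : ℝ × ℝ, QQ Λ' S ω M a' q.1 q.2 ∂X))) := by
    refine (lintegral_mono hloc).trans ?_
    rw [lintegral_const_mul _ (by fun_prop)]
    refine mul_le_mul' le_rfl ?_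
    refine (CSs X (f := fun q : ℝ × ℝ => musq Λ S M a q.1 q.2 * musq Λ' S M a' q.1 q.2)
      (g := fun q : ℝ × ℝ => sr (QQ Λ S ω M a q.1 q.2) * sr (QQ Λ' S ω M a' q.1 q.2))
      (by fun_prop) (by fun_prop)).trans ?_
    refine mul_le_mul' le_rfl ?_
    apply sr_mono
    exact CSs X hq1.aemeasurable hq2.aemeasurable
  have hγ : ∫⁻ q : ℝ × ℝ, musq Λ S M a q.1 q.2 * musq Λ' S M a' q.1 q.2 ∂X
      ≤ (1 / (M : ℝ≥0∞)) * ((BB * P) ^ 2 * (ms Λ S a * ms Λ' S a')) := by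
    rw [hX, lintegral_prod _ (by fun_prop)]
    refine le_trans ?_ (gammaU Λ Λ' S M hM a a' ha ha' hΛ hΛ' hd)
    exact setLIntegral_le_lintegral _ _
  have hδ : ∀ (Λ0 : Finset ℤ) (a0 : ℤ → ℤ → ℝ → ℂ), (∀ l k, MemLp (a0 l k) 2 mu1) →
      (∀ l ∈ Λ0, |l| ≤ 4 * M) → ∫⁻ q : ℝ × ℝ, QQ Λ0 S ω M a0 q.1 q.2 ∂X
        ≤ (1 / (M : ℝ≥0∞)) * A * (BB * n * P ^ 2 * ms Λ0 S a0) := by
    intro Λ0 a0 ha0 hΛ0
    rw [hX, lintegral_prod _ (measurable_QQ Λ0 S ω M a0 ha0).aemeasurable]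
    exact deltaU Λ0 S ω A hA M hM a0 ha0 hΛ0 (T + 1) n hn
  set m1 := ms Λ S a
  set m2 := ms Λ' S a'
  have hfin := havg.trans hstep
  have htot : (1 / (M : ℝ≥0∞) * P) * (∫⁻ t in Set.Ioc (-T) T, ∫⁻ x, G (t, x) ^ (3 / 2 : ℝ))
      ≤ (1 / (M : ℝ≥0∞) * P) * (CB n * sr (Ω / L * A) * (m1 * m2) ^ (3 / 4 : ℝ)) := by
    refine hfin.trans ?_
    have i1 := sr_mono hγ
    have i2 := sr_mono (hδ Λ a ha hΛ)
    have i3 := sr_mono (hδ Λ' a' ha' hΛ')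
    calc _ ≤ sr (c1 * c2) * (sr ((1 / (M : ℝ≥0∞)) * ((BB * P) ^ 2 * (m1 * m2))) *
          sr (sr ((1 / (M : ℝ≥0∞)) * A * (BB * n * P ^ 2 * m1)) *
            sr ((1 / (M : ℝ≥0∞)) * A * (BB * n * P ^ 2 * m2)))) := by
          gcongr
      _ = _ := by
          have e1 : sr ((1 / (M : ℝ≥0∞)) * A * (BB * n * P ^ 2 * m1)) *
              sr ((1 / (M : ℝ≥0∞)) * A * (BB * n * P ^ 2 * m2))
              = (1 / (M : ℝ≥0∞)) * A * (BB * n * P ^ 2) * sr (m1 * m2) := by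
            rw [← sr_mul]
            have : (1 / (M : ℝ≥0∞)) * A * (BB * n * P ^ 2 * m1) *
                ((1 / (M : ℝ≥0∞)) * A * (BB * n * P ^ 2 * m2))
                = ((1 / (M : ℝ≥0∞)) * A * (BB * n * P ^ 2)) ^ 2 * (m1 * m2) := by ring
            rw [this, sr_mul, sr_sq]
          rw [e1]
          have e2 : c1 * c2 = (16 * BB ^ 3 * P ^ 3) * (Ω / L) := by
            rw [hc1, hc2, div_eq_mul_inv, div_eq_mul_inv]; ring
          rw [e2]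
          unfold CB
          rw [← hP, ← sr_sr]
          simp only [sr_mul, sr_sq]
          calc _ = (sr (1 / (M : ℝ≥0∞)) * sr (1 / (M : ℝ≥0∞))) * P *
                (sr 16 * sr (BB ^ 3) * sr (P ^ 3) * BB * (sr BB * sr n * P)
                * (sr (Ω / L) * sr A) * (sr m1 * sr m2 * (sr (sr m1) * sr (sr m2)))) := by ring
            _ = _ := by rw [sr_mul_self]
  have hc0 : (1 / (M : ℝ≥0∞) * P) ≠ 0 := by
    apply mul_ne_zero _ hP0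
    rw [one_div]
    exact ENNReal.inv_ne_zero.2 (ENNReal.natCast_ne_top M)
  have hct : (1 / (M : ℝ≥0∞) * P) ≠ ⊤ := by
    apply ENNReal.mul_ne_top _ hPt
    rw [one_div, ENNReal.inv_ne_top]
    simp; omega
  exact (ENNReal.mul_le_mul_iff_right hc0 hct).1 htot

end Pool.Agent.E8helper95
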