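import Pool.Agent.E8helper95.F8

/-!
The bilinear estimate for two cells of a Whitney decomposition.
-/

set_option autoImplicit false

namespace Pool.Agent.E8helper95

open MeasureTheory Complex Set Finset
open scoped ENNReal ComplexConjugate Nat

/-- Galilean shift -/
lemma UU_shift (Λ S : Finset ℤ) (ω : ℤ → ℤ) (a : ℤ → ℤ → ℝ → ℂ) (c : ℤ) (t x : ℝ) :
    UU Λ S ω a t x = ee (c * x - (c:ℝ) ^ 2 * t) *
      UU (Λ.image (fun l => l - c)) S ω (fun l k => a (l + c) k) t (x - 2 * c * t) := by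
  unfold UU
  rw [Finset.sum_image (by intro i _ j _ h; simpa using h), Finset.mul_sum]
  refine Finset.sum_congr rfl fun l _ => ?_
  rw [← mul_assoc, ← ee_add]
  congr 1
  · congr 1
    push_cast; ring
  · congr 1
    ext k
    simp only [sub_add_cancel]
    congr 1
    push_cast; ring

lemma ms_shift (Λ S : Finset ℤ) (a : ℤ → ℤ → ℝ → ℂ) (c : ℤ) :
    ms (Λ.image (fun l => l - c)) S (fun l k => a (l + c) k) = ms Λ S a := by
  unfold ms
  rw [Finset.sum_image (by intro i _ j _ h; simpa using h)]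
  simp only [sub_add_cancel]

lemma BLpair0 (Λ Λ' S : Finset ℤ) (ω : ℤ → ℤ) (A : ℝ≥0∞) (hA : L4 S ω A) (K M : ℕ) (hK : 1 ≤ K)
    (hM : 1 ≤ M) (hgap : ∀ k ∈ S, ∀ k' ∈ S, k ≠ k' → (K : ℤ) ≤ |ω k - ω k'|)
    (hsz : M ≤ K ∨ ∀ k ∈ S, 0 ≤ ω k ∧ ω k ≤ 4 * (K:ℤ) ^ 2)
    (a a' : ℤ → ℤ → ℝ → ℂ)
    (ha : ∀ l k, MemLp (a l k) 2 mu1) (ha' : ∀ l k, MemLp (a' l k) 2 mu1)
    (hΛ : ∀ l ∈ Λ, 0 ≤ l ∧ l < M) (hΛ' : ∀ l ∈ Λ', 2 * M ≤ l ∧ l < 4 * M)
    (T : ℝ) (n : ℕ) (hn : 2 * (T + 1) ≤ n * (2 * Real.pi)) :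
    ∫⁻ t in Set.Ioc (-T) T, ∫⁻ x, (‖UU Λ S ω a t x‖ₑ * ‖UU Λ' S ω a' t x‖ₑ) ^ (3 / 2 : ℝ)
      ≤ CB n * sr (6 * A) * (ms Λ S a * ms Λ' S a') ^ (3 / 4 : ℝ) := by
  have hM0 : (0:ℤ) < M := by exact_mod_cast hM
  have hb1 : ∀ l ∈ Λ, |l| ≤ 4 * (M:ℤ) := by
    intro l hl
    have := hΛ l hl
    rw [abs_of_nonneg this.1]; linarith
  have hb2 : ∀ l ∈ Λ', |l| ≤ 4 * (M:ℤ) := by
    intro l hl
    have := hΛ' l hl
    rw [abs_of_nonneg (by linarith)]; linarith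
  have hb3 : ∀ l ∈ Λ, ∀ l' ∈ Λ', (M : ℤ) ≤ l' - l := by
    intro l hl l' hl'
    have h1 := hΛ l hl
    have h2 := hΛ' l' hl'
    linarith
  rcases le_or_gt M K with hMK | hKM
  · refine (BLcore Λ Λ' S ω A hA M hM M hM le_rfl (fun k hk k' hk' h =>
      le_trans (by exact_mod_cast hMK) (hgap k hk k' hk' h)) a a' ha ha' hb1 hb2 hb3 M
      (fun l => l.toNat) ?_ ?_ T n hn).trans ?_
    · intro l hl
      have h1 := hΛ l hl
      omega
    · intro l hl l' _ m hm m' _ _ hne hcl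
      exfalso
      have h1 := hΛ l hl
      have h2 := hΛ m hm
      omega
    · refine mul_le_mul' (mul_le_mul' le_rfl (sr_mono (mul_le_mul' ?_ le_rfl))) le_rfl
      calc (M : ℝ≥0∞) / M ≤ 1 := ENNReal.div_self_le_one
        _ ≤ 6 := by norm_num
  · have hsz' : ∀ k ∈ S, 0 ≤ ω k ∧ ω k ≤ 4 * (K:ℤ) ^ 2 := by
      rcases hsz with h | h
      · omega
      · exact h
    set Ω : ℕ := 4 * K ^ 2 / M + 2 with hΩ
    have hΩM : 4 * K ^ 2 + M < Ω * M := by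
      have h1 := Nat.lt_div_mul_add (a := 4 * K ^ 2) (b := M) (by omega)
      rw [hΩ, add_mul]
      omega
    have hΩ0 : (0:ℤ) < Ω := by rw [hΩ]; positivity
    refine (BLcore Λ Λ' S ω A hA M hM K hK hKM.le hgap a a' ha ha' hb1 hb2 hb3 Ω
      (fun l => (l % Ω).toNat) ?_ ?_ T n hn).trans ?_
    · intro l _
      have h1 := Int.emod_nonneg l hΩ0.ne'
      have h2 := Int.emod_lt_of_pos l hΩ0
      omega
    · intro l hl l' hl' m hm m' hm' hs hne hcl k1 hk1 k2 hk2 k3 hk3 k4 hk4 h h' hh hh' heq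
      have h1 := Int.emod_nonneg l hΩ0.ne'
      have h2 := Int.emod_nonneg m hΩ0.ne'
      have hmod : l % Ω = m % Ω := by omega
      have hdvd : (Ω : ℤ) ∣ l - m := Int.ModEq.dvd (Int.ModEq.symm hmod)
      have hΩle : (Ω:ℤ) ≤ |l - m| := by
        apply Int.le_of_dvd (abs_pos.2 (sub_ne_zero.2 hne))
        exact (dvd_abs _ _).2 hdvd
      have g1 := hb3 l hl l' hl'
      have g2 := hb3 m hm m' hm'
      -- the difference of the quadratic parts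
      have hdiff : (l ^ 2 + l' ^ 2) - (m ^ 2 + m' ^ 2) = (m - l) * ((l' - l) + (m' - m)) := by
        have : l' = m + m' - l := by linarith
        subst this; ring
      have hbig : 2 * (M:ℤ) * Ω ≤ |(l ^ 2 + l' ^ 2) - (m ^ 2 + m' ^ 2)| := by
        rw [hdiff, abs_mul, abs_of_nonneg (by linarith : (0:ℤ) ≤ (l' - l) + (m' - m)),
          abs_sub_comm]
        nlinarith [abs_nonneg (l - m)]
      have hω1 := hsz' k1 hk1
      have hω2 := hsz' k2 hk2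
      have hω3 := hsz' k3 hk3
      have hω4 := hsz' k4 hk4
      have e1 : (l ^ 2 + l' ^ 2) - (m ^ 2 + m' ^ 2)
          = ((h:ℤ) - h') + (ω k3 + ω k4 - ω k1 - ω k2) := by linarith
      rw [e1] at hbig
      have hhM : (h:ℤ) < M := by exact_mod_cast hh
      have hhM' : (h':ℤ) < M := by exact_mod_cast hh'
      have hΩM' : 4 * (K:ℤ) ^ 2 + M < Ω * M := by exact_mod_cast hΩM
      have hle : |((h:ℤ) - h') + (ω k3 + ω k4 - ω k1 - ω k2)| ≤ M + 8 * (K:ℤ) ^ 2 := by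
        rw [abs_le]
        constructor <;> linarith
      nlinarith
    · refine mul_le_mul' (mul_le_mul' le_rfl (sr_mono (mul_le_mul' ?_ le_rfl))) le_rfl
      have hK0 : (K : ℝ≥0∞) ≠ 0 := by simp; omega
      have hKt : (K : ℝ≥0∞) ≠ ⊤ := ENNReal.natCast_ne_top K
      rw [ENNReal.div_le_iff hK0 hKt]
      have h6 : Ω ≤ 6 * K := by
        rw [hΩ]
        have : 4 * K ^ 2 / M ≤ 4 * K := by
          apply Nat.div_le_of_le_mul
          nlinarith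
        omega
      exact_mod_cast h6

/-- the bilinear estimate for two cells -/
theorem BLpair (Λ Λ' S : Finset ℤ) (ω : ℤ → ℤ) (A : ℝ≥0∞) (hA : L4 S ω A) (K M : ℕ) (hK : 1 ≤ K)
    (hM : 1 ≤ M) (hgap : ∀ k ∈ S, ∀ k' ∈ S, k ≠ k' → (K : ℤ) ≤ |ω k - ω k'|)
    (hsz : M ≤ K ∨ ∀ k ∈ S, 0 ≤ ω k ∧ ω k ≤ 4 * (K:ℤ) ^ 2)
    (a : ℤ → ℤ → ℝ → ℂ) (ha : ∀ l k, MemLp (a l k) 2 mu1) (c : ℤ)
    (hΛ : ∀ l ∈ Λ, c ≤ l ∧ l < c + M) (hΛ' : ∀ l ∈ Λ', c + 2 * M ≤ l ∧ l < c + 4 * M)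
    (T : ℝ) (n : ℕ) (hn : 2 * (T + 1) ≤ n * (2 * Real.pi)) :
    ∫⁻ t in Set.Ioc (-T) T, ∫⁻ x, (‖UU Λ S ω a t x‖ₑ * ‖UU Λ' S ω a t x‖ₑ) ^ (3 / 2 : ℝ)
      ≤ CB n * sr (6 * A) * (ms Λ S a * ms Λ' S a) ^ (3 / 4 : ℝ) := by
  have h := BLpair0 (Λ.image (fun l => l - c)) (Λ'.image (fun l => l - c)) S ω A hA K M hK hM hgap
    hsz (fun l k => a (l + c) k) (fun l k => a (l + c) k) (fun l k => ha _ _) (fun l k => ha _ _)
    (by
      intro l hl
      rw [Finset.mem_image] at hl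
      obtain ⟨m, hm, rfl⟩ := hl
      have := hΛ m hm
      constructor <;> linarith)
    (by
      intro l hl
      rw [Finset.mem_image] at hl
      obtain ⟨m, hm, rfl⟩ := hl
      have := hΛ' m hm
      constructor <;> linarith) T n hn
  rw [ms_shift, ms_shift] at h
  refine le_trans (le_of_eq ?_) h
  refine lintegral_congr fun t => ?_
  rw [← lintegral_sub_right_eq_self (fun x => (‖UU (Λ.image (fun l => l - c)) S ω
    (fun l k => a (l + c) k) t x‖ₑ * ‖UU (Λ'.image (fun l => l - c)) S ω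
    (fun l k => a (l + c) k) t x‖ₑ) ^ (3 / 2 : ℝ)) (2 * c * t)]
  refine lintegral_congr fun x => ?_
  rw [UU_shift Λ S ω a c t x, UU_shift Λ' S ω a c t x, enorm_mul, enorm_mul, enorm_ee, one_mul,
    one_mul]

end Pool.Agent.E8helper95
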