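import Pool.Agent.Y18.GX.Ker

/-!
# Traces of roots of unity of order `24 * 2^A * 3^B`
-/

set_option autoImplicit false

namespace Pool.Agent.E8helper95.G

open Finset Pool.Agent.Y18.GX

lemma sum_range_mul' {k : Type*} [AddCommMonoid k] (f : ℕ → k) (A B : ℕ) :
    ∑ j ∈ range (A * B), f j = ∑ j ∈ range B, ∑ i ∈ range A, f (i + A * j) := by
  induction B with
  | zero => simp
  | succ B ih =>
    rw [mul_add, mul_one, Finset.sum_range_add, ih, Finset.sum_range_succ]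
    congr 1
    refine Finset.sum_congr rfl fun i _ => ?_
    rw [add_comm]

lemma mod9 (A : ℕ) : 25 ^ 2 ^ A % 9 = 7 ∨ 25 ^ 2 ^ A % 9 = 4 := by
  induction A with
  | zero => left; norm_num
  | succ A ih =>
    have : 25 ^ 2 ^ (A + 1) = (25 ^ 2 ^ A) * (25 ^ 2 ^ A) := by
      rw [pow_succ 2 A, mul_two, pow_add]
    rw [this, Nat.mul_mod]
    rcases ih with h | h <;> rw [h]
    · right; rfl
    · left; rfl

lemma q_fact (A : ℕ) : ∃ w, 25 ^ 2 ^ A - 1 = 24 * 2 ^ A * w ∧ w.Coprime 3 := by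
  have hA : Adm 2 25 := Or.inr ⟨rfl, rfl⟩
  obtain ⟨y, hy, -⟩ := pow_iter (ℓ := 2) (d := 25) (r := 3) (x := 3) hA (by norm_num) (by norm_num) A
  have h9 := mod9 A
  have h3 : 3 ∣ y := by
    have h1 : 3 ∣ 2 ^ (3 + A) * y := by
      have : 25 ^ 2 ^ A % 3 = 1 := by
        rw [Nat.pow_mod]
        norm_num
      omega
    refine (Nat.Coprime.dvd_of_dvd_mul_left ?_ h1)
    exact Nat.Coprime.pow_right _ (by norm_num)
  obtain ⟨w, rfl⟩ := h3
  refine ⟨w, ?_, ?_⟩
  · rw [hy, Nat.add_sub_cancel_left, pow_add]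
    ring
  · rw [Nat.coprime_comm, Nat.Prime.coprime_iff_not_dvd Nat.prime_three]
    rintro ⟨v, rfl⟩
    have h1 : 25 ^ 2 ^ A = 1 + 9 * (2 ^ (3 + A) * v) := by
      rw [hy]
      ring
    rcases h9 with h | h <;> rw [h1] at h <;> omega

section
variable {k : Type*} [Field k]

theorem trace24 {A B : ℕ} (z : k) (hz : z ^ (24 * (2 ^ A * 3 ^ B)) = 1) (h24 : z ^ 24 ≠ 1) :
    ∑ j ∈ range (2 ^ A * 3 ^ B), z ^ 25 ^ j = 0 := by
  obtain ⟨w, hw, hwc⟩ := q_fact A
  have hz0 : z ≠ 0 := by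
    rintro rfl
    rw [zero_pow (by positivity)] at hz
    exact zero_ne_one hz
  have hord : orderOf z ∣ 24 * (2 ^ A * 3 ^ B) := orderOf_dvd_of_pow_eq_one hz
  by_cases h : z ^ (25 ^ 2 ^ A - 1) = 1
  · have h1 : z ^ (24 * 2 ^ A) = 1 := by
      apply orderOf_dvd_iff_pow_eq_one.1
      have h2 : orderOf z ∣ 24 * 2 ^ A * w := by
        rw [← hw]
        exact orderOf_dvd_of_pow_eq_one h
      have h3 : orderOf z ∣ 24 * 2 ^ A * 3 ^ B := by rwa [mul_assoc]
      have h4 := Nat.dvd_gcd h2 h3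
      rw [Nat.gcd_mul_left, Nat.Coprime.pow_right B hwc, mul_one] at h4
      exact h4
    rw [sum_range_mul']
    refine Finset.sum_eq_zero fun j _ => ?_
    have h2 : ∀ j, z ^ (25 ^ 2 ^ A) ^ j = z := by
      intro j
      induction j with
      | zero => simp
      | succ j ih =>
        rw [pow_succ, pow_mul, ih]
        calc z ^ 25 ^ 2 ^ A = z ^ (25 ^ 2 ^ A - 1 + 1) := by
              rw [Nat.sub_add_cancel (Nat.one_le_pow _ _ (by norm_num))]
          _ = z := by rw [pow_succ, h, one_mul]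
    have h3 : ∀ i, z ^ 25 ^ (i + 2 ^ A * j) = z ^ 25 ^ i := by
      intro i
      rw [pow_add, mul_comm, pow_mul, pow_mul, h2]
    simp only [h3]
    refine trace_zero (ℓ := 2) (q := 25) (R := A) (Or.inr ⟨rfl, rfl⟩) z hz0 h24 ?_
    rw [← pow_mul]
    exact h1
  · rw [sum_range_mul', Finset.sum_comm]
    refine Finset.sum_eq_zero fun i _ => ?_
    have h3 : ∀ j, z ^ 25 ^ (i + 2 ^ A * j) = (z ^ 25 ^ i) ^ (25 ^ 2 ^ A) ^ j := by
      intro j
      rw [pow_add, pow_mul, pow_mul]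
    simp only [h3]
    refine trace_zero (ℓ := 3) (q := 25 ^ 2 ^ A) (R := B) (Or.inl ⟨rfl, ?_⟩) (z ^ 25 ^ i)
      (pow_ne_zero _ hz0) ?_ ?_
    · rw [Nat.pow_mod]
      norm_num
    · intro h4
      apply h
      rw [← pow_mul] at h4
      apply orderOf_dvd_iff_pow_eq_one.1
      have h5 : orderOf z ∣ 25 ^ i * (25 ^ 2 ^ A - 1) := orderOf_dvd_of_pow_eq_one h4
      refine Nat.Coprime.dvd_of_dvd_mul_left ?_ h5
      refine Nat.Coprime.coprime_dvd_left hord ?_
      refine Nat.Coprime.mul_left ?_ (Nat.Coprime.mul_left ?_ ?_)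
      · exact Nat.Coprime.pow_right _ (by norm_num)
      · exact (Nat.Coprime.pow_right _ (Nat.Coprime.pow_left _ (by norm_num)))
      · exact (Nat.Coprime.pow_right _ (Nat.Coprime.pow_left _ (by norm_num)))
    · rw [← pow_mul, ← pow_mul, hw]
      have : 25 ^ i * (24 * 2 ^ A * w * 3 ^ B) = 24 * (2 ^ A * 3 ^ B) * (25 ^ i * w) := by ring
      rw [this, pow_mul, hz, one_pow]

end

end Pool.Agent.E8helper95.G
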