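import Pool.Agent.E8helper95.GA9

/-!
# The sums over the classes modulo `N / 24`
-/

set_option autoImplicit false

namespace Pool.Agent.E8helper95.G

open Finset Pool.Agent.Y18.GX

lemma reidx {k : Type*} [AddCommMonoid k] (G : ℕ → k) (hper : ∀ i, G (i % 24) = G i) {u : ℕ}
    (hu : u * u % 24 = 1) : ∑ i ∈ range 24, G (u * i) = ∑ i ∈ range 24, G i := by
  have h1 : ∀ i, G (u * i) = G ((u * i) % 24) := fun i => (hper _).symm
  simp only [h1]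
  have h2 : ∀ i, i < 24 → u * (u * i % 24) % 24 = i := by
    intro i hi
    rw [Nat.mul_mod, Nat.mod_mod, ← Nat.mul_mod, ← mul_assoc, Nat.mul_mod, hu, one_mul, Nat.mod_mod,
      Nat.mod_eq_of_lt hi]
  refine Finset.sum_nbij' (fun i => (u * i) % 24) (fun i => (u * i) % 24) ?_ ?_ ?_ ?_ ?_
  · intro i _
    exact mem_range.2 (Nat.mod_lt _ (by norm_num))
  · intro i _
    exact mem_range.2 (Nat.mod_lt _ (by norm_num))
  · intro i hi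
    exact h2 i (mem_range.1 hi)
  · intro i hi
    exact h2 i (mem_range.1 hi)
  · intro i _
    rfl

lemma sq24 {u : ℕ} (h2 : u % 2 = 1) (h3 : u % 3 ≠ 0) : u * u % 24 = 1 := by
  have h : ∀ v < 24, v % 2 = 1 → v % 3 ≠ 0 → v * v % 24 = 1 := by decide
  rw [Nat.mul_mod]
  exact h (u % 24) (Nat.mod_lt _ (by norm_num)) (by omega) (by omega)

section
variable {a b : ℕ}


lemma N_eq (ha : 6 ≤ a) (hb : 2 ≤ b) : (2 ^ a * 3 ^ b) = (2 ^ (a - 3) * 3 ^ (b - 1)) * 24 := by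
  have h1 : 2 ^ a = 2 ^ (a - 3) * 8 := by
    rw [show 8 = 2 ^ 3 by norm_num, ← pow_add]
    congr 1
    omega
  have h2 : 3 ^ b = 3 ^ (b - 1) * 3 := by
    rw [← pow_succ]
    congr 1
    omega
  rw [h1, h2]
  ring

lemma M_24 (ha : 6 ≤ a) (hb : 2 ≤ b) : 24 ∣ (2 ^ (a - 3) * 3 ^ (b - 1)) := by
  have h1 : 8 ∣ 2 ^ (a - 3) := by
    rw [show 8 = 2 ^ 3 by norm_num]
    exact pow_dvd_pow _ (by omega)
  have h2 : 3 ∣ 3 ^ (b - 1) := dvd_pow_self 3 (by omega)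
  exact mul_dvd_mul h1 h2

lemma M_sq0 (ha : 6 ≤ a) (hb : 2 ≤ b) : ((2 ^ (a - 3) * 3 ^ (b - 1)) : ZMod (2 ^ a * 3 ^ b)) * (2 ^ (a - 3) * 3 ^ (b - 1)) = 0 := by
  have h1 : (2 ^ a * 3 ^ b) ∣ (2 ^ (a - 3) * 3 ^ (b - 1)) * (2 ^ (a - 3) * 3 ^ (b - 1)) := by
    rw [N_eq ha hb]
    exact mul_dvd_mul dvd_rfl (M_24 ha hb)
  have h2 := (ZMod.natCast_eq_zero_iff _ _).2 h1
  push_cast at h2
  exact h2

lemma M24_0 (ha : 6 ≤ a) (hb : 2 ≤ b) : ((2 ^ (a - 3) * 3 ^ (b - 1)) : ZMod (2 ^ a * 3 ^ b)) * 24 = 0 := by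
  have h2 := (ZMod.natCast_eq_zero_iff ((2 ^ (a - 3) * 3 ^ (b - 1)) * 24) (2 ^ a * 3 ^ b)).2 (by rw [← N_eq ha hb])
  push_cast at h2
  exact h2

/-- a number times `M` only depends on the number modulo `24` -/
lemma M_mul_congr (ha : 6 ≤ a) (hb : 2 ≤ b) {x y : ℕ} (h : x % 24 = y % 24) :
    ((2 ^ (a - 3) * 3 ^ (b - 1)) : ZMod (2 ^ a * 3 ^ b)) * x = (2 ^ (a - 3) * 3 ^ (b - 1)) * y := by
  have h1 : ∀ z : ℕ, ((2 ^ (a - 3) * 3 ^ (b - 1)) : ZMod (2 ^ a * 3 ^ b)) * z = (2 ^ (a - 3) * 3 ^ (b - 1)) * (z % 24 : ℕ) := by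
    intro z
    have h3 := M24_0 ha hb
    have h2 : ((z % 24 + 24 * (z / 24) : ℕ) : ZMod (2 ^ a * 3 ^ b)) = z := by rw [Nat.mod_add_div]
    rw [← h2]
    push_cast
    linear_combination (((z / 24 : ℕ) : ZMod (2 ^ a * 3 ^ b))) * h3
  rw [h1 x, h1 y, h]

variable {k : Type*} [Field k] [CharP k 5] (χ : MulChar (ZMod (2 ^ a * 3 ^ b)) k)

variable (a b) in
omit [CharP k 5] in
/-- the summand -/
noncomputable def gg (m x : ℕ) : k := χ (x : ZMod (2 ^ a * 3 ^ b)) * Fh m (2 ^ a * 3 ^ b) x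

omit [CharP k 5] in
lemma gg_congr {m x y : ℕ} (h : (x : ZMod (2 ^ a * 3 ^ b)) = (y : ZMod (2 ^ a * 3 ^ b))) : gg a b χ m x = gg a b χ m y := by
  have h1 := (ZMod.natCast_eq_natCast_iff' _ _ _).1 h
  unfold gg Fh
  rw [h, h1]

variable (a b) in
omit [CharP k 5] in
/-- the sum over a class modulo `M` -/
noncomputable def Phi (m x : ℕ) : k := ∑ i ∈ range 24, gg a b χ m (x + (2 ^ (a - 3) * 3 ^ (b - 1)) * i)

omit [CharP k 5] in
lemma Phi_shift (ha : 6 ≤ a) (hb : 2 ≤ b) {m x y : ℕ} (h : x ≡ y [MOD (2 ^ (a - 3) * 3 ^ (b - 1))]) : Phi a b χ m x = Phi a b χ m y := by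
  have key : ∀ x r, Phi a b χ m (x + (2 ^ (a - 3) * 3 ^ (b - 1)) * r) = Phi a b χ m x := by
    intro x r
    refine Eq.trans ?_ (periodic_shift (fun i => gg a b χ m (x + (2 ^ (a - 3) * 3 ^ (b - 1)) * i)) 24 ?_ r)
    · refine Finset.sum_congr rfl fun i _ => ?_
      congr 1
      ring
    · intro j
      apply gg_congr
      have := M24_0 ha hb
      push_cast
      linear_combination this
  have key2 : ∀ x, Phi a b χ m x = Phi a b χ m (x % (2 ^ (a - 3) * 3 ^ (b - 1))) := by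
    intro x
    conv_lhs => rw [← Nat.mod_add_div x (2 ^ (a - 3) * 3 ^ (b - 1))]
    exact key _ _
  rw [key2 x, key2 y, h]

lemma gen_w (ha : 6 ≤ a) (hb : 2 ≤ b) {h s t : ℕ} (hG : Gens a b h s t) :
    ∃ w : ℕ, w % 2 = 1 ∧ w % 3 ≠ 0 ∧ h = 1 + (2 ^ (a - 3) * 3 ^ (b - 1)) * w := by
  have e2 : g2 a = 1 + 2 ^ (a - 3) := by
    unfold g2
    rw [if_neg (by omega)]
  have e3 : g3 b = 1 + 3 ^ (b - 1) := by
    unfold g3
    rw [if_neg (by omega)]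
  have c2 : h ≡ 1 + 2 ^ (a - 3) [MOD 2 ^ a] := by
    rw [← e2]
    exact (ZMod.natCast_eq_natCast_iff _ _ _).1 hG.h2
  have c3 : h ≡ 1 + 3 ^ (b - 1) [MOD 3 ^ b] := by
    rw [← e3]
    exact (ZMod.natCast_eq_natCast_iff _ _ _).1 hG.h3
  have hne : h ≠ 0 := by
    rintro rfl
    have h1 : 1 + 3 ^ (b - 1) ≡ 0 [MOD 3] := (c3.symm).of_dvd (dvd_pow_self 3 (by omega))
    have h2 : 3 ∣ 3 ^ (b - 1) := dvd_pow_self 3 (by omega)
    have h3 := Nat.modEq_zero_iff_dvd.1 h1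
    omega
  have d2 : 2 ^ (a - 3) ∣ h - 1 := by
    have h1 : h ≡ 1 + 2 ^ (a - 3) [MOD 2 ^ (a - 3)] := c2.of_dvd (pow_dvd_pow _ (by omega))
    have h2 : 1 + 2 ^ (a - 3) ≡ 1 [MOD 2 ^ (a - 3)] := by simp [Nat.ModEq]
    exact (Nat.modEq_iff_dvd' (Nat.pos_of_ne_zero hne)).1 (h1.trans h2).symm
  have d3 : 3 ^ (b - 1) ∣ h - 1 := by
    have h1 : h ≡ 1 + 3 ^ (b - 1) [MOD 3 ^ (b - 1)] := c3.of_dvd (pow_dvd_pow _ (by omega))
    have h2 : 1 + 3 ^ (b - 1) ≡ 1 [MOD 3 ^ (b - 1)] := by simp [Nat.ModEq]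
    exact (Nat.modEq_iff_dvd' (Nat.pos_of_ne_zero hne)).1 (h1.trans h2).symm
  obtain ⟨w, hw⟩ := Nat.Coprime.mul_dvd_of_dvd_of_dvd (hcop (a - 3) (b - 1)) d2 d3
  have hw' : h = 1 + (2 ^ (a - 3) * 3 ^ (b - 1)) * w := by omega
  refine ⟨w, ?_, ?_, hw'⟩
  · by_contra h0
    have h1 : w % 2 = 0 := by omega
    obtain ⟨v, rfl⟩ := Nat.dvd_of_mod_eq_zero h1
    have h2 : h ≡ 1 + 2 ^ (a - 3) [MOD 2 ^ (a - 2)] := c2.of_dvd (pow_dvd_pow _ (by omega))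
    have h3 : h = 1 + 2 ^ (a - 2) * (3 ^ (b - 1) * v) := by
      have : 2 ^ (a - 2) = 2 ^ (a - 3) * 2 := by
        rw [← pow_succ]
        congr 1
        omega
      rw [hw', this]
      ring
    have h4 : 2 ^ (a - 3) ≡ 0 [MOD 2 ^ (a - 2)] := by
      rw [h3] at h2
      have h5 := Nat.ModEq.add_left_cancel' 1 h2
      exact h5.symm.trans (Nat.modEq_zero_iff_dvd.2 (dvd_mul_right _ _))
    have h5 := (Nat.pow_dvd_pow_iff_le_right (by norm_num : 1 < 2)).1 (Nat.modEq_zero_iff_dvd.1 h4)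
    omega
  · intro h1
    obtain ⟨v, rfl⟩ := Nat.dvd_of_mod_eq_zero h1
    have h3 : h = 1 + 3 ^ b * (2 ^ (a - 3) * v) := by
      have : 3 ^ b = 3 ^ (b - 1) * 3 := by
        rw [← pow_succ]
        congr 1
        omega
      rw [hw', this]
      ring
    have h4 : 3 ^ (b - 1) ≡ 0 [MOD 3 ^ b] := by
      rw [h3] at c3
      have h5 := Nat.ModEq.add_left_cancel' 1 c3
      exact h5.symm.trans (Nat.modEq_zero_iff_dvd.2 (dvd_mul_right _ _))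
    have h5 := (Nat.pow_dvd_pow_iff_le_right (by norm_num : 1 < 3)).1 (Nat.modEq_zero_iff_dvd.1 h4)
    omega

omit [CharP k 5] in
/-- `χ (1 + M j) = χ (1 + M) ^ j` -/
lemma chi_M (ha : 6 ≤ a) (hb : 2 ≤ b) (j : ℕ) :
    χ ((1 + (2 ^ (a - 3) * 3 ^ (b - 1)) * j : ℕ) : ZMod (2 ^ a * 3 ^ b)) = χ ((1 + (2 ^ (a - 3) * 3 ^ (b - 1)) : ℕ) : ZMod (2 ^ a * 3 ^ b)) ^ j := by
  rw [← map_pow]
  congr 1
  have h := one_add_pow_of_sq ((2 ^ (a - 3) * 3 ^ (b - 1)) : ZMod (2 ^ a * 3 ^ b)) (by rw [sq]; exact M_sq0 ha hb) j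
  push_cast
  rw [h]
  ring

omit [CharP k 5] in
lemma Phi_gen (ha : 6 ≤ a) (hb : 2 ≤ b) {m h s t x : ℕ} (hG : Gens a b h s t) (hx : x.Coprime (2 ^ a * 3 ^ b)) :
    ∑ i ∈ range 24, gg a b χ m (x * h ^ i) = Phi a b χ m x := by
  obtain ⟨w, hw2, hw3, hw⟩ := gen_w ha hb hG
  have hx2 := cop2 hx (by omega)
  have hx3 := cop3 hx (by omega)
  have hu : (x * w) * (x * w) % 24 = 1 := by
    have h1 := sq24 hx2 hx3
    have h2 := sq24 hw2 hw3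
    have : (x * w) * (x * w) = (x * x) * (w * w) := by ring
    rw [this, Nat.mul_mod, h1, h2]
  rw [Phi, ← reidx (fun i => gg a b χ m (x + (2 ^ (a - 3) * 3 ^ (b - 1)) * i)) ?_ hu]
  · refine Finset.sum_congr rfl fun i _ => ?_
    apply gg_congr
    have h0 := M_sq0 (a := a) (b := b) ha hb
    have h := one_add_pow_of_sq (((2 ^ (a - 3) * 3 ^ (b - 1)) : ZMod (2 ^ a * 3 ^ b)) * w) (by linear_combination ((w : ZMod (2 ^ a * 3 ^ b)) ^ 2) * h0) i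
    rw [hw]
    push_cast
    rw [h]
    ring
  · intro i
    apply gg_congr
    have := M_mul_congr (a := a) (b := b) ha hb (x := i % 24) (y := i) (Nat.mod_mod _ _)
    push_cast at this ⊢
    rw [this]

omit [CharP k 5] in
/-- the character on a class modulo `M` -/
lemma chi_class (ha : 6 ≤ a) (hb : 2 ≤ b) {x : ℕ} (hx : x.Coprime (2 ^ a * 3 ^ b)) (i : ℕ) :
    χ ((x + (2 ^ (a - 3) * 3 ^ (b - 1)) * i : ℕ) : ZMod (2 ^ a * 3 ^ b)) = χ (x : ZMod (2 ^ a * 3 ^ b)) * χ ((1 + (2 ^ (a - 3) * 3 ^ (b - 1)) : ℕ) : ZMod (2 ^ a * 3 ^ b)) ^ (x * i) := by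
  rw [← chi_M (a := a) (b := b) χ ha hb, ← map_mul]
  congr 1
  have hx2 := cop2 hx (by omega)
  have hx3 := cop3 hx (by omega)
  have h1 := sq24 hx2 hx3
  have h2 : (x * x * i) % 24 = i % 24 := by
    rw [Nat.mul_mod, h1, one_mul, Nat.mod_mod]
  have h3 := M_mul_congr (a := a) (b := b) ha hb h2
  push_cast at h3 ⊢
  linear_combination -h3

end

end Pool.Agent.E8helper95.G

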