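import Pool.Agent.E8helper95.GA10
import Pool.Agent.Y18.GX.Core

/-!
# The contradiction for large levels
-/

set_option autoImplicit false

namespace Pool.Agent.E8helper95.G

open Finset Pool.Agent.Y18.GX Polynomial

lemma Fh_neg {k : Type*} [Field k] {m N u v : ℕ} (hN : (N : k) ≠ 0) (huv : N ∣ u + v) (hu : ¬ N ∣ u) :
    (Fh m N v : k) = (-1) ^ m * Fh m N u + (((FF m).eval 1 : ℤ) : k) := by
  have hN0 : 0 < N := by
    rcases Nat.eq_zero_or_pos N with h | h
    · rw [h, Nat.cast_zero] at hN
      exact absurd rfl hN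
    · exact h
  have h1 : v % N = N - u % N := by
    have h2 : u % N < N := Nat.mod_lt _ hN0
    have h3 : v % N < N := Nat.mod_lt _ hN0
    have h4 : u % N ≠ 0 := fun h => hu (Nat.dvd_of_mod_eq_zero h)
    have h5 : (u % N + v % N) % N = 0 := by
      rw [← Nat.add_mod]
      exact Nat.mod_eq_zero_of_dvd huv
    obtain ⟨w, hw⟩ := Nat.dvd_of_mod_eq_zero h5
    have hw1 : w = 1 := by
      rcases Nat.lt_or_ge w 1 with h | h
      · have : w = 0 := by omega
        subst this
        omega
      · rcases Nat.lt_or_ge 1 w with h' | h'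
        · have : N * 2 ≤ N * w := Nat.mul_le_mul_left _ h'
          omega
        · omega
    subst hw1
    omega
  unfold Fh
  rw [h1, ← FF_aeval_refl, Nat.cast_sub (Nat.mod_lt _ hN0).le, sub_div, div_self hN]

section
variable {k : Type*} [Field k]

lemma sum_i_pow (z : k) (n : ℕ) :
    (z - 1) * ∑ i ∈ range n, (i : k) * z ^ i = n * z ^ n - z * ∑ i ∈ range n, z ^ i := by
  induction n with
  | zero => simp
  | succ n ih =>
    rw [Finset.sum_range_succ, Finset.sum_range_succ, mul_add, ih]
    push_cast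
    ring

lemma geom_zero {z : k} (h24 : z ^ 24 = 1) (h1 : z ≠ 1) : ∑ i ∈ range 24, z ^ i = 0 := by
  have h2 := geom_sum_mul z 24
  rw [h24, sub_self] at h2
  rcases mul_eq_zero.1 h2 with h3 | h3
  · exact h3
  · exact absurd (sub_eq_zero.1 h3) h1

/-- the sum over a class as a function of the class -/
noncomputable def TT (m : ℕ) (z w : k) : k := ∑ i ∈ range 24, z ^ i * aeval (w + i / 24) (FF m)

variable [CharP k 5]

theorem lead {m : ℕ} (hm1 : 1 ≤ m) (hm4 : m ≤ 4) {z z' w w' d ρ : k} (hz : z ^ 24 = 1) (hz1 : z ≠ 1)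
    (hz' : z' ^ 24 = 1) (hz1' : z' ≠ 1) (hd : d ≠ 0)
    (H : ∀ i < m, TT m z (w + i * d) + ρ * TT m z' (w' + i * d) = 0) : (z' - 1) + ρ * (z - 1) = 0 := by
  set f := (FF m).map (Int.castRingHom k) with hf
  have hfev : ∀ x : k, aeval x (FF m) = f.eval x := fun x => by
    rw [hf, eval_map, aeval_def]
    rfl
  have hfdeg : f.natDegree ≤ m := (natDegree_map_le).trans (FF_natDegree m)
  have h24 : (24 : k) ≠ 0 := by exact_mod_cast nat_ne (k := k) 24 (by norm_num)
  have hfm : f.coeff m ≠ 0 := by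
    rw [hf, coeff_map, FF_coeff m hm1]
    have h1 : ¬ 5 ∣ m.factorial := by
      interval_cases m <;> decide
    have := nat_ne (k := k) _ h1
    simpa using this
  set Q : k → k[X] := fun z => ∑ i ∈ range 24, C (z ^ i) * taylor ((i : k) / 24) f with hQ
  have hQev : ∀ z x, (Q z).eval x = TT m z x := by
    intro z x
    rw [hQ, TT]
    simp only
    rw [eval_finset_sum]
    refine Finset.sum_congr rfl fun i _ => ?_
    rw [eval_mul, eval_C, taylor_eval, hfev]
  have hQm : ∀ z : k, z ^ 24 = 1 → z ≠ 1 → ∀ i, m ≤ i → (Q z).coeff i = 0 := by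
    intro z h1 h2 i hi
    rw [hQ]
    simp only
    rw [finset_sum_coeff]
    rcases hi.eq_or_lt with h3 | h3
    · rw [← h3]
      simp only [coeff_C_mul, taylor_coeff_top f m hfdeg]
      rw [← Finset.sum_mul, geom_zero h1 h2, zero_mul]
    · refine Finset.sum_eq_zero fun t _ => ?_
      rw [coeff_C_mul, coeff_eq_zero_of_natDegree_lt, mul_zero]
      rw [natDegree_taylor]
      omega
  have hQdeg : ∀ z : k, z ^ 24 = 1 → z ≠ 1 → (Q z).natDegree ≤ m - 1 := by
    intro z h1 h2
    rw [natDegree_le_iff_coeff_eq_zero]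
    intro i hi
    exact hQm z h1 h2 i (by omega)
  have hQtop : ∀ z : k, z ^ 24 = 1 → z ≠ 1 → (z - 1) * (Q z).coeff (m - 1) = m * f.coeff m := by
    intro z h1 h2
    rw [hQ]
    simp only
    rw [finset_sum_coeff]
    simp only [coeff_C_mul, taylor_coeff_sub f m hm1 hfdeg]
    have h3 : ∑ i ∈ range 24, z ^ i * (f.coeff (m - 1) + m * f.coeff m * ((i : k) / 24)) =
        f.coeff (m - 1) * ∑ i ∈ range 24, z ^ i + (m * f.coeff m / 24) * ∑ i ∈ range 24, (i : k) * z ^ i := by
      rw [Finset.mul_sum, Finset.mul_sum, ← Finset.sum_add_distrib]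
      refine Finset.sum_congr rfl fun i _ => ?_
      ring
    have h4 := sum_i_pow z 24
    rw [geom_zero h1 h2, h1] at h4
    rw [h3, geom_zero h1 h2]
    push_cast at h4
    have h5 : (m * f.coeff m / 24 : k) * ((z - 1) * ∑ i ∈ range 24, (i : k) * z ^ i) = m * f.coeff m := by
      rw [h4]
      field_simp
      ring
    linear_combination h5
  set R := Q z + C ρ * taylor (w' - w) (Q z') with hR
  have hRev : ∀ i < m, R.eval (w + i * d) = 0 := by
    intro i hi
    rw [hR, eval_add, eval_mul, eval_C, taylor_eval, hQev, hQev, ← H i hi]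
    congr 3
    ring
  have hRdeg : R.degree < m := by
    rw [degree_lt_iff_coeff_zero]
    intro i hi
    rw [hR, coeff_add, hQm z hz hz1 i hi, coeff_C_mul, zero_add, coeff_eq_zero_of_natDegree_lt, mul_zero]
    rw [natDegree_taylor]
    have := hQdeg z' hz' hz1'
    omega
  have hR0 : R = 0 := by
    refine eq_zero_of_degree_lt_of_eval_index_eq_zero (s := range m) (f := R)
      (v := fun i : ℕ => (w + (i : k) * d : k)) ?_ (by rwa [card_range])
      (fun i hi => hRev i (mem_range.1 hi))
    intro i hi j hj hij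
    have hi' : i < m := mem_range.1 hi
    have hj' : j < m := mem_range.1 hj
    simp only [add_right_inj] at hij
    have h4 : (i : k) = (j : k) := mul_right_cancel₀ hd hij
    rw [CharP.cast_eq_iff_mod_eq k 5, Nat.mod_eq_of_lt (by omega), Nat.mod_eq_of_lt (by omega)] at h4
    exact h4
  have h1 : R.coeff (m - 1) = 0 := by rw [hR0, coeff_zero]
  rw [hR, coeff_add, coeff_C_mul, taylor_coeff_top (Q z') (m - 1) (hQdeg z' hz' hz1')] at h1
  have h2 := hQtop z hz hz1
  have h3 := hQtop z' hz' hz1'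
  have hmf : (m : k) * f.coeff m ≠ 0 := by
    refine mul_ne_zero ?_ hfm
    apply nat_ne
    intro h
    have := Nat.le_of_dvd (by omega) h
    omega
  have h4 : ((z' - 1) + ρ * (z - 1)) * (m * f.coeff m) = 0 := by
    linear_combination (z - 1) * (z' - 1) * h1 - (z' - 1) * h2 - ρ * (z - 1) * h3
  rcases mul_eq_zero.1 h4 with h5 | h5
  · exact h5
  · exact absurd h5 hmf

end

end Pool.Agent.E8helper95.G
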