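import Pool.Agent.E8helper95.GA11

/-!
# The relation between two classes and its consequence
-/

set_option autoImplicit false

namespace Pool.Agent.E8helper95.G

open Finset Pool.Agent.Y18.GX Polynomial

section
variable {a b : ℕ} {k : Type*} [Field k] [CharP k 5]


variable (χ : MulChar (ZMod (2 ^ a * 3 ^ b)) k)

lemma NN_ne : ((2 ^ a * 3 ^ b : ℕ) : k) ≠ 0 := nat_ne _ (not_five a b)

lemma ord_zeta (ha : 6 ≤ a) (hb : 2 ≤ b) {m h s t : ℕ} (hG : Gens a b h s t)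
    (V : Vals a b m (χ (h : ZMod (2 ^ a * 3 ^ b))) (χ (s : ZMod (2 ^ a * 3 ^ b))) (χ (t : ZMod (2 ^ a * 3 ^ b)))) :
    orderOf (χ ((1 + (2 ^ (a - 3) * 3 ^ (b - 1)) : ℕ) : ZMod (2 ^ a * 3 ^ b))) = 24 := by
  obtain ⟨w, hw2, hw3, hw⟩ := gen_w ha hb hG
  set ζ := χ ((1 + (2 ^ (a - 3) * 3 ^ (b - 1)) : ℕ) : ZMod (2 ^ a * 3 ^ b)) with hζ
  have e1 : χ (h : ZMod (2 ^ a * 3 ^ b)) = ζ ^ w := by
    rw [hw, chi_M (a := a) (b := b) χ ha hb]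
  have h24 : ζ ^ 24 = 1 := by
    rw [hζ, ← chi_M (a := a) (b := b) χ ha hb]
    have : ((1 + (2 ^ (a - 3) * 3 ^ (b - 1)) * 24 : ℕ) : ZMod (2 ^ a * 3 ^ b)) = 1 := by
      have := M24_0 (a := a) (b := b) ha hb
      push_cast
      linear_combination this
    rw [this, map_one]
  refine orderOf_eq_of_pow_and_pow_div_prime (by norm_num) h24 ?_
  intro p hp hpd
  have h1 : p = 2 ∨ p = 3 := by
    have h2 : p ∣ 2 ^ 3 * 3 := by simpa using hpd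
    rcases hp.dvd_mul.1 h2 with h3 | h3
    · left
      exact (Nat.prime_dvd_prime_iff_eq hp Nat.prime_two).1 (hp.dvd_of_dvd_pow h3)
    · right
      exact (Nat.prime_dvd_prime_iff_eq hp Nat.prime_three).1 h3
  rcases h1 with rfl | rfl
  · intro h3
    apply V.a5 (by omega)
    rw [e1, ← pow_mul, mul_comm, pow_mul]
    have : ζ ^ 12 = 1 := by
      norm_num at h3
      exact h3
    rw [this, one_pow]
  · intro h3
    apply V.b3 hb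
    rw [e1, ← pow_mul, mul_comm, pow_mul]
    have : ζ ^ 8 = 1 := by
      norm_num at h3
      exact h3
    rw [show 16 = 8 * 2 by norm_num, pow_mul ζ 8 2, this, one_pow, one_pow]

omit [CharP k 5] in
lemma zeta_ne {ζ : k} (hord : orderOf ζ = 24) {x : ℕ} (hx : x.Coprime (2 ^ a * 3 ^ b)) (ha : 6 ≤ a) :
    ζ ^ x ≠ 1 := by
  intro h
  have h1 := orderOf_dvd_of_pow_eq_one h
  rw [hord] at h1
  have h2 := cop2 hx (by omega)
  omega

omit [CharP k 5] in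
lemma zeta_pow24 {ζ : k} (hord : orderOf ζ = 24) (x : ℕ) : (ζ ^ x) ^ 24 = 1 := by
  rw [← pow_mul, mul_comm, pow_mul, ← hord, pow_orderOf_eq_one, one_pow]

lemma Phi_neg (ha : 6 ≤ a) (hb : 2 ≤ b) {m x y : ℕ} (hpar : χ (-1) = (-1) ^ m)
    (hord : orderOf (χ ((1 + (2 ^ (a - 3) * 3 ^ (b - 1)) : ℕ) : ZMod (2 ^ a * 3 ^ b))) = 24) (hx : x.Coprime (2 ^ a * 3 ^ b)) (hxy : (2 ^ a * 3 ^ b) ∣ x + y) :
    Phi a b χ m y = Phi a b χ m x := by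
  set c0 : k := (((FF m).eval 1 : ℤ) : k) with hc0
  have hx2 := cop2 hx (by omega)
  have h24M := M_24 (a := a) (b := b) ha hb
  have hN24 : 24 ∣ (2 ^ a * 3 ^ b) := by
    rw [N_eq ha hb]
    exact dvd_mul_left _ _
  have hsum : ∑ i ∈ range 24, χ ((x + (2 ^ (a - 3) * 3 ^ (b - 1)) * i : ℕ) : ZMod (2 ^ a * 3 ^ b)) = 0 := by
    have h1 : ∀ i, χ ((x + (2 ^ (a - 3) * 3 ^ (b - 1)) * i : ℕ) : ZMod (2 ^ a * 3 ^ b)) = χ (x : ZMod (2 ^ a * 3 ^ b)) * (χ ((1 + (2 ^ (a - 3) * 3 ^ (b - 1)) : ℕ) : ZMod (2 ^ a * 3 ^ b)) ^ x) ^ i := by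
      intro i
      rw [chi_class (a := a) (b := b) χ ha hb hx, ← pow_mul]
    simp only [h1]
    rw [← Finset.mul_sum, geom_zero (zeta_pow24 hord x) (zeta_ne hord hx ha), mul_zero]
  have key : Phi a b χ m y = ∑ i ∈ range 24, (gg a b χ m (x + (2 ^ (a - 3) * 3 ^ (b - 1)) * i) +
      (-1) ^ m * c0 * χ ((x + (2 ^ (a - 3) * 3 ^ (b - 1)) * i : ℕ) : ZMod (2 ^ a * 3 ^ b))) := by
    rw [← reidx (fun i => (gg a b χ m (x + (2 ^ (a - 3) * 3 ^ (b - 1)) * i) + (-1) ^ m * c0 * χ ((x + (2 ^ (a - 3) * 3 ^ (b - 1)) * i : ℕ) : ZMod (2 ^ a * 3 ^ b)))) ?_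
      (u := 23) (by norm_num)]
    · rw [Phi]
      refine Finset.sum_congr rfl fun i _ => ?_
      have h1 : (2 ^ a * 3 ^ b) ∣ (x + (2 ^ (a - 3) * 3 ^ (b - 1)) * (23 * i)) + (y + (2 ^ (a - 3) * 3 ^ (b - 1)) * i) := by
        have : (x + (2 ^ (a - 3) * 3 ^ (b - 1)) * (23 * i)) + (y + (2 ^ (a - 3) * 3 ^ (b - 1)) * i) = (x + y) + (2 ^ a * 3 ^ b) * i := by
          rw [N_eq ha hb]
          ring
        rw [this]
        exact dvd_add hxy (dvd_mul_right _ _)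
      have h2 : ¬ (2 ^ a * 3 ^ b) ∣ (x + (2 ^ (a - 3) * 3 ^ (b - 1)) * (23 * i)) := by
        intro h3
        have h4 : 24 ∣ x + (2 ^ (a - 3) * 3 ^ (b - 1)) * (23 * i) := hN24.trans h3
        have h5 : 24 ∣ (2 ^ (a - 3) * 3 ^ (b - 1)) * (23 * i) := h24M.mul_right _
        have h6 := (Nat.dvd_add_left h5).1 h4
        omega
      have h3 := Fh_neg (k := k) (m := m) (NN_ne (a := a) (b := b)) h1 h2
      have h4 : ((y + (2 ^ (a - 3) * 3 ^ (b - 1)) * i : ℕ) : ZMod (2 ^ a * 3 ^ b)) = (-1) * ((x + (2 ^ (a - 3) * 3 ^ (b - 1)) * (23 * i) : ℕ) : ZMod (2 ^ a * 3 ^ b)) := by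
        have h5 := (ZMod.natCast_eq_zero_iff _ _).2 h1
        rw [Nat.cast_add (x + (2 ^ (a - 3) * 3 ^ (b - 1)) * (23 * i))] at h5
        linear_combination h5
      unfold gg
      rw [h3, h4, map_mul, hpar]
      have e4 : ((-1 : k) ^ m) * (-1) ^ m = 1 := by
        rw [← mul_pow]
        simp
      linear_combination χ ((x + (2 ^ (a - 3) * 3 ^ (b - 1)) * (23 * i) : ℕ) : ZMod (2 ^ a * 3 ^ b)) * Fh m (2 ^ a * 3 ^ b) (x + (2 ^ (a - 3) * 3 ^ (b - 1)) * (23 * i)) * e4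
    · intro i
      have h0 := M_mul_congr (a := a) (b := b) ha hb (x := i % 24) (y := i) (Nat.mod_mod _ _)
      have h1 : ((x + (2 ^ (a - 3) * 3 ^ (b - 1)) * (i % 24) : ℕ) : ZMod (2 ^ a * 3 ^ b)) = ((x + (2 ^ (a - 3) * 3 ^ (b - 1)) * i : ℕ) : ZMod (2 ^ a * 3 ^ b)) := by
        push_cast at h0 ⊢
        rw [h0]
      rw [gg_congr χ h1, h1]
  rw [key, Finset.sum_add_distrib, ← Finset.mul_sum, hsum, mul_zero, add_zero, Phi]

lemma two_ne' {k : Type*} [Field k] [CharP k 5] : (2 : k) ≠ 0 := by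
  exact_mod_cast nat_ne (k := k) 2 (by norm_num)

theorem Phi_R (ha : 6 ≤ a) (hb : 2 ≤ b) {m h s t : ℕ} (hP : Prim a b χ) (hG : Gens a b h s t)
    (hpar : χ (-1) = (-1) ^ m) (hord : orderOf (χ ((1 + (2 ^ (a - 3) * 3 ^ (b - 1)) : ℕ) : ZMod (2 ^ a * 3 ^ b))) = 24)
    (hS : ∑ x ∈ range (2 ^ a * 3 ^ b), χ (x : ZMod (2 ^ a * 3 ^ b)) * aeval ((x : k) / (2 ^ a * 3 ^ b : ℕ)) (FF m) = 0) {c : ℕ} (hc : c.Coprime (2 ^ a * 3 ^ b)) :
    Phi a b χ m c + Phi a b χ m (c * t) = 0 ∧ Phi a b χ m c + Phi a b χ m (c * s) = 0 := by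
  have h0 := main_rel χ hP hG hS hc
  have hs1 : ((s * s : ℕ) : ZMod (2 ^ a * 3 ^ b)) = ((1 : ℕ) : ZMod (2 ^ a * 3 ^ b)) := by
    apply eq_of_crt
    · push_cast
      rw [hG.s2]
      ring
    · push_cast
      rw [hG.s3]
      ring
  have ht1 : ((t * t : ℕ) : ZMod (2 ^ a * 3 ^ b)) = ((1 : ℕ) : ZMod (2 ^ a * 3 ^ b)) := by
    apply eq_of_crt
    · push_cast
      rw [hG.t2]
      ring
    · push_cast
      rw [hG.t3]
      ring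
  have hsc : s.Coprime (2 ^ a * 3 ^ b) := by
    rw [← ZMod.isUnit_iff_coprime]
    push_cast at hs1
    exact IsUnit.of_mul_eq_one _ hs1
  have htc : t.Coprime (2 ^ a * 3 ^ b) := by
    rw [← ZMod.isUnit_iff_coprime]
    push_cast at ht1
    exact IsUnit.of_mul_eq_one _ ht1
  have hst : (2 ^ a * 3 ^ b) ∣ s + t := by
    rw [← ZMod.natCast_eq_zero_iff]
    have : ((s + t : ℕ) : ZMod (2 ^ a * 3 ^ b)) = ((0 : ℕ) : ZMod (2 ^ a * 3 ^ b)) := by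
      apply eq_of_crt
      · push_cast
        rw [hG.s2, hG.t2]
        ring
      · push_cast
        rw [hG.s3, hG.t3]
        ring
    rw [this, Nat.cast_zero]
  have hst1 : (2 ^ a * 3 ^ b) ∣ 1 + s * t := by
    rw [← ZMod.natCast_eq_zero_iff]
    have : ((1 + s * t : ℕ) : ZMod (2 ^ a * 3 ^ b)) = ((0 : ℕ) : ZMod (2 ^ a * 3 ^ b)) := by
      apply eq_of_crt
      · push_cast
        rw [hG.s2, hG.t2]
        ring
      · push_cast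
        rw [hG.s3, hG.t3]
        ring
    rw [this, Nat.cast_zero]
  have e1 : ∀ d e : ℕ, ∑ i ∈ range 24, gg a b χ m (c * h ^ i * s ^ d * t ^ e) = Phi a b χ m (c * s ^ d * t ^ e) := by
    intro d e
    rw [← Phi_gen χ ha hb hG (Nat.Coprime.mul_left (Nat.Coprime.mul_left hc (hsc.pow_left d)) (htc.pow_left e))]
    refine Finset.sum_congr rfl fun i _ => ?_
    congr 1
    ring
  have h1 : ∑ d ∈ range 2, ∑ e ∈ range 2, Phi a b χ m (c * s ^ d * t ^ e) = 0 := by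
    simp only [← e1]
    have h2 : χ (c : ZMod (2 ^ a * 3 ^ b)) * ∑ i ∈ range 24, ∑ d ∈ range 2, ∑ e ∈ range 2,
      χ (h : ZMod (2 ^ a * 3 ^ b)) ^ i * χ (s : ZMod (2 ^ a * 3 ^ b)) ^ d * χ (t : ZMod (2 ^ a * 3 ^ b)) ^ e *
        (Fh m (2 ^ a * 3 ^ b) (c * h ^ i * s ^ d * t ^ e) : k) = 0 := by rw [h0, mul_zero]
    rw [← h2, Finset.mul_sum]
    have h3 : ∀ d, ∑ e ∈ range 2, ∑ i ∈ range 24, gg a b χ m (c * h ^ i * s ^ d * t ^ e) =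
        ∑ i ∈ range 24, ∑ e ∈ range 2, gg a b χ m (c * h ^ i * s ^ d * t ^ e) := fun d => Finset.sum_comm
    simp only [h3]
    rw [Finset.sum_comm]
    refine Finset.sum_congr rfl fun i _ => ?_
    rw [Finset.mul_sum]
    refine Finset.sum_congr rfl fun d _ => ?_
    rw [Finset.mul_sum]
    refine Finset.sum_congr rfl fun e _ => ?_
    unfold gg
    push_cast
    simp only [map_mul, map_pow]
    ring
  simp only [Finset.sum_range_succ, Finset.sum_range_zero, pow_zero, pow_one, mul_one, zero_add] at h1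
  have h2 : Phi a b χ m (c * s * t) = Phi a b χ m c := by
    refine Phi_neg χ ha hb hpar hord hc ?_
    have : c + c * s * t = c * (1 + s * t) := by ring
    rw [this]
    exact hst1.mul_left c
  have h3 : Phi a b χ m (c * s) = Phi a b χ m (c * t) := by
    refine Phi_neg χ ha hb hpar hord (Nat.Coprime.mul_left hc htc) ?_
    have : c * t + c * s = c * (s + t) := by ring
    rw [this]
    exact hst.mul_left c
  rw [h2, h3] at h1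
  have h4 : 2 * (Phi a b χ m c + Phi a b χ m (c * t)) = 0 := by linear_combination h1
  have h5 := (mul_eq_zero.1 h4).resolve_left two_ne'
  exact ⟨h5, by rw [h3]; exact h5⟩

/-- the sum over a class as a function of the class -/
lemma Phi_TT (ha : 6 ≤ a) (hb : 2 ≤ b) {m c : ℕ} (hc : c.Coprime (2 ^ a * 3 ^ b)) (hcM : c < (2 ^ (a - 3) * 3 ^ (b - 1))) :
    Phi a b χ m c = χ (c : ZMod (2 ^ a * 3 ^ b)) * TT m (χ ((1 + (2 ^ (a - 3) * 3 ^ (b - 1)) : ℕ) : ZMod (2 ^ a * 3 ^ b)) ^ c) ((c : k) / (2 ^ a * 3 ^ b : ℕ)) := by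
  rw [Phi, TT, Finset.mul_sum]
  refine Finset.sum_congr rfl fun i hi => ?_
  have hi' := mem_range.1 hi
  have hlt : c + (2 ^ (a - 3) * 3 ^ (b - 1)) * i < (2 ^ a * 3 ^ b) := by
    rw [N_eq ha hb]
    have h1 : (2 ^ (a - 3) * 3 ^ (b - 1)) * i + (2 ^ (a - 3) * 3 ^ (b - 1)) ≤ (2 ^ (a - 3) * 3 ^ (b - 1)) * 24 := by
      calc (2 ^ (a - 3) * 3 ^ (b - 1)) * i + (2 ^ (a - 3) * 3 ^ (b - 1)) = (2 ^ (a - 3) * 3 ^ (b - 1)) * (i + 1) := by ring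
        _ ≤ (2 ^ (a - 3) * 3 ^ (b - 1)) * 24 := Nat.mul_le_mul_left _ (by omega)
    omega
  have h24 : (24 : k) ≠ 0 := by exact_mod_cast nat_ne (k := k) 24 (by norm_num)
  have hMk : (((2 ^ (a - 3) * 3 ^ (b - 1)) : ℕ) : k) ≠ 0 := by
    intro h
    apply NN_ne (k := k) (a := a) (b := b)
    rw [N_eq ha hb, Nat.cast_mul, h, zero_mul]
  unfold gg Fh
  rw [Nat.mod_eq_of_lt hlt, chi_class (a := a) (b := b) χ ha hb hc, pow_mul (χ ((1 + (2 ^ (a - 3) * 3 ^ (b - 1)) : ℕ) : ZMod (2 ^ a * 3 ^ b))) c i]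
  have h3 : (((c + (2 ^ (a - 3) * 3 ^ (b - 1)) * i : ℕ) : k) / ((2 ^ a * 3 ^ b : ℕ) : k)) = (c : k) / ((2 ^ a * 3 ^ b : ℕ) : k) + (i : k) / 24 := by
    rw [N_eq ha hb, Nat.cast_add, Nat.cast_mul (2 ^ (a - 3) * 3 ^ (b - 1)) i, Nat.cast_mul (2 ^ (a - 3) * 3 ^ (b - 1)) 24]
    generalize (((2 ^ (a - 3) * 3 ^ (b - 1)) : ℕ) : k) = Mk at hMk
    push_cast
    field_simp
  rw [h3, mul_assoc]

theorem stepE (ha : 6 ≤ a) (hb : 2 ≤ b) {m α β z0 : ℕ} (hm1 : 1 ≤ m) (hm4 : m ≤ 4)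
    (hord : orderOf (χ ((1 + (2 ^ (a - 3) * 3 ^ (b - 1)) : ℕ) : ZMod (2 ^ a * 3 ^ b))) = 24) (hαβ : 2 * α * β = (2 ^ (a - 3) * 3 ^ (b - 1)))
    (H : ∀ i < m, β < α * (z0 + 24 * i) ∧ α * (z0 + 24 * i) + β < (2 ^ (a - 3) * 3 ^ (b - 1)) ∧ (α * (z0 + 24 * i) + β).Coprime (2 ^ a * 3 ^ b) ∧
      (α * (z0 + 24 * i) - β).Coprime (2 ^ a * 3 ^ b) ∧
      Phi a b χ m (α * (z0 + 24 * i) + β) + Phi a b χ m (α * (z0 + 24 * i) - β) = 0) :
    χ ((α * z0 + β : ℕ) : ZMod (2 ^ a * 3 ^ b)) * (χ ((1 + (2 ^ (a - 3) * 3 ^ (b - 1)) : ℕ) : ZMod (2 ^ a * 3 ^ b)) ^ (α * z0 - β) - 1) +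
      χ ((α * z0 - β : ℕ) : ZMod (2 ^ a * 3 ^ b)) * (χ ((1 + (2 ^ (a - 3) * 3 ^ (b - 1)) : ℕ) : ZMod (2 ^ a * 3 ^ b)) ^ (α * z0 + β) - 1) = 0 := by
  obtain ⟨H1, H2, H3, H4, H5⟩ := H 0 (by omega)
  rw [mul_zero, add_zero] at H1 H2 H3 H4 H5
  set c := α * z0 + β with hc
  set c' := α * z0 - β with hc'
  have hcc : c = c' + 2 * β := by omega
  have ec : ∀ i, α * (z0 + 24 * i) + β = c + 24 * α * i := by
    intro i
    rw [hc]
    ring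
  have ec' : ∀ i, α * (z0 + 24 * i) - β = c' + 24 * α * i := by
    intro i
    have : α * (z0 + 24 * i) = α * z0 + 24 * α * i := by ring
    omega
  simp only [ec, ec'] at H
  set ζ := χ ((1 + (2 ^ (a - 3) * 3 ^ (b - 1)) : ℕ) : ZMod (2 ^ a * 3 ^ b)) with hζ
  have hχc : χ (c : ZMod (2 ^ a * 3 ^ b)) ≠ 0 := by
    have := (ZMod.isUnit_iff_coprime c (2 ^ a * 3 ^ b)).2 H3
    exact (this.map χ).ne_zero
  have hχc' : χ (c' : ZMod (2 ^ a * 3 ^ b)) ≠ 0 := by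
    have := (ZMod.isUnit_iff_coprime c' (2 ^ a * 3 ^ b)).2 H4
    exact (this.map χ).ne_zero
  have h24α : (24 * α : k) ≠ 0 := by
    intro h
    have h1 : ¬ 5 ∣ 24 * α := by
      intro h2
      have h3 : 5 ∣ (2 ^ a * 3 ^ b) := by
        rw [N_eq ha hb, ← hαβ]
        have : 2 * α * β * 24 = (24 * α) * (2 * β) := by ring
        rw [this]
        exact h2.mul_right _
      exact not_five a b h3
    have h2 := nat_ne (k := k) _ h1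
    push_cast at h2
    exact h2 h
  have hζc : ∀ (x i : ℕ), ζ ^ (x + 24 * α * i) = ζ ^ x := by
    intro x i
    have : x + 24 * α * i = x + 24 * (α * i) := by ring
    rw [this, pow_add, pow_mul ζ 24, ← hord, pow_orderOf_eq_one, one_pow, mul_one]
  have key := lead (k := k) hm1 hm4 (z := ζ ^ c) (z' := ζ ^ c') (w := (c : k) / ((2 ^ a * 3 ^ b : ℕ) : k))
    (w' := (c' : k) / ((2 ^ a * 3 ^ b : ℕ) : k)) (d := 24 * α / ((2 ^ a * 3 ^ b : ℕ) : k))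
    (ρ := χ (c' : ZMod (2 ^ a * 3 ^ b)) / χ (c : ZMod (2 ^ a * 3 ^ b))) (zeta_pow24 hord c) (zeta_ne hord H3 ha)
    (zeta_pow24 hord c') (zeta_ne hord H4 ha) (div_ne_zero h24α NN_ne) ?_
  · have h1 : χ (c : ZMod (2 ^ a * 3 ^ b)) * (ζ ^ c' - 1 + χ (c' : ZMod (2 ^ a * 3 ^ b)) / χ (c : ZMod (2 ^ a * 3 ^ b)) * (ζ ^ c - 1)) = 0 := by
      rw [key, mul_zero]
    rw [← h1]
    field_simp
  · intro i hi
    obtain ⟨K1, K2, K3, K4, K5⟩ := H i hi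
    have hci : χ ((c + 24 * α * i : ℕ) : ZMod (2 ^ a * 3 ^ b)) ≠ 0 := by
      have := (ZMod.isUnit_iff_coprime _ (2 ^ a * 3 ^ b)).2 K3
      exact (this.map χ).ne_zero
    rw [Phi_TT χ ha hb K3 K2, Phi_TT χ ha hb K4 (by omega), hζc, hζc] at K5
    have e1 : (((c + 24 * α * i : ℕ) : k) / ((2 ^ a * 3 ^ b : ℕ) : k)) =
        (c : k) / ((2 ^ a * 3 ^ b : ℕ) : k) + i * (24 * α / ((2 ^ a * 3 ^ b : ℕ) : k)) := by
      push_cast
      ring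
    have e2 : (((c' + 24 * α * i : ℕ) : k) / ((2 ^ a * 3 ^ b : ℕ) : k)) =
        (c' : k) / ((2 ^ a * 3 ^ b : ℕ) : k) + i * (24 * α / ((2 ^ a * 3 ^ b : ℕ) : k)) := by
      push_cast
      ring
    rw [e1, e2] at K5
    -- the ratio
    have e3 : χ ((c' + 24 * α * i : ℕ) : ZMod (2 ^ a * 3 ^ b)) * χ (c : ZMod (2 ^ a * 3 ^ b)) =
        χ ((c + 24 * α * i : ℕ) : ZMod (2 ^ a * 3 ^ b)) * χ (c' : ZMod (2 ^ a * 3 ^ b)) := by
      rw [← map_mul, ← map_mul]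
      congr 1
      have h1 : (c' + 24 * α * i) * c = (c + 24 * α * i) * c' + (2 ^ a * 3 ^ b) * i := by
        rw [N_eq ha hb, ← hαβ, hcc]
        ring
      have h2 : (((c' + 24 * α * i) * c : ℕ) : ZMod (2 ^ a * 3 ^ b)) = (((c + 24 * α * i) * c' + (2 ^ a * 3 ^ b) * i : ℕ) : ZMod (2 ^ a * 3 ^ b)) := by
        rw [h1]
      rw [Nat.cast_add _ ((2 ^ a * 3 ^ b) * i), Nat.cast_mul (2 ^ a * 3 ^ b) i, ZMod.natCast_self, zero_mul, add_zero, Nat.cast_mul,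
        Nat.cast_mul] at h2
      exact h2
    have e4 : χ (c' : ZMod (2 ^ a * 3 ^ b)) / χ (c : ZMod (2 ^ a * 3 ^ b)) =
        χ ((c' + 24 * α * i : ℕ) : ZMod (2 ^ a * 3 ^ b)) / χ ((c + 24 * α * i : ℕ) : ZMod (2 ^ a * 3 ^ b)) := by
      rw [div_eq_div_iff hχc hci]
      linear_combination -e3
    rw [e4]
    generalize TT m (ζ ^ c) _ = T1 at K5 ⊢
    generalize TT m (ζ ^ c') _ = T2 at K5 ⊢
    field_simp
    linear_combination K5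

theorem final (ha : 6 ≤ a) (hb : 2 ≤ b) {m α β z0 κ : ℕ} (hm1 : 1 ≤ m) (hm4 : m ≤ 4)
    (hord : orderOf (χ ((1 + (2 ^ (a - 3) * 3 ^ (b - 1)) : ℕ) : ZMod (2 ^ a * 3 ^ b))) = 24) (hαβ : 2 * α * β = (2 ^ (a - 3) * 3 ^ (b - 1))) (hκ0 : 0 < κ) (hκ : κ < 24)
    (hκα : 24 ∣ κ * α)
    (H : ∀ e, (e = 0 ∨ e = κ) → ∀ i < m, β < α * (z0 + e + 24 * i) ∧ α * (z0 + e + 24 * i) + β < (2 ^ (a - 3) * 3 ^ (b - 1)) ∧
      (α * (z0 + e + 24 * i) + β).Coprime (2 ^ a * 3 ^ b) ∧ (α * (z0 + e + 24 * i) - β).Coprime (2 ^ a * 3 ^ b) ∧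
      Phi a b χ m (α * (z0 + e + 24 * i) + β) + Phi a b χ m (α * (z0 + e + 24 * i) - β) = 0) : False := by
  have E0 := stepE χ ha hb hm1 hm4 hord hαβ (H 0 (Or.inl rfl))
  have E1 := stepE χ ha hb hm1 hm4 hord hαβ (H κ (Or.inr rfl))
  obtain ⟨H1, H2, H3, H4, -⟩ := H 0 (Or.inl rfl) 0 (by omega)
  obtain ⟨K1, K2, K3, K4, -⟩ := H κ (Or.inr rfl) 0 (by omega)
  simp only [mul_zero, add_zero] at H1 H2 H3 H4 K1 K2 K3 K4 E0 E1
  set c := α * z0 + β with hc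
  set c' := α * z0 - β with hc'
  have ec : α * (z0 + κ) + β = c + κ * α := by
    rw [hc]
    ring
  have ec' : α * (z0 + κ) - β = c' + κ * α := by
    have : α * (z0 + κ) = α * z0 + κ * α := by ring
    omega
  rw [ec, ec'] at E1
  rw [ec] at K3
  rw [ec'] at K4
  have hcc : c = c' + 2 * β := by omega
  set ζ := χ ((1 + (2 ^ (a - 3) * 3 ^ (b - 1)) : ℕ) : ZMod (2 ^ a * 3 ^ b)) with hζ
  have hζκ : ∀ x : ℕ, ζ ^ (x + κ * α) = ζ ^ x := by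
    intro x
    obtain ⟨w, hw⟩ := hκα
    rw [hw, pow_add, pow_mul ζ 24, ← hord, pow_orderOf_eq_one, one_pow, mul_one]
  rw [hζκ, hζκ] at E1
  -- the ratios
  have hcop : ((c + κ * α) * c').Coprime (2 ^ a * 3 ^ b) := Nat.Coprime.mul_left K3 H4
  have e3 : χ ((c' + κ * α : ℕ) : ZMod (2 ^ a * 3 ^ b)) * χ (c : ZMod (2 ^ a * 3 ^ b)) =
      χ ((c + κ * α : ℕ) : ZMod (2 ^ a * 3 ^ b)) * χ (c' : ZMod (2 ^ a * 3 ^ b)) * ζ ^ (((c + κ * α) * c') * κ) := by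
    rw [← map_mul χ, ← map_mul χ, ← Nat.cast_mul, ← Nat.cast_mul, hζ, ← chi_class (a := a) (b := b) χ ha hb hcop]
    congr 2
    rw [← hαβ, hcc]
    ring
  have hχc : χ (c : ZMod (2 ^ a * 3 ^ b)) ≠ 0 := by
    have := (ZMod.isUnit_iff_coprime c (2 ^ a * 3 ^ b)).2 H3
    exact (this.map χ).ne_zero
  have hχc' : χ (c' : ZMod (2 ^ a * 3 ^ b)) ≠ 0 := by
    have := (ZMod.isUnit_iff_coprime c' (2 ^ a * 3 ^ b)).2 H4
    exact (this.map χ).ne_zero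
  have hχc1 : χ ((c + κ * α : ℕ) : ZMod (2 ^ a * 3 ^ b)) ≠ 0 := by
    have := (ZMod.isUnit_iff_coprime _ (2 ^ a * 3 ^ b)).2 K3
    exact (this.map χ).ne_zero
  have hζ1 : ζ ^ c - 1 ≠ 0 := sub_ne_zero.2 (zeta_ne hord H3 ha)
  -- eliminate
  have h1 : χ ((c + κ * α : ℕ) : ZMod (2 ^ a * 3 ^ b)) * χ (c' : ZMod (2 ^ a * 3 ^ b)) * (ζ ^ c - 1) =
      χ ((c' + κ * α : ℕ) : ZMod (2 ^ a * 3 ^ b)) * χ (c : ZMod (2 ^ a * 3 ^ b)) * (ζ ^ c - 1) := by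
    linear_combination χ ((c + κ * α : ℕ) : ZMod (2 ^ a * 3 ^ b)) * E0 - χ (c : ZMod (2 ^ a * 3 ^ b)) * E1
  rw [e3] at h1
  have h2 : ζ ^ (((c + κ * α) * c') * κ) = 1 := by
    have h3 : (χ ((c + κ * α : ℕ) : ZMod (2 ^ a * 3 ^ b)) * χ (c' : ZMod (2 ^ a * 3 ^ b)) * (ζ ^ c - 1)) *
        (ζ ^ (((c + κ * α) * c') * κ) - 1) = 0 := by
      linear_combination -h1
    rcases mul_eq_zero.1 h3 with h4 | h4
    · exact absurd h4 (mul_ne_zero (mul_ne_zero hχc1 hχc') hζ1)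
    · exact sub_eq_zero.1 h4
  have h3 := orderOf_dvd_of_pow_eq_one h2
  rw [hord] at h3
  have h4 : Nat.Coprime 24 ((c + κ * α) * c') := by
    have h5 : 24 ∣ (2 ^ a * 3 ^ b) := by
      rw [N_eq ha hb]
      exact dvd_mul_left _ _
    exact (Nat.Coprime.coprime_dvd_right h5 hcop).symm
  have h5 := Nat.Coprime.dvd_of_dvd_mul_left h4 h3
  have := Nat.le_of_dvd hκ0 h5
  omega

end

end Pool.Agent.E8helper95.G
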