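import Pool.Agent.E8helper95.GA12

/-!
# Large levels
-/

set_option autoImplicit false

namespace Pool.Agent.E8helper95.G

open Finset Pool.Agent.Y18.GX Polynomial

lemma exists_gens (a b : ℕ) : ∃ h s t, Gens a b h s t := by
  obtain ⟨h, h2, h3⟩ := Nat.chineseRemainder (hcop a b) (g2 a) (g3 b)
  obtain ⟨s, s2, s3⟩ := Nat.chineseRemainder (hcop a b) (2 ^ a - 1) 1
  obtain ⟨t, t2, t3⟩ := Nat.chineseRemainder (hcop a b) 1 (3 ^ b - 1)
  refine ⟨h, s, t, (ZMod.natCast_eq_natCast_iff _ _ _).2 h2, (ZMod.natCast_eq_natCast_iff _ _ _).2 h3, ?_, ?_, ?_, ?_⟩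
  · rw [(ZMod.natCast_eq_natCast_iff _ _ _).2 s2, Nat.cast_sub (Nat.one_le_pow _ _ (by norm_num)),
      ZMod.natCast_self]
    simp
  · rw [(ZMod.natCast_eq_natCast_iff _ _ _).2 s3, Nat.cast_one]
  · rw [(ZMod.natCast_eq_natCast_iff _ _ _).2 t2, Nat.cast_one]
  · rw [(ZMod.natCast_eq_natCast_iff _ _ _).2 t3, Nat.cast_sub (Nat.one_le_pow _ _ (by norm_num)),
      ZMod.natCast_self]
    simp

lemma cop_of {a b x : ℕ} (h2 : x % 2 = 1) (h3 : x % 3 ≠ 0) : x.Coprime (2 ^ a * 3 ^ b) := by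
  refine Nat.Coprime.mul_right (Nat.Coprime.pow_right _ ?_) (Nat.Coprime.pow_right _ ?_)
  · exact Nat.coprime_two_right.2 (Nat.odd_iff.2 h2)
  · rw [Nat.coprime_comm, Nat.Prime.coprime_iff_not_dvd Nat.prime_three]
    omega

/-- the congruence modulo one factor where the sign is `+` -/
lemma modeq_plus {Q t c c' : ℕ} (ht : t ≡ 1 [MOD Q]) (h : c ≡ c' [MOD Q]) : c' ≡ c * t [MOD Q] := by
  have h1 := h.mul ht
  rw [mul_one] at h1
  exact h1.symm

lemma modeq_minus {Q t c c' : ℕ} (ht : Q ∣ t + 1) (h : Q ∣ c + c') : c' ≡ c * t [MOD Q] := by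
  have h1 : c' + c ≡ c * t + c [MOD Q] := by
    have h2 : c' + c ≡ 0 [MOD Q] := Nat.modEq_zero_iff_dvd.2 (by rwa [add_comm])
    have h3 : c * t + c ≡ 0 [MOD Q] := Nat.modEq_zero_iff_dvd.2 (by
      have : c * t + c = c * (t + 1) := by ring
      rw [this]
      exact ht.mul_left c)
    exact h2.trans h3.symm
  exact Nat.ModEq.add_right_cancel' c h1

section
variable {a b : ℕ} {k : Type*} [Field k] [CharP k 5] (χ : MulChar (ZMod (2 ^ a * 3 ^ b)) k)

theorem large1 (ha : 10 ≤ a) (hb : 2 ≤ b) {m : ℕ} (hm1 : 1 ≤ m) (hm4 : m ≤ 4) (hP : Prim a b χ)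
    (hpar : χ (-1) = (-1) ^ m) :
    ∑ x ∈ range (2 ^ a * 3 ^ b), χ (x : ZMod (2 ^ a * 3 ^ b)) *
      aeval ((x : k) / (2 ^ a * 3 ^ b : ℕ)) (FF m) ≠ 0 := by
  intro hS
  obtain ⟨h, s, t, hG⟩ := exists_gens a b
  have V := vals χ hP hG hpar
  have hord := ord_zeta χ (by omega) hb hG V
  have hR := fun c hc => (Phi_R χ (by omega) hb hP hG hpar hord hS (c := c) hc).1
  have t2 : t ≡ 1 [MOD 2 ^ (a - 3)] := by
    have h1 : t ≡ 1 [MOD 2 ^ a] := (ZMod.natCast_eq_natCast_iff _ _ _).1 (by rw [hG.t2, Nat.cast_one])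
    exact h1.of_dvd (pow_dvd_pow _ (by omega))
  have t3 : 3 ^ (b - 1) ∣ t + 1 := by
    have h1 : 3 ^ b ∣ t + 1 := (ZMod.natCast_eq_zero_iff _ _).1 (by push_cast; rw [hG.t3]; ring)
    exact (pow_dvd_pow _ (by omega)).trans h1
  set B := 3 ^ (b - 1) with hB
  set β := 2 ^ (a - 4) with hβ
  set q := 2 ^ (a - 5) / B with hq
  have hB3 : 3 ∣ B := dvd_pow_self 3 (by omega)
  have hBodd : B % 2 = 1 := by
    rw [hB]
    exact Nat.odd_iff.1 (Odd.pow (by decide))
  have hB1 : 3 ≤ B := Nat.le_of_dvd (by positivity) hB3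
  have hβ2 : 2 ^ (a - 3) = 2 * β := by
    rw [hβ, ← pow_succ']
    congr 1
    omega
  have hβ5 : β = 2 * 2 ^ (a - 5) := by
    rw [hβ, ← pow_succ']
    congr 1
    omega
  have hβ64 : 64 ≤ β := by
    calc 64 = 2 ^ 6 := by norm_num
      _ ≤ 2 ^ (a - 4) := Nat.pow_le_pow_right (by norm_num) (by omega)
  have hβ3 : β % 3 ≠ 0 := by
    intro h1
    have h2 := Nat.prime_three.dvd_of_dvd_pow (Nat.dvd_of_mod_eq_zero h1)
    omega
  have hq1 : B * q ≤ 2 ^ (a - 5) := by
    rw [hq]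
    exact Nat.mul_div_le _ _
  have hq2 : 2 ^ (a - 5) < B * (q + 1) := by
    rw [hq]
    exact Nat.lt_mul_div_succ _ (by omega)
  refine final χ (by omega) hb (α := B) (β := β) (z0 := 2 * q + 3) (κ := 8) hm1 hm4 hord ?_ (by norm_num)
    (by norm_num) ?_ ?_
  · rw [hβ2]
    ring
  · obtain ⟨w, hw⟩ := hB3
    exact ⟨w, by rw [hw]; ring⟩
  · intro e he i hi
    have hz : ∃ z, 2 * q + 3 + e + 24 * i = z := ⟨_, rfl⟩
    obtain ⟨z, hz⟩ := hz
    rw [hz]
    have hz1 : z % 2 = 1 := by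
      rcases he with rfl | rfl <;> omega
    have hz2 : 2 * q + 3 ≤ z := by omega
    have hz3 : z ≤ 2 * q + 83 := by
      rcases he with rfl | rfl <;> omega
    have hlow : β < B * z := by
      have h1 : B * (2 * q + 3) ≤ B * z := Nat.mul_le_mul_left _ hz2
      have h2 : B * (2 * q + 3) = 2 * (B * (q + 1)) + B := by ring
      omega
    have hup : B * z + β < 2 ^ (a - 3) * B := by
      have h1 : B * z ≤ B * (2 * q + 83) := Nat.mul_le_mul_left _ hz3
      have h2 : B * (2 * q + 83) = 2 * (B * q) + 83 * B := by ring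
      have h3 : 2 ^ (a - 3) * B = 2 * (β * B) := by rw [hβ2]; ring
      have h4 : 64 * B ≤ β * B := Nat.mul_le_mul_right _ hβ64
      have h5 : β * 3 ≤ β * B := Nat.mul_le_mul_left _ hB1
      -- `2 β + 83 B < 2 β B`
      have h6 : 2 * β + 83 * B < 2 * (β * B) := by nlinarith
      omega
    have hpar2 : (B * z) % 2 = 1 := by
      rw [Nat.mul_mod, hBodd, hz1]
    have h3z : (B * z) % 3 = 0 := Nat.mod_eq_zero_of_dvd (hB3.mul_right z)
    have hβe : β % 2 = 0 := by omega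
    have hc1 : (B * z + β).Coprime (2 ^ a * 3 ^ b) := cop_of (by omega) (by omega)
    have hc2 : (B * z - β).Coprime (2 ^ a * 3 ^ b) := cop_of (by omega) (by omega)
    refine ⟨hlow, hup, hc1, hc2, ?_⟩
    have h1 := hR _ hc1
    have h2 : Phi a b χ m (B * z - β) = Phi a b χ m ((B * z + β) * t) := by
      refine Phi_shift χ (by omega) hb ?_
      refine (Nat.modEq_and_modEq_iff_modEq_mul (hcop _ _)).1 ⟨modeq_plus t2 ?_, modeq_minus t3 ?_⟩
      · have h3 : B * z + β = (B * z - β) + 2 ^ (a - 3) := by omega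
        rw [h3]
        simp [Nat.ModEq]
      · have h3 : B * z + β + (B * z - β) = B * (2 * z) := by
          have : B * (2 * z) = 2 * (B * z) := by ring
          omega
        rw [h3]
        exact dvd_mul_right _ _
    rw [h2]
    exact h1

theorem large2 (ha : 7 ≤ a) (hb : 5 ≤ b) {m : ℕ} (hm1 : 1 ≤ m) (hm4 : m ≤ 4) (hP : Prim a b χ)
    (hpar : χ (-1) = (-1) ^ m) :
    ∑ x ∈ range (2 ^ a * 3 ^ b), χ (x : ZMod (2 ^ a * 3 ^ b)) *
      aeval ((x : k) / (2 ^ a * 3 ^ b : ℕ)) (FF m) ≠ 0 := by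
  intro hS
  obtain ⟨h, s, t, hG⟩ := exists_gens a b
  have V := vals χ hP hG hpar
  have hord := ord_zeta χ (by omega) (by omega) hG V
  have hR := fun c hc => (Phi_R χ (by omega) (by omega) hP hG hpar hord hS (c := c) hc).2
  have s2 : 2 ^ (a - 3) ∣ s + 1 := by
    have h1 : 2 ^ a ∣ s + 1 := (ZMod.natCast_eq_zero_iff _ _).1 (by push_cast; rw [hG.s2]; ring)
    exact (pow_dvd_pow _ (by omega)).trans h1
  have s3 : s ≡ 1 [MOD 3 ^ (b - 1)] := by
    have h1 : s ≡ 1 [MOD 3 ^ b] := (ZMod.natCast_eq_natCast_iff _ _ _).1 (by rw [hG.s3, Nat.cast_one])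
    exact h1.of_dvd (pow_dvd_pow _ (by omega))
  set B := 3 ^ (b - 1) with hB
  set α := 2 ^ (a - 4) with hα
  have hB3 : 3 ∣ B := dvd_pow_self 3 (by omega)
  have hBodd : B % 2 = 1 := by
    rw [hB]
    exact Nat.odd_iff.1 (Odd.pow (by decide))
  have hB81 : 81 ≤ B := by
    calc 81 = 3 ^ 4 := by norm_num
      _ ≤ 3 ^ (b - 1) := Nat.pow_le_pow_right (by norm_num) (by omega)
  have hα2 : 2 ^ (a - 3) = 2 * α := by
    rw [hα, ← pow_succ']
    congr 1
    omega
  have hα8 : 8 ≤ α := by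
    calc 8 = 2 ^ 3 := by norm_num
      _ ≤ 2 ^ (a - 4) := Nat.pow_le_pow_right (by norm_num) (by omega)
  have hα8d : 8 ∣ α := by
    rw [hα, show 8 = 2 ^ 3 by norm_num]
    exact pow_dvd_pow _ (by omega)
  have hα3 : α % 3 ≠ 0 := by
    intro h1
    have h2 := Nat.prime_three.dvd_of_dvd_pow (Nat.dvd_of_mod_eq_zero h1)
    omega
  refine final χ (by omega) (by omega) (α := α) (β := B) (z0 := B - 37) (κ := 3) hm1 hm4 hord ?_ (by norm_num)
    (by norm_num) ?_ ?_
  · rw [hα2]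
  · obtain ⟨w, hw⟩ := hα8d
    exact ⟨w, by rw [hw]; ring⟩
  · intro e he i hi
    have hz : ∃ z, B - 37 + e + 24 * i = z := ⟨_, rfl⟩
    obtain ⟨z, hz⟩ := hz
    rw [hz]
    have hz1 : z % 3 = 2 := by
      rcases he with rfl | rfl <;> omega
    have hz2 : B - 37 ≤ z := by omega
    have hz3 : z ≤ B + 38 := by
      rcases he with rfl | rfl <;> omega
    have hlow : B < α * z := by
      have h1 : 8 * (B - 37) ≤ α * z := Nat.mul_le_mul hα8 hz2
      omega
    have hup : α * z + B < 2 ^ (a - 3) * B := by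
      have h1 : α * z ≤ α * (B + 38) := Nat.mul_le_mul_left _ hz3
      have h2 : α * (B + 38) = α * B + 38 * α := by ring
      have h3 : 2 ^ (a - 3) * B = 2 * (α * B) := by rw [hα2]; ring
      have h4 : 8 * B ≤ α * B := Nat.mul_le_mul_right _ hα8
      have h5 : α * 81 ≤ α * B := Nat.mul_le_mul_left _ hB81
      have h6 : 38 * α + B < α * B := by omega
      omega
    have hpar2 : (α * z) % 2 = 0 := by
      have : α % 2 = 0 := by omega
      rw [Nat.mul_mod, this]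
      simp
    have h3z : (α * z) % 3 ≠ 0 := by
      intro h1
      rcases Nat.prime_three.dvd_mul.1 (Nat.dvd_of_mod_eq_zero h1) with h2 | h2 <;> omega
    have hc1 : (α * z + B).Coprime (2 ^ a * 3 ^ b) := cop_of (by omega) (by omega)
    have hc2 : (α * z - B).Coprime (2 ^ a * 3 ^ b) := cop_of (by omega) (by omega)
    refine ⟨hlow, hup, hc1, hc2, ?_⟩
    have h1 := hR _ hc1
    have h2 : Phi a b χ m (α * z - B) = Phi a b χ m ((α * z + B) * s) := by
      refine Phi_shift χ (by omega) (by omega) ?_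
      refine (Nat.modEq_and_modEq_iff_modEq_mul (hcop _ _)).1 ⟨modeq_minus s2 ?_, modeq_plus s3 ?_⟩
      · have h3 : α * z + B + (α * z - B) = 2 ^ (a - 3) * z := by
          rw [hα2]
          have : 2 * α * z = 2 * (α * z) := by ring
          omega
        rw [h3]
        exact dvd_mul_right _ _
      · have h3 : α * z + B = (α * z - B) + B * 2 := by omega
        rw [h3, ← hB]
        simp [Nat.ModEq]
    rw [h2]
    exact h1

end

end Pool.Agent.E8helper95.G
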