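import Pool.Agent.Results.MP_c2a07f_nt.FiveAndPowersOfThree

/-!
# From the nonvanishing of the sums in characteristic `p` to the values, for one character
-/

set_option autoImplicit false

namespace Pool.Agent.E8helper95.G

open Finset Polynomial Pool.Agent.Y18.GX
open Pool.Agent.Results.MP_c2a07f_nt.FiveAndPowersOfThree (lValue lValue_eq)

section
variable {p : ℕ} (hp : p.Prime)

include hp in
theorem unit_one {N m : ℕ} (ψ : DirichletCharacter ℂ N) (hN1 : N ≠ 1) (hpN' : ¬ p ∣ N) (hpφ : ¬ p ∣ N.totient)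
    (hpar : ψ (-1) = (-1) ^ m) (hm1 : 1 ≤ m) (hmp : m < p) (hψ1 : ψ ≠ 1)
    (hE1 : m = 1 → ψ (p : ZMod N) ≠ 1)
    (hcore : ∀ (k : Type) [Field k] [CharP k p] (χ : MulChar (ZMod N) k),
      (∀ x, IsUnit x → χ x = 1 → ψ x = 1) → χ (-1) = (-1) ^ m →
      ∑ a ∈ range N, χ (a : ZMod N) * Polynomial.aeval ((a : k) / (N : ℕ)) (FF m) ≠ 0) :
    Pool.Agent.Results.MP_c2a07f_nt.FiveAndPowersOfThree.IsUnitAt p (lValue p m ψ) := by
  have : Fact p.Prime := ⟨hp⟩
  have hN0' : N ≠ 0 := by
    intro h
    rw [h] at hpN'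
    exact hpN' (dvd_zero _)
  have : NeZero N := ⟨hN0'⟩
  have hpm : ¬ p ∣ m := fun h => by
    have := Nat.le_of_dvd (by omega) h
    omega
  have hpf : ¬ p ∣ m.factorial := fun h => by
    have := (hp.dvd_factorial).1 h
    omega
  have hsum := sum_char hN0' ψ hψ1
  rw [lValue_eq hN1]
  -- the sum in terms of `FF`
  have hT : ((m.factorial : ℕ) : ℂ) * ∑ a ∈ range N, ψ (a : ZMod N) *
      (((Polynomial.bernoulli m).eval ((a : ℚ) / (N : ℕ)) : ℚ) : ℂ) =
      ∑ a ∈ range N, ψ (a : ZMod N) * aeval ((a : ℂ) / (N : ℕ)) (FF m) := by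
    have h1 : ∀ a : ℕ, aeval ((a : ℂ) / (N : ℕ)) (FF m) = ((m.factorial : ℕ) : ℂ) *
        ((((Polynomial.bernoulli m).eval ((a : ℚ) / (N : ℕ)) : ℚ) : ℂ) - ((_root_.bernoulli m : ℚ) : ℂ)) := by
      intro a
      rw [← FF_eval]
      push_cast
      rfl
    simp only [h1]
    have h2 : ∑ a ∈ range N, ψ (a : ZMod N) * (((m.factorial : ℕ) : ℂ) *
        ((((Polynomial.bernoulli m).eval ((a : ℚ) / (N : ℕ)) : ℚ) : ℂ) - ((_root_.bernoulli m : ℚ) : ℂ))) =
        ((m.factorial : ℕ) : ℂ) * ∑ a ∈ range N, ψ (a : ZMod N) *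
      (((Polynomial.bernoulli m).eval ((a : ℚ) / (N : ℕ)) : ℚ) : ℂ) -
      ((m.factorial : ℕ) : ℂ) * ((_root_.bernoulli m : ℚ) : ℂ) *
        ∑ a ∈ range N, ψ (a : ZMod N) := by
      rw [Finset.mul_sum, Finset.mul_sum, ← Finset.sum_sub_distrib]
      refine Finset.sum_congr rfl fun a _ => ?_
      ring
    rw [h2, hsum, mul_zero, sub_zero]
  set S := ∑ a ∈ range N, ψ (a : ZMod N) *
      (((Polynomial.bernoulli m).eval ((a : ℚ) / (N : ℕ)) : ℚ) : ℂ) with hS
  set T := ∑ a ∈ range N, ψ (a : ZMod N) * aeval ((a : ℂ) / (N : ℕ)) (FF m) with hTd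
  set E := 1 - ψ (p : ZMod N) * (p : ℂ) ^ (m - 1) with hE
  -- the valuations
  have hval : ∀ B : ValuationSubring ℂ, B.valuation (p : ℂ) < 1 → B.valuation T = 1 ∧ B.valuation E = 1 := by
    intro B hB
    have hch := charP_res B hp hB
    have hm1' : ∀ a, ψ a ∈ B := char_mem B hN0' ψ
    set χ := liftChar B ψ hm1' with hχ
    set ρ := IsLocalRing.residue B with hρ
    have hck : ∀ a, (χ.ringHomComp ρ) a = ρ (χ a) := fun a => rfl
    have hc : ∀ a, ((χ a : B) : ℂ) = ψ a := fun a => rfl
    have hnk : ∀ n : ℕ, ¬ p ∣ n → ((n : ℕ) : IsLocalRing.ResidueField B) ≠ 0 := fun n hn h =>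
      hn ((CharP.cast_eq_zero_iff (IsLocalRing.ResidueField B) p n).1 h)
    -- properties of the reductions
    have hinj : ∀ x, IsUnit x → (χ.ringHomComp ρ) x = 1 → ψ x = 1 := by
      intro x hx h1
      by_contra hne
      refine red_ne_one hp hB hpφ (χ x) ?_ ?_ (by rw [← hck]; exact h1)
      · obtain ⟨U, rfl⟩ := hx
        rw [← map_pow, ← Units.val_pow_eq_pow_val, ZMod.pow_totient, Units.val_one, map_one]
      · intro h
        exact hne (congrArg Subtype.val h)
    have hpar' : (χ.ringHomComp ρ) (-1) = (-1) ^ m := by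
      have h1 : χ (-1) = (-1) ^ m := by
        apply Subtype.ext
        push_cast
        rw [hc]
        exact hpar
      rw [hck, h1, map_pow, map_neg, map_one]
    constructor
    · -- `T`
      have hNB : IsUnit (N : B) := by
        rw [← IsLocalRing.residue_ne_zero_iff_isUnit, map_natCast]
        exact hnk N hpN'
      obtain ⟨ν, hν⟩ := hNB.exists_right_inv
      have hνC : ∀ a : ℕ, (((a : B) * ν : B) : ℂ) = (a : ℂ) / (N : ℕ) := by
        intro a
        have h1 : (N : ℂ) * (ν : ℂ) = 1 := by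
          have := congrArg (Subtype.val) hν
          push_cast at this
          exact this
        have h2 : (N : ℂ) ≠ 0 := by exact_mod_cast hN0'
        push_cast
        field_simp
        linear_combination (a : ℂ) * h1
      have hνk : ∀ a : ℕ, ρ ((a : B) * ν) = (a : IsLocalRing.ResidueField B) / (N : ℕ) := by
        intro a
        have h1 : (N : IsLocalRing.ResidueField B) * ρ ν = 1 := by
          have := congrArg ρ hν
          rwa [map_mul, map_natCast, map_one] at this
        have h2 := hnk N hpN'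
        rw [map_mul, map_natCast]
        field_simp
        linear_combination (a : IsLocalRing.ResidueField B) * h1
      set TB : B := ∑ a ∈ range N, χ (a : ZMod N) * aeval ((a : B) * ν) (FF m)
        with hTB
      have e1 : (TB : ℂ) = T := by
        have h1 : (TB : ℂ) = B.subtype TB := rfl
        rw [h1, hTB, hTd, map_sum]
        refine Finset.sum_congr rfl fun a _ => ?_
        rw [map_mul]
        have h2 : B.subtype (aeval ((a : B) * ν) (FF m)) = aeval (B.subtype ((a : B) * ν)) (FF m) :=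
          (Polynomial.aeval_algHom_apply B.subtype.toIntAlgHom ((a : B) * ν) (FF m)).symm
        rw [h2]
        have h4 : B.subtype ((a : B) * ν) = (a : ℂ) / (N : ℕ) := hνC a
        rw [h4]
        rfl
      have e2 : ρ TB = ∑ a ∈ range N, (χ.ringHomComp ρ) (a : ZMod N) *
          aeval ((a : IsLocalRing.ResidueField B) / (N : ℕ)) (FF m) := by
        rw [hTB, map_sum]
        refine Finset.sum_congr rfl fun a _ => ?_
        rw [map_mul]
        have h2 : ρ (aeval ((a : B) * ν) (FF m)) = aeval (ρ ((a : B) * ν)) (FF m) :=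
          (Polynomial.aeval_algHom_apply ρ.toIntAlgHom ((a : B) * ν) (FF m)).symm
        rw [h2, hνk]
        rfl
      rw [← e1]
      apply val_of_res
      rw [e2]
      exact hcore _ (χ.ringHomComp ρ) hinj hpar'
    · -- the Euler factor
      have h1 : ((1 - χ (p : ZMod N) * (p : B) ^ (m - 1) : B) : ℂ) = E := by
        rw [hE]
        push_cast
        rfl
      rw [← h1]
      apply val_of_res
      have hp0 : ((p : ℕ) : IsLocalRing.ResidueField B) = 0 :=
        (CharP.cast_eq_zero_iff (IsLocalRing.ResidueField B) p p).2 dvd_rfl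
      have h2 : IsLocalRing.residue B (1 - χ (p : ZMod N) * (p : B) ^ (m - 1)) =
          1 - (χ.ringHomComp ρ) (p : ZMod N) *
            ((p : ℕ) : IsLocalRing.ResidueField B) ^ (m - 1) := by
        rw [hck, hρ, map_sub, map_one, map_mul (IsLocalRing.residue B),
          map_pow, map_natCast (IsLocalRing.residue B)]
      rw [h2, hp0]
      rcases Nat.lt_or_ge 1 m with h4 | h4
      · rw [zero_pow (by omega), mul_zero, sub_zero]
        exact one_ne_zero
      · have h5 : m = 1 := by omega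
        subst h5
        rw [Nat.sub_self, pow_zero, mul_one]
        intro h6
        have hu : IsUnit ((p : ℕ) : ZMod N) :=
          (ZMod.isUnit_iff_coprime p N).2 ((Nat.Prime.coprime_iff_not_dvd hp).2 hpN')
        exact hE1 rfl (hinj _ hu (sub_eq_zero.1 h6).symm)
  -- the conclusion
  have hz : E * ((N : ℂ) ^ (m - 1) * S) / m = E * (N : ℂ) ^ (m - 1) * T / (((m.factorial : ℕ) : ℂ) * m) := by
    rw [← hT]
    have h1 : ((m.factorial : ℕ) : ℂ) ≠ 0 := by exact_mod_cast (Nat.factorial_pos m).ne'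
    field_simp
  rw [hz]
  have hv1 : ∀ B : ValuationSubring ℂ, B.valuation (p : ℂ) < 1 →
      B.valuation (E * (N : ℂ) ^ (m - 1) * T / (((m.factorial : ℕ) : ℂ) * m)) = 1 := by
    intro B hB
    obtain ⟨h1, h2⟩ := hval B hB
    rw [map_div₀, map_mul, map_mul, map_mul, map_pow, h1, h2, nat_val hp hB hpN', nat_val hp hB hpm,
      nat_val hp hB hpf]
    simp
  refine unit_of_val hp ?_ hv1
  intro h0
  obtain ⟨B, hB⟩ := exists_over hp
  have h1 := hv1 B hB
  rw [h0, map_zero] at h1
  exact zero_ne_one h1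

end

end Pool.Agent.E8helper95.G
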