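import Pool.Agent.E8helper95.GA13
import Pool.Agent.E8helper95.GA2

/-!
# All levels `2^a * 3^b` for `p = 5`
-/

set_option autoImplicit false

namespace Pool.Agent.E8helper95.G

open Finset Pool.Agent.Y18.GX Polynomial
open Pool.Agent.Results.MP_c2a07f_nt.FiveAndPowersOfThree (lValue lValue_eq IsUnitAt part_one part_three)

section
variable {k : Type*} [Field k] {a b : ℕ}

/-- `ψ` primitive of level `N` is not trivial on the numbers `1` modulo `d` -/
lemma prim_ex {N d : ℕ} [NeZero N] (ψ : DirichletCharacter ℂ N) (hprim : ψ.IsPrimitive) (hd : d ∣ N) (hlt : d < N) :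
    ∃ u : ℕ, u.Coprime N ∧ u ≡ 1 [MOD d] ∧ ψ (u : ZMod N) ≠ 1 := by
  by_contra hcon
  push Not at hcon
  have h2 : ψ.FactorsThrough d := by
    rw [DirichletCharacter.factorsThrough_iff_ker_unitsMap hd]
    intro U hU
    rw [MonoidHom.mem_ker] at hU ⊢
    have h3 : ((U : ZMod N).cast : ZMod d) = 1 := by
      have := congrArg Units.val hU
      simpa [ZMod.unitsMap] using this
    set x := (U : ZMod N).val with hx
    have hxU : ((x : ℕ) : ZMod N) = U := by rw [hx, ZMod.natCast_val, ZMod.cast_id', id_eq]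
    have h4 : x ≡ 1 [MOD d] := by
      rw [← ZMod.natCast_eq_natCast_iff, Nat.cast_one, ← h3, hx, ZMod.natCast_val]
    have h5 : x.Coprime N := by
      rw [← ZMod.isUnit_iff_coprime, hxU]
      exact U.isUnit
    have h9 := hcon x h5 h4
    apply Units.ext
    rw [MulChar.coe_toUnitHom, ← hxU, h9, Units.val_one]
  have h3 := DirichletCharacter.conductor_dvd_of_mem_conductorSet (χ := ψ) (d := d) h2
  rw [DirichletCharacter.isPrimitive_def] at hprim
  rw [hprim] at h3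
  have h0 : 0 < d := by
    rcases Nat.eq_zero_or_pos d with h | h
    · subst h
      have := Nat.eq_zero_of_zero_dvd hd
      exact absurd this (NeZero.ne N)
    · exact h
  exact absurd (Nat.le_of_dvd h0 h3) (by omega)

lemma prim_of (ψ : DirichletCharacter ℂ (2 ^ a * 3 ^ b)) (hprim : ψ.IsPrimitive) : Prim a b ψ := by
  have : NeZero (2 ^ a * 3 ^ b) := ⟨by positivity⟩
  constructor
  · intro ha
    have e : 2 ^ a = 2 ^ (a - 1) * 2 := by
      rw [← pow_succ]
      congr 1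
      omega
    refine prim_ex ψ hprim ?_ ?_
    · exact mul_dvd_mul (pow_dvd_pow _ (by omega)) dvd_rfl
    · have h1 : 0 < 2 ^ (a - 1) * 3 ^ b := by positivity
      have h2 : 2 ^ a * 3 ^ b = 2 * (2 ^ (a - 1) * 3 ^ b) := by
        rw [e]
        ring
      omega
  · intro hb
    have e : 3 ^ b = 3 ^ (b - 1) * 3 := by
      rw [← pow_succ]
      congr 1
      omega
    refine prim_ex ψ hprim ?_ ?_
    · exact mul_dvd_mul dvd_rfl (pow_dvd_pow _ (by omega))
    · have h1 : 0 < 2 ^ a * 3 ^ (b - 1) := by positivity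
      have h2 : 2 ^ a * 3 ^ b = 3 * (2 ^ a * 3 ^ (b - 1)) := by
        rw [e]
        ring
      omega

/-- a relation between characters transfers primitivity -/
lemma Prim.transfer {k' : Type*} [Field k'] {χ : MulChar (ZMod (2 ^ a * 3 ^ b)) k}
    {χ' : MulChar (ZMod (2 ^ a * 3 ^ b)) k'} (hP : Prim a b χ)
    (h : ∀ x, IsUnit x → χ' x = 1 → χ x = 1) : Prim a b χ' := by
  constructor
  · intro ha
    obtain ⟨u, h1, h2, h3⟩ := hP.two ha
    exact ⟨u, h1, h2, fun h4 => h3 (h _ ((ZMod.isUnit_iff_coprime _ _).2 h1) h4)⟩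
  · intro hb
    obtain ⟨u, h1, h2, h3⟩ := hP.three hb
    exact ⟨u, h1, h2, fun h4 => h3 (h _ ((ZMod.isUnit_iff_coprime _ _).2 h1) h4)⟩

/-- the value at `5` -/
theorem euler5 (χ : MulChar (ZMod (2 ^ a * 3 ^ b)) k) (hP : Prim a b χ)
    (h00 : ¬ (a = 0 ∧ b = 0)) (h20 : ¬ (a = 2 ∧ b = 0)) (h31 : ¬ (a = 3 ∧ b = 1)) :
    χ ((5 : ℕ) : ZMod (2 ^ a * 3 ^ b)) ≠ 1 := by
  obtain ⟨A8, Ane, A0, A2, A3, A4, A5⟩ := good2 a (fs (hcop a b) χ) (fun ha => prim2 χ hP ha)
  obtain ⟨B3, B0, B1, B1', B2⟩ := good3 b (sn (hcop a b) χ) (fun hb => prim3 χ hP hb)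
  intro h5
  have h5n : ∀ n : ℕ, χ ((5 ^ n : ℕ) : ZMod (2 ^ a * 3 ^ b)) = 1 := by
    intro n
    rw [Nat.cast_pow, map_pow, h5, one_pow]
  rcases Nat.lt_or_ge b 2 with hb | hb
  · rcases Nat.lt_or_ge a 4 with ha | ha
    · rw [fs_sn (hcop a b) χ] at h5
      interval_cases b
      · -- `b = 0`
        have : sn (hcop a 0) χ ((5 : ℕ) : ZMod (3 ^ 0)) = 1 := by
          have h1 : ((5 : ℕ) : ZMod (3 ^ 0)) = 1 := by decide
          rw [h1, map_one]
        rw [this, mul_one] at h5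
        interval_cases a
        · exact h00 ⟨rfl, rfl⟩
        · exact Ane rfl
        · exact h20 ⟨rfl, rfl⟩
        · exact (A3 rfl).2 h5
      · have e5 : ((5 : ℕ) : ZMod (3 ^ 1)) = -1 := by decide
        rw [e5] at h5
        interval_cases a
        · have h1 : ((5 : ℕ) : ZMod (2 ^ 0)) = 1 := by decide
          rw [h1, map_one, one_mul] at h5
          exact B1 rfl h5
        · exact Ane rfl
        · have h1 : ((5 : ℕ) : ZMod (2 ^ 2)) = 1 := by decide
          rw [h1, map_one, one_mul] at h5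
          exact B1 rfl h5
        · exact h31 ⟨rfl, rfl⟩
    · -- `a ≥ 4`, `b ≤ 1`
      have h1 := h5n (2 * 2 ^ (a - 4))
      obtain ⟨y, hy, hyc⟩ := pow_iter (ℓ := 2) (d := 25) (r := 3) (x := 3) (Or.inr ⟨rfl, rfl⟩) (by norm_num)
        (by norm_num) (a - 4)
      have e1 : 5 ^ (2 * 2 ^ (a - 4)) = 25 ^ 2 ^ (a - 4) := by
        rw [pow_mul]
        norm_num
      rw [e1, fs_sn (hcop a b) χ] at h1
      have e2 : sn (hcop a b) χ ((25 ^ 2 ^ (a - 4) : ℕ) : ZMod (3 ^ b)) = 1 := by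
        have h2 : ((25 : ℕ) : ZMod (3 ^ b)) = 1 := by
          interval_cases b <;> decide
        rw [Nat.cast_pow, h2, one_pow, map_one]
      rw [e2, mul_one, hy] at h1
      have e3 : 3 + (a - 4) = a - 1 := by omega
      rw [e3, psi_one_add (fs (hcop a b) χ) (n := 1) (by omega)] at h1
      have h3 : fs (hcop a b) χ ((1 + 2 ^ (a - 1) : ℕ) : ZMod (2 ^ a)) ^ 2 = 1 := by
        have := psi_M_pow (fs (hcop a b) χ) (n := 1) (by omega)
        rwa [pow_one] at this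
      have h4 : fs (hcop a b) χ ((1 + 2 ^ (a - 1) : ℕ) : ZMod (2 ^ a)) ≠ 1 := by
        rcases Nat.eq_or_lt_of_le ha with h4 | h4
        · subst h4
          have e4 : ((1 + 2 ^ (4 - 1) : ℕ) : ZMod (2 ^ 4)) = ((g2 4 : ℕ) : ZMod (2 ^ 4)) ^ 2 := by decide
          rw [e4, map_pow]
          exact (A4 rfl).2
        · rcases Nat.eq_or_lt_of_le h4 with h6 | h6
          · have h7 : a = 5 := by omega
            subst h7
            have e4 : ((1 + 2 ^ (5 - 1) : ℕ) : ZMod (2 ^ 5)) = ((g2 5 : ℕ) : ZMod (2 ^ 5)) ^ 4 := by decide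
            rw [e4, map_pow]
            exact A5 le_rfl
          · have hg : g2 a = 1 + 2 ^ (a - 3) := by
              unfold g2
              rw [if_neg (by omega)]
            rw [← psi_M_pow' (fs (hcop a b) χ) (n := 3) (by omega) (by norm_num), ← hg]
            exact A5 (by omega)
      exact ne_one_of_coprime h4 h3 hyc h1
  · -- `b ≥ 2`
    have hg : g3 b = 1 + 3 ^ (b - 1) := by
      unfold g3
      rw [if_neg (by omega)]
    obtain ⟨y, hy, hyc⟩ := pow_iter (ℓ := 3) (d := 25 ^ 2 ^ a) (r := 1) (x := (25 ^ 2 ^ a - 1) / 3)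
      (Or.inl ⟨rfl, by rw [Nat.pow_mod]; norm_num⟩)
      (by
        have h1 : 25 ^ 2 ^ a % 3 = 1 := by
          rw [Nat.pow_mod]
          norm_num
        generalize 25 ^ 2 ^ a = Q at h1 ⊢
        omega)
      (by
        have h9 := mod9 a
        rw [Nat.coprime_comm, Nat.Prime.coprime_iff_not_dvd Nat.prime_three]
        generalize 25 ^ 2 ^ a = Q at h9 ⊢
        omega) (b - 2)
    have h1 := h5n (2 * 2 ^ a * 3 ^ (b - 2))
    have e1 : 5 ^ (2 * 2 ^ a * 3 ^ (b - 2)) = (25 ^ 2 ^ a) ^ 3 ^ (b - 2) := by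
      rw [pow_mul, pow_mul]
      norm_num
    rw [e1, fs_sn (hcop a b) χ] at h1
    have e2 : fs (hcop a b) χ (((25 ^ 2 ^ a) ^ 3 ^ (b - 2) : ℕ) : ZMod (2 ^ a)) = 1 := by
      have h2 : ((25 ^ 2 ^ a : ℕ) : ZMod (2 ^ a)) = 1 := by
        obtain ⟨w, hw, -⟩ := q_fact a
        have h3 : 25 ^ 2 ^ a = 1 + 2 ^ a * (24 * w) := by
          have : 1 ≤ 25 ^ 2 ^ a := Nat.one_le_pow _ _ (by norm_num)
          have h4 : 24 * 2 ^ a * w = 2 ^ a * (24 * w) := by ring
          omega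
        rw [h3, Nat.cast_add, Nat.cast_mul, ZMod.natCast_self, zero_mul, add_zero, Nat.cast_one]
      rw [Nat.cast_pow, h2, one_pow, map_one]
    have e3 : 1 + (b - 2) = b - 1 := by omega
    rw [e2, one_mul, hy, e3, psi_one_add (sn (hcop a b) χ) (n := 1) (by omega)] at h1
    have h3 : sn (hcop a b) χ ((1 + 3 ^ (b - 1) : ℕ) : ZMod (3 ^ b)) ^ 3 = 1 := by
      rw [← hg]
      exact B3
    have h4 : sn (hcop a b) χ ((1 + 3 ^ (b - 1) : ℕ) : ZMod (3 ^ b)) ≠ 1 := by
      rw [← hg]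
      exact B2 hb
    exact ne_one_of_coprime h4 h3 hyc h1

end

section
variable {a b : ℕ}

lemma sound_hom {k K : Type*} [Field k] [Field K] [CharP K 5] (φ : k →+* K) {θ : K} (hθ : θ ^ 2 = 2)
    {m h s t : ℕ} (hm1 : 1 ≤ m) (hm4 : m ≤ 4) (hchk : Chk a b m h s t)
    (χ : MulChar (ZMod (2 ^ a * 3 ^ b)) k) (hP : Prim a b χ) (hpar : χ (-1) = (-1) ^ m) :
    ∑ x ∈ range (2 ^ a * 3 ^ b), χ (x : ZMod (2 ^ a * 3 ^ b)) *
      aeval ((x : k) / (2 ^ a * 3 ^ b : ℕ)) (FF m) ≠ 0 := by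
  intro hS
  set χ' := χ.ringHomComp φ with hχ'
  have hc : ∀ x, χ' x = φ (χ x) := fun x => rfl
  refine sound hθ hm1 hm4 hchk χ' (hP.transfer ?_) ?_ ?_
  · intro x _ h1
    rw [hc, ← map_one φ] at h1
    exact φ.injective h1
  · rw [hc, hpar, map_pow, map_neg, map_one]
  · have h1 := congrArg φ hS
    rw [map_zero, map_sum] at h1
    rw [← h1]
    refine Finset.sum_congr rfl fun x _ => ?_
    rw [map_mul, hc]
    congr 1
    have h2 : φ (aeval ((x : k) / (2 ^ a * 3 ^ b : ℕ)) (FF m)) =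
        aeval (φ ((x : k) / (2 ^ a * 3 ^ b : ℕ))) (FF m) :=
      (Polynomial.aeval_algHom_apply φ.toIntAlgHom _ (FF m)).symm
    rw [h2, map_div₀, map_natCast, map_natCast]

/-- the finite check, for every field -/
theorem sound' {k : Type} [Field k] [CharP k 5] {m h s t : ℕ} (hm1 : 1 ≤ m) (hm4 : m ≤ 4) (hchk : Chk a b m h s t)
    (χ : MulChar (ZMod (2 ^ a * 3 ^ b)) k) (hP : Prim a b χ) (hpar : χ (-1) = (-1) ^ m) :
    ∑ x ∈ range (2 ^ a * 3 ^ b), χ (x : ZMod (2 ^ a * 3 ^ b)) *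
      aeval ((x : k) / (2 ^ a * 3 ^ b : ℕ)) (FF m) ≠ 0 := by
  have : CharP (AlgebraicClosure k) 5 := charP_of_injective_algebraMap (algebraMap k (AlgebraicClosure k)).injective 5
  obtain ⟨θ, hθ⟩ := IsAlgClosed.exists_pow_nat_eq (2 : AlgebraicClosure k) (n := 2) (by norm_num)
  exact sound_hom (algebraMap k (AlgebraicClosure k)) hθ hm1 hm4 hchk χ hP hpar

/-- the sums do not vanish in characteristic `5` -/
theorem nonvanish {k : Type} [Field k] [CharP k 5] {m : ℕ} (hm1 : 1 ≤ m) (hm4 : m ≤ 4)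
    (hex : excl a b m = false) (hs2 : ¬ 64 * m * 3 ^ b ≤ 2 ^ a) (hs3 : ¬ 9 * m * 2 ^ a ≤ 3 ^ b)
    (χ : MulChar (ZMod (2 ^ a * 3 ^ b)) k) (hP : Prim a b χ) (hpar : χ (-1) = (-1) ^ m) :
    ∑ x ∈ range (2 ^ a * 3 ^ b), χ (x : ZMod (2 ^ a * 3 ^ b)) *
      aeval ((x : k) / (2 ^ a * 3 ^ b : ℕ)) (FF m) ≠ 0 := by
  obtain ⟨-, Ane, -⟩ := good2 a (fs (hcop a b) χ) (fun ha => prim2 χ hP ha)
  have hneed : need a b m = true := by
    unfold need
    simp only [hex, hs2, hs3, Bool.not_false, decide_false, Bool.and_true, Bool.not_eq_true', beq_eq_false_iff_ne]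
    exact Ane
  have hmm : m ∈ [1, 2, 3, 4] := by
    interval_cases m <;> simp
  rcases Nat.lt_or_ge a 10 with ha | ha
  · rcases Nat.lt_or_ge b 5 with hb | hb
    · rcases Nat.lt_or_ge a 5 with ha5 | ha5
      · exact sound' hm1 hm4 (chk_1 a (by interval_cases a <;> simp) b (by interval_cases b <;> simp) m hmm hneed)
          χ hP hpar
      · exact sound' hm1 hm4 (chk_2 a (by interval_cases a <;> simp) b (by interval_cases b <;> simp) m hmm hneed)
          χ hP hpar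
    · rcases Nat.lt_or_ge a 7 with ha7 | ha7
      · rcases Nat.lt_or_ge b 8 with hb8 | hb8
        · exact sound' hm1 hm4 (chk_3 a (by interval_cases a <;> simp) b (by interval_cases b <;> simp) m hmm hneed)
            χ hP hpar
        · exfalso
          apply hs3
          have h1 : 2 ^ a ≤ 2 ^ 6 := Nat.pow_le_pow_right (by norm_num) (by omega)
          have h2 : 3 ^ 8 ≤ 3 ^ b := Nat.pow_le_pow_right (by norm_num) hb8
          calc 9 * m * 2 ^ a ≤ 9 * 4 * 2 ^ 6 := Nat.mul_le_mul (Nat.mul_le_mul_left _ hm4) h1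
            _ ≤ 3 ^ 8 := by norm_num
            _ ≤ 3 ^ b := h2
      · exact large2 χ ha7 hb hm1 hm4 hP hpar
  · rcases Nat.lt_or_ge b 2 with hb | hb
    · exfalso
      apply hs2
      have h1 : 3 ^ b ≤ 3 ^ 1 := Nat.pow_le_pow_right (by norm_num) (by omega)
      have h2 : 2 ^ 10 ≤ 2 ^ a := Nat.pow_le_pow_right (by norm_num) ha
      calc 64 * m * 3 ^ b ≤ 64 * 4 * 3 ^ 1 := Nat.mul_le_mul (Nat.mul_le_mul_left _ hm4) h1
        _ ≤ 2 ^ 10 := by norm_num
        _ ≤ 2 ^ a := h2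
    · exact large1 χ ha hb hm1 hm4 hP hpar

end

end Pool.Agent.E8helper95.G
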