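import Pool.Agent.E8helper95.GA14

/-!
# The values are units, outside the exceptional levels
-/

set_option autoImplicit false

namespace Pool.Agent.E8helper95.G

open Finset Pool.Agent.Y18.GX Polynomial
open Pool.Agent.Results.MP_c2a07f_nt.FiveAndPowersOfThree (lValue lValue_eq part_one part_three)


lemma large_two {N a b m : ℕ} (hN : N = 3 ^ b * 2 ^ a) (hm1 : 1 ≤ m) (hm4 : m ≤ 4)
    (hs : 64 * m * 3 ^ b ≤ 2 ^ a) (ψ : DirichletCharacter ℂ N) (hc : 2 ^ a ∣ ψ.conductor)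
    (hpar : ψ (-1) = (-1) ^ m) : Pool.Agent.Results.MP_c2a07f_nt.FiveAndPowersOfThree.IsUnitAt 5 (lValue 5 m ψ) := by
  subst hN
  obtain ⟨y, hy, -⟩ := pow_iter (ℓ := 3) (d := 25) (r := 1) (x := 8) (Or.inl ⟨rfl, rfl⟩) (by norm_num)
    (by norm_num) b
  have e1 : 5 ^ (2 * 3 ^ b) = 25 ^ 3 ^ b := by
    rw [pow_mul]
    norm_num
  have h16 : 25 ^ 3 ^ b % 16 = 9 := by
    obtain ⟨j, hj⟩ : Odd (3 ^ b) := Odd.pow (by decide)
    rw [hj, pow_succ, pow_mul, Nat.mul_mod, Nat.pow_mod]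
    norm_num
  refine part_one (p := 5) (by norm_num) le_rfl (Or.inl rfl) (N₁ := 3 ^ b) (g := 2 * 3 ^ b) (n := 3)
    (Nat.Coprime.pow_left _ (by norm_num)) ?_ (even_two_mul _) ?_ ?_ ?_ hm1 (by omega) ?_ ψ hc hpar
  · intro h
    have := (Nat.Prime.dvd_of_dvd_pow (by norm_num : Nat.Prime 5) h)
    omega
  · rw [e1]
    rcases Nat.eq_zero_or_pos b with h0 | h0
    · subst h0
      norm_num
    · rw [Nat.totient_prime_pow Nat.prime_three h0]
      have h2 : 2 ∣ 25 ^ 3 ^ b - 1 := by omega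
      have h3 : 3 ^ (b - 1) ∣ 25 ^ 3 ^ b - 1 := by
        rw [hy, Nat.add_sub_cancel_left]
        exact (pow_dvd_pow _ (by omega)).mul_right _
      refine Nat.Coprime.mul_dvd_of_dvd_of_dvd ?_ h3 h2
      exact Nat.Coprime.pow_left _ (by norm_num)
  · rw [e1]
    norm_num
    omega
  · rw [e1]
    norm_num
    omega
  · calc m * 3 ^ b * 2 ^ (2 * 3) = 64 * m * 3 ^ b := by ring
      _ ≤ 2 ^ a := hs

lemma large_three {N a b m : ℕ} (hN : N = 2 ^ a * 3 ^ b) (hm1 : 1 ≤ m) (hm4 : m ≤ 4)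
    (hs : 9 * m * 2 ^ a ≤ 3 ^ b) (ψ : DirichletCharacter ℂ N) (hc : 3 ^ b ∣ ψ.conductor)
    (hpar : ψ (-1) = (-1) ^ m) : Pool.Agent.Results.MP_c2a07f_nt.FiveAndPowersOfThree.IsUnitAt 5 (lValue 5 m ψ) := by
  subst hN
  obtain ⟨w, hw, hwc⟩ := q_fact a
  have e1 : 5 ^ (2 * 2 ^ a) = 25 ^ 2 ^ a := by
    rw [pow_mul]
    norm_num
  have h9 := mod9 a
  refine part_one (p := 5) (by norm_num) le_rfl (Or.inr rfl) (N₁ := 2 ^ a) (g := 2 * 2 ^ a) (n := 1)
    (Nat.Coprime.pow_left _ (by norm_num)) ?_ (even_two_mul _) ?_ ?_ ?_ hm1 (by omega) ?_ ψ hc hpar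
  · intro h
    have := (Nat.Prime.dvd_of_dvd_pow (by norm_num : Nat.Prime 5) h)
    omega
  · rw [e1, hw]
    have h4 : (2 ^ a).totient ∣ 2 ^ a := by
      rcases Nat.eq_zero_or_pos a with h0 | h0
      · subst h0
        norm_num
      · rw [Nat.totient_prime_pow Nat.prime_two h0]
        exact ⟨2, by rw [mul_comm (2 ^ (a - 1) * (2 - 1)), show 2 - 1 = 1 by norm_num, mul_one, ← pow_succ']; congr 1; omega⟩
    exact (h4.mul_left 24).mul_right w
  · rw [e1]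
    generalize 25 ^ 2 ^ a = Q at h9 ⊢
    norm_num
    omega
  · rw [e1]
    generalize 25 ^ 2 ^ a = Q at h9 ⊢
    norm_num
    omega
  · calc m * 2 ^ a * 3 ^ (2 * 1) = 9 * m * 2 ^ a := by ring
      _ ≤ 3 ^ b := hs

/-- all levels outside the list -/
theorem forward (a b m : ℕ) (hm1 : 1 ≤ m) (hm4 : m ≤ 4) (ψ : DirichletCharacter ℂ (2 ^ a * 3 ^ b))
    (hprim : ψ.IsPrimitive) (hpar : ψ (-1) = (-1) ^ m)
    (h1 : ¬ (a = 0 ∧ b = 0 ∧ m = 4)) (h2 : ¬ (a = 2 ∧ b = 0 ∧ m = 1)) (h3 : ¬ (a = 3 ∧ b = 1 ∧ m = 1))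
    (h4 : ¬ (a = 4 ∧ b = 0 ∧ m = 2)) (h5 : ¬ (a = 4 ∧ b = 1 ∧ m = 3)) (h6 : ¬ (a = 2 ∧ b = 2 ∧ m = 4)) :
    Pool.Agent.Results.MP_c2a07f_nt.FiveAndPowersOfThree.IsUnitAt 5 (lValue 5 m ψ) := by
  by_cases h00 : a = 0 ∧ b = 0
  · obtain ⟨rfl, rfl⟩ := h00
    exact part_three 0 m hm1 hm4 (fun _ h => h1 ⟨rfl, rfl, h⟩) ψ hprim hpar
  · have hcond : ψ.conductor = 2 ^ a * 3 ^ b := by
      rw [DirichletCharacter.isPrimitive_def] at hprim
      exact hprim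
    by_cases hs2 : 64 * m * 3 ^ b ≤ 2 ^ a
    · exact large_two (mul_comm _ _) hm1 hm4 hs2 ψ (by rw [hcond]; exact dvd_mul_right _ _) hpar
    by_cases hs3 : 9 * m * 2 ^ a ≤ 3 ^ b
    · exact large_three rfl hm1 hm4 hs3 ψ (by rw [hcond]; exact dvd_mul_left _ _) hpar
    have hP := prim_of ψ hprim
    have hN1 : 2 ^ a * 3 ^ b ≠ 1 := by
      intro h
      have ha : 2 ^ a = 1 := Nat.eq_one_of_mul_eq_one_right h
      have hb : 3 ^ b = 1 := Nat.eq_one_of_mul_eq_one_left h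
      have ha' : a = 0 := by
        by_contra h0
        exact (Nat.one_lt_pow h0 (by norm_num : 1 < 2)).ne' ha
      have hb' : b = 0 := by
        by_contra h0
        exact (Nat.one_lt_pow h0 (by norm_num : 1 < 3)).ne' hb
      exact h00 ⟨ha', hb'⟩
    have hψ1 : ψ ≠ 1 := by
      have : NeZero (2 ^ a * 3 ^ b) := ⟨by positivity⟩
      intro h
      rw [h, DirichletCharacter.conductor_one] at hcond
      exact hN1 hcond.symm
    have hex : excl a b m = false := by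
      unfold excl
      by_contra hcon
      rw [Bool.not_eq_false] at hcon
      simp only [Bool.or_eq_true, Bool.and_eq_true, beq_iff_eq] at hcon
      tauto
    refine unit_one (p := 5) (by norm_num) ψ hN1 (not_five a b) (not_five_tot a b) hpar hm1 (by omega) hψ1 ?_ ?_
    · intro hm
      refine euler5 ψ hP h00 (fun h => h2 ⟨h.1, h.2, hm⟩) (fun h => h3 ⟨h.1, h.2, hm⟩)
    · intro k _ _ χ hinj hpar'
      exact nonvanish hm1 hm4 hex hs2 hs3 χ (hP.transfer hinj) hpar'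

end Pool.Agent.E8helper95.G
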