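import Pool.Agent.E8helper95.GA15

/-!
# The exceptional levels
-/

set_option autoImplicit false

namespace Pool.Agent.E8helper95.G

open Finset Pool.Agent.Y18.GX Polynomial
open Pool.Agent.Results.MP_c2a07f_nt.FiveAndPowersOfThree (lValue lValue_eq genBernoulli)


lemma sq1 {x : ℂ} (h : x ^ 2 = 1) : x = 1 ∨ x = -1 := by
  rw [sq] at h
  exact mul_self_eq_one_iff.1 h

lemma rat_int {q : ℚ} (h : IsIntegral ℤ ((q : ℚ) : ℂ)) : ∃ n : ℤ, (n : ℚ) = q := by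
  have h5 : IsIntegral ℤ q := by
    rw [← isIntegral_algebraMap_iff (algebraMap ℚ ℂ).injective]
    exact h
  obtain ⟨y, hy⟩ := IsIntegrallyClosed.isIntegral_iff.mp h5
  exact ⟨y, hy⟩

/-- an element whose norm is divisible by `5` is not a unit -/
lemma not_unit {z z' : ℂ} {n : ℤ} (hn : (5 : ℤ) ∣ n) (hc : (starRingEnd ℂ) z = z') (h : z * z' = n) :
    ¬ Pool.Agent.Results.MP_c2a07f_nt.FiveAndPowersOfThree.IsUnitAt 5 z := by
  rintro ⟨h0, c, hc5, -, hi⟩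
  have h1 : IsIntegral ℤ ((starRingEnd ℂ) ((c : ℂ) * z⁻¹)) := hi.map (starRingEnd ℂ).toIntAlgHom
  have h2 := hi.mul h1
  have hz' : z' ≠ 0 := by
    rw [← hc]
    exact (_root_.map_ne_zero _).2 h0
  have hn0 : (n : ℂ) ≠ 0 := by
    rw [← h]
    exact mul_ne_zero h0 hz'
  have h3 : (c : ℂ) * z⁻¹ * (starRingEnd ℂ) ((c : ℂ) * z⁻¹) = (((c ^ 2 : ℤ) / (n : ℤ) : ℚ) : ℂ) := by
    rw [map_mul, map_inv₀, hc, map_intCast]
    push_cast
    rw [← h]
    field_simp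
  rw [h3] at h2
  obtain ⟨y, hy⟩ := rat_int h2
  have hn0' : (n : ℚ) ≠ 0 := by exact_mod_cast hn0
  rw [eq_div_iff hn0'] at hy
  have h4 : y * n = c ^ 2 := by exact_mod_cast hy
  have h5 : (5 : ℤ) ∣ c ^ 2 := by
    rw [← h4]
    exact hn.mul_left y
  have h6 : (5 : ℤ) ∣ c := Int.Prime.dvd_pow' (by norm_num : Nat.Prime 5) h5
  have h7 : IsUnit (5 : ℤ) := by
    have : IsCoprime (5 : ℤ) c := by exact_mod_cast hc5
    exact this.isUnit_of_dvd' dvd_rfl h6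
  rw [Int.isUnit_iff] at h7
  omega

lemma not_unit_zero : ¬ Pool.Agent.Results.MP_c2a07f_nt.FiveAndPowersOfThree.IsUnitAt 5 0 := fun h => h.1 rfl

lemma conv1 (ψ : DirichletCharacter ℂ 1) : ¬ Pool.Agent.Results.MP_c2a07f_nt.FiveAndPowersOfThree.IsUnitAt 5 (lValue 5 4 ψ) := by
  have hψ : ∀ x, ψ x = 1 := fun x => by
    have : x = 1 := Subsingleton.elim (α := ZMod 1) x 1
    rw [this, map_one]
  have h2 : (Polynomial.bernoulli 4).eval (1 : ℚ) = -1 / 30 := by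
    rw [Polynomial.bernoulli_eval_one]
    exact bernoulli'_four
  have h3 : lValue 5 4 ψ = ((31 / 30 : ℚ) : ℂ) := by
    unfold lValue genBernoulli
    simp only [hψ, Icc_self, sum_singleton, Nat.cast_one, div_one, h2]
    norm_num
  rintro ⟨-, c, hc5, hi, -⟩
  rw [h3] at hi
  have h4 : (c : ℂ) * ((31 / 30 : ℚ) : ℂ) = ((c * (31 / 30) : ℚ) : ℂ) := by push_cast; ring
  rw [h4] at hi
  obtain ⟨y, hy⟩ := rat_int hi
  have h5 : 30 * y = 31 * c := by
    have : (30 : ℚ) * y = 31 * c := by rw [hy]; ring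
    exact_mod_cast this
  have h6 : (5 : ℤ) ∣ c := by omega
  have h7 : IsUnit (5 : ℤ) := by
    have : IsCoprime (5 : ℤ) c := by exact_mod_cast hc5
    exact this.isUnit_of_dvd' dvd_rfl h6
  rw [Int.isUnit_iff] at h7
  omega

lemma conv4 (ψ : DirichletCharacter ℂ 4) : ¬ Pool.Agent.Results.MP_c2a07f_nt.FiveAndPowersOfThree.IsUnitAt 5 (lValue 5 1 ψ) := by
  have h : lValue 5 1 ψ = 0 := by
    have h1 : ψ ((5 : ℕ) : ZMod 4) = 1 := by
      have : ((5 : ℕ) : ZMod 4) = 1 := by decide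
      rw [this, map_one]
    unfold lValue
    rw [h1]
    simp
  rw [h]
  exact not_unit_zero

lemma conv24 (ψ : DirichletCharacter ℂ (2 ^ 3 * 3 ^ 1)) (hprim : ψ.IsPrimitive) :
    ¬ Pool.Agent.Results.MP_c2a07f_nt.FiveAndPowersOfThree.IsUnitAt 5 (lValue 5 1 ψ) := by
  have hP := prim_of ψ hprim
  obtain ⟨A8, Ane, A0, A2, A3, A4, A5⟩ := good2 3 (fs (hcop 3 1) ψ) (fun ha => prim2 ψ hP ha)
  obtain ⟨B3, B0, B1, B1', B2⟩ := good3 1 (sn (hcop 3 1) ψ) (fun hb => prim3 ψ hP hb)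
  have h : lValue 5 1 ψ = 0 := by
    have h1 : ψ ((5 : ℕ) : ZMod (2 ^ 3 * 3 ^ 1)) = 1 := by
      rw [fs_sn (hcop 3 1) ψ]
      have e5 : ((5 : ℕ) : ZMod (3 ^ 1)) = -1 := by decide
      have e2 : ((5 : ℕ) : ZMod (2 ^ 3)) = ((g2 3 : ℕ) : ZMod (2 ^ 3)) := by decide
      have hA : fs (hcop 3 1) ψ ((g2 3 : ℕ) : ZMod (2 ^ 3)) = -1 := by
        obtain ⟨h1, h2⟩ := A3 rfl
        rcases sq1 h1 with h3 | h3
        · exact absurd h3 h2
        · exact h3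
      have hB : sn (hcop 3 1) ψ (-1) = -1 := by
        have h1 := neg_sq (sn (hcop 3 1) ψ)
        rcases sq1 h1 with h3 | h3
        · exact absurd h3 (B1 rfl)
        · exact h3
      rw [e5, e2, hA, hB]
      norm_num
    unfold lValue
    rw [h1]
    simp
  rw [h]
  exact not_unit_zero

end Pool.Agent.E8helper95.G
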