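import Pool.Agent.E8helper95.GA16

/-!
# The exceptional levels `16`, `48`, `36`
-/

set_option autoImplicit false

namespace Pool.Agent.E8helper95.G

open Finset Pool.Agent.Y18.GX Polynomial
open Pool.Agent.Results.MP_c2a07f_nt.FiveAndPowersOfThree (lValue lValue_eq genBernoulli)


lemma bern2 (x : ℚ) : (Polynomial.bernoulli 2).eval x = x ^ 2 - x + 1 / 6 := by
  rw [Polynomial.bernoulli]
  simp [Finset.sum_range_succ, Nat.choose]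
  ring

lemma bern3 (x : ℚ) : (Polynomial.bernoulli 3).eval x = x ^ 3 - 3 / 2 * x ^ 2 + 1 / 2 * x := by
  rw [Polynomial.bernoulli]
  simp [Finset.sum_range_succ, bernoulli_three', Nat.choose]
  ring

lemma bern4 (x : ℚ) : (Polynomial.bernoulli 4).eval x = x ^ 4 - 2 * x ^ 3 + x ^ 2 - 1 / 30 := by
  have h4 : _root_.bernoulli 4 = -1 / 30 := by
    rw [bernoulli_eq_bernoulli'_of_ne_one (by norm_num), bernoulli'_four]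
  rw [Polynomial.bernoulli]
  simp [Finset.sum_range_succ, bernoulli_three', h4, Nat.choose]
  ring

lemma conj_root {x : ℂ} {n : ℕ} (hn : n ≠ 0) (h : x ^ n = 1) : (starRingEnd ℂ) x = x⁻¹ :=
  (Complex.inv_eq_conj (Complex.norm_eq_one_of_pow_eq_one h hn)).symm

lemma conv16 (ψ : DirichletCharacter ℂ (2 ^ 4 * 3 ^ 0)) (hprim : ψ.IsPrimitive) (hpar : ψ (-1) = (-1) ^ 2) :
    ¬ Pool.Agent.Results.MP_c2a07f_nt.FiveAndPowersOfThree.IsUnitAt 5 (lValue 5 2 ψ) := by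
  have V := vals (m := 2) ψ (prim_of ψ hprim) (h := 5) (s := 15) (t := 1)
    ⟨by decide, by decide, by decide, by decide, by decide, by decide⟩ hpar
  set x := ψ ((5 : ℕ) : ZMod (2 ^ 4 * 3 ^ 0)) with hxdef
  have hz : ψ ((1 : ℕ) : ZMod (2 ^ 4 * 3 ^ 0)) = 1 := V.b0 rfl
  have hy : ψ ((15 : ℕ) : ZMod (2 ^ 4 * 3 ^ 0)) = 1 := by
    have h1 := V.st
    rw [hz, mul_one] at h1
    rw [h1]
    norm_num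
  have hx16 : x ^ 16 = 1 := V.b2 (by norm_num)
  have hx4 : x ^ 4 = 1 := by
    have h1 := (V.a4 rfl).1
    have h2 : x ^ 16 = x ^ 12 * x ^ 4 := by ring
    rw [hx16, h1, one_mul] at h2
    exact h2.symm
  have hx : x ^ 2 = -1 := by
    have h1 : (x ^ 2) ^ 2 = 1 := by rw [← pow_mul]; exact hx4
    rcases sq1 h1 with h2 | h2
    · exfalso
      apply (V.a4 rfl).2
      rw [show 18 = 2 * 9 by norm_num, pow_mul, h2, one_pow]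
    · exact h2
  have e0 : ψ ((0 : ℕ) : ZMod (2 ^ 4 * 3 ^ 0)) = 0 := ψ.map_nonunit (by rw [ZMod.isUnit_iff_coprime]; decide)
  have e1 : ψ ((1 : ℕ) : ZMod (2 ^ 4 * 3 ^ 0)) = 1 := by
    rw [show ((1 : ℕ) : ZMod (2 ^ 4 * 3 ^ 0)) = ((5 : ℕ) : ZMod (2 ^ 4 * 3 ^ 0)) ^ 0 * ((15 : ℕ) : ZMod (2 ^ 4 * 3 ^ 0)) ^ 0 * ((1 : ℕ) : ZMod (2 ^ 4 * 3 ^ 0)) ^ 0 by decide,
      map_mul, map_mul, map_pow, map_pow, map_pow, hy, hz]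
    ring
  have e2 : ψ ((2 : ℕ) : ZMod (2 ^ 4 * 3 ^ 0)) = 0 := ψ.map_nonunit (by rw [ZMod.isUnit_iff_coprime]; decide)
  have e3 : ψ ((3 : ℕ) : ZMod (2 ^ 4 * 3 ^ 0)) = -x := by
    rw [show ((3 : ℕ) : ZMod (2 ^ 4 * 3 ^ 0)) = ((5 : ℕ) : ZMod (2 ^ 4 * 3 ^ 0)) ^ 3 * ((15 : ℕ) : ZMod (2 ^ 4 * 3 ^ 0)) ^ 1 * ((1 : ℕ) : ZMod (2 ^ 4 * 3 ^ 0)) ^ 0 by decide,
      map_mul, map_mul, map_pow, map_pow, map_pow, hy, hz]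
    linear_combination x * hx
  have e4 : ψ ((4 : ℕ) : ZMod (2 ^ 4 * 3 ^ 0)) = 0 := ψ.map_nonunit (by rw [ZMod.isUnit_iff_coprime]; decide)
  have e5 : ψ ((5 : ℕ) : ZMod (2 ^ 4 * 3 ^ 0)) = x := by
    rw [show ((5 : ℕ) : ZMod (2 ^ 4 * 3 ^ 0)) = ((5 : ℕ) : ZMod (2 ^ 4 * 3 ^ 0)) ^ 1 * ((15 : ℕ) : ZMod (2 ^ 4 * 3 ^ 0)) ^ 0 * ((1 : ℕ) : ZMod (2 ^ 4 * 3 ^ 0)) ^ 0 by decide,
      map_mul, map_mul, map_pow, map_pow, map_pow, hy, hz]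
    ring
  have e6 : ψ ((6 : ℕ) : ZMod (2 ^ 4 * 3 ^ 0)) = 0 := ψ.map_nonunit (by rw [ZMod.isUnit_iff_coprime]; decide)
  have e7 : ψ ((7 : ℕ) : ZMod (2 ^ 4 * 3 ^ 0)) = -1 := by
    rw [show ((7 : ℕ) : ZMod (2 ^ 4 * 3 ^ 0)) = ((5 : ℕ) : ZMod (2 ^ 4 * 3 ^ 0)) ^ 2 * ((15 : ℕ) : ZMod (2 ^ 4 * 3 ^ 0)) ^ 1 * ((1 : ℕ) : ZMod (2 ^ 4 * 3 ^ 0)) ^ 0 by decide,
      map_mul, map_mul, map_pow, map_pow, map_pow, hy, hz]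
    linear_combination hx
  have e8 : ψ ((8 : ℕ) : ZMod (2 ^ 4 * 3 ^ 0)) = 0 := ψ.map_nonunit (by rw [ZMod.isUnit_iff_coprime]; decide)
  have e9 : ψ ((9 : ℕ) : ZMod (2 ^ 4 * 3 ^ 0)) = -1 := by
    rw [show ((9 : ℕ) : ZMod (2 ^ 4 * 3 ^ 0)) = ((5 : ℕ) : ZMod (2 ^ 4 * 3 ^ 0)) ^ 2 * ((15 : ℕ) : ZMod (2 ^ 4 * 3 ^ 0)) ^ 0 * ((1 : ℕ) : ZMod (2 ^ 4 * 3 ^ 0)) ^ 0 by decide,
      map_mul, map_mul, map_pow, map_pow, map_pow, hy, hz]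
    linear_combination hx
  have e10 : ψ ((10 : ℕ) : ZMod (2 ^ 4 * 3 ^ 0)) = 0 := ψ.map_nonunit (by rw [ZMod.isUnit_iff_coprime]; decide)
  have e11 : ψ ((11 : ℕ) : ZMod (2 ^ 4 * 3 ^ 0)) = x := by
    rw [show ((11 : ℕ) : ZMod (2 ^ 4 * 3 ^ 0)) = ((5 : ℕ) : ZMod (2 ^ 4 * 3 ^ 0)) ^ 1 * ((15 : ℕ) : ZMod (2 ^ 4 * 3 ^ 0)) ^ 1 * ((1 : ℕ) : ZMod (2 ^ 4 * 3 ^ 0)) ^ 0 by decide,
      map_mul, map_mul, map_pow, map_pow, map_pow, hy, hz]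
    ring
  have e12 : ψ ((12 : ℕ) : ZMod (2 ^ 4 * 3 ^ 0)) = 0 := ψ.map_nonunit (by rw [ZMod.isUnit_iff_coprime]; decide)
  have e13 : ψ ((13 : ℕ) : ZMod (2 ^ 4 * 3 ^ 0)) = -x := by
    rw [show ((13 : ℕ) : ZMod (2 ^ 4 * 3 ^ 0)) = ((5 : ℕ) : ZMod (2 ^ 4 * 3 ^ 0)) ^ 3 * ((15 : ℕ) : ZMod (2 ^ 4 * 3 ^ 0)) ^ 0 * ((1 : ℕ) : ZMod (2 ^ 4 * 3 ^ 0)) ^ 0 by decide,
      map_mul, map_mul, map_pow, map_pow, map_pow, hy, hz]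
    linear_combination x * hx
  have e14 : ψ ((14 : ℕ) : ZMod (2 ^ 4 * 3 ^ 0)) = 0 := ψ.map_nonunit (by rw [ZMod.isUnit_iff_coprime]; decide)
  have e15 : ψ ((15 : ℕ) : ZMod (2 ^ 4 * 3 ^ 0)) = 1 := by
    rw [show ((15 : ℕ) : ZMod (2 ^ 4 * 3 ^ 0)) = ((5 : ℕ) : ZMod (2 ^ 4 * 3 ^ 0)) ^ 0 * ((15 : ℕ) : ZMod (2 ^ 4 * 3 ^ 0)) ^ 1 * ((1 : ℕ) : ZMod (2 ^ 4 * 3 ^ 0)) ^ 0 by decide,
      map_mul, map_mul, map_pow, map_pow, map_pow, hy, hz]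
    ring
  have hL : lValue 5 2 ψ = -2 - 16 * x := by
    have hr : range (2 ^ 4 * 3 ^ 0) = range 16 := by norm_num
    rw [lValue_eq (by norm_num), hr]
    simp only [Finset.sum_range_succ, Finset.sum_range_zero, e0, e1, e2, e3, e4, e5, e6, e7, e8, e9, e10, e11, e12, e13, e14, e15, bern2]
    push_cast
    linear_combination (5 : ℂ) * hx

  have hc : (starRingEnd ℂ) (-2 - 16 * x) = -2 + 16 * x := by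
    have h1 : x⁻¹ = -x := by
      apply inv_eq_of_mul_eq_one_left
      linear_combination -hx
    simp only [map_sub, map_neg, map_mul, map_ofNat, conj_root (by norm_num) hx4, h1]
    ring
  rw [hL]
  refine not_unit (n := 260) (by norm_num) hc ?_
  push_cast
  linear_combination (-256 : ℂ) * hx

lemma conv48 (ψ : DirichletCharacter ℂ (2 ^ 4 * 3 ^ 1)) (hprim : ψ.IsPrimitive) (hpar : ψ (-1) = (-1) ^ 3) :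
    ¬ Pool.Agent.Results.MP_c2a07f_nt.FiveAndPowersOfThree.IsUnitAt 5 (lValue 5 3 ψ) := by
  have V := vals (m := 3) ψ (prim_of ψ hprim) (h := 37) (s := 31) (t := 17)
    ⟨by decide, by decide, by decide, by decide, by decide, by decide⟩ hpar
  set x := ψ ((37 : ℕ) : ZMod (2 ^ 4 * 3 ^ 1)) with hxdef
  have hz : ψ ((17 : ℕ) : ZMod (2 ^ 4 * 3 ^ 1)) = -1 := (sq1 V.t).resolve_left (V.b1 rfl)
  have hy : ψ ((31 : ℕ) : ZMod (2 ^ 4 * 3 ^ 1)) = 1 := by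
    have h1 := V.st
    rw [hz] at h1
    linear_combination -h1
  have hx16 : x ^ 16 = 1 := V.b2 (by norm_num)
  have hx4 : x ^ 4 = 1 := by
    have h1 := (V.a4 rfl).1
    have h2 : x ^ 16 = x ^ 12 * x ^ 4 := by ring
    rw [hx16, h1, one_mul] at h2
    exact h2.symm
  have hx : x ^ 2 = -1 := by
    have h1 : (x ^ 2) ^ 2 = 1 := by rw [← pow_mul]; exact hx4
    rcases sq1 h1 with h2 | h2
    · exfalso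
      apply (V.a4 rfl).2
      rw [show 18 = 2 * 9 by norm_num, pow_mul, h2, one_pow]
    · exact h2
  have e0 : ψ ((0 : ℕ) : ZMod (2 ^ 4 * 3 ^ 1)) = 0 := ψ.map_nonunit (by rw [ZMod.isUnit_iff_coprime]; decide)
  have e1 : ψ ((1 : ℕ) : ZMod (2 ^ 4 * 3 ^ 1)) = 1 := by
    rw [show ((1 : ℕ) : ZMod (2 ^ 4 * 3 ^ 1)) = ((37 : ℕ) : ZMod (2 ^ 4 * 3 ^ 1)) ^ 0 * ((31 : ℕ) : ZMod (2 ^ 4 * 3 ^ 1)) ^ 0 * ((17 : ℕ) : ZMod (2 ^ 4 * 3 ^ 1)) ^ 0 by decide,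
      map_mul, map_mul, map_pow, map_pow, map_pow, hy, hz]
    ring
  have e2 : ψ ((2 : ℕ) : ZMod (2 ^ 4 * 3 ^ 1)) = 0 := ψ.map_nonunit (by rw [ZMod.isUnit_iff_coprime]; decide)
  have e3 : ψ ((3 : ℕ) : ZMod (2 ^ 4 * 3 ^ 1)) = 0 := ψ.map_nonunit (by rw [ZMod.isUnit_iff_coprime]; decide)
  have e4 : ψ ((4 : ℕ) : ZMod (2 ^ 4 * 3 ^ 1)) = 0 := ψ.map_nonunit (by rw [ZMod.isUnit_iff_coprime]; decide)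
  have e5 : ψ ((5 : ℕ) : ZMod (2 ^ 4 * 3 ^ 1)) = -x := by
    rw [show ((5 : ℕ) : ZMod (2 ^ 4 * 3 ^ 1)) = ((37 : ℕ) : ZMod (2 ^ 4 * 3 ^ 1)) ^ 1 * ((31 : ℕ) : ZMod (2 ^ 4 * 3 ^ 1)) ^ 0 * ((17 : ℕ) : ZMod (2 ^ 4 * 3 ^ 1)) ^ 1 by decide,
      map_mul, map_mul, map_pow, map_pow, map_pow, hy, hz]
    ring
  have e6 : ψ ((6 : ℕ) : ZMod (2 ^ 4 * 3 ^ 1)) = 0 := ψ.map_nonunit (by rw [ZMod.isUnit_iff_coprime]; decide)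
  have e7 : ψ ((7 : ℕ) : ZMod (2 ^ 4 * 3 ^ 1)) = -1 := by
    rw [show ((7 : ℕ) : ZMod (2 ^ 4 * 3 ^ 1)) = ((37 : ℕ) : ZMod (2 ^ 4 * 3 ^ 1)) ^ 2 * ((31 : ℕ) : ZMod (2 ^ 4 * 3 ^ 1)) ^ 1 * ((17 : ℕ) : ZMod (2 ^ 4 * 3 ^ 1)) ^ 0 by decide,
      map_mul, map_mul, map_pow, map_pow, map_pow, hy, hz]
    linear_combination (1 : ℂ) * hx
  have e8 : ψ ((8 : ℕ) : ZMod (2 ^ 4 * 3 ^ 1)) = 0 := ψ.map_nonunit (by rw [ZMod.isUnit_iff_coprime]; decide)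
  have e9 : ψ ((9 : ℕ) : ZMod (2 ^ 4 * 3 ^ 1)) = 0 := ψ.map_nonunit (by rw [ZMod.isUnit_iff_coprime]; decide)
  have e10 : ψ ((10 : ℕ) : ZMod (2 ^ 4 * 3 ^ 1)) = 0 := ψ.map_nonunit (by rw [ZMod.isUnit_iff_coprime]; decide)
  have e11 : ψ ((11 : ℕ) : ZMod (2 ^ 4 * 3 ^ 1)) = -x := by
    rw [show ((11 : ℕ) : ZMod (2 ^ 4 * 3 ^ 1)) = ((37 : ℕ) : ZMod (2 ^ 4 * 3 ^ 1)) ^ 1 * ((31 : ℕ) : ZMod (2 ^ 4 * 3 ^ 1)) ^ 1 * ((17 : ℕ) : ZMod (2 ^ 4 * 3 ^ 1)) ^ 1 by decide,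
      map_mul, map_mul, map_pow, map_pow, map_pow, hy, hz]
    ring
  have e12 : ψ ((12 : ℕ) : ZMod (2 ^ 4 * 3 ^ 1)) = 0 := ψ.map_nonunit (by rw [ZMod.isUnit_iff_coprime]; decide)
  have e13 : ψ ((13 : ℕ) : ZMod (2 ^ 4 * 3 ^ 1)) = -x := by
    rw [show ((13 : ℕ) : ZMod (2 ^ 4 * 3 ^ 1)) = ((37 : ℕ) : ZMod (2 ^ 4 * 3 ^ 1)) ^ 3 * ((31 : ℕ) : ZMod (2 ^ 4 * 3 ^ 1)) ^ 0 * ((17 : ℕ) : ZMod (2 ^ 4 * 3 ^ 1)) ^ 0 by decide,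
      map_mul, map_mul, map_pow, map_pow, map_pow, hy, hz]
    linear_combination (1 : ℂ) * x * hx
  have e14 : ψ ((14 : ℕ) : ZMod (2 ^ 4 * 3 ^ 1)) = 0 := ψ.map_nonunit (by rw [ZMod.isUnit_iff_coprime]; decide)
  have e15 : ψ ((15 : ℕ) : ZMod (2 ^ 4 * 3 ^ 1)) = 0 := ψ.map_nonunit (by rw [ZMod.isUnit_iff_coprime]; decide)
  have e16 : ψ ((16 : ℕ) : ZMod (2 ^ 4 * 3 ^ 1)) = 0 := ψ.map_nonunit (by rw [ZMod.isUnit_iff_coprime]; decide)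
  have e17 : ψ ((17 : ℕ) : ZMod (2 ^ 4 * 3 ^ 1)) = -1 := by
    rw [show ((17 : ℕ) : ZMod (2 ^ 4 * 3 ^ 1)) = ((37 : ℕ) : ZMod (2 ^ 4 * 3 ^ 1)) ^ 0 * ((31 : ℕ) : ZMod (2 ^ 4 * 3 ^ 1)) ^ 0 * ((17 : ℕ) : ZMod (2 ^ 4 * 3 ^ 1)) ^ 1 by decide,
      map_mul, map_mul, map_pow, map_pow, map_pow, hy, hz]
    ring
  have e18 : ψ ((18 : ℕ) : ZMod (2 ^ 4 * 3 ^ 1)) = 0 := ψ.map_nonunit (by rw [ZMod.isUnit_iff_coprime]; decide)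
  have e19 : ψ ((19 : ℕ) : ZMod (2 ^ 4 * 3 ^ 1)) = -x := by
    rw [show ((19 : ℕ) : ZMod (2 ^ 4 * 3 ^ 1)) = ((37 : ℕ) : ZMod (2 ^ 4 * 3 ^ 1)) ^ 3 * ((31 : ℕ) : ZMod (2 ^ 4 * 3 ^ 1)) ^ 1 * ((17 : ℕ) : ZMod (2 ^ 4 * 3 ^ 1)) ^ 0 by decide,
      map_mul, map_mul, map_pow, map_pow, map_pow, hy, hz]
    linear_combination (1 : ℂ) * x * hx
  have e20 : ψ ((20 : ℕ) : ZMod (2 ^ 4 * 3 ^ 1)) = 0 := ψ.map_nonunit (by rw [ZMod.isUnit_iff_coprime]; decide)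
  have e21 : ψ ((21 : ℕ) : ZMod (2 ^ 4 * 3 ^ 1)) = 0 := ψ.map_nonunit (by rw [ZMod.isUnit_iff_coprime]; decide)
  have e22 : ψ ((22 : ℕ) : ZMod (2 ^ 4 * 3 ^ 1)) = 0 := ψ.map_nonunit (by rw [ZMod.isUnit_iff_coprime]; decide)
  have e23 : ψ ((23 : ℕ) : ZMod (2 ^ 4 * 3 ^ 1)) = 1 := by
    rw [show ((23 : ℕ) : ZMod (2 ^ 4 * 3 ^ 1)) = ((37 : ℕ) : ZMod (2 ^ 4 * 3 ^ 1)) ^ 2 * ((31 : ℕ) : ZMod (2 ^ 4 * 3 ^ 1)) ^ 1 * ((17 : ℕ) : ZMod (2 ^ 4 * 3 ^ 1)) ^ 1 by decide,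
      map_mul, map_mul, map_pow, map_pow, map_pow, hy, hz]
    linear_combination (-1 : ℂ) * hx
  have e24 : ψ ((24 : ℕ) : ZMod (2 ^ 4 * 3 ^ 1)) = 0 := ψ.map_nonunit (by rw [ZMod.isUnit_iff_coprime]; decide)
  have e25 : ψ ((25 : ℕ) : ZMod (2 ^ 4 * 3 ^ 1)) = -1 := by
    rw [show ((25 : ℕ) : ZMod (2 ^ 4 * 3 ^ 1)) = ((37 : ℕ) : ZMod (2 ^ 4 * 3 ^ 1)) ^ 2 * ((31 : ℕ) : ZMod (2 ^ 4 * 3 ^ 1)) ^ 0 * ((17 : ℕ) : ZMod (2 ^ 4 * 3 ^ 1)) ^ 0 by decide,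
      map_mul, map_mul, map_pow, map_pow, map_pow, hy, hz]
    linear_combination (1 : ℂ) * hx
  have e26 : ψ ((26 : ℕ) : ZMod (2 ^ 4 * 3 ^ 1)) = 0 := ψ.map_nonunit (by rw [ZMod.isUnit_iff_coprime]; decide)
  have e27 : ψ ((27 : ℕ) : ZMod (2 ^ 4 * 3 ^ 1)) = 0 := ψ.map_nonunit (by rw [ZMod.isUnit_iff_coprime]; decide)
  have e28 : ψ ((28 : ℕ) : ZMod (2 ^ 4 * 3 ^ 1)) = 0 := ψ.map_nonunit (by rw [ZMod.isUnit_iff_coprime]; decide)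
  have e29 : ψ ((29 : ℕ) : ZMod (2 ^ 4 * 3 ^ 1)) = x := by
    rw [show ((29 : ℕ) : ZMod (2 ^ 4 * 3 ^ 1)) = ((37 : ℕ) : ZMod (2 ^ 4 * 3 ^ 1)) ^ 3 * ((31 : ℕ) : ZMod (2 ^ 4 * 3 ^ 1)) ^ 0 * ((17 : ℕ) : ZMod (2 ^ 4 * 3 ^ 1)) ^ 1 by decide,
      map_mul, map_mul, map_pow, map_pow, map_pow, hy, hz]
    linear_combination (-1 : ℂ) * x * hx
  have e30 : ψ ((30 : ℕ) : ZMod (2 ^ 4 * 3 ^ 1)) = 0 := ψ.map_nonunit (by rw [ZMod.isUnit_iff_coprime]; decide)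
  have e31 : ψ ((31 : ℕ) : ZMod (2 ^ 4 * 3 ^ 1)) = 1 := by
    rw [show ((31 : ℕ) : ZMod (2 ^ 4 * 3 ^ 1)) = ((37 : ℕ) : ZMod (2 ^ 4 * 3 ^ 1)) ^ 0 * ((31 : ℕ) : ZMod (2 ^ 4 * 3 ^ 1)) ^ 1 * ((17 : ℕ) : ZMod (2 ^ 4 * 3 ^ 1)) ^ 0 by decide,
      map_mul, map_mul, map_pow, map_pow, map_pow, hy, hz]
    ring
  have e32 : ψ ((32 : ℕ) : ZMod (2 ^ 4 * 3 ^ 1)) = 0 := ψ.map_nonunit (by rw [ZMod.isUnit_iff_coprime]; decide)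
  have e33 : ψ ((33 : ℕ) : ZMod (2 ^ 4 * 3 ^ 1)) = 0 := ψ.map_nonunit (by rw [ZMod.isUnit_iff_coprime]; decide)
  have e34 : ψ ((34 : ℕ) : ZMod (2 ^ 4 * 3 ^ 1)) = 0 := ψ.map_nonunit (by rw [ZMod.isUnit_iff_coprime]; decide)
  have e35 : ψ ((35 : ℕ) : ZMod (2 ^ 4 * 3 ^ 1)) = x := by
    rw [show ((35 : ℕ) : ZMod (2 ^ 4 * 3 ^ 1)) = ((37 : ℕ) : ZMod (2 ^ 4 * 3 ^ 1)) ^ 3 * ((31 : ℕ) : ZMod (2 ^ 4 * 3 ^ 1)) ^ 1 * ((17 : ℕ) : ZMod (2 ^ 4 * 3 ^ 1)) ^ 1 by decide,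
      map_mul, map_mul, map_pow, map_pow, map_pow, hy, hz]
    linear_combination (-1 : ℂ) * x * hx
  have e36 : ψ ((36 : ℕ) : ZMod (2 ^ 4 * 3 ^ 1)) = 0 := ψ.map_nonunit (by rw [ZMod.isUnit_iff_coprime]; decide)
  have e37 : ψ ((37 : ℕ) : ZMod (2 ^ 4 * 3 ^ 1)) = x := by
    rw [show ((37 : ℕ) : ZMod (2 ^ 4 * 3 ^ 1)) = ((37 : ℕ) : ZMod (2 ^ 4 * 3 ^ 1)) ^ 1 * ((31 : ℕ) : ZMod (2 ^ 4 * 3 ^ 1)) ^ 0 * ((17 : ℕ) : ZMod (2 ^ 4 * 3 ^ 1)) ^ 0 by decide,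
      map_mul, map_mul, map_pow, map_pow, map_pow, hy, hz]
    ring
  have e38 : ψ ((38 : ℕ) : ZMod (2 ^ 4 * 3 ^ 1)) = 0 := ψ.map_nonunit (by rw [ZMod.isUnit_iff_coprime]; decide)
  have e39 : ψ ((39 : ℕ) : ZMod (2 ^ 4 * 3 ^ 1)) = 0 := ψ.map_nonunit (by rw [ZMod.isUnit_iff_coprime]; decide)
  have e40 : ψ ((40 : ℕ) : ZMod (2 ^ 4 * 3 ^ 1)) = 0 := ψ.map_nonunit (by rw [ZMod.isUnit_iff_coprime]; decide)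
  have e41 : ψ ((41 : ℕ) : ZMod (2 ^ 4 * 3 ^ 1)) = 1 := by
    rw [show ((41 : ℕ) : ZMod (2 ^ 4 * 3 ^ 1)) = ((37 : ℕ) : ZMod (2 ^ 4 * 3 ^ 1)) ^ 2 * ((31 : ℕ) : ZMod (2 ^ 4 * 3 ^ 1)) ^ 0 * ((17 : ℕ) : ZMod (2 ^ 4 * 3 ^ 1)) ^ 1 by decide,
      map_mul, map_mul, map_pow, map_pow, map_pow, hy, hz]
    linear_combination (-1 : ℂ) * hx
  have e42 : ψ ((42 : ℕ) : ZMod (2 ^ 4 * 3 ^ 1)) = 0 := ψ.map_nonunit (by rw [ZMod.isUnit_iff_coprime]; decide)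
  have e43 : ψ ((43 : ℕ) : ZMod (2 ^ 4 * 3 ^ 1)) = x := by
    rw [show ((43 : ℕ) : ZMod (2 ^ 4 * 3 ^ 1)) = ((37 : ℕ) : ZMod (2 ^ 4 * 3 ^ 1)) ^ 1 * ((31 : ℕ) : ZMod (2 ^ 4 * 3 ^ 1)) ^ 1 * ((17 : ℕ) : ZMod (2 ^ 4 * 3 ^ 1)) ^ 0 by decide,
      map_mul, map_mul, map_pow, map_pow, map_pow, hy, hz]
    ring
  have e44 : ψ ((44 : ℕ) : ZMod (2 ^ 4 * 3 ^ 1)) = 0 := ψ.map_nonunit (by rw [ZMod.isUnit_iff_coprime]; decide)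
  have e45 : ψ ((45 : ℕ) : ZMod (2 ^ 4 * 3 ^ 1)) = 0 := ψ.map_nonunit (by rw [ZMod.isUnit_iff_coprime]; decide)
  have e46 : ψ ((46 : ℕ) : ZMod (2 ^ 4 * 3 ^ 1)) = 0 := ψ.map_nonunit (by rw [ZMod.isUnit_iff_coprime]; decide)
  have e47 : ψ ((47 : ℕ) : ZMod (2 ^ 4 * 3 ^ 1)) = -1 := by
    rw [show ((47 : ℕ) : ZMod (2 ^ 4 * 3 ^ 1)) = ((37 : ℕ) : ZMod (2 ^ 4 * 3 ^ 1)) ^ 0 * ((31 : ℕ) : ZMod (2 ^ 4 * 3 ^ 1)) ^ 1 * ((17 : ℕ) : ZMod (2 ^ 4 * 3 ^ 1)) ^ 1 by decide,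
      map_mul, map_mul, map_pow, map_pow, map_pow, hy, hz]
    ring
  have hL : lValue 5 3 ψ = 5854 - 2638 * x := by
    have hr : range (2 ^ 4 * 3 ^ 1) = range 48 := by norm_num
    rw [lValue_eq (by norm_num), hr]
    simp only [Finset.sum_range_succ, Finset.sum_range_zero, e0, e1, e2, e3, e4, e5, e6, e7, e8, e9, e10, e11, e12, e13, e14, e15, e16, e17, e18, e19, e20, e21, e22, e23, e24, e25, e26, e27, e28, e29, e30, e31, e32, e33, e34, e35, e36, e37, e38, e39, e40, e41, e42, e43, e44, e45, e46, e47, bern3]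
    push_cast
    linear_combination (-5950 : ℂ) * hx

  have hc : (starRingEnd ℂ) (5854 - 2638 * x) = 5854 + 2638 * x := by
    have h1 : x⁻¹ = -x := by
      apply inv_eq_of_mul_eq_one_left
      linear_combination -hx
    simp only [map_sub, map_mul, map_ofNat, conj_root (by norm_num) hx4, h1]
    ring
  rw [hL]
  refine not_unit (n := 41228360) (by norm_num) hc ?_
  push_cast
  linear_combination (-6959044 : ℂ) * hx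

lemma conv36 (ψ : DirichletCharacter ℂ (2 ^ 2 * 3 ^ 2)) (hprim : ψ.IsPrimitive) (hpar : ψ (-1) = (-1) ^ 4) :
    ¬ Pool.Agent.Results.MP_c2a07f_nt.FiveAndPowersOfThree.IsUnitAt 5 (lValue 5 4 ψ) := by
  have V := vals (m := 4) ψ (prim_of ψ hprim) (h := 13) (s := 19) (t := 17)
    ⟨by decide, by decide, by decide, by decide, by decide, by decide⟩ hpar
  set x := ψ ((13 : ℕ) : ZMod (2 ^ 2 * 3 ^ 2)) with hxdef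
  have hy : ψ ((19 : ℕ) : ZMod (2 ^ 2 * 3 ^ 2)) = -1 := (sq1 V.s).resolve_left (V.a2 rfl).2
  have hz : ψ ((17 : ℕ) : ZMod (2 ^ 2 * 3 ^ 2)) = -1 := by
    have h1 := V.st
    rw [hy] at h1
    linear_combination -h1
  have hx9 : x ^ 9 = 1 := (V.a2 rfl).1
  have hx24 : x ^ 24 = 1 := V.x24
  have hx3 : x ^ 3 = 1 := by
    have h2 : x ^ 27 = x ^ 24 * x ^ 3 := by ring
    have h3 : x ^ 27 = (x ^ 9) ^ 3 := by ring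
    rw [h3, hx9, hx24, one_pow, one_mul] at h2
    exact h2.symm
  have hx1 : x ≠ 1 := by
    intro h
    apply V.b3 le_rfl
    rw [h, one_pow]
  have hx : x ^ 2 + x + 1 = 0 := by
    have h1 : (x - 1) * (x ^ 2 + x + 1) = 0 := by linear_combination hx3
    exact (mul_eq_zero.1 h1).resolve_left (sub_ne_zero.2 hx1)
  have e0 : ψ ((0 : ℕ) : ZMod (2 ^ 2 * 3 ^ 2)) = 0 := ψ.map_nonunit (by rw [ZMod.isUnit_iff_coprime]; decide)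
  have e1 : ψ ((1 : ℕ) : ZMod (2 ^ 2 * 3 ^ 2)) = 1 := by
    rw [show ((1 : ℕ) : ZMod (2 ^ 2 * 3 ^ 2)) = ((13 : ℕ) : ZMod (2 ^ 2 * 3 ^ 2)) ^ 0 * ((19 : ℕ) : ZMod (2 ^ 2 * 3 ^ 2)) ^ 0 * ((17 : ℕ) : ZMod (2 ^ 2 * 3 ^ 2)) ^ 0 by decide,
      map_mul, map_mul, map_pow, map_pow, map_pow, hy, hz]
    ring
  have e2 : ψ ((2 : ℕ) : ZMod (2 ^ 2 * 3 ^ 2)) = 0 := ψ.map_nonunit (by rw [ZMod.isUnit_iff_coprime]; decide)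
  have e3 : ψ ((3 : ℕ) : ZMod (2 ^ 2 * 3 ^ 2)) = 0 := ψ.map_nonunit (by rw [ZMod.isUnit_iff_coprime]; decide)
  have e4 : ψ ((4 : ℕ) : ZMod (2 ^ 2 * 3 ^ 2)) = 0 := ψ.map_nonunit (by rw [ZMod.isUnit_iff_coprime]; decide)
  have e5 : ψ ((5 : ℕ) : ZMod (2 ^ 2 * 3 ^ 2)) = -x := by
    rw [show ((5 : ℕ) : ZMod (2 ^ 2 * 3 ^ 2)) = ((13 : ℕ) : ZMod (2 ^ 2 * 3 ^ 2)) ^ 1 * ((19 : ℕ) : ZMod (2 ^ 2 * 3 ^ 2)) ^ 0 * ((17 : ℕ) : ZMod (2 ^ 2 * 3 ^ 2)) ^ 1 by decide,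
      map_mul, map_mul, map_pow, map_pow, map_pow, hy, hz]
    ring
  have e6 : ψ ((6 : ℕ) : ZMod (2 ^ 2 * 3 ^ 2)) = 0 := ψ.map_nonunit (by rw [ZMod.isUnit_iff_coprime]; decide)
  have e7 : ψ ((7 : ℕ) : ZMod (2 ^ 2 * 3 ^ 2)) = 1 + x := by
    rw [show ((7 : ℕ) : ZMod (2 ^ 2 * 3 ^ 2)) = ((13 : ℕ) : ZMod (2 ^ 2 * 3 ^ 2)) ^ 2 * ((19 : ℕ) : ZMod (2 ^ 2 * 3 ^ 2)) ^ 1 * ((17 : ℕ) : ZMod (2 ^ 2 * 3 ^ 2)) ^ 0 by decide,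
      map_mul, map_mul, map_pow, map_pow, map_pow, hy, hz]
    linear_combination (-1 : ℂ) * hx
  have e8 : ψ ((8 : ℕ) : ZMod (2 ^ 2 * 3 ^ 2)) = 0 := ψ.map_nonunit (by rw [ZMod.isUnit_iff_coprime]; decide)
  have e9 : ψ ((9 : ℕ) : ZMod (2 ^ 2 * 3 ^ 2)) = 0 := ψ.map_nonunit (by rw [ZMod.isUnit_iff_coprime]; decide)
  have e10 : ψ ((10 : ℕ) : ZMod (2 ^ 2 * 3 ^ 2)) = 0 := ψ.map_nonunit (by rw [ZMod.isUnit_iff_coprime]; decide)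
  have e11 : ψ ((11 : ℕ) : ZMod (2 ^ 2 * 3 ^ 2)) = -1 - x := by
    rw [show ((11 : ℕ) : ZMod (2 ^ 2 * 3 ^ 2)) = ((13 : ℕ) : ZMod (2 ^ 2 * 3 ^ 2)) ^ 2 * ((19 : ℕ) : ZMod (2 ^ 2 * 3 ^ 2)) ^ 1 * ((17 : ℕ) : ZMod (2 ^ 2 * 3 ^ 2)) ^ 1 by decide,
      map_mul, map_mul, map_pow, map_pow, map_pow, hy, hz]
    linear_combination (1 : ℂ) * hx
  have e12 : ψ ((12 : ℕ) : ZMod (2 ^ 2 * 3 ^ 2)) = 0 := ψ.map_nonunit (by rw [ZMod.isUnit_iff_coprime]; decide)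
  have e13 : ψ ((13 : ℕ) : ZMod (2 ^ 2 * 3 ^ 2)) = x := by
    rw [show ((13 : ℕ) : ZMod (2 ^ 2 * 3 ^ 2)) = ((13 : ℕ) : ZMod (2 ^ 2 * 3 ^ 2)) ^ 1 * ((19 : ℕ) : ZMod (2 ^ 2 * 3 ^ 2)) ^ 0 * ((17 : ℕ) : ZMod (2 ^ 2 * 3 ^ 2)) ^ 0 by decide,
      map_mul, map_mul, map_pow, map_pow, map_pow, hy, hz]
    ring
  have e14 : ψ ((14 : ℕ) : ZMod (2 ^ 2 * 3 ^ 2)) = 0 := ψ.map_nonunit (by rw [ZMod.isUnit_iff_coprime]; decide)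
  have e15 : ψ ((15 : ℕ) : ZMod (2 ^ 2 * 3 ^ 2)) = 0 := ψ.map_nonunit (by rw [ZMod.isUnit_iff_coprime]; decide)
  have e16 : ψ ((16 : ℕ) : ZMod (2 ^ 2 * 3 ^ 2)) = 0 := ψ.map_nonunit (by rw [ZMod.isUnit_iff_coprime]; decide)
  have e17 : ψ ((17 : ℕ) : ZMod (2 ^ 2 * 3 ^ 2)) = -1 := by
    rw [show ((17 : ℕ) : ZMod (2 ^ 2 * 3 ^ 2)) = ((13 : ℕ) : ZMod (2 ^ 2 * 3 ^ 2)) ^ 0 * ((19 : ℕ) : ZMod (2 ^ 2 * 3 ^ 2)) ^ 0 * ((17 : ℕ) : ZMod (2 ^ 2 * 3 ^ 2)) ^ 1 by decide,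
      map_mul, map_mul, map_pow, map_pow, map_pow, hy, hz]
    ring
  have e18 : ψ ((18 : ℕ) : ZMod (2 ^ 2 * 3 ^ 2)) = 0 := ψ.map_nonunit (by rw [ZMod.isUnit_iff_coprime]; decide)
  have e19 : ψ ((19 : ℕ) : ZMod (2 ^ 2 * 3 ^ 2)) = -1 := by
    rw [show ((19 : ℕ) : ZMod (2 ^ 2 * 3 ^ 2)) = ((13 : ℕ) : ZMod (2 ^ 2 * 3 ^ 2)) ^ 0 * ((19 : ℕ) : ZMod (2 ^ 2 * 3 ^ 2)) ^ 1 * ((17 : ℕ) : ZMod (2 ^ 2 * 3 ^ 2)) ^ 0 by decide,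
      map_mul, map_mul, map_pow, map_pow, map_pow, hy, hz]
    ring
  have e20 : ψ ((20 : ℕ) : ZMod (2 ^ 2 * 3 ^ 2)) = 0 := ψ.map_nonunit (by rw [ZMod.isUnit_iff_coprime]; decide)
  have e21 : ψ ((21 : ℕ) : ZMod (2 ^ 2 * 3 ^ 2)) = 0 := ψ.map_nonunit (by rw [ZMod.isUnit_iff_coprime]; decide)
  have e22 : ψ ((22 : ℕ) : ZMod (2 ^ 2 * 3 ^ 2)) = 0 := ψ.map_nonunit (by rw [ZMod.isUnit_iff_coprime]; decide)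
  have e23 : ψ ((23 : ℕ) : ZMod (2 ^ 2 * 3 ^ 2)) = x := by
    rw [show ((23 : ℕ) : ZMod (2 ^ 2 * 3 ^ 2)) = ((13 : ℕ) : ZMod (2 ^ 2 * 3 ^ 2)) ^ 1 * ((19 : ℕ) : ZMod (2 ^ 2 * 3 ^ 2)) ^ 1 * ((17 : ℕ) : ZMod (2 ^ 2 * 3 ^ 2)) ^ 1 by decide,
      map_mul, map_mul, map_pow, map_pow, map_pow, hy, hz]
    ring
  have e24 : ψ ((24 : ℕ) : ZMod (2 ^ 2 * 3 ^ 2)) = 0 := ψ.map_nonunit (by rw [ZMod.isUnit_iff_coprime]; decide)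
  have e25 : ψ ((25 : ℕ) : ZMod (2 ^ 2 * 3 ^ 2)) = -1 - x := by
    rw [show ((25 : ℕ) : ZMod (2 ^ 2 * 3 ^ 2)) = ((13 : ℕ) : ZMod (2 ^ 2 * 3 ^ 2)) ^ 2 * ((19 : ℕ) : ZMod (2 ^ 2 * 3 ^ 2)) ^ 0 * ((17 : ℕ) : ZMod (2 ^ 2 * 3 ^ 2)) ^ 0 by decide,
      map_mul, map_mul, map_pow, map_pow, map_pow, hy, hz]
    linear_combination (1 : ℂ) * hx
  have e26 : ψ ((26 : ℕ) : ZMod (2 ^ 2 * 3 ^ 2)) = 0 := ψ.map_nonunit (by rw [ZMod.isUnit_iff_coprime]; decide)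
  have e27 : ψ ((27 : ℕ) : ZMod (2 ^ 2 * 3 ^ 2)) = 0 := ψ.map_nonunit (by rw [ZMod.isUnit_iff_coprime]; decide)
  have e28 : ψ ((28 : ℕ) : ZMod (2 ^ 2 * 3 ^ 2)) = 0 := ψ.map_nonunit (by rw [ZMod.isUnit_iff_coprime]; decide)
  have e29 : ψ ((29 : ℕ) : ZMod (2 ^ 2 * 3 ^ 2)) = 1 + x := by
    rw [show ((29 : ℕ) : ZMod (2 ^ 2 * 3 ^ 2)) = ((13 : ℕ) : ZMod (2 ^ 2 * 3 ^ 2)) ^ 2 * ((19 : ℕ) : ZMod (2 ^ 2 * 3 ^ 2)) ^ 0 * ((17 : ℕ) : ZMod (2 ^ 2 * 3 ^ 2)) ^ 1 by decide,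
      map_mul, map_mul, map_pow, map_pow, map_pow, hy, hz]
    linear_combination (-1 : ℂ) * hx
  have e30 : ψ ((30 : ℕ) : ZMod (2 ^ 2 * 3 ^ 2)) = 0 := ψ.map_nonunit (by rw [ZMod.isUnit_iff_coprime]; decide)
  have e31 : ψ ((31 : ℕ) : ZMod (2 ^ 2 * 3 ^ 2)) = -x := by
    rw [show ((31 : ℕ) : ZMod (2 ^ 2 * 3 ^ 2)) = ((13 : ℕ) : ZMod (2 ^ 2 * 3 ^ 2)) ^ 1 * ((19 : ℕ) : ZMod (2 ^ 2 * 3 ^ 2)) ^ 1 * ((17 : ℕ) : ZMod (2 ^ 2 * 3 ^ 2)) ^ 0 by decide,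
      map_mul, map_mul, map_pow, map_pow, map_pow, hy, hz]
    ring
  have e32 : ψ ((32 : ℕ) : ZMod (2 ^ 2 * 3 ^ 2)) = 0 := ψ.map_nonunit (by rw [ZMod.isUnit_iff_coprime]; decide)
  have e33 : ψ ((33 : ℕ) : ZMod (2 ^ 2 * 3 ^ 2)) = 0 := ψ.map_nonunit (by rw [ZMod.isUnit_iff_coprime]; decide)
  have e34 : ψ ((34 : ℕ) : ZMod (2 ^ 2 * 3 ^ 2)) = 0 := ψ.map_nonunit (by rw [ZMod.isUnit_iff_coprime]; decide)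
  have e35 : ψ ((35 : ℕ) : ZMod (2 ^ 2 * 3 ^ 2)) = 1 := by
    rw [show ((35 : ℕ) : ZMod (2 ^ 2 * 3 ^ 2)) = ((13 : ℕ) : ZMod (2 ^ 2 * 3 ^ 2)) ^ 0 * ((19 : ℕ) : ZMod (2 ^ 2 * 3 ^ 2)) ^ 1 * ((17 : ℕ) : ZMod (2 ^ 2 * 3 ^ 2)) ^ 1 by decide,
      map_mul, map_mul, map_pow, map_pow, map_pow, hy, hz]
    ring
  have hL : lValue 5 4 ψ = -55660 - 292070 * x := by
    have hr : range (2 ^ 2 * 3 ^ 2) = range 36 := by norm_num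
    rw [lValue_eq (by norm_num), hr]
    simp only [Finset.sum_range_succ, Finset.sum_range_zero, e0, e1, e2, e3, e4, e5, e6, e7, e8, e9, e10, e11, e12, e13, e14, e15, e16, e17, e18, e19, e20, e21, e22, e23, e24, e25, e26, e27, e28, e29, e30, e31, e32, e33, e34, e35, bern4]
    push_cast
    linear_combination (53750 : ℂ) * hx

  have hc : (starRingEnd ℂ) (-55660 - 292070 * x) = -55660 + 292070 * (1 + x) := by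
    have h1 : x⁻¹ = -1 - x := by
      apply inv_eq_of_mul_eq_one_left
      linear_combination -hx
    simp only [map_sub, map_neg, map_mul, map_ofNat, conj_root (by norm_num) hx3, h1]
    ring
  rw [hL]
  refine not_unit (n := 72146304300) (by norm_num) hc ?_
  push_cast
  linear_combination (-85304884900 : ℂ) * hx

end Pool.Agent.E8helper95.G
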