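import Pool.Agent.E8helper95.GA1

/-!
# The sums over the kernel of the `24`-th power of a character
-/

set_option autoImplicit false

namespace Pool.Agent.E8helper95.G

open Finset Pool.Agent.Y18.GX
open scoped Classical

section
variable {k : Type*} [Field k] [CharP k 5] {N : ℕ} [NeZero N]

lemma nat_ne (n : ℕ) (h : ¬ 5 ∣ n) : (n : k) ≠ 0 := fun h1 => h ((CharP.cast_eq_zero_iff k 5 n).1 h1)

lemma sum_units (G : ZMod N → k) (hG : ∀ x, ¬ IsUnit x → G x = 0) :
    ∑ u : (ZMod N)ˣ, G u = ∑ x : ZMod N, G x := by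
  refine Finset.sum_of_injOn (fun u : (ZMod N)ˣ => (u : ZMod N)) ?_ ?_ ?_ ?_
  · intro u _ v _ h
    exact Units.ext h
  · intro u _
    simp
  · intro x _ hx
    apply hG
    rintro ⟨u, rfl⟩
    exact hx ⟨u, by simp, rfl⟩
  · intro u _
    rfl

/-- the sum over one coset of the kernel of the `24`-th power vanishes -/
theorem coset_sum {a b : ℕ} (χ : MulChar (ZMod N) k)
    (hT : ∀ x : (ZMod N)ˣ, χ x ^ (24 * (2 ^ a * 3 ^ b)) = 1) (F : ZMod N → k) (hF : ∀ x, F x ^ 5 = F x)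
    (hS : ∑ x : ZMod N, χ x * F x = 0) (c : (ZMod N)ˣ) :
    ∑ x : (ZMod N)ˣ, (if χ x ^ 24 = χ c ^ 24 then χ x * F x else 0) = 0 := by
  have hp : Fact (Nat.Prime 5) := ⟨by norm_num⟩
  have hF2 : ∀ j x, F x ^ 25 ^ j = F x := by
    intro j x
    induction j with
    | zero => simp
    | succ j ih =>
      rw [pow_succ, pow_mul, ih, show 25 = 5 * 5 by norm_num, pow_mul, hF, hF]
  have hSj : ∀ j, ∑ x : (ZMod N)ˣ, χ x ^ 25 ^ j * F x = 0 := by
    intro j
    rw [sum_units (fun x => χ x ^ 25 ^ j * F x)]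
    · have h1 := congrArg (iterateFrobenius k 5 (2 * j)) hS
      rw [map_zero, map_sum] at h1
      rw [← h1]
      refine Finset.sum_congr rfl fun x _ => ?_
      rw [iterateFrobenius_def, mul_pow, pow_mul 5 2 j, show 5 ^ 2 = 25 by norm_num, hF2]
    · intro x hx
      rw [χ.map_nonunit hx, zero_pow, zero_mul]
      exact (pow_pos (by norm_num) _).ne'
  have hc0 : χ (c : ZMod N) ≠ 0 := ((c.isUnit).map χ).ne_zero
  set J := 2 ^ a * 3 ^ b with hJ
  have hJk : (J : k) ≠ 0 := by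
    apply nat_ne
    intro h
    rw [hJ] at h
    rcases (Nat.Prime.dvd_mul (by norm_num : Nat.Prime 5)).1 h with h1 | h1
    · have := (Nat.Prime.dvd_of_dvd_pow (by norm_num : Nat.Prime 5) h1)
      omega
    · have := (Nat.Prime.dvd_of_dvd_pow (by norm_num : Nat.Prime 5) h1)
      omega
  have htr : ∀ x : (ZMod N)ˣ, ∑ j ∈ range J, (χ x * (χ c)⁻¹) ^ 25 ^ j =
      if χ x ^ 24 = χ c ^ 24 then (J : k) * (χ x * (χ c)⁻¹) else 0 := by
    intro x
    have h24 : (χ x * (χ c)⁻¹) ^ 24 = 1 ↔ χ x ^ 24 = χ c ^ 24 := by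
      rw [mul_pow, inv_pow, mul_inv_eq_one₀ (pow_ne_zero _ hc0)]
    split_ifs with h
    · exact trace_one _ (by norm_num) (h24.2 h)
    · refine trace24 _ ?_ (fun h1 => h (h24.1 h1))
      rw [mul_pow, inv_pow, hT, hT, inv_one, mul_one]
  have h1 : ∑ j ∈ range J, ((χ c)⁻¹) ^ 25 ^ j * ∑ x : (ZMod N)ˣ, χ x ^ 25 ^ j * F x = 0 := by
    simp only [hSj, mul_zero, Finset.sum_const_zero]
  simp only [Finset.mul_sum] at h1
  rw [Finset.sum_comm] at h1
  have h2 : ∀ x : (ZMod N)ˣ, ∑ j ∈ range J, ((χ c)⁻¹) ^ 25 ^ j * (χ x ^ 25 ^ j * F x) =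
      ((J : k) * (χ c)⁻¹) * (if χ x ^ 24 = χ c ^ 24 then χ x * F x else 0) := by
    intro x
    have h4 : ∀ j, ((χ c)⁻¹) ^ 25 ^ j * (χ x ^ 25 ^ j * F x) = F x * (χ x * (χ c)⁻¹) ^ 25 ^ j := by
      intro j
      rw [mul_pow]
      ring
    simp only [h4]
    rw [← Finset.mul_sum, htr]
    split_ifs
    · ring
    · ring
  simp only [h2] at h1
  rw [← Finset.mul_sum] at h1
  rcases mul_eq_zero.1 h1 with h3 | h3
  · exfalso
    exact (mul_ne_zero hJk (inv_ne_zero hc0)) h3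
  · exact h3

/-- the sum over the three generators of the kernel -/
theorem dsum {a b : ℕ} (χ : MulChar (ZMod N) k) (hφ : ¬ 5 ∣ N.totient)
    (hT : ∀ x : (ZMod N)ˣ, χ x ^ (24 * (2 ^ a * 3 ^ b)) = 1) (F : ZMod N → k) (hF : ∀ x, F x ^ 5 = F x)
    (hS : ∑ x : ZMod N, χ x * F x = 0) (h s t : (ZMod N)ˣ) (hh : h ^ 24 = 1) (hs : s ^ 2 = 1) (ht : t ^ 2 = 1)
    (hsur : ∀ x : (ZMod N)ˣ, χ x ^ 24 = 1 → ∃ i d e : ℕ, x = h ^ i * s ^ d * t ^ e) (c : (ZMod N)ˣ) :
    ∑ i ∈ range 24, ∑ d ∈ range 2, ∑ e ∈ range 2,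
      χ ((c * h ^ i * s ^ d * t ^ e : (ZMod N)ˣ) : ZMod N) * F ((c * h ^ i * s ^ d * t ^ e : (ZMod N)ˣ) : ZMod N) = 0 := by
  set g : (ZMod N)ˣ → k := fun x => χ x * F x with hg
  set Sg : (ZMod N)ˣ → k := fun c => ∑ i ∈ range 24, ∑ d ∈ range 2, ∑ e ∈ range 2, g (c * h ^ i * s ^ d * t ^ e)
    with hSg
  have hc := coset_sum χ hT F hF hS c
  have hχ : ∀ x : (ZMod N)ˣ, x ^ 24 = 1 → χ (x : ZMod N) ^ 24 = 1 := by
    intro x hx
    rw [← map_pow, ← Units.val_pow_eq_pow_val, hx, Units.val_one, map_one]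
  have hs24 : s ^ 24 = 1 := by rw [show 24 = 2 * 12 by norm_num, pow_mul, hs, one_pow]
  have ht24 : t ^ 24 = 1 := by rw [show 24 = 2 * 12 by norm_num, pow_mul, ht, one_pow]
  have htrans : ∀ i d e : ℕ, (h ^ i * s ^ d * t ^ e) ^ 24 = 1 := by
    intro i d e
    rw [mul_pow, mul_pow, ← pow_mul, ← pow_mul, ← pow_mul, mul_comm i, mul_comm d, mul_comm e, pow_mul, pow_mul,
      pow_mul, hh, hs24, ht24]
    simp
  -- translations
  have h1 : ∀ y : (ZMod N)ˣ, y ^ 24 = 1 →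
      ∑ x : (ZMod N)ˣ, (if χ x ^ 24 = χ c ^ 24 then g (x * y) else 0) = 0 := by
    intro y hy
    refine Eq.trans ?_ hc
    refine Finset.sum_bij (fun x _ => x * y) (fun _ _ => mem_univ _) ?_ ?_ ?_
    · intro x _ x' _ hxx
      exact mul_right_cancel hxx
    · intro x _
      exact ⟨x * y⁻¹, mem_univ _, by simp⟩
    · intro x _
      have h2 : χ ((x * y : (ZMod N)ˣ) : ZMod N) ^ 24 = χ x ^ 24 := by
        rw [Units.val_mul, map_mul, mul_pow, hχ y hy, mul_one]
      rw [h2]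
  -- shifts
  have hshift : ∀ (x : (ZMod N)ˣ) (i₀ d₀ e₀ : ℕ), Sg (x * (h ^ i₀ * s ^ d₀ * t ^ e₀)) = Sg x := by
    intro x i₀ d₀ e₀
    have e1 : ∀ x, Sg (x * h ^ i₀) = Sg x := by
      intro x
      refine Eq.trans ?_ (periodic_shift (fun i => ∑ d ∈ range 2, ∑ e ∈ range 2, g (x * h ^ i * s ^ d * t ^ e)) 24
        (fun j => by rw [pow_add, hh, mul_one]) i₀)
      refine Finset.sum_congr rfl fun i _ => Finset.sum_congr rfl fun d _ => Finset.sum_congr rfl fun e _ => ?_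
      congr 1
      rw [pow_add]
      ac_rfl
    have e2 : ∀ x, Sg (x * s ^ d₀) = Sg x := by
      intro x
      refine Finset.sum_congr rfl fun i _ => ?_
      refine Eq.trans ?_ (periodic_shift (fun d => ∑ e ∈ range 2, g (x * h ^ i * s ^ d * t ^ e)) 2
        (fun j => by rw [pow_add, hs, mul_one]) d₀)
      refine Finset.sum_congr rfl fun d _ => Finset.sum_congr rfl fun e _ => ?_
      congr 1
      rw [pow_add]
      ac_rfl
    have e3 : ∀ x, Sg (x * t ^ e₀) = Sg x := by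
      intro x
      refine Finset.sum_congr rfl fun i _ => Finset.sum_congr rfl fun d _ => ?_
      refine Eq.trans ?_ (periodic_shift (fun e => g (x * h ^ i * s ^ d * t ^ e)) 2
        (fun j => by rw [pow_add, ht, mul_one]) e₀)
      refine Finset.sum_congr rfl fun e _ => ?_
      congr 1
      rw [pow_add]
      ac_rfl
    rw [← mul_assoc, ← mul_assoc, e3, e2, e1]
  -- the count
  have h2 : ∑ x : (ZMod N)ˣ, (if χ x ^ 24 = χ c ^ 24 then Sg x else 0) = 0 := by
    have h3 : ∀ x : (ZMod N)ˣ, (if χ x ^ 24 = χ c ^ 24 then Sg x else 0) =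
        ∑ i ∈ range 24, ∑ d ∈ range 2, ∑ e ∈ range 2,
          (if χ x ^ 24 = χ c ^ 24 then g (x * (h ^ i * s ^ d * t ^ e)) else 0) := by
      intro x
      split_ifs
      · rw [hSg]
        simp only [mul_assoc]
      · simp
    simp only [h3]
    rw [Finset.sum_comm]
    refine Finset.sum_eq_zero fun i _ => ?_
    rw [Finset.sum_comm]
    refine Finset.sum_eq_zero fun d _ => ?_
    rw [Finset.sum_comm]
    refine Finset.sum_eq_zero fun e _ => ?_
    exact h1 _ (htrans i d e)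
  have h3 : ∀ x : (ZMod N)ˣ, (if χ x ^ 24 = χ c ^ 24 then Sg x else 0) =
      (if χ x ^ 24 = χ c ^ 24 then Sg c else 0) := by
    intro x
    split_ifs with hx
    · have hxc : χ ((x * c⁻¹ : (ZMod N)ˣ) : ZMod N) ^ 24 = 1 := by
        have h4 : χ ((x * c⁻¹ : (ZMod N)ˣ) : ZMod N) * χ c = χ x := by
          rw [← map_mul, ← Units.val_mul, inv_mul_cancel_right]
        have h5 : χ (c : ZMod N) ^ 24 ≠ 0 := pow_ne_zero _ ((c.isUnit).map χ).ne_zero
        have h6 : χ ((x * c⁻¹ : (ZMod N)ˣ) : ZMod N) ^ 24 * χ (c : ZMod N) ^ 24 = χ (c : ZMod N) ^ 24 := by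
          rw [← mul_pow, h4, hx]
        exact mul_eq_right₀ h5 |>.1 h6
      obtain ⟨i, d, e, hide⟩ := hsur _ hxc
      have h7 : x = c * (h ^ i * s ^ d * t ^ e) := by
        rw [← hide, mul_comm c, inv_mul_cancel_right]
      rw [h7, hshift]
    · rfl
  simp only [h3] at h2
  rw [← Finset.sum_filter, Finset.sum_const, nsmul_eq_mul] at h2
  rcases mul_eq_zero.1 h2 with h4 | h4
  · exfalso
    -- the cardinality of the kernel
    set f : (ZMod N)ˣ →* kˣ := (χ.toUnitHom) ^ 24 with hf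
    have hfx : ∀ x, ((f x : kˣ) : k) = χ x ^ 24 := by
      intro x
      rw [hf, MonoidHom.pow_apply, Units.val_pow_eq_pow_val, MulChar.coe_toUnitHom]
    have h5 : (univ.filter fun x : (ZMod N)ˣ => χ x ^ 24 = χ c ^ 24) = univ.filter fun x => f x = f c := by
      ext x
      simp only [mem_filter, mem_univ, true_and]
      rw [← hfx, ← hfx, Units.val_inj]
    have h6 : (univ.filter fun x => f x = f c).card = (univ.filter fun x => f x = 1).card :=
      MonoidHom.card_fiber_eq_of_mem_range f ⟨c, rfl⟩ ⟨1, map_one f⟩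
    have h7 : (univ.filter fun x => f x = 1).card = Nat.card f.ker := by
      rw [Nat.card_eq_fintype_card, Fintype.card_subtype]
      congr 1
      ext x
      simp only [mem_filter, mem_univ, true_and, MonoidHom.mem_ker]
    have h8 : Nat.card f.ker ∣ Nat.card (ZMod N)ˣ := Subgroup.card_subgroup_dvd_card _
    rw [Nat.card_eq_fintype_card (α := (ZMod N)ˣ), ZMod.card_units_eq_totient] at h8
    rw [h5, h6, h7] at h4
    exact nat_ne (k := k) _ (fun h9 => hφ (h9.trans h8)) h4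
  · exact h4

end

end Pool.Agent.E8helper95.G
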