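import Pool.Agent.E8helper95.GA3

/-!
# Characters modulo `2^a * 3^b` in characteristic `5`
-/

set_option autoImplicit false

namespace Pool.Agent.E8helper95.G

open Finset Pool.Agent.Y18.GX

section
variable {k : Type*} [Field k] {N₁ Q : ℕ} (h : N₁.Coprime Q) (ψ : MulChar (ZMod (N₁ * Q)) k)

noncomputable def fs : MulChar (ZMod N₁) k where
  toFun x := ψ ((ZMod.chineseRemainder h).symm (x, 1))
  map_one' := by
    have : ((1 : ZMod N₁), (1 : ZMod Q)) = 1 := rfl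
    rw [this, map_one, map_one]
  map_mul' x y := by
    have : ((x * y : ZMod N₁), (1 : ZMod Q)) = (x, 1) * (y, 1) := by simp
    rw [this, map_mul, map_mul]
  map_nonunit' x hx := by
    apply ψ.map_nonunit
    intro h1
    apply hx
    have h2 := h1.map (ZMod.chineseRemainder h)
    rw [RingEquiv.apply_symm_apply, Prod.isUnit_iff] at h2
    exact h2.1

noncomputable def sn : MulChar (ZMod Q) k where
  toFun x := ψ ((ZMod.chineseRemainder h).symm (1, x))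
  map_one' := by
    have : ((1 : ZMod N₁), (1 : ZMod Q)) = 1 := rfl
    rw [this, map_one, map_one]
  map_mul' x y := by
    have : ((1 : ZMod N₁), (x * y : ZMod Q)) = (1, x) * (1, y) := by simp
    rw [this, map_mul, map_mul]
  map_nonunit' x hx := by
    apply ψ.map_nonunit
    intro h1
    apply hx
    have h2 := h1.map (ZMod.chineseRemainder h)
    rw [RingEquiv.apply_symm_apply, Prod.isUnit_iff] at h2
    exact h2.2

lemma fs_sn (a : ℕ) : ψ (a : ZMod (N₁ * Q)) = fs h ψ (a : ZMod N₁) * sn h ψ (a : ZMod Q) := by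
  have h1 : fs h ψ (a : ZMod N₁) * sn h ψ (a : ZMod Q) =
      ψ ((ZMod.chineseRemainder h).symm ((a : ZMod N₁), 1)) *
      ψ ((ZMod.chineseRemainder h).symm (1, (a : ZMod Q))) := rfl
  rw [h1, ← map_mul, ← map_mul]
  congr 1
  rw [RingEquiv.eq_symm_apply, map_natCast]
  exact Prod.ext (by simp) (by simp)

end

/-- the generator modulo `2^a` -/
def g2 (a : ℕ) : ℕ := if a ≤ 4 then 5 else 1 + 2 ^ (a - 3)

/-- the generator modulo `3^b` -/
def g3 (b : ℕ) : ℕ := if b ≤ 1 then 1 else 1 + 3 ^ (b - 1)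

lemma g2_pow (a : ℕ) : ((g2 a : ℕ) : ZMod (2 ^ a)) ^ 8 = 1 := by
  rcases Nat.lt_or_ge a 6 with h | h
  · interval_cases a <;> decide
  · have h1 : g2 a = 1 + 2 ^ (a - 3) := by
      unfold g2
      rw [if_neg (by omega)]
    have h2 := one_add_pow_of_sq ((2 ^ (a - 3) : ℕ) : ZMod (2 ^ a)) (M_sq (n := 3) (by omega)) 8
    rw [h1]
    push_cast at h2 ⊢
    rw [h2]
    have h4 : 8 * 2 ^ (a - 3) = 2 ^ a := by
      rw [show 8 = 2 ^ 3 by norm_num, ← pow_add]
      congr 1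
      omega
    have h3 : (8 : ZMod (2 ^ a)) * 2 ^ (a - 3) = ((8 * 2 ^ (a - 3) : ℕ) : ZMod (2 ^ a)) := by
      push_cast
      rfl
    rw [h3, h4, ZMod.natCast_self, add_zero]

lemma g3_pow (b : ℕ) : ((g3 b : ℕ) : ZMod (3 ^ b)) ^ 3 = 1 := by
  rcases Nat.lt_or_ge b 2 with h | h
  · interval_cases b <;> decide
  · have h1 : g3 b = 1 + 3 ^ (b - 1) := by
      unfold g3
      rw [if_neg (by omega)]
    have h2 := one_add_pow_of_sq ((3 ^ (b - 1) : ℕ) : ZMod (3 ^ b)) (M_sq (n := 1) (by omega)) 3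
    rw [h1]
    push_cast at h2 ⊢
    rw [h2]
    have h4 : 3 * 3 ^ (b - 1) = 3 ^ b := by
      rw [← pow_succ']
      congr 1
      omega
    have h3 : (3 : ZMod (3 ^ b)) * 3 ^ (b - 1) = ((3 * 3 ^ (b - 1) : ℕ) : ZMod (3 ^ b)) := by
      push_cast
      rfl
    rw [h3, h4, ZMod.natCast_self, add_zero]

/-- numbers which are `±1` modulo `2^(a-3)` -/
lemma rep2 (a x : ℕ) (hx : a ≠ 0 → x % 2 = 1) (h1 : 2 ^ (a - 3) ∣ x - 1 ∨ 2 ^ (a - 3) ∣ x + 1) :
    ∃ i d : ℕ, (x : ZMod (2 ^ a)) = ((g2 a : ℕ) : ZMod (2 ^ a)) ^ i * (-1) ^ d := by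
  rcases Nat.lt_or_ge a 6 with h | h
  · have key : ∀ y : ZMod (2 ^ a), (a ≠ 0 → y.val % 2 = 1) →
        ∃ i ∈ range 8, ∃ d ∈ range 2, y = ((g2 a : ℕ) : ZMod (2 ^ a)) ^ i * (-1) ^ d := by
      interval_cases a <;> decide
    obtain ⟨i, -, d, -, hid⟩ := key (x : ZMod (2 ^ a)) (by
      intro ha
      rw [ZMod.val_natCast, Nat.mod_mod_of_dvd _ (dvd_pow_self 2 ha)]
      exact hx ha)
    exact ⟨i, d, hid⟩
  · have hg : g2 a = 1 + 2 ^ (a - 3) := by
      unfold g2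
      rw [if_neg (by omega)]
    have h2 := one_add_pow_of_sq ((2 ^ (a - 3) : ℕ) : ZMod (2 ^ a)) (M_sq (n := 3) (by omega))
    have hx1 := hx (by omega)
    have hE : 1 ≤ 2 ^ a := Nat.one_le_pow _ _ (by norm_num)
    rcases h1 with ⟨y, hy⟩ | ⟨y, hy⟩
    · refine ⟨y, 0, ?_⟩
      have : x = 1 + y * 2 ^ (a - 3) := by
        rw [mul_comm] at hy
        omega
      rw [hg, this, pow_zero, mul_one]
      push_cast at h2 ⊢
      rw [h2]
    · refine ⟨(2 ^ a - 1) * y, 1, ?_⟩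
      have h4 : ((2 ^ a - 1 : ℕ) : ZMod (2 ^ a)) = -1 := by
        rw [Nat.cast_sub hE, ZMod.natCast_self]
        simp
      have h5 : (x : ZMod (2 ^ a)) + 1 = ((2 ^ (a - 3) * y : ℕ) : ZMod (2 ^ a)) := by
        rw [← hy]
        push_cast
        rfl
      have h6 := h2 ((2 ^ a - 1) * y)
      rw [Nat.cast_mul, h4] at h6
      rw [hg, pow_one]
      push_cast at h5 h6 ⊢
      rw [h6]
      linear_combination h5

lemma rep3 (b x : ℕ) (hx : b ≠ 0 → x % 3 ≠ 0) (h1 : 3 ^ (b - 1) ∣ x - 1 ∨ 3 ^ (b - 1) ∣ x + 1) :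
    ∃ i d : ℕ, (x : ZMod (3 ^ b)) = ((g3 b : ℕ) : ZMod (3 ^ b)) ^ i * (-1) ^ d := by
  rcases Nat.lt_or_ge b 2 with h | h
  · have key : ∀ y : ZMod (3 ^ b), (b ≠ 0 → y.val % 3 ≠ 0) →
        ∃ i ∈ range 3, ∃ d ∈ range 2, y = ((g3 b : ℕ) : ZMod (3 ^ b)) ^ i * (-1) ^ d := by
      interval_cases b <;> decide
    obtain ⟨i, -, d, -, hid⟩ := key (x : ZMod (3 ^ b)) (by
      intro ha
      rw [ZMod.val_natCast, Nat.mod_mod_of_dvd _ (dvd_pow_self 3 ha)]
      exact hx ha)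
    exact ⟨i, d, hid⟩
  · have hg : g3 b = 1 + 3 ^ (b - 1) := by
      unfold g3
      rw [if_neg (by omega)]
    have h2 := one_add_pow_of_sq ((3 ^ (b - 1) : ℕ) : ZMod (3 ^ b)) (M_sq (n := 1) (by omega))
    have hx1 := hx (by omega)
    have hE : 1 ≤ 3 ^ b := Nat.one_le_pow _ _ (by norm_num)
    rcases h1 with ⟨y, hy⟩ | ⟨y, hy⟩
    · refine ⟨y, 0, ?_⟩
      have : x = 1 + y * 3 ^ (b - 1) := by
        rw [mul_comm] at hy
        omega
      rw [hg, this, pow_zero, mul_one]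
      push_cast at h2 ⊢
      rw [h2]
    · refine ⟨(3 ^ b - 1) * y, 1, ?_⟩
      have h4 : ((3 ^ b - 1 : ℕ) : ZMod (3 ^ b)) = -1 := by
        rw [Nat.cast_sub hE, ZMod.natCast_self]
        simp
      have h5 : (x : ZMod (3 ^ b)) + 1 = ((3 ^ (b - 1) * y : ℕ) : ZMod (3 ^ b)) := by
        rw [← hy]
        push_cast
        rfl
      have h6 := h2 ((3 ^ b - 1) * y)
      rw [Nat.cast_mul, h4] at h6
      rw [hg, pow_one]
      push_cast at h5 h6 ⊢
      rw [h6]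
      linear_combination h5

end Pool.Agent.E8helper95.G
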