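import Pool.Agent.E8helper95.GA4

/-!
# The values of a primitive character at the generators, and the kernel of the `24`-th power
-/

set_option autoImplicit false

namespace Pool.Agent.E8helper95.G

open Finset Pool.Agent.Y18.GX

section
variable {k : Type*} [Field k]

lemma neg_sq {n : ℕ} (χ : MulChar (ZMod n) k) : χ (-1) ^ 2 = 1 := by
  rw [← map_pow]
  simp

lemma good2 (a : ℕ) (χ : MulChar (ZMod (2 ^ a)) k)
    (hp : a ≠ 0 → ∃ u : ℕ, u % 2 = 1 ∧ u ≡ 1 [MOD 2 ^ (a - 1)] ∧ χ (u : ZMod (2 ^ a)) ≠ 1) :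
    χ ((g2 a : ℕ) : ZMod (2 ^ a)) ^ 8 = 1 ∧ a ≠ 1 ∧
    (a = 0 → χ ((g2 a : ℕ) : ZMod (2 ^ a)) = 1 ∧ χ (-1) = 1) ∧
    (a = 2 → χ ((g2 a : ℕ) : ZMod (2 ^ a)) = 1 ∧ χ (-1) ≠ 1) ∧
    (a = 3 → χ ((g2 a : ℕ) : ZMod (2 ^ a)) ^ 2 = 1 ∧ χ ((g2 a : ℕ) : ZMod (2 ^ a)) ≠ 1) ∧
    (a = 4 → χ ((g2 a : ℕ) : ZMod (2 ^ a)) ^ 4 = 1 ∧ χ ((g2 a : ℕ) : ZMod (2 ^ a)) ^ 2 ≠ 1) ∧
    (5 ≤ a → χ ((g2 a : ℕ) : ZMod (2 ^ a)) ^ 4 ≠ 1) := by
  refine ⟨?_, ?_, ?_, ?_, ?_, ?_, ?_⟩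
  · rw [← map_pow, g2_pow, map_one]
  · rintro rfl
    obtain ⟨u, h1, -, h3⟩ := hp one_ne_zero
    apply h3
    have : (u : ZMod (2 ^ 1)) = 1 := by
      have key : ∀ y : ZMod (2 ^ 1), y.val % 2 = 1 → y = 1 := by decide
      apply key
      rw [ZMod.val_natCast]
      omega
    rw [this, map_one]
  · rintro rfl
    have h1 : ∀ y : ZMod (2 ^ 0), χ y = 1 := by
      intro y
      have : y = 1 := by
        revert y
        decide
      rw [this, map_one]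
    exact ⟨h1 _, h1 _⟩
  · rintro rfl
    obtain ⟨u, h1, -, h3⟩ := hp two_ne_zero
    constructor
    · have : ((g2 2 : ℕ) : ZMod (2 ^ 2)) = 1 := by decide
      rw [this, map_one]
    · have key : ∀ y : ZMod (2 ^ 2), y.val % 2 = 1 → y = 1 ∨ y = -1 := by decide
      rcases key (u : ZMod (2 ^ 2)) (by rw [ZMod.val_natCast]; omega) with h | h
      · rw [h, map_one] at h3
        exact absurd rfl h3
      · rw [← h]
        exact h3
  · rintro rfl
    obtain ⟨u, h1, h2, h3⟩ := hp (by norm_num)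
    constructor
    · rw [← map_pow]
      have : ((g2 3 : ℕ) : ZMod (2 ^ 3)) ^ 2 = 1 := by decide
      rw [this, map_one]
    · have key : ∀ y : ZMod (2 ^ 3), y.val % 4 = 1 → y = 1 ∨ y = ((g2 3 : ℕ) : ZMod (2 ^ 3)) := by decide
      rcases key (u : ZMod (2 ^ 3)) (by
        rw [ZMod.val_natCast]
        have : u % 4 = 1 := h2
        omega) with h | h
      · rw [h, map_one] at h3
        exact absurd rfl h3
      · rw [← h]
        exact h3
  · rintro rfl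
    obtain ⟨u, h1, h2, h3⟩ := hp (by norm_num)
    constructor
    · rw [← map_pow]
      have : ((g2 4 : ℕ) : ZMod (2 ^ 4)) ^ 4 = 1 := by decide
      rw [this, map_one]
    · have key : ∀ y : ZMod (2 ^ 4), y.val % 8 = 1 → y = 1 ∨ y = ((g2 4 : ℕ) : ZMod (2 ^ 4)) ^ 2 := by decide
      rcases key (u : ZMod (2 ^ 4)) (by
        rw [ZMod.val_natCast]
        have : u % 8 = 1 := h2
        omega) with h | h
      · rw [h, map_one] at h3
        exact absurd rfl h3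
      · rw [← map_pow, ← h]
        exact h3
  · intro ha
    obtain ⟨u, h1, h2, h3⟩ := hp (by omega)
    rcases Nat.eq_or_lt_of_le ha with h5 | h5
    · subst h5
      have key : ∀ y : ZMod (2 ^ 5), y.val % 16 = 1 → y = 1 ∨ y = ((g2 5 : ℕ) : ZMod (2 ^ 5)) ^ 4 := by decide
      rcases key (u : ZMod (2 ^ 5)) (by
        rw [ZMod.val_natCast]
        have : u % 16 = 1 := h2
        omega) with h | h
      · rw [h, map_one] at h3
        exact absurd rfl h3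
      · rw [← map_pow, ← h]
        exact h3
    · have hg : g2 a = 1 + 2 ^ (a - 3) := by
        unfold g2
        rw [if_neg (by omega)]
      intro h6
      apply h3
      have h7 : 2 ^ (a - 1) ∣ u - 1 := (Nat.modEq_iff_dvd' (by omega)).1 h2.symm
      obtain ⟨t, ht⟩ := h7
      have h8 : u = 1 + 2 ^ (a - 3) * (4 * t) := by
        have : 2 ^ (a - 1) = 2 ^ (a - 3) * 4 := by
          rw [show 4 = 2 ^ 2 by norm_num, ← pow_add]
          congr 1
          omega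
        rw [this, mul_assoc] at ht
        omega
      rw [h8, psi_one_add χ (n := 3) (by omega), ← hg, pow_mul, h6, one_pow]

lemma good3 (b : ℕ) (χ : MulChar (ZMod (3 ^ b)) k)
    (hp : b ≠ 0 → ∃ u : ℕ, u % 3 ≠ 0 ∧ u ≡ 1 [MOD 3 ^ (b - 1)] ∧ χ (u : ZMod (3 ^ b)) ≠ 1) :
    χ ((g3 b : ℕ) : ZMod (3 ^ b)) ^ 3 = 1 ∧
    (b = 0 → χ (-1) = 1) ∧ (b = 1 → χ (-1) ≠ 1) ∧
    (b ≤ 1 → χ ((g3 b : ℕ) : ZMod (3 ^ b)) = 1) ∧
    (2 ≤ b → χ ((g3 b : ℕ) : ZMod (3 ^ b)) ≠ 1) := by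
  refine ⟨?_, ?_, ?_, ?_, ?_⟩
  · rw [← map_pow, g3_pow, map_one]
  · rintro rfl
    have : (-1 : ZMod (3 ^ 0)) = 1 := by decide
    rw [this, map_one]
  · rintro rfl
    obtain ⟨u, h1, -, h3⟩ := hp one_ne_zero
    have key : ∀ y : ZMod (3 ^ 1), y.val % 3 ≠ 0 → y = 1 ∨ y = -1 := by decide
    rcases key (u : ZMod (3 ^ 1)) (by rw [ZMod.val_natCast]; omega) with h | h
    · rw [h, map_one] at h3
      exact absurd rfl h3
    · rw [← h]
      exact h3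
  · intro h
    have : g3 b = 1 := by
      unfold g3
      rw [if_pos h]
    rw [this, Nat.cast_one, map_one]
  · intro hb
    obtain ⟨u, h1, h2, h3⟩ := hp (by omega)
    have hg : g3 b = 1 + 3 ^ (b - 1) := by
      unfold g3
      rw [if_neg (by omega)]
    intro h6
    apply h3
    have h7 : 3 ^ (b - 1) ∣ u - 1 := (Nat.modEq_iff_dvd' (by omega)).1 h2.symm
    obtain ⟨t, ht⟩ := h7
    have h8 : u = 1 + 3 ^ (b - 1) * t := by omega
    rw [h8, psi_one_add χ (n := 1) (by omega), ← hg, h6, one_pow]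

lemma kern2 (a x : ℕ) (χ : MulChar (ZMod (2 ^ a)) k)
    (hp : a ≠ 0 → ∃ u : ℕ, u % 2 = 1 ∧ u ≡ 1 [MOD 2 ^ (a - 1)] ∧ χ (u : ZMod (2 ^ a)) ≠ 1)
    (hx : a ≠ 0 → x % 2 = 1) (h1 : χ (x : ZMod (2 ^ a)) ^ 24 = 1) :
    2 ^ (a - 3) ∣ x - 1 ∨ 2 ^ (a - 3) ∣ x + 1 := by
  rcases Nat.lt_or_ge a 6 with h | h
  · have : a = 0 ∨ a = 1 ∨ a = 2 ∨ a = 3 ∨ a = 4 ∨ a = 5 := by omega
    rcases this with rfl | rfl | rfl | rfl | rfl | rfl
    · left; norm_num
    · left; norm_num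
    · left; norm_num
    · left; norm_num
    · left
      have := hx (by norm_num)
      norm_num
      omega
    · have := hx (by norm_num)
      norm_num
      omega
  · obtain ⟨-, -, -, -, -, -, h4⟩ := good2 a χ hp
    have hg : g2 a = 1 + 2 ^ (a - 3) := by
      unfold g2
      rw [if_neg (by omega)]
    have hprim : χ ((1 + 2 ^ (a - 1) : ℕ) : ZMod (2 ^ a)) ≠ 1 := by
      rw [← psi_M_pow' χ (n := 3) (by omega) (by norm_num), ← hg]
      exact h4 (by omega)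
    exact kernel χ (q := 25) (u := 3) (n := 3) (Or.inr ⟨rfl, rfl⟩) (by omega) (by norm_num) hprim (by norm_num)
      (by norm_num) (Nat.coprime_two_right.2 (Nat.odd_iff.2 (hx (by omega)))) h1

lemma kern3 (b x : ℕ) (χ : MulChar (ZMod (3 ^ b)) k)
    (hp : b ≠ 0 → ∃ u : ℕ, u % 3 ≠ 0 ∧ u ≡ 1 [MOD 3 ^ (b - 1)] ∧ χ (u : ZMod (3 ^ b)) ≠ 1)
    (hx : b ≠ 0 → x % 3 ≠ 0) (h1 : χ (x : ZMod (3 ^ b)) ^ 24 = 1) :
    3 ^ (b - 1) ∣ x - 1 ∨ 3 ^ (b - 1) ∣ x + 1 := by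
  rcases Nat.lt_or_ge b 2 with h | h
  · have : b = 0 ∨ b = 1 := by omega
    rcases this with rfl | rfl
    · left; norm_num
    · left; norm_num
  · obtain ⟨-, -, -, -, h4⟩ := good3 b χ hp
    have hg : g3 b = 1 + 3 ^ (b - 1) := by
      unfold g3
      rw [if_neg (by omega)]
    have hprim : χ ((1 + 3 ^ (b - 1) : ℕ) : ZMod (3 ^ b)) ≠ 1 := by
      rw [← hg]
      exact h4 h
    refine kernel χ (q := 25) (u := 8) (n := 1) (Or.inl ⟨rfl, rfl⟩) (by omega) (by norm_num) hprim (by norm_num)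
      (by norm_num) ?_ h1
    rw [Nat.coprime_comm, Nat.Prime.coprime_iff_not_dvd Nat.prime_three]
    have := hx (by omega)
    omega

end

end Pool.Agent.E8helper95.G
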