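import Pool.Agent.E8helper95.GA5
import Pool.Agent.Y18.GX.Class
import Pool.Agent.Y18.GX.Bern

/-!
# The relation for a character modulo `2^a * 3^b`
-/

set_option autoImplicit false

namespace Pool.Agent.E8helper95.G

open Finset Pool.Agent.Y18.GX

lemma hcop (a b : ℕ) : (2 ^ a).Coprime (3 ^ b) := Nat.Coprime.pow _ _ (by norm_num)

lemma eq_of_crt {a b x y : ℕ} (h2 : (x : ZMod (2 ^ a)) = (y : ZMod (2 ^ a)))
    (h3 : (x : ZMod (3 ^ b)) = (y : ZMod (3 ^ b))) : (x : ZMod (2 ^ a * 3 ^ b)) = (y : ZMod (2 ^ a * 3 ^ b)) := by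
  rw [ZMod.natCast_eq_natCast_iff] at h2 h3 ⊢
  exact (Nat.modEq_and_modEq_iff_modEq_mul (hcop a b)).1 ⟨h2, h3⟩

/-- the value of the polynomial at the fractional part -/
noncomputable def Fh {k : Type*} [Field k] (m N x : ℕ) : k :=
  Polynomial.aeval (((x % N : ℕ) : k) / (N : ℕ)) (FF m)

/-- the hypotheses on the character -/
structure Prim {k : Type*} [Field k] (a b : ℕ) (χ : MulChar (ZMod (2 ^ a * 3 ^ b)) k) : Prop where
  two : a ≠ 0 → ∃ u : ℕ, u.Coprime (2 ^ a * 3 ^ b) ∧ u ≡ 1 [MOD 2 ^ (a - 1) * 3 ^ b] ∧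
    χ (u : ZMod (2 ^ a * 3 ^ b)) ≠ 1
  three : b ≠ 0 → ∃ u : ℕ, u.Coprime (2 ^ a * 3 ^ b) ∧ u ≡ 1 [MOD 2 ^ a * 3 ^ (b - 1)] ∧
    χ (u : ZMod (2 ^ a * 3 ^ b)) ≠ 1

/-- the congruences for the three generators -/
structure Gens (a b h s t : ℕ) : Prop where
  h2 : (h : ZMod (2 ^ a)) = ((g2 a : ℕ) : ZMod (2 ^ a))
  h3 : (h : ZMod (3 ^ b)) = ((g3 b : ℕ) : ZMod (3 ^ b))
  s2 : (s : ZMod (2 ^ a)) = -1
  s3 : (s : ZMod (3 ^ b)) = 1
  t2 : (t : ZMod (2 ^ a)) = 1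
  t3 : (t : ZMod (3 ^ b)) = -1

/-- what is known about the values at the generators -/
structure Vals {k : Type*} [Field k] (a b m : ℕ) (ξ σ τ : k) : Prop where
  x24 : ξ ^ 24 = 1
  s : σ ^ 2 = 1
  t : τ ^ 2 = 1
  st : σ * τ = (-1) ^ m
  ne1 : a ≠ 1
  a0 : a = 0 → ξ ^ 9 = 1 ∧ σ = 1
  a2 : a = 2 → ξ ^ 9 = 1 ∧ σ ≠ 1
  a3 : a = 3 → ξ ^ 18 = 1 ∧ ξ ^ 9 ≠ 1
  a4 : a = 4 → ξ ^ 12 = 1 ∧ ξ ^ 18 ≠ 1
  a5 : 5 ≤ a → ξ ^ 12 ≠ 1
  b0 : b = 0 → τ = 1
  b1 : b = 1 → τ ≠ 1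
  b2 : b ≤ 1 → ξ ^ 16 = 1
  b3 : 2 ≤ b → ξ ^ 16 ≠ 1

section
variable {k : Type*} [Field k] {a b : ℕ} (χ : MulChar (ZMod (2 ^ a * 3 ^ b)) k)

lemma cop2 {x : ℕ} (hx : x.Coprime (2 ^ a * 3 ^ b)) (ha : a ≠ 0) : x % 2 = 1 := by
  have h1 : x.Coprime (2 ^ a) := Nat.Coprime.coprime_mul_right_right hx
  have h2 : x.Coprime 2 := Nat.Coprime.coprime_dvd_right (dvd_pow_self 2 ha) h1
  exact Nat.odd_iff.1 (Nat.coprime_two_right.1 h2)

lemma cop3 {x : ℕ} (hx : x.Coprime (2 ^ a * 3 ^ b)) (hb : b ≠ 0) : x % 3 ≠ 0 := by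
  have h1 : x.Coprime (3 ^ b) := Nat.Coprime.coprime_mul_left_right hx
  have h2 : x.Coprime 3 := Nat.Coprime.coprime_dvd_right (dvd_pow_self 3 hb) h1
  intro h3
  have h4 : 3 ∣ x := Nat.dvd_of_mod_eq_zero h3
  have h5 := Nat.dvd_gcd h4 (dvd_refl 3)
  rw [h2] at h5
  omega

lemma prim2 (hP : Prim a b χ) (ha : a ≠ 0) : ∃ u : ℕ, u % 2 = 1 ∧ u ≡ 1 [MOD 2 ^ (a - 1)] ∧
    fs (hcop a b) χ (u : ZMod (2 ^ a)) ≠ 1 := by
  obtain ⟨u, h1, h2, h3⟩ := hP.two ha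
  refine ⟨u, cop2 h1 ha, h2.of_dvd (dvd_mul_right _ _), ?_⟩
  intro h4
  apply h3
  rw [fs_sn (hcop a b) χ, h4, one_mul]
  have : (u : ZMod (3 ^ b)) = 1 := by
    rw [← Nat.cast_one, ZMod.natCast_eq_natCast_iff]
    exact h2.of_dvd (dvd_mul_left _ _)
  rw [this, map_one]

lemma prim3 (hP : Prim a b χ) (hb : b ≠ 0) : ∃ u : ℕ, u % 3 ≠ 0 ∧ u ≡ 1 [MOD 3 ^ (b - 1)] ∧
    sn (hcop a b) χ (u : ZMod (3 ^ b)) ≠ 1 := by
  obtain ⟨u, h1, h2, h3⟩ := hP.three hb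
  refine ⟨u, cop3 h1 hb, h2.of_dvd (dvd_mul_left _ _), ?_⟩
  intro h4
  apply h3
  rw [fs_sn (hcop a b) χ, h4, mul_one]
  have : (u : ZMod (2 ^ a)) = 1 := by
    rw [← Nat.cast_one, ZMod.natCast_eq_natCast_iff]
    exact h2.of_dvd (dvd_mul_right _ _)
  rw [this, map_one]

lemma vals {m h s t : ℕ} (hP : Prim a b χ) (hG : Gens a b h s t) (hpar : χ (-1) = (-1) ^ m) :
    Vals a b m (χ (h : ZMod (2 ^ a * 3 ^ b))) (χ (s : ZMod (2 ^ a * 3 ^ b))) (χ (t : ZMod (2 ^ a * 3 ^ b))) := by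
  obtain ⟨A8, Ane, A0, A2, A3, A4, A5⟩ := good2 a (fs (hcop a b) χ) (fun ha => prim2 χ hP ha)
  obtain ⟨B3, B0, B1, B1', B2⟩ := good3 b (sn (hcop a b) χ) (fun hb => prim3 χ hP hb)
  have eh : χ (h : ZMod (2 ^ a * 3 ^ b)) = fs (hcop a b) χ ((g2 a : ℕ) : ZMod (2 ^ a)) *
      sn (hcop a b) χ ((g3 b : ℕ) : ZMod (3 ^ b)) := by
    rw [fs_sn (hcop a b) χ, hG.h2, hG.h3]
  have es : χ (s : ZMod (2 ^ a * 3 ^ b)) = fs (hcop a b) χ (-1) := by
    rw [fs_sn (hcop a b) χ, hG.s2, hG.s3, map_one, mul_one]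
  have et : χ (t : ZMod (2 ^ a * 3 ^ b)) = sn (hcop a b) χ (-1) := by
    rw [fs_sn (hcop a b) χ, hG.t2, hG.t3, map_one, one_mul]
  set A := fs (hcop a b) χ ((g2 a : ℕ) : ZMod (2 ^ a)) with hA
  set B := sn (hcop a b) χ ((g3 b : ℕ) : ZMod (3 ^ b)) with hB
  have e9 : (A * B) ^ 9 = A := by
    have h1 : (A * B) ^ 9 = A * A ^ 8 * (B ^ 3) ^ 3 := by ring
    rw [h1, A8, B3]
    ring
  have e18 : (A * B) ^ 18 = A ^ 2 := by
    rw [show 18 = 9 * 2 by norm_num, pow_mul, e9]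
  have e12 : (A * B) ^ 12 = A ^ 4 := by
    have h1 : (A * B) ^ 12 = A ^ 4 * A ^ 8 * (B ^ 3) ^ 4 := by ring
    rw [h1, A8, B3]
    ring
  have e16 : (A * B) ^ 16 = B := by
    have h1 : (A * B) ^ 16 = (A ^ 8) ^ 2 * (B * (B ^ 3) ^ 5) := by ring
    rw [h1, A8, B3]
    ring
  have hst : fs (hcop a b) χ (-1) * sn (hcop a b) χ (-1) = (-1) ^ m := by
    have h1 : ((2 ^ a * 3 ^ b - 1 : ℕ) : ZMod (2 ^ a * 3 ^ b)) = -1 := by
      rw [Nat.cast_sub (Nat.one_le_iff_ne_zero.2 (by positivity)), ZMod.natCast_self]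
      simp
    have h2 : ((2 ^ a * 3 ^ b - 1 : ℕ) : ZMod (2 ^ a)) = -1 := by
      rw [Nat.cast_sub (Nat.one_le_iff_ne_zero.2 (by positivity)), Nat.cast_mul, ZMod.natCast_self]
      simp
    have h3 : ((2 ^ a * 3 ^ b - 1 : ℕ) : ZMod (3 ^ b)) = -1 := by
      rw [Nat.cast_sub (Nat.one_le_iff_ne_zero.2 (by positivity)), Nat.cast_mul, ZMod.natCast_self]
      simp
    rw [← hpar, ← h1, fs_sn (hcop a b) χ, h2, h3]
  rw [eh, es, et]
  refine ⟨?_, neg_sq _, neg_sq _, hst, Ane, ?_, ?_, ?_, ?_, ?_, B0, B1, ?_, ?_⟩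
  · have h1 : (A * B) ^ 24 = (A ^ 8) ^ 3 * (B ^ 3) ^ 8 := by ring
    rw [h1, A8, B3]
    ring
  · intro h0
    rw [e9]
    exact A0 h0
  · intro h0
    rw [e9]
    exact A2 h0
  · intro h0
    rw [e18, e9]
    exact A3 h0
  · intro h0
    rw [e12, e18]
    exact A4 h0
  · intro h0
    rw [e12]
    exact A5 h0
  · intro h0
    rw [e16]
    exact B1' h0
  · intro h0
    rw [e16]
    exact B2 h0

lemma kern (hP : Prim a b χ) {x : ℕ} (hx : x.Coprime (2 ^ a * 3 ^ b))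
    (h1 : χ (x : ZMod (2 ^ a * 3 ^ b)) ^ 24 = 1) :
    (2 ^ (a - 3) ∣ x - 1 ∨ 2 ^ (a - 3) ∣ x + 1) ∧ (3 ^ (b - 1) ∣ x - 1 ∨ 3 ^ (b - 1) ∣ x + 1) := by
  set u := fs (hcop a b) χ (x : ZMod (2 ^ a)) with hu
  set v := sn (hcop a b) χ (x : ZMod (3 ^ b)) with hv
  have huv : u ^ 24 * v ^ 24 = 1 := by
    rw [← mul_pow, hu, hv, ← fs_sn (hcop a b) χ, h1]
  have hu2 : (u ^ 24) ^ 2 ^ a = 1 := by
    have hc : x.Coprime (2 ^ a) := Nat.Coprime.coprime_mul_right_right hx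
    have h3 : (x : ZMod (2 ^ a)) ^ (2 ^ a).totient = 1 := by
      have := Nat.ModEq.pow_totient hc
      rw [← ZMod.natCast_eq_natCast_iff] at this
      push_cast at this
      exact this
    have h4 : (2 ^ a).totient ∣ 2 ^ a := by
      rcases Nat.eq_zero_or_pos a with h0 | h0
      · subst h0
        norm_num
      · rw [Nat.totient_prime_pow Nat.prime_two h0]
        exact ⟨2, by rw [mul_comm (2 ^ (a - 1) * (2 - 1)), show 2 - 1 = 1 by norm_num, mul_one, ← pow_succ']; congr 1; omega⟩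
    obtain ⟨w, hw⟩ := h4
    have hw' : 24 * 2 ^ a = (2 ^ a).totient * (w * 24) := by
      conv_lhs => rw [hw]
      ring
    rw [← pow_mul, hu, ← map_pow, hw', pow_mul, h3, one_pow, map_one]
  have hv3 : (v ^ 24) ^ 3 ^ b = 1 := by
    have hc : x.Coprime (3 ^ b) := Nat.Coprime.coprime_mul_left_right hx
    have h3 : (x : ZMod (3 ^ b)) ^ (3 ^ b).totient = 1 := by
      have := Nat.ModEq.pow_totient hc
      rw [← ZMod.natCast_eq_natCast_iff] at this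
      push_cast at this
      exact this
    have h4 : (3 ^ b).totient ∣ 24 * 3 ^ b := by
      rcases Nat.eq_zero_or_pos b with h0 | h0
      · subst h0
        norm_num
      · rw [Nat.totient_prime_pow Nat.prime_three h0]
        refine ⟨36, ?_⟩
        have : 3 ^ b = 3 ^ (b - 1) * 3 := by
          rw [← pow_succ]
          congr 1
          omega
        rw [this]
        ring
    obtain ⟨w, hw⟩ := h4
    rw [← pow_mul, hv, ← map_pow, hw, pow_mul, h3, one_pow, map_one]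
  have hu3 : (u ^ 24) ^ 3 ^ b = 1 := by
    have := congrArg (fun z => z ^ 3 ^ b) huv
    simp only [mul_pow, one_pow] at this
    rw [hv3, mul_one] at this
    exact this
  have hu1 : u ^ 24 = 1 := by
    have h4 : orderOf (u ^ 24) ∣ 1 := by
      rw [← hcop a b]
      exact Nat.dvd_gcd (orderOf_dvd_of_pow_eq_one hu2) (orderOf_dvd_of_pow_eq_one hu3)
    exact orderOf_eq_one_iff.1 (Nat.dvd_one.1 h4)
  have hv1 : v ^ 24 = 1 := by
    rw [hu1, one_mul] at huv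
    exact huv
  exact ⟨kern2 a x _ (fun ha => prim2 χ hP ha) (cop2 hx) hu1, kern3 b x _ (fun hb => prim3 χ hP hb) (cop3 hx) hv1⟩

end

lemma totient_dvd (a b : ℕ) : (2 ^ a * 3 ^ b).totient ∣ 24 * (2 ^ a * 3 ^ b) := by
  rw [Nat.totient_mul (hcop a b)]
  have h4 : (2 ^ a).totient ∣ 2 ^ a := by
    rcases Nat.eq_zero_or_pos a with h0 | h0
    · subst h0
      norm_num
    · rw [Nat.totient_prime_pow Nat.prime_two h0]
      exact ⟨2, by rw [mul_comm (2 ^ (a - 1) * (2 - 1)), show 2 - 1 = 1 by norm_num, mul_one, ← pow_succ']; congr 1; omega⟩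
  have h5 : (3 ^ b).totient ∣ 24 * 3 ^ b := by
    rcases Nat.eq_zero_or_pos b with h0 | h0
    · subst h0
      norm_num
    · rw [Nat.totient_prime_pow Nat.prime_three h0]
      refine ⟨36, ?_⟩
      have : 3 ^ b = 3 ^ (b - 1) * 3 := by
        rw [← pow_succ]
        congr 1
        omega
      rw [this]
      ring
  have := mul_dvd_mul h4 h5
  rwa [mul_left_comm] at this

lemma not_five (a b : ℕ) : ¬ 5 ∣ (2 ^ a * 3 ^ b) := by
  have h5 : Nat.Prime 5 := by norm_num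
  intro h
  rcases h5.dvd_mul.1 h with h1 | h1
  · have := h5.dvd_of_dvd_pow h1
    omega
  · have := h5.dvd_of_dvd_pow h1
    omega

lemma not_five_tot (a b : ℕ) : ¬ 5 ∣ (2 ^ a * 3 ^ b).totient := by
  have h5 : Nat.Prime 5 := by norm_num
  intro h
  have h1 := h.trans (totient_dvd a b)
  rcases h5.dvd_mul.1 h1 with h2 | h2
  · omega
  · exact not_five a b h2

section
variable {k : Type*} [Field k] [CharP k 5] {a b : ℕ} (χ : MulChar (ZMod (2 ^ a * 3 ^ b)) k)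


theorem main_rel {m h s t : ℕ} (hP : Prim a b χ) (hG : Gens a b h s t)
    (hS : ∑ x ∈ range (2 ^ a * 3 ^ b), χ (x : ZMod (2 ^ a * 3 ^ b)) *
      Polynomial.aeval ((x : k) / (2 ^ a * 3 ^ b : ℕ)) (FF m) = 0) {c : ℕ} (hc : c.Coprime (2 ^ a * 3 ^ b)) :
    ∑ i ∈ range 24, ∑ d ∈ range 2, ∑ e ∈ range 2,
      χ (h : ZMod (2 ^ a * 3 ^ b)) ^ i * χ (s : ZMod (2 ^ a * 3 ^ b)) ^ d * χ (t : ZMod (2 ^ a * 3 ^ b)) ^ e *
        (Fh m (2 ^ a * 3 ^ b) (c * h ^ i * s ^ d * t ^ e) : k) = 0 := by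
  have hN0 : NeZero (2 ^ a * 3 ^ b) := ⟨by positivity⟩
  have hp : Fact (Nat.Prime 5) := ⟨by norm_num⟩
  set F : ZMod (2 ^ a * 3 ^ b) → k := fun x => Polynomial.aeval ((x.val : k) / (2 ^ a * 3 ^ b : ℕ)) (FF m) with hF
  have hF5 : ∀ x, F x ^ 5 = F x := by
    intro x
    have := frob_fix (k := k) (p := 5) (FF m) x.val (2 ^ a * 3 ^ b) 1
    rwa [pow_one] at this
  have hSum : ∑ x : ZMod (2 ^ a * 3 ^ b), χ x * F x = 0 := by
    rw [← hS]
    symm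
    refine Finset.sum_bij (fun x _ => (x : ZMod (2 ^ a * 3 ^ b))) (fun _ _ => mem_univ _) ?_ ?_ ?_
    · intro x hx y hy hxy
      rw [ZMod.natCast_eq_natCast_iff', Nat.mod_eq_of_lt (mem_range.1 hx), Nat.mod_eq_of_lt (mem_range.1 hy)] at hxy
      exact hxy
    · intro x _
      exact ⟨x.val, mem_range.2 (ZMod.val_lt x), by simp⟩
    · intro x hx
      rw [hF]
      simp only
      rw [ZMod.val_natCast, Nat.mod_eq_of_lt (mem_range.1 hx)]
  have hT : ∀ x : (ZMod (2 ^ a * 3 ^ b))ˣ, χ x ^ (24 * (2 ^ a * 3 ^ b)) = 1 := by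
    intro x
    obtain ⟨w, hw⟩ := totient_dvd a b
    rw [← map_pow, ← Units.val_pow_eq_pow_val, hw, pow_mul, ZMod.pow_totient, one_pow, Units.val_one, map_one]
  -- the units
  have h24 : ((h : ℕ) : ZMod (2 ^ a * 3 ^ b)) ^ 24 = 1 := by
    have : ((h ^ 24 : ℕ) : ZMod (2 ^ a * 3 ^ b)) = ((1 : ℕ) : ZMod (2 ^ a * 3 ^ b)) := by
      apply eq_of_crt
      · push_cast
        rw [hG.h2, show 24 = 8 * 3 by norm_num, pow_mul, g2_pow, one_pow]
      · push_cast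
        rw [hG.h3, show 24 = 3 * 8 by norm_num, pow_mul, g3_pow, one_pow]
    push_cast at this
    exact this
  have hs2 : ((s : ℕ) : ZMod (2 ^ a * 3 ^ b)) ^ 2 = 1 := by
    have : ((s ^ 2 : ℕ) : ZMod (2 ^ a * 3 ^ b)) = ((1 : ℕ) : ZMod (2 ^ a * 3 ^ b)) := by
      apply eq_of_crt
      · push_cast
        rw [hG.s2]
        ring
      · push_cast
        rw [hG.s3]
        ring
    push_cast at this
    exact this
  have ht2 : ((t : ℕ) : ZMod (2 ^ a * 3 ^ b)) ^ 2 = 1 := by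
    have : ((t ^ 2 : ℕ) : ZMod (2 ^ a * 3 ^ b)) = ((1 : ℕ) : ZMod (2 ^ a * 3 ^ b)) := by
      apply eq_of_crt
      · push_cast
        rw [hG.t2]
        ring
      · push_cast
        rw [hG.t3]
        ring
    push_cast at this
    exact this
  set H : (ZMod (2 ^ a * 3 ^ b))ˣ := Units.ofPowEqOne _ 24 h24 (by norm_num) with hH
  set S : (ZMod (2 ^ a * 3 ^ b))ˣ := Units.ofPowEqOne _ 2 hs2 (by norm_num) with hS'
  set T : (ZMod (2 ^ a * 3 ^ b))ˣ := Units.ofPowEqOne _ 2 ht2 (by norm_num) with hT'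
  have eH : (H : ZMod (2 ^ a * 3 ^ b)) = (h : ℕ) := rfl
  have eS : (S : ZMod (2 ^ a * 3 ^ b)) = (s : ℕ) := rfl
  have eT : (T : ZMod (2 ^ a * 3 ^ b)) = (t : ℕ) := rfl
  set C : (ZMod (2 ^ a * 3 ^ b))ˣ := ZMod.unitOfCoprime c hc with hC
  have eC : (C : ZMod (2 ^ a * 3 ^ b)) = (c : ℕ) := rfl
  have key := dsum (a := a) (b := b) χ (not_five_tot a b) hT F hF5 hSum H S T (Units.ext (by
      rw [Units.val_pow_eq_pow_val, eH, h24, Units.val_one])) (Units.ext (by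
      rw [Units.val_pow_eq_pow_val, eS, hs2, Units.val_one])) (Units.ext (by
      rw [Units.val_pow_eq_pow_val, eT, ht2, Units.val_one])) ?_ C
  · -- conclusion
    have hc0 : χ (c : ZMod (2 ^ a * 3 ^ b)) ≠ 0 := by
      rw [← eC]
      exact (C.isUnit.map χ).ne_zero
    have h1 : χ (c : ZMod (2 ^ a * 3 ^ b)) * ∑ i ∈ range 24, ∑ d ∈ range 2, ∑ e ∈ range 2,
      χ (h : ZMod (2 ^ a * 3 ^ b)) ^ i * χ (s : ZMod (2 ^ a * 3 ^ b)) ^ d * χ (t : ZMod (2 ^ a * 3 ^ b)) ^ e *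
        (Fh m (2 ^ a * 3 ^ b) (c * h ^ i * s ^ d * t ^ e) : k) = 0 := by
      rw [← key, Finset.mul_sum]
      refine Finset.sum_congr rfl fun i _ => ?_
      rw [Finset.mul_sum]
      refine Finset.sum_congr rfl fun d _ => ?_
      rw [Finset.mul_sum]
      refine Finset.sum_congr rfl fun e _ => ?_
      have e1 : ((C * H ^ i * S ^ d * T ^ e : (ZMod (2 ^ a * 3 ^ b))ˣ) : ZMod (2 ^ a * 3 ^ b)) = ((c * h ^ i * s ^ d * t ^ e : ℕ) : ZMod (2 ^ a * 3 ^ b)) := by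
        rw [Units.val_mul, Units.val_mul, Units.val_mul, Units.val_pow_eq_pow_val, Units.val_pow_eq_pow_val,
          Units.val_pow_eq_pow_val, eH, eS, eT, eC]
        push_cast
        rfl
      rw [e1, hF]
      simp only
      rw [ZMod.val_natCast, Fh]
      push_cast
      simp only [map_mul, map_pow]
      ring
    rcases mul_eq_zero.1 h1 with h2 | h2
    · exact absurd h2 hc0
    · exact h2
  · -- surjectivity
    intro x hx
    set n := (x : ZMod (2 ^ a * 3 ^ b)).val with hn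
    have hnx : ((n : ℕ) : ZMod (2 ^ a * 3 ^ b)) = x := by rw [hn, ZMod.natCast_val, ZMod.cast_id', id_eq]
    have hnc : n.Coprime (2 ^ a * 3 ^ b) := by
      rw [← ZMod.isUnit_iff_coprime, hnx]
      exact x.isUnit
    obtain ⟨k2, k3⟩ := kern χ hP hnc (by rw [hnx]; exact hx)
    obtain ⟨i, d, hid⟩ := rep2 a n (cop2 hnc) k2
    obtain ⟨j, e, hje⟩ := rep3 b n (cop3 hnc) k3
    refine ⟨9 * i + 16 * j, d, e, ?_⟩
    apply Units.ext
    rw [Units.val_mul, Units.val_mul, Units.val_pow_eq_pow_val, Units.val_pow_eq_pow_val,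
      Units.val_pow_eq_pow_val, eH, eS, eT, ← hnx]
    have e1 : ((n : ℕ) : ZMod (2 ^ a * 3 ^ b)) = ((h ^ (9 * i + 16 * j) * s ^ d * t ^ e : ℕ) : ZMod (2 ^ a * 3 ^ b)) := by
      apply eq_of_crt
      · rw [hid]
        push_cast
        rw [hG.h2, hG.s2, hG.t2, one_pow, mul_one]
        have : ((g2 a : ℕ) : ZMod (2 ^ a)) ^ (9 * i + 16 * j) = ((g2 a : ℕ) : ZMod (2 ^ a)) ^ i := by
          have h1 : 9 * i + 16 * j = i + 8 * (i + 2 * j) := by ring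
          rw [h1, pow_add, pow_mul, g2_pow, one_pow, mul_one]
        rw [this]
      · rw [hje]
        push_cast
        rw [hG.h3, hG.s3, hG.t3, one_pow, mul_one]
        have : ((g3 b : ℕ) : ZMod (3 ^ b)) ^ (9 * i + 16 * j) = ((g3 b : ℕ) : ZMod (3 ^ b)) ^ j := by
          have h1 : 9 * i + 16 * j = j + 3 * (3 * i + 5 * j) := by ring
          rw [h1, pow_add, pow_mul, g3_pow, one_pow, mul_one]
        rw [this]
    rw [e1]
    push_cast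
    rfl

end

end Pool.Agent.E8helper95.G
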