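import Pool.Agent.E8helper95.GA6
import Pool.Agent.Y18.GX.Small

/-!
# Calculation in the field with `25` elements
-/

set_option autoImplicit false

namespace Pool.Agent.E8helper95.G

open Finset Pool.Agent.Y18.GX

/-- `m! (B_m (y) - B_m)` modulo `5` -/
def fn (m y : ℕ) : ℕ :=
  match m with
  | 1 => y
  | 2 => 2 * y ^ 2 + 3 * y
  | 3 => y ^ 3 + y ^ 2 + 3 * y
  | _ => 4 * y ^ 4 + 2 * y ^ 3 + 4 * y ^ 2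

/-- the value at `x / N`; here `n` is the inverse of `N` modulo `5` -/
def fx (m N n x : ℕ) : ℕ := fn m (x % N * n % 5) % 5

/-- multiplication of `a + b √2` -/
def mp (p q : ℕ × ℕ) : ℕ × ℕ := ((p.1 * q.1 + 2 * (p.2 * q.2)) % 5, (p.1 * q.2 + p.2 * q.1) % 5)

def pw (p : ℕ × ℕ) : ℕ → ℕ × ℕ
  | 0 => (1, 0)
  | n + 1 => mp (pw p n) p

/-- the four terms at `x` -/
def vv (m N n s t σ τ x : ℕ) : ℕ :=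
  (fx m N n x + σ * fx m N n (x * s) + τ * fx m N n (x * t) + σ * τ * fx m N n (x * s * t)) % 5

def loop (m N n h s t σ τ : ℕ) (ξ : ℕ × ℕ) : ℕ → ℕ → ℕ × ℕ → ℕ × ℕ → ℕ × ℕ
  | 0, _, _, acc => acc
  | j + 1, x, p, acc => loop m N n h s t σ τ ξ j (x * h % N) (mp p ξ)
      ((acc.1 + p.1 * vv m N n s t σ τ x) % 5, (acc.2 + p.2 * vv m N n s t σ τ x) % 5)

def OkV (a b m : ℕ) (p : ℕ × ℕ) (σ τ : ℕ) : Prop :=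
  pw p 24 = (1, 0) ∧ (σ * τ) % 5 = (if m % 2 = 0 then 1 else 4) ∧
  (a = 0 → pw p 9 = (1, 0) ∧ σ = 1) ∧ (a = 2 → pw p 9 = (1, 0) ∧ σ ≠ 1) ∧
  (a = 3 → pw p 18 = (1, 0) ∧ pw p 9 ≠ (1, 0)) ∧ (a = 4 → pw p 12 = (1, 0) ∧ pw p 18 ≠ (1, 0)) ∧
  (5 ≤ a → pw p 12 ≠ (1, 0)) ∧ (b = 0 → τ = 1) ∧ (b = 1 → τ ≠ 1) ∧ (b ≤ 1 → pw p 16 = (1, 0)) ∧
  (2 ≤ b → pw p 16 ≠ (1, 0))

instance (a b m : ℕ) (p : ℕ × ℕ) (σ τ : ℕ) : Decidable (OkV a b m p σ τ) := by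
  unfold OkV
  infer_instance

def Chk (a b m h s t : ℕ) : Prop :=
  (h % 2 ^ a = g2 a % 2 ^ a ∧ h % 3 ^ b = g3 b % 3 ^ b ∧ (s + 1) % 2 ^ a = 0 ∧ s % 3 ^ b = 1 % 3 ^ b ∧
    t % 2 ^ a = 1 % 2 ^ a ∧ (t + 1) % 3 ^ b = 0) ∧
  ∀ α ∈ List.range 5, ∀ β ∈ List.range 5, ∀ σ ∈ [1, 4], ∀ τ ∈ [1, 4], OkV a b m (α, β) σ τ →
    (loop m (2 ^ a * 3 ^ b) ((2 ^ a * 3 ^ b) ^ 3 % 5) h s t σ τ (α, β) 24 1 (1, 0) (0, 0) ≠ (0, 0) ∨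
    loop m (2 ^ a * 3 ^ b) ((2 ^ a * 3 ^ b) ^ 3 % 5) h s t σ τ (α, β) 24 5 (1, 0) (0, 0) ≠ (0, 0) ∨
    loop m (2 ^ a * 3 ^ b) ((2 ^ a * 3 ^ b) ^ 3 % 5) h s t σ τ (α, β) 24 7 (1, 0) (0, 0) ≠ (0, 0))

instance (a b m h s t : ℕ) : Decidable (Chk a b m h s t) := by
  unfold Chk
  infer_instance

/-- idempotents -/
def e2 (a b : ℕ) : ℕ := (3 ^ b) ^ (2 ^ a) % (2 ^ a * 3 ^ b)
def e3 (a b : ℕ) : ℕ := (2 ^ a) ^ (2 * 3 ^ b) % (2 ^ a * 3 ^ b)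
def hh (a b : ℕ) : ℕ := (g2 a * e2 a b + g3 b * e3 a b) % (2 ^ a * 3 ^ b)
def ss (a b : ℕ) : ℕ := (2 ^ a * 3 ^ b - 1) * e2 a b + e3 a b
def tt (a b : ℕ) : ℕ := e2 a b + (2 ^ a * 3 ^ b - 1) * e3 a b

example : Chk 5 2 3 (hh 5 2) (ss 5 2) (tt 5 2) := by decide +kernel

end Pool.Agent.E8helper95.G
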