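import Pool.Agent.E8helper95.GA7
set_option autoImplicit false
namespace Pool.Agent.E8helper95.G

/-- the exceptional levels and weights -/
def excl (a b m : ℕ) : Bool :=
  (a == 0 && b == 0) || (a == 4 && b == 0 && m == 2) || (a == 4 && b == 1 && m == 3) || (a == 2 && b == 2 && m == 4)

def need (a b m : ℕ) : Bool :=
  !(a == 1) && !(excl a b m) && !(decide (64 * m * 3 ^ b ≤ 2 ^ a)) && !(decide (9 * m * 2 ^ a ≤ 3 ^ b))

theorem chk_1 : ∀ a ∈ [0,1,2,3,4], ∀ b ∈ [0,1,2,3,4], ∀ m ∈ [1,2,3,4], need a b m = true →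
    Chk a b m (hh a b) (ss a b) (tt a b) := by
  decide +kernel

theorem chk_2 : ∀ a ∈ [5,6,7,8,9], ∀ b ∈ [0,1,2,3,4], ∀ m ∈ [1,2,3,4], need a b m = true →
    Chk a b m (hh a b) (ss a b) (tt a b) := by
  decide +kernel

theorem chk_3 : ∀ a ∈ [0,1,2,3,4,5,6], ∀ b ∈ [5,6,7], ∀ m ∈ [1,2,3,4], need a b m = true →
    Chk a b m (hh a b) (ss a b) (tt a b) := by
  decide +kernel

end Pool.Agent.E8helper95.G
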