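import Pool.Agent.E8helper95.GA8

/-!
# Soundness of the calculation
-/

set_option autoImplicit false

namespace Pool.Agent.E8helper95.G

open Finset Pool.Agent.Y18.GX

lemma FF_one {R : Type*} [CommRing R] (x : R) : Polynomial.aeval x (FF 1) = x := by
  have h0 : zc 1 0 = 1 := zc_eq (by norm_num) (by norm_num [Nat.factorial])
  rw [FF, Finset.sum_range_succ, Finset.sum_range_zero, h0]
  simp [Polynomial.aeval_monomial]

section
variable {k : Type*} [Field k] [CharP k 5]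

lemma cast_mod (n : ℕ) : ((n % 5 : ℕ) : k) = n := by
  have h1 := Nat.mod_add_div n 5
  have h2 : ((n % 5 + 5 * (n / 5) : ℕ) : k) = (n : k) := by rw [h1]
  have h5 := five (k := k)
  push_cast at h2
  linear_combination h2 - ((n / 5 : ℕ) : k) * h5

/-- the element `a + b θ` -/
def ev (θ : k) (p : ℕ × ℕ) : k := p.1 + p.2 * θ

variable {θ : k}

lemma ev_mp (hθ : θ ^ 2 = 2) (p q : ℕ × ℕ) : ev θ (mp p q) = ev θ p * ev θ q := by
  unfold ev mp
  simp only [cast_mod]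
  push_cast
  linear_combination (-(p.2 : k) * q.2) * hθ

lemma ev_pw (hθ : θ ^ 2 = 2) (p : ℕ × ℕ) (n : ℕ) : ev θ (pw p n) = ev θ p ^ n := by
  induction n with
  | zero => simp [pw, ev]
  | succ n ih => rw [pw, ev_mp hθ, ih, pow_succ]

lemma ev_zero (hθ : θ ^ 2 = 2) {p : ℕ × ℕ} (h1 : p.1 < 5) (h2 : p.2 < 5) (h : ev θ p = 0) : p = (0, 0) := by
  obtain ⟨x, y⟩ := p
  simp only at h1 h2
  unfold ev at h
  simp only at h
  have h3 : ((x ^ 2 : ℕ) : k) = ((2 * y ^ 2 : ℕ) : k) := by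
    push_cast
    linear_combination (x - y * θ) * h + (y : k) ^ 2 * hθ
  have h4 := (CharP.cast_eq_iff_mod_eq k 5).1 h3
  have h5 : ∀ x < 5, ∀ y < 5, x ^ 2 % 5 = 2 * y ^ 2 % 5 → x = 0 ∧ y = 0 := by decide
  obtain ⟨rfl, rfl⟩ := h5 x h1 y h2 h4
  rfl

lemma ev_inj (hθ : θ ^ 2 = 2) {p q : ℕ × ℕ} (h1 : p.1 < 5) (h2 : p.2 < 5) (h3 : q.1 < 5) (h4 : q.2 < 5)
    (h : ev θ p = ev θ q) : p = q := by
  have h5 : ev θ ((p.1 + 4 * q.1) % 5, (p.2 + 4 * q.2) % 5) = 0 := by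
    have h5 := five (k := k)
    unfold ev at h ⊢
    simp only [cast_mod]
    push_cast
    linear_combination h + (q.1 + q.2 * θ : k) * h5
  have h6 := ev_zero hθ (Nat.mod_lt _ (by norm_num)) (Nat.mod_lt _ (by norm_num)) h5
  rw [Prod.mk.injEq] at h6
  refine Prod.ext ?_ ?_
  · omega
  · omega

lemma fix5 {x : k} (h : x ^ 5 = x) : ∃ n < 5, x = (n : ℕ) := by
  have h5 := five (k := k)
  have h1 : x * ((x - 1) * ((x - 2) * ((x - 3) * (x - 4)))) = 0 := by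
    linear_combination h + (-2 * x ^ 4 + 7 * x ^ 3 - 10 * x ^ 2 + 5 * x) * h5
  rcases mul_eq_zero.1 h1 with h2 | h1
  · exact ⟨0, by norm_num, by simpa using h2⟩
  rcases mul_eq_zero.1 h1 with h2 | h1
  · exact ⟨1, by norm_num, by simpa using sub_eq_zero.1 h2⟩
  rcases mul_eq_zero.1 h1 with h2 | h1
  · exact ⟨2, by norm_num, by simpa using sub_eq_zero.1 h2⟩
  rcases mul_eq_zero.1 h1 with h2 | h2
  · exact ⟨3, by norm_num, by simpa using sub_eq_zero.1 h2⟩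
  · exact ⟨4, by norm_num, by simpa using sub_eq_zero.1 h2⟩

lemma exists_ev (hθ : θ ^ 2 = 2) {ξ : k} (h : ξ ^ 24 = 1) : ∃ α < 5, ∃ β < 5, ev θ (α, β) = ξ := by
  have hp : Fact (Nat.Prime 5) := ⟨by norm_num⟩
  have h5 := five (k := k)
  have h25 : ξ ^ 25 = ξ := by rw [pow_succ, h, one_mul]
  have hθ5 : θ ^ 5 = -θ := by
    linear_combination (θ * (θ ^ 2 + 2)) * hθ + θ * h5
  obtain ⟨α, hα, hα2⟩ := fix5 (x := 3 * (ξ + ξ ^ 5)) (by
    rw [mul_pow, add_pow_char, ← pow_mul, h25]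
    linear_combination (48 * (ξ + ξ ^ 5)) * h5)
  obtain ⟨β, hβ, hβ2⟩ := fix5 (x := θ * (ξ ^ 5 - ξ)) (by
    rw [mul_pow, sub_pow_char, ← pow_mul, h25, hθ5]
    ring)
  refine ⟨α, hα, β, hβ, ?_⟩
  unfold ev
  simp only
  rw [← hα2, ← hβ2]
  linear_combination (ξ ^ 5 - ξ) * hθ + ξ ^ 5 * h5

lemma exists_sign {σ : k} (h : σ ^ 2 = 1) : ∃ n ∈ [1, 4], σ = (n : ℕ) := by
  have h5 := five (k := k)
  have h1 : (σ - 1) * (σ - 4) = 0 := by linear_combination h + (1 - σ) * h5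
  rcases mul_eq_zero.1 h1 with h2 | h2
  · exact ⟨1, by simp, by simpa using sub_eq_zero.1 h2⟩
  · exact ⟨4, by simp, by simpa using sub_eq_zero.1 h2⟩

lemma fx_ev {m N n : ℕ} (hm1 : 1 ≤ m) (hm4 : m ≤ 4) (hNn : N * n % 5 = 1) (x : ℕ) :
    ((fx m N n x : ℕ) : k) = Fh m N x := by
  have hNn' : (N : k) * n = 1 := by
    have := cast_mod (k := k) (N * n)
    rw [hNn] at this
    push_cast at this
    exact this.symm
  have hN : (N : k) ≠ 0 := left_ne_zero_of_mul_eq_one hNn'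
  set y := x % N * n % 5 with hy
  have hyk : (y : k) = ((x % N : ℕ) : k) / (N : ℕ) := by
    rw [hy, cast_mod, eq_div_iff hN]
    push_cast
    linear_combination ((x % N : ℕ) : k) * hNn'
  have h5 := five (k := k)
  unfold fx Fh
  rw [← hyk, cast_mod, ← hy]
  interval_cases m
  · rw [FF_one]
    rfl
  · rw [FF_two, fn]
    push_cast
    linear_combination (y : k) * h5
  · rw [FF_three, fn]
    push_cast
    linear_combination (-(y : k) ^ 3 + 2 * (y : k) ^ 2) * h5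
  · rw [FF_four, fn]
    push_cast
    · linear_combination (-4 * (y : k) ^ 4 + 10 * (y : k) ^ 3 - 4 * (y : k) ^ 2) * h5
    all_goals simp

lemma Fh_mod (m N x : ℕ) : (Fh m N (x % N) : k) = Fh m N x := by
  unfold Fh
  rw [Nat.mod_mod]

lemma Fh_mod_mul (m N x z : ℕ) : (Fh m N (x % N * z) : k) = Fh m N (x * z) := by
  rw [← Fh_mod m N (x % N * z), ← Fh_mod m N (x * z), Nat.mod_mul_mod]

/-- the four terms -/
noncomputable def VV (m N s t : ℕ) (σ τ : k) (x : ℕ) : k :=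
  ∑ d ∈ range 2, ∑ e ∈ range 2, σ ^ d * τ ^ e * Fh m N (x * s ^ d * t ^ e)

lemma VV_mod (m N s t : ℕ) (σ τ : k) (x : ℕ) : VV m N s t σ τ (x % N) = VV m N s t σ τ x := by
  unfold VV
  refine Finset.sum_congr rfl fun d _ => Finset.sum_congr rfl fun e _ => ?_
  rw [mul_assoc (x % N) (s ^ d) (t ^ e), Fh_mod_mul, ← mul_assoc x (s ^ d) (t ^ e)]

lemma vv_ev {m N n : ℕ} (hm1 : 1 ≤ m) (hm4 : m ≤ 4) (hNn : N * n % 5 = 1) (s t σ τ x : ℕ) :
    ((vv m N n s t σ τ x : ℕ) : k) = VV m N s t (σ : k) (τ : k) x := by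
  unfold vv VV
  rw [cast_mod]
  push_cast
  simp only [fx_ev hm1 hm4 hNn, Finset.sum_range_succ, Finset.sum_range_zero, pow_zero, pow_one, mul_one, zero_add,
    one_mul]
  ring

lemma loop_ev (hθ : θ ^ 2 = 2) {m N n : ℕ} (hm1 : 1 ≤ m) (hm4 : m ≤ 4) (hNn : N * n % 5 = 1)
    (h s t σ τ : ℕ) (ξ : ℕ × ℕ) (j : ℕ) : ∀ (x : ℕ) (p acc : ℕ × ℕ),
    ev θ (loop m N n h s t σ τ ξ j x p acc) = ev θ acc + ∑ i ∈ range j,
      ev θ p * ev θ ξ ^ i * VV m N s t (σ : k) (τ : k) (x * h ^ i) := by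
  induction j with
  | zero =>
    intro x p acc
    simp [loop]
  | succ j ih =>
    intro x p acc
    rw [loop, ih, Finset.sum_range_succ', ev_mp hθ]
    have h1 : ev θ ((acc.1 + p.1 * vv m N n s t σ τ x) % 5, (acc.2 + p.2 * vv m N n s t σ τ x) % 5) =
        ev θ acc + ev θ p * VV m N s t (σ : k) (τ : k) x := by
      unfold ev
      simp only [cast_mod]
      push_cast
      rw [vv_ev hm1 hm4 hNn]
      ring
    have h2 : ∀ i, VV m N s t (σ : k) (τ : k) (x * h % N * h ^ i) = VV m N s t (σ : k) (τ : k) (x * h ^ (i + 1)) := by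
      intro i
      rw [← VV_mod, Nat.mod_mul_mod, VV_mod, pow_succ']
      congr 1
      ring
    rw [h1]
    simp only [h2, pow_zero, mul_one]
    rw [add_assoc, add_comm (ev θ p * VV m N s t (σ : k) (τ : k) x)]
    congr 2
    refine Finset.sum_congr rfl fun i _ => ?_
    rw [pow_succ]
    ring

lemma loop_lt (m N n h s t σ τ : ℕ) (ξ : ℕ × ℕ) (j : ℕ) : ∀ (x : ℕ) (p acc : ℕ × ℕ), acc.1 < 5 → acc.2 < 5 →
    (loop m N n h s t σ τ ξ j x p acc).1 < 5 ∧ (loop m N n h s t σ τ ξ j x p acc).2 < 5 := by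
  induction j with
  | zero =>
    intro x p acc h1 h2
    exact ⟨h1, h2⟩
  | succ j ih =>
    intro x p acc h1 h2
    rw [loop]
    exact ih _ _ _ (Nat.mod_lt _ (by norm_num)) (Nat.mod_lt _ (by norm_num))

lemma pw_lt (p : ℕ × ℕ) (n : ℕ) : (pw p n).1 < 5 ∧ (pw p n).2 < 5 := by
  cases n with
  | zero => simp [pw]
  | succ n => exact ⟨Nat.mod_lt _ (by norm_num), Nat.mod_lt _ (by norm_num)⟩

lemma pw_one (hθ : θ ^ 2 = 2) (p : ℕ × ℕ) (n : ℕ) : pw p n = (1, 0) ↔ ev θ p ^ n = 1 := by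
  rw [← ev_pw hθ]
  constructor
  · intro h
    rw [h]
    simp [ev]
  · intro h
    refine ev_inj hθ (pw_lt p n).1 (pw_lt p n).2 (by norm_num) (by norm_num) ?_
    rw [h]
    simp [ev]

theorem sound (hθ : θ ^ 2 = 2) {a b m h s t : ℕ} (hm1 : 1 ≤ m) (hm4 : m ≤ 4) (hchk : Chk a b m h s t)
    (χ : MulChar (ZMod (2 ^ a * 3 ^ b)) k) (hP : Prim a b χ) (hpar : χ (-1) = (-1) ^ m) :
    ∑ x ∈ range (2 ^ a * 3 ^ b), χ (x : ZMod (2 ^ a * 3 ^ b)) *
      Polynomial.aeval ((x : k) / (2 ^ a * 3 ^ b : ℕ)) (FF m) ≠ 0 := by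
  intro hS
  obtain ⟨⟨c1, c2, c3, c4, c5, c6⟩, hchk⟩ := hchk
  have hG : Gens a b h s t := by
    refine ⟨(ZMod.natCast_eq_natCast_iff' _ _ _).2 c1, (ZMod.natCast_eq_natCast_iff' _ _ _).2 c2, ?_, ?_, ?_, ?_⟩
    · have := (ZMod.natCast_eq_zero_iff (s + 1) (2 ^ a)).2 (Nat.dvd_of_mod_eq_zero c3)
      push_cast at this
      exact eq_neg_of_add_eq_zero_left this
    · have := (ZMod.natCast_eq_natCast_iff' s 1 (3 ^ b)).2 c4
      push_cast at this
      exact this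
    · have := (ZMod.natCast_eq_natCast_iff' t 1 (2 ^ a)).2 c5
      push_cast at this
      exact this
    · have := (ZMod.natCast_eq_zero_iff (t + 1) (3 ^ b)).2 (Nat.dvd_of_mod_eq_zero c6)
      push_cast at this
      exact eq_neg_of_add_eq_zero_left this
  have V := vals χ hP hG hpar
  have hrel := fun c hc => main_rel χ hP hG hS (c := c) hc
  set ξ := χ (h : ZMod (2 ^ a * 3 ^ b)) with hξ
  set σ := χ (s : ZMod (2 ^ a * 3 ^ b)) with hσ
  set τ := χ (t : ZMod (2 ^ a * 3 ^ b)) with hτ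
  obtain ⟨α, hα, β, hβ, hαβ⟩ := exists_ev hθ V.x24
  obtain ⟨σn, hσn, hσ'⟩ := exists_sign V.s
  obtain ⟨τn, hτn, hτ'⟩ := exists_sign V.t
  have hσ1 : σ = 1 ↔ σn = 1 := by
    constructor
    · intro h1
      rw [hσ'] at h1
      have h2 : ((σn : ℕ) : k) = ((1 : ℕ) : k) := by rw [h1, Nat.cast_one]
      rw [CharP.cast_eq_iff_mod_eq k 5] at h2
      simp only [List.mem_cons, List.not_mem_nil, or_false] at hσn
      omega
    · intro h1
      rw [hσ', h1, Nat.cast_one]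
  have hτ1 : τ = 1 ↔ τn = 1 := by
    constructor
    · intro h1
      rw [hτ'] at h1
      have h2 : ((τn : ℕ) : k) = ((1 : ℕ) : k) := by rw [h1, Nat.cast_one]
      rw [CharP.cast_eq_iff_mod_eq k 5] at h2
      simp only [List.mem_cons, List.not_mem_nil, or_false] at hτn
      omega
    · intro h1
      rw [hτ', h1, Nat.cast_one]
  have hok : OkV a b m (α, β) σn τn := by
    unfold OkV
    simp only [ne_eq, pw_one hθ, hαβ]
    refine ⟨V.x24, ?_, ?_, ?_, V.a3, V.a4, V.a5, ?_, ?_, V.b2, V.b3⟩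
    · have h1 := V.st
      rw [hσ', hτ'] at h1
      split_ifs with h2
      · rw [(Nat.even_iff.2 h2).neg_one_pow] at h1
        have h3 : ((σn * τn : ℕ) : k) = ((1 : ℕ) : k) := by
          push_cast
          exact h1
        exact (CharP.cast_eq_iff_mod_eq k 5).1 h3
      · rw [(Nat.odd_iff.2 (by omega)).neg_one_pow] at h1
        have h3 : ((σn * τn : ℕ) : k) = ((4 : ℕ) : k) := by
          push_cast
          rw [h1]
          linear_combination (-1 : k) * five (k := k)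
        exact (CharP.cast_eq_iff_mod_eq k 5).1 h3
    · intro h0
      exact ⟨(V.a0 h0).1, hσ1.1 (V.a0 h0).2⟩
    · intro h0
      exact ⟨(V.a2 h0).1, fun h1 => (V.a2 h0).2 (hσ1.2 h1)⟩
    · intro h0
      exact hτ1.1 (V.b0 h0)
    · intro h0 h1
      exact V.b1 h0 (hτ1.2 h1)
  have hfin := hchk α (List.mem_range.2 hα) β (List.mem_range.2 hβ) σn hσn τn hτn hok
  have hNn : (2 ^ a * 3 ^ b) * ((2 ^ a * 3 ^ b) ^ 3 % 5) % 5 = 1 := by
    have h5 := not_five a b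
    generalize 2 ^ a * 3 ^ b = N at h5
    rw [Nat.mul_mod, Nat.mod_mod, ← Nat.mul_mod, ← pow_succ', Nat.pow_mod]
    have : N % 5 = 1 ∨ N % 5 = 2 ∨ N % 5 = 3 ∨ N % 5 = 4 := by omega
    rcases this with h | h | h | h <;> rw [h]
  have hzero : ∀ c : ℕ, c.Coprime (2 ^ a * 3 ^ b) →
      loop m (2 ^ a * 3 ^ b) ((2 ^ a * 3 ^ b) ^ 3 % 5) h s t σn τn (α, β) 24 c (1, 0) (0, 0) = (0, 0) := by
    intro c hc
    obtain ⟨l1, l2⟩ := loop_lt m (2 ^ a * 3 ^ b) ((2 ^ a * 3 ^ b) ^ 3 % 5) h s t σn τn (α, β) 24 c (1, 0) (0, 0)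
      (by norm_num) (by norm_num)
    refine ev_zero hθ l1 l2 ?_
    rw [loop_ev hθ hm1 hm4 hNn, hαβ, ← hσ', ← hτ']
    have h1 := hrel c hc
    have h2 : ev θ (0, 0) = 0 := by simp [ev]
    have h3 : ev θ (1, 0) = 1 := by simp [ev]
    rw [h2, h3, zero_add, ← h1]
    refine Finset.sum_congr rfl fun i _ => ?_
    unfold VV
    rw [Finset.mul_sum]
    refine Finset.sum_congr rfl fun d _ => ?_
    rw [Finset.mul_sum]
    refine Finset.sum_congr rfl fun e _ => ?_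
    ring
  have hc1 : Nat.Coprime 1 (2 ^ a * 3 ^ b) := Nat.coprime_one_left _
  have hc5 : Nat.Coprime 5 (2 ^ a * 3 ^ b) := (Nat.Prime.coprime_iff_not_dvd (by norm_num)).2 (not_five a b)
  have hc7 : Nat.Coprime 7 (2 ^ a * 3 ^ b) :=
    Nat.Coprime.mul_right (Nat.Coprime.pow_right _ (by norm_num)) (Nat.Coprime.pow_right _ (by norm_num))
  rcases hfin with h1 | h1 | h1
  · exact h1 (hzero 1 hc1)
  · exact h1 (hzero 5 hc5)
  · exact h1 (hzero 7 hc7)

end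

end Pool.Agent.E8helper95.G
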