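import Pool.Agent.TH817.Z3.Z
import Pool.Agent.TH250.Z3.Arch

/-!
# The irrationality exponent `4.68` of `ζ(3)` in the form used for families of numbers
-/

set_option autoImplicit false

namespace Pool.Agent.E8helper95

open Finset

theorem z3_meas : ∃ c : ℝ, 0 < c ∧ ∀ q : ℕ, 1 ≤ q → ∀ p : ℕ → ℤ, ∃ j ∈ ({3} : Finset ℕ),
    c ≤ (q : ℝ) ^ ((117 / 25 : ℝ) - 1) *
      |(q : ℝ) * (∑' n : ℕ, 1 / ((n : ℝ) + 1) ^ j) - p j| := by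
  obtain ⟨c, hc, h⟩ := Pool.Agent.TH817.Z3.Z_pre Pool.Agent.TH250.Z3.AM
  refine ⟨c, hc, fun q hq p => ⟨3, by simp, ?_⟩⟩
  have h1 := h (p 3) q hq
  have hq0 : (0 : ℝ) < q := by exact_mod_cast hq
  have e0 : ((468 : ℝ) / 100) = 117 / 25 := by norm_num
  rw [e0] at h1
  have e1 : (q : ℝ) ^ (117 / 25 : ℝ) = (q : ℝ) ^ ((117 / 25 : ℝ) - 1) * q := by
    rw [← Real.rpow_add_one hq0.ne']
    norm_num
  have e2 : |(q : ℝ) * (∑' n : ℕ, 1 / ((n : ℝ) + 1) ^ 3) - p 3| =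
      q * |(∑' n : ℕ, 1 / ((n : ℝ) + 1) ^ 3) - (p 3 : ℝ) / q| := by
    rw [← abs_of_pos hq0, ← abs_mul, abs_of_pos hq0]
    congr 1
    field_simp
  rw [div_le_iff₀ (by positivity), e1] at h1
  rw [e2]
  calc c ≤ |(∑' n : ℕ, 1 / ((n : ℝ) + 1) ^ 3) - (p 3 : ℝ) / q| *
        ((q : ℝ) ^ ((117 / 25 : ℝ) - 1) * q) := h1
    _ = _ := by ring

end Pool.Agent.E8helper95
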