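import Pool.Agent.Y928.PL.Mixed

/-!
# Pieces of expansions which continue a linear recurrence
-/

set_option autoImplicit false

namespace Pool.Agent.E8helper95.ZP

open Finset
open Pool.Agent.W47.JL (err)

/-- the prefixes as integers -/
def pre (b : ℕ) (a : ℕ → ℤ) : ℕ → ℤ
  | 0 => 0
  | i + 1 => b * pre b a i + a i

lemma err_half (m : ℕ) : (1 / 2 : ℝ) ≤ err m := by
  have e : err m = Real.sqrt (((m : ℝ) + 1) * Real.log ((m : ℝ) + 2)) := rfl
  rw [e]
  apply Real.le_sqrt_of_sq_le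
  have h0 : (0 : ℝ) ≤ m := Nat.cast_nonneg m
  have h3 : Real.log 2 ≤ Real.log ((m : ℝ) + 2) := Real.log_le_log (by norm_num) (by linarith)
  have h4 := Real.log_two_gt_d9
  nlinarith

/-- One piece. -/
theorem piece (x μ c0 : ℝ) (hμ : 1 ≤ μ) (hc0 : 0 < c0)
    (hM : ∀ q : ℕ, 1 ≤ q → ∀ p : ℤ, c0 ≤ (q : ℝ) ^ (μ - 1) * |(q : ℝ) * x - p|) (h : ℕ) :
    ∃ C : ℝ, 0 < C ∧ ∀ b : ℕ, 2 ≤ b → ∀ a : ℕ → ℤ, (∀ i, |a i| ≤ ((b ^ h : ℕ) : ℤ)) →
      (∃ n : ℤ, HasSum (fun i : ℕ => (a i : ℝ) / (b : ℝ) ^ (i + 1)) (x - n)) →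
      ∀ (u v m t : ℕ) (s : ℕ → ℤ) (c : ℕ → ℚ), t ≤ m → t ≤ u → u ≤ v →
        (∀ i, |s i| ≤ ((b ^ h : ℕ) : ℤ)) → (∀ i < t, s (m - t + i) = a (u - t + i)) →
        (∀ i, u + i < v → s (m + i) = a (u + i)) →
        (∀ i, u + i < v → (s (m + i) : ℚ) = ∑ l ∈ range m, c l * (s (i + l) : ℚ)) →
        (v : ℝ) ≤ μ * ((u : ℝ) + ((m : ℝ) - t) + C * err m) := by
  have hl2 : 0 < Real.log 2 := Real.log_pos one_lt_two
  obtain ⟨C, hC⟩ : ∃ C : ℝ, C = 15 * (h + 1) + 2 * (h + 1) + 2 * (|Real.log c0| / Real.log 2) :=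
    ⟨_, rfl⟩
  have hC0 : 0 < C := by
    rw [hC]
    have : 0 ≤ |Real.log c0| / Real.log 2 := by positivity
    positivity
  refine ⟨C, hC0, ?_⟩
  rintro b hb a ha ⟨n, hsum⟩ u v m t s c htm htu huv hs hseed hlet hrec
  have hbR : (2 : ℝ) ≤ b := by exact_mod_cast hb
  have hb0 : (0 : ℝ) < b := by linarith
  have hb1 : (1 : ℝ) < b := by linarith
  have hlb : Real.log 2 ≤ Real.log b := Real.log_le_log (by norm_num) hbR
  have hlb0 : 0 < Real.log b := by linarith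
  obtain ⟨s', hs'⟩ : ∃ s' : ℕ → ℤ, s' = fun i => if i < m then s i else a (u + (i - m)) := ⟨_, rfl⟩
  have hs'1 : ∀ i, i < m → s' i = s i := fun i hi => by rw [hs']; simp [hi]
  have hs'2 : ∀ i, m ≤ i → s' i = a (u + (i - m)) := fun i hi => by
    rw [hs']; simp [Nat.not_lt.mpr hi]
  have hpow : ((b ^ h : ℕ) : ℤ) ≤ ((b ^ (h + 1) : ℕ) : ℤ) := by
    exact_mod_cast Nat.pow_le_pow_right (by omega) (by omega)
  have hs'b : ∀ i, |s' i| ≤ ((b ^ (h + 1) : ℕ) : ℤ) := by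
    intro i
    by_cases hi : i < m
    · rw [hs'1 i hi]; exact (hs i).trans hpow
    · rw [hs'2 i (by omega)]; exact (ha _).trans hpow
  have hs'3 : ∀ i, i < m + (v - u) → s' i = s i := by
    intro i hi
    by_cases him : i < m
    · exact hs'1 i him
    · rw [hs'2 i (by omega)]
      have h1 := hlet (i - m) (by omega)
      rw [show m + (i - m) = i by omega] at h1
      rw [h1]
  -- the value of s'
  have hsummable : Summable (fun i : ℕ => (s' i : ℝ) / (b : ℝ) ^ (i + 1)) := by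
    have hg : Summable (fun i : ℕ => ((b ^ (h + 1) : ℕ) : ℝ) * (1 / (b : ℝ)) ^ (i + 1)) := by
      have h1 : Summable (fun i : ℕ => (1 / (b : ℝ)) ^ i) :=
        summable_geometric_of_lt_one (by positivity) (by rw [div_lt_one hb0]; exact hb1)
      exact ((summable_nat_add_iff 1).2 h1).mul_left _
    refine Summable.of_norm_bounded hg (fun i => ?_)
    rw [Real.norm_eq_abs, abs_div, abs_of_pos (pow_pos hb0 (i + 1)), one_div, inv_pow,
      ← div_eq_mul_inv]
    refine div_le_div_of_nonneg_right ?_ (by positivity)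
    have h1 := hs'b i
    rw [← Int.cast_abs]
    exact_mod_cast h1
  obtain ⟨y, hy⟩ := hsummable
  obtain ⟨h1, -⟩ := Pool.Agent.Y928.PL.remainders b (b ^ h) hb a ha (x - n) hsum (pre b a) rfl
    (fun i => rfl) (u - t)
  obtain ⟨h2, -⟩ := Pool.Agent.Y928.PL.remainders b (b ^ (h + 1)) hb s' hs'b y hy (pre b s') rfl
    (fun i => rfl) (m - t)
  have heq : (fun j : ℕ => (s' (m - t + j) : ℝ) / (b : ℝ) ^ (j + 1)) =
      fun j : ℕ => (a (u - t + j) : ℝ) / (b : ℝ) ^ (j + 1) := by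
    funext j
    congr 2
    by_cases hj : j < t
    · rw [hs'1 _ (by omega), hseed j hj]
    · rw [hs'2 _ (by omega)]
      congr 1
      omega
  rw [heq] at h2
  have h3 : (x - n) * (b : ℝ) ^ (u - t) - pre b a (u - t) = y * (b : ℝ) ^ (m - t) - pre b s' (m - t) :=
    h1.unique h2
  obtain ⟨q, hq, p, hq2, hp⟩ := Pool.Agent.Y928.PL.core2 (h + 1) b (by omega) hb y
    s' hs'b hy (m + (v - u)) m c (by
      intro i hi
      rw [hs'3 _ (by omega)]
      have h4 := hrec i (by omega)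
      rw [add_comm m i] at h4
      rw [h4]
      refine Finset.sum_congr rfl fun l hl => ?_
      rw [mem_range] at hl
      rw [hs'3 _ (by omega)])
  obtain ⟨G, hG⟩ : ∃ G : ℝ, G = (m : ℝ) + 15 * ((h + 1 : ℕ) : ℝ) * err m + ((h + 1 : ℕ) : ℝ) :=
    ⟨_, rfl⟩
  rw [← hG] at hq2 hp
  have hq0 : (0 : ℝ) < q := by exact_mod_cast hq
  have hQ1 : 1 ≤ q * b ^ (u - t) := Nat.one_le_iff_ne_zero.2 (by positivity)
  have h5 := hM (q * b ^ (u - t)) hQ1
    (b ^ (m - t) * p + q * (pre b a (u - t) - pre b s' (m - t)) + (q * b ^ (u - t) : ℕ) * n)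
  have e1 : ((q * b ^ (u - t) : ℕ) : ℝ) * x - ((b ^ (m - t) * p + q * (pre b a (u - t) -
      pre b s' (m - t)) + (q * b ^ (u - t) : ℕ) * n : ℤ) : ℝ) =
      (b : ℝ) ^ (m - t) * ((q : ℝ) * y - p) := by
    push_cast
    linear_combination (q : ℝ) * h3
  rw [e1, abs_mul, abs_of_pos (pow_pos hb0 _)] at h5
  have hut : ((u - t : ℕ) : ℝ) = (u : ℝ) - t := by rw [Nat.cast_sub htu]
  have hmt : ((m - t : ℕ) : ℝ) = (m : ℝ) - t := by rw [Nat.cast_sub htm]
  have hL : ((m + (v - u) : ℕ) : ℝ) = (m : ℝ) + (v - u) := by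
    rw [Nat.cast_add, Nat.cast_sub huv]
  rw [hL] at hp
  have h4 : c0 ≤ (b : ℝ) ^ (μ * (G + u - t) - v) := by
    calc c0 ≤ _ := h5
      _ ≤ ((b : ℝ) ^ (G + (u - t))) ^ (μ - 1) * ((b : ℝ) ^ ((m : ℝ) - t) *
            (b : ℝ) ^ (G - ((m : ℝ) + (v - u)))) := by
          refine mul_le_mul ?_ ?_ (by positivity) (by positivity)
          · refine Real.rpow_le_rpow (by positivity) ?_ (by linarith)
            rw [Real.rpow_add hb0, ← hut, Real.rpow_natCast]
            push_cast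
            exact mul_le_mul_of_nonneg_right hq2 (by positivity)
          · rw [← hmt, Real.rpow_natCast]
            exact mul_le_mul_of_nonneg_left hp (by positivity)
      _ = _ := by
          rw [← Real.rpow_mul hb0.le, ← Real.rpow_add hb0, ← Real.rpow_add hb0]
          congr 1
          ring
  have h5 := Real.log_le_log hc0 h4
  rw [Real.log_rpow hb0] at h5
  have h6 : (v : ℝ) ≤ μ * (G + u - t) + |Real.log c0| / Real.log 2 := by
    have h7 : (v - μ * (G + u - t)) * Real.log b ≤ |Real.log c0| := by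
      have := neg_abs_le (Real.log c0)
      nlinarith
    by_cases h8 : v - μ * (G + u - t) ≤ 0
    · have : 0 ≤ |Real.log c0| / Real.log 2 := by positivity
      linarith
    · push Not at h8
      have h9 : (v - μ * (G + u - t)) * Real.log 2 ≤ |Real.log c0| :=
        (mul_le_mul_of_nonneg_left hlb h8.le).trans h7
      rw [← le_div_iff₀ hl2] at h9
      linarith
  have h7 := err_half m
  have h8 : 0 ≤ |Real.log c0| / Real.log 2 := by positivity
  have h0 : (0 : ℝ) ≤ h := Nat.cast_nonneg h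
  obtain ⟨R, hR⟩ : ∃ R, R = |Real.log c0| / Real.log 2 := ⟨_, rfl⟩
  rw [← hR] at h6 h8 hC
  obtain ⟨e, he⟩ : ∃ e, e = err m := ⟨_, rfl⟩
  rw [← he] at hG h7 ⊢
  push_cast at hG
  have h9 : G + u - t + R ≤ (u : ℝ) + ((m : ℝ) - t) + C * e := by
    rw [hG, hC]
    nlinarith [mul_nonneg h8 (by linarith : 0 ≤ e - 1 / 2),
      mul_nonneg h0 (by linarith : 0 ≤ e - 1 / 2)]
  calc (v : ℝ) ≤ μ * (G + u - t) + R := h6
    _ ≤ μ * (G + u - t) + μ * R := by nlinarith
    _ = μ * (G + u - t + R) := by ring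
    _ ≤ _ := mul_le_mul_of_nonneg_left h9 (by linarith)

end Pool.Agent.E8helper95.ZP
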