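import Pool.Agent.E8helper95.ZP1

/-!
# Expansions cut into pieces which continue linear recurrences
-/

set_option autoImplicit false

namespace Pool.Agent.E8helper95.ZP

open Finset
open Pool.Agent.W47.JL (err)

/-- The letters `a_u, …, a_(v-2)` continue a linear recurrence of order `m`; the last `t` of the `m` seeds are the
letters `a_(u-t), …, a_(u-1)`, the other seeds are integers of absolute value at most `B`. -/
def Piece (B : ℕ) (a : ℕ → ℤ) (u v m t : ℕ) : Prop :=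
  u ≤ v ∧ t ≤ m ∧ t ≤ u ∧ ∃ (s : ℕ → ℤ) (c : ℕ → ℚ), (∀ i, |s i| ≤ (B : ℤ)) ∧
    (∀ i < t, s (m - t + i) = a (u - t + i)) ∧
    ∀ i, u + i + 1 < v → a (u + i) = s (m + i) ∧
      (s (m + i) : ℚ) = ∑ l ∈ range m, c l * (s (i + l) : ℚ)

/-- the recursion in closed form -/
lemma iterate (μ : ℝ) (hμ : 1 ≤ μ) (c : ℕ → ℕ) (d : ℕ → ℝ) (z : ℕ) (h0 : c 0 = 0)
    (h : ∀ i < z, (c (i + 1) : ℝ) ≤ μ * (c i + d i)) :
    (c z : ℝ) ≤ ∑ i ∈ range z, μ ^ (z - i) * d i := by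
  induction z with
  | zero => simp [h0]
  | succ z ih =>
    have h1 := ih fun i hi => h i (by omega)
    have h2 := h z (by omega)
    have h3 : ∑ i ∈ range (z + 1), μ ^ (z + 1 - i) * d i =
        μ * (∑ i ∈ range z, μ ^ (z - i) * d i + d z) := by
      rw [sum_range_succ, mul_add, mul_sum]
      congr 1
      · refine sum_congr rfl fun i hi => ?_
        rw [mem_range] at hi
        rw [show z + 1 - i = z - i + 1 by omega, pow_succ]
        ring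
      · rw [show z + 1 - z = 1 by omega, pow_one]
    rw [h3]
    refine h2.trans (mul_le_mul_of_nonneg_left (by linarith) (by linarith))

/-- the square root is at most a power `3/4` -/
lemma err_le (m : ℕ) (w : ℝ) (hw : (m : ℝ) ≤ w) : err m ≤ 2 * (w + 1) ^ (3 / 4 : ℝ) := by
  have e : err m = Real.sqrt (((m : ℝ) + 1) * Real.log ((m : ℝ) + 2)) := rfl
  have h0 : (0 : ℝ) ≤ m := Nat.cast_nonneg m
  have hm1 : (0 : ℝ) < (m : ℝ) + 1 := by linarith
  rw [e, Real.sqrt_eq_rpow]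
  have h1 : Real.log ((m : ℝ) + 2) ≤ 4 * ((m : ℝ) + 1) ^ (1 / 2 : ℝ) := by
    have h2 : Real.log ((m : ℝ) + 2) ≤ ((m : ℝ) + 2) ^ (1 / 2 : ℝ) / (1 / 2) :=
      Real.log_le_rpow_div (by linarith) (by norm_num)
    have h3 : ((m : ℝ) + 2) ^ (1 / 2 : ℝ) ≤ (4 * ((m : ℝ) + 1)) ^ (1 / 2 : ℝ) :=
      Real.rpow_le_rpow (by linarith) (by linarith) (by norm_num)
    rw [Real.mul_rpow (by norm_num) hm1.le] at h3
    have h4 : (4 : ℝ) ^ (1 / 2 : ℝ) = 2 := by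
      rw [← Real.sqrt_eq_rpow]
      rw [show (4 : ℝ) = 2 ^ 2 by norm_num, Real.sqrt_sq (by norm_num)]
    rw [h4] at h3
    linarith
  have h2 : ((m : ℝ) + 1) * Real.log ((m : ℝ) + 2) ≤ 4 * ((m : ℝ) + 1) ^ (3 / 2 : ℝ) := by
    calc _ ≤ ((m : ℝ) + 1) * (4 * ((m : ℝ) + 1) ^ (1 / 2 : ℝ)) :=
          mul_le_mul_of_nonneg_left h1 hm1.le
      _ = 4 * (((m : ℝ) + 1) ^ (1 : ℝ) * ((m : ℝ) + 1) ^ (1 / 2 : ℝ)) := by
          rw [Real.rpow_one]; ring
      _ = _ := by rw [← Real.rpow_add hm1]; norm_num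
  calc (((m : ℝ) + 1) * Real.log ((m : ℝ) + 2)) ^ (1 / 2 : ℝ)
      ≤ (4 * ((m : ℝ) + 1) ^ (3 / 2 : ℝ)) ^ (1 / 2 : ℝ) :=
        Real.rpow_le_rpow (mul_nonneg hm1.le (Real.log_nonneg (by linarith))) h2 (by norm_num)
    _ = 2 * ((m : ℝ) + 1) ^ (3 / 4 : ℝ) := by
        rw [Real.mul_rpow (by norm_num) (Real.rpow_nonneg hm1.le _), ← Real.rpow_mul hm1.le]
        have h4 : (4 : ℝ) ^ (1 / 2 : ℝ) = 2 := by
          rw [← Real.sqrt_eq_rpow]
          rw [show (4 : ℝ) = 2 ^ 2 by norm_num, Real.sqrt_sq (by norm_num)]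
        rw [h4]
        norm_num
    _ ≤ _ := by
        refine mul_le_mul_of_nonneg_left ?_ (by norm_num)
        exact Real.rpow_le_rpow hm1.le (by linarith) (by norm_num)

/-- the recursion with the square root -/
lemma iterate2 (μ C : ℝ) (hμ : 1 < μ) (hC : 0 < C) : ∃ K : ℝ, 0 < K ∧
    ∀ (c m t : ℕ → ℕ) (z : ℕ), c 0 = 0 → (∀ i < z, t i ≤ m i ∧ t i ≤ c i) →
      (∀ i < z, (c (i + 1) : ℝ) ≤ μ * ((c i : ℝ) + ((m i : ℝ) - t i) + C * err (m i))) →
      (c z : ℝ) ≤ K * (μ ^ z + ∑ i ∈ range z, μ ^ (z - i) * ((m i : ℝ) - t i)) := by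
  -- `μ (K T - E T^(3/4) + 2 C (K T + 1)^(3/4)) ≤ K μ T - E (μ T)^(3/4)` for `T ≥ 1`
  obtain ⟨ρ, hρ⟩ : ∃ ρ : ℝ, ρ = μ ^ (3 / 4 : ℝ) := ⟨_, rfl⟩
  have hρμ : ρ < μ := by
    rw [hρ]
    calc μ ^ (3 / 4 : ℝ) < μ ^ (1 : ℝ) := Real.rpow_lt_rpow_of_exponent_lt hμ (by norm_num)
      _ = μ := Real.rpow_one μ
  have hρ0 : 0 < ρ := by rw [hρ]; positivity
  obtain ⟨D, hD⟩ : ∃ D : ℝ, D = 4 * C * μ / (μ - ρ) := ⟨_, rfl⟩
  have hμρ : 0 < μ - ρ := by linarith
  have hD0 : 0 < D := by rw [hD]; positivity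
  obtain ⟨K, hK⟩ : ∃ K : ℝ, K = (D + 2) ^ (4 : ℕ) := ⟨_, rfl⟩
  have hK1 : 1 ≤ K := by
    rw [hK]
    exact one_le_pow₀ (by linarith)
  have hK0 : 0 < K := by linarith
  obtain ⟨E, hE⟩ : ∃ E : ℝ, E = D * (D + 2) ^ (3 : ℕ) := ⟨_, rfl⟩
  have hE0 : 0 < E := by rw [hE]; positivity
  have hEK : E + 1 ≤ K := by
    rw [hE, hK]
    have h1 : 1 ≤ (D + 2) ^ (3 : ℕ) := one_le_pow₀ (by linarith)
    calc D * (D + 2) ^ 3 + 1 ≤ D * (D + 2) ^ 3 + 2 * (D + 2) ^ 3 := by linarith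
      _ = (D + 2) ^ 4 := by ring
  have hK34 : K ^ (3 / 4 : ℝ) = (D + 2) ^ (3 : ℕ) := by
    rw [hK, ← Real.rpow_natCast, ← Real.rpow_mul (by linarith), ← Real.rpow_natCast]
    norm_num
  refine ⟨K, hK0, ?_⟩
  intro c m t z h0 hmt hc
  obtain ⟨S, hS⟩ : ∃ S : ℕ → ℝ, S = fun z => μ ^ z + ∑ i ∈ range z, μ ^ (z - i) * ((m i : ℝ) - t i) :=
    ⟨_, rfl⟩
  have hS0 : S 0 = 1 := by rw [hS]; simp
  have hSs : ∀ i, S (i + 1) = μ * (S i + ((m i : ℝ) - t i)) := by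
    intro i
    rw [hS]
    simp only
    rw [sum_range_succ, show i + 1 - i = 1 by omega, pow_one, mul_add, mul_add, mul_sum, pow_succ]
    have h3 : ∑ j ∈ range i, μ ^ (i + 1 - j) * ((m j : ℝ) - t j) =
        ∑ j ∈ range i, μ * (μ ^ (i - j) * ((m j : ℝ) - t j)) := by
      refine sum_congr rfl fun j hj => ?_
      rw [mem_range] at hj
      rw [show i + 1 - j = i - j + 1 by omega, pow_succ]
      ring
    rw [h3]
    ring
  have key : ∀ i ≤ z, 1 ≤ S i ∧ (c i : ℝ) ≤ K * S i - E * (S i) ^ (3 / 4 : ℝ) := by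
    intro i
    induction i with
    | zero =>
      intro _
      rw [hS0, h0]
      simp only [Nat.cast_zero, Real.one_rpow, mul_one]
      exact ⟨le_rfl, by linarith⟩
    | succ i ih =>
      intro hi
      obtain ⟨h1, h2⟩ := ih (by omega)
      obtain ⟨h3, h4⟩ := hmt i (by omega)
      obtain ⟨d, hd⟩ : ∃ d : ℕ, d = m i - t i := ⟨_, rfl⟩
      have hdR : (d : ℝ) = (m i : ℝ) - t i := by rw [hd, Nat.cast_sub h3]
      have hd0 : (0 : ℝ) ≤ d := Nat.cast_nonneg d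
      obtain ⟨T, hT⟩ : ∃ T : ℝ, T = S i + d := ⟨_, rfl⟩
      have hT1 : 1 ≤ T := by linarith
      have hST : S (i + 1) = μ * T := by rw [hSs, hT, hdR]
      refine ⟨by rw [hST]; nlinarith, ?_⟩
      -- w
      have hsub : T ^ (3 / 4 : ℝ) ≤ (S i) ^ (3 / 4 : ℝ) + (d : ℝ) := by
        have h5 : T ^ (3 / 4 : ℝ) ≤ (S i) ^ (3 / 4 : ℝ) + (d : ℝ) ^ (3 / 4 : ℝ) := by
          rw [hT]
          exact Real.rpow_add_le_add_rpow (by linarith) hd0 (by norm_num) (by norm_num)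
        have h6 : (d : ℝ) ^ (3 / 4 : ℝ) ≤ d := by
          rcases Nat.eq_zero_or_pos d with hd' | hd'
          · rw [hd']
            norm_num
          · have h7 : (1 : ℝ) ≤ d := by exact_mod_cast hd'
            calc (d : ℝ) ^ (3 / 4 : ℝ) ≤ (d : ℝ) ^ (1 : ℝ) :=
                  Real.rpow_le_rpow_of_exponent_le h7 (by norm_num)
              _ = d := Real.rpow_one _
        linarith
      have hw : (c i : ℝ) + d ≤ K * T - E * T ^ (3 / 4 : ℝ) := by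
        have h5 := mul_le_mul_of_nonneg_left hsub hE0.le
        have h6 : E * (d : ℝ) ≤ (K - 1) * d := mul_le_mul_of_nonneg_right (by linarith) hd0
        rw [hT] at h5 ⊢
        nlinarith
      have hw2 : (m i : ℝ) ≤ (c i : ℝ) + d := by
        have h5 : (t i : ℝ) ≤ c i := by exact_mod_cast h4
        linarith
      have hT34 : 0 ≤ T ^ (3 / 4 : ℝ) := Real.rpow_nonneg (by linarith) _
      have herr := err_le (m i) ((c i : ℝ) + d) hw2
      have h5 : ((c i : ℝ) + d + 1) ^ (3 / 4 : ℝ) ≤ 2 * ((D + 2) ^ 3 * T ^ (3 / 4 : ℝ)) := by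
        have h6 : (c i : ℝ) + d + 1 ≤ 2 * (K * T) := by
          have h7 : 0 ≤ E * T ^ (3 / 4 : ℝ) := by positivity
          nlinarith
        have h8 : (0 : ℝ) ≤ (c i : ℝ) + d + 1 := by
          have : (0 : ℝ) ≤ c i := Nat.cast_nonneg _
          linarith
        calc ((c i : ℝ) + d + 1) ^ (3 / 4 : ℝ) ≤ (2 * (K * T)) ^ (3 / 4 : ℝ) :=
              Real.rpow_le_rpow h8 h6 (by norm_num)
          _ = 2 ^ (3 / 4 : ℝ) * (K ^ (3 / 4 : ℝ) * T ^ (3 / 4 : ℝ)) := by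
              rw [Real.mul_rpow (by norm_num) (by positivity),
                Real.mul_rpow hK0.le (by linarith)]
          _ ≤ 2 * ((D + 2) ^ 3 * T ^ (3 / 4 : ℝ)) := by
              rw [hK34]
              refine mul_le_mul_of_nonneg_right ?_ (by positivity)
              calc (2 : ℝ) ^ (3 / 4 : ℝ) ≤ 2 ^ (1 : ℝ) :=
                    Real.rpow_le_rpow_of_exponent_le (by norm_num) (by norm_num)
                _ = 2 := Real.rpow_one _
      have h6 := hc i (by omega)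
      rw [← hdR] at h6
      have hrp : (μ * T) ^ (3 / 4 : ℝ) = ρ * T ^ (3 / 4 : ℝ) := by
        rw [Real.mul_rpow (by linarith) (by linarith), hρ]
      rw [hST, hrp]
      have hED : E * (μ - ρ) = 4 * C * μ * (D + 2) ^ 3 := by
        rw [hE]
        have : D * (μ - ρ) = 4 * C * μ := by
          rw [hD]
          field_simp
        calc D * (D + 2) ^ 3 * (μ - ρ) = D * (μ - ρ) * (D + 2) ^ 3 := by ring
          _ = _ := by rw [this]
      have h7 : err (m i) ≤ 4 * ((D + 2) ^ 3 * T ^ (3 / 4 : ℝ)) := by linarith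
      have h8 : C * err (m i) ≤ C * (4 * ((D + 2) ^ 3 * T ^ (3 / 4 : ℝ))) :=
        mul_le_mul_of_nonneg_left h7 hC.le
      calc (c (i + 1) : ℝ) ≤ μ * ((c i : ℝ) + d + C * err (m i)) := h6
        _ ≤ μ * (K * T - E * T ^ (3 / 4 : ℝ) + C * (4 * ((D + 2) ^ 3 * T ^ (3 / 4 : ℝ)))) :=
            mul_le_mul_of_nonneg_left (by linarith) (by linarith)
        _ = K * (μ * T) - (E * μ - 4 * C * μ * (D + 2) ^ 3) * T ^ (3 / 4 : ℝ) := by ring
        _ = K * (μ * T) - E * (ρ * T ^ (3 / 4 : ℝ)) := by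
            rw [← hED]
            ring
  obtain ⟨h1, h2⟩ := key z le_rfl
  have h3 : 0 ≤ E * (S z) ^ (3 / 4 : ℝ) := mul_nonneg hE0.le (Real.rpow_nonneg (by linarith) _)
  have h4 : S z = μ ^ z + ∑ i ∈ range z, μ ^ (z - i) * ((m i : ℝ) - t i) := by rw [hS]
  rw [← h4]
  linarith

/-- **Expansions cut into pieces.** -/
theorem main (x μ c0 : ℝ) (hμ : 1 < μ) (hc0 : 0 < c0)
    (hM : ∀ q : ℕ, 1 ≤ q → ∀ p : ℤ, c0 ≤ (q : ℝ) ^ (μ - 1) * |(q : ℝ) * x - p|) (h : ℕ) :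
    ∃ C : ℝ, 0 < C ∧ ∀ b : ℕ, 2 ≤ b → ∀ a : ℕ → ℤ, (∀ i, |a i| ≤ ((b ^ h : ℕ) : ℤ)) →
      (∃ n : ℤ, HasSum (fun i : ℕ => (a i : ℝ) / (b : ℝ) ^ (i + 1)) (x - n)) →
      ∀ (z : ℕ) (c m t : ℕ → ℕ), c 0 = 0 →
        (∀ i < z, Piece (b ^ h) a (c i) (c (i + 1)) (m i) (t i)) →
        (c z : ℝ) ≤ ∑ i ∈ range z, μ ^ (z - i) * ((m i : ℝ) - t i + C * err (m i)) ∧
        (c z : ℝ) ≤ C * (μ ^ z + ∑ i ∈ range z, μ ^ (z - i) * ((m i : ℝ) - t i)) := by
  obtain ⟨C1, hC1, hp⟩ := piece x μ c0 hμ.le hc0 hM h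
  obtain ⟨K, hK, hit⟩ := iterate2 μ (C1 + 2) hμ (by linarith)
  refine ⟨max (C1 + 2) K, lt_max_of_lt_right hK, ?_⟩
  intro b hb a ha hsum z c m t h0 hpc
  have hstep : ∀ i < z, (c (i + 1) : ℝ) ≤ μ * ((c i : ℝ) + ((m i : ℝ) - t i) +
      (C1 + 2) * err (m i)) := by
    intro i hi
    obtain ⟨huv, htm, htu, s, co, hs, hseed, hlet⟩ := hpc i hi
    have herr := err_half (m i)
    have htmR : (t i : ℝ) ≤ m i := by exact_mod_cast htm
    rcases Nat.eq_or_lt_of_le huv with heq | hlt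
    · rw [← heq]
      have h1 : (0 : ℝ) ≤ c i := Nat.cast_nonneg _
      have h2 : 0 ≤ (C1 + 2) * err (m i) := by positivity
      nlinarith
    · have h1 := hp b hb a ha hsum (c i) (c (i + 1) - 1) (m i) (t i) s co htm htu (by omega) hs hseed
        (fun j hj => (hlet j (by omega)).1.symm) (fun j hj => (hlet j (by omega)).2)
      have h2 : ((c (i + 1) - 1 : ℕ) : ℝ) = (c (i + 1) : ℝ) - 1 := by
        rw [Nat.cast_sub (by omega)]
        norm_num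
      rw [h2] at h1
      have h3 : 1 ≤ μ * (2 * err (m i)) := by nlinarith
      nlinarith
  constructor
  · have h1 := iterate μ hμ.le c (fun i => ((m i : ℝ) - t i) + (C1 + 2) * err (m i)) z h0
      (fun i hi => by
        have h2 := hstep i hi
        linarith)
    refine h1.trans (sum_le_sum fun i _ => ?_)
    refine mul_le_mul_of_nonneg_left ?_ (by positivity)
    have h3 := mul_le_mul_of_nonneg_right (le_max_left (C1 + 2) K)
      ((by norm_num : (0 : ℝ) ≤ 1 / 2).trans (err_half (m i)))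
    linarith
  · have h1 := hit c m t z h0 (fun i hi => ⟨(hpc i hi).2.1, (hpc i hi).2.2.1⟩) hstep
    refine h1.trans (mul_le_mul_of_nonneg_right (le_max_right _ _) ?_)
    refine add_nonneg (by positivity) (sum_nonneg fun i hi => ?_)
    rw [mem_range] at hi
    have h2 : (t i : ℝ) ≤ m i := by exact_mod_cast (hpc i hi).2.1
    exact mul_nonneg (by positivity) (by linarith)

end Pool.Agent.E8helper95.ZP
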